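import Mathlib

/-!
# Lemma P (paths of hyperplanes), K_PATH_helper34 section 1

`W = ℝ^d`.  At finitely many times `τ ∈ T ⊆ [-1,1]` a covector `G τ` (no bound) is given, and there
are finitely many elements `X = (y, om, nu, be)` with `|om| ≤ 1` and
`|G τ · (y + τ om) + nu + τ be| ≤ ε` for all `τ ∈ T`.

If at each time the `y + τ om` generate `W` with bounded coefficients (`K1`), and the `(y, om)`
generate `W × W` modulo a subspace of dimension `≤ D` with bounded coefficients (`K2`), then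
`τ ↦ [G τ]` is a path of degree `≤ D`: there are polynomials `q, p_l` of degree `≤ D` with
`|q(τ) G τ l - p_l(τ)| ≤ C ε` for all `τ ∈ T`, and `q(τ*) = ∏ (τ* - τ_i)` (`≤ D+2` nodes).
-/

namespace Pool.H72.PATH

open Polynomial Finset Module

/-- MAXIMAL VOLUME: every finite family of vectors in a space of dimension `N` contains `n ≤ N`
members which generate all the others with coefficients in `[-1,1]`. -/
theorem maxvol {V : Type*} [AddCommGroup V] [Module ℝ V] [FiniteDimensional ℝ V]
    {ι : Type*} [Finite ι] (r : ι → V) :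
    ∃ (n : ℕ) (f : Fin n → ι), n ≤ finrank ℝ V ∧
      ∀ i, ∃ c : Fin n → ℝ, (∀ k, |c k| ≤ 1) ∧ r i = ∑ k, c k • r (f k) := by
  classical
  set S : Submodule ℝ V := Submodule.span ℝ (Set.range r) with hS
  have hmem : ∀ i, r i ∈ S := fun i => Submodule.subset_span ⟨i, rfl⟩
  set r' : ι → S := fun i => ⟨r i, hmem i⟩ with hr'
  have hspan : Submodule.span ℝ (Set.range r') = ⊤ := by
    apply Submodule.map_injective_of_injective S.injective_subtype
    rw [Submodule.map_span, Submodule.map_top, Submodule.range_subtype]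
    have h0 : (S.subtype '' Set.range r') = Set.range r := by
      ext v
      constructor
      · rintro ⟨_, ⟨i, rfl⟩, rfl⟩
        exact ⟨i, rfl⟩
      · rintro ⟨i, rfl⟩
        exact ⟨r' i, ⟨i, rfl⟩, rfl⟩
    rw [h0]
  set n := finrank ℝ S with hn
  let b0 : Basis (Fin n) ℝ S := finBasis ℝ S
  have hne : Nonempty (Fin n → ι) ∧ ∃ g : Fin n → ι, b0.det (r' ∘ g) ≠ 0 := by
    obtain ⟨κ, a, -, hsp, hli⟩ := exists_linearIndependent' ℝ r'
    have hsp' : ⊤ ≤ Submodule.span ℝ (Set.range (r' ∘ a)) := by rw [hsp, hspan]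
    let b1 : Basis κ ℝ S := Basis.mk hli hsp'
    let e : Fin n ≃ κ := b0.indexEquiv b1
    refine ⟨⟨a ∘ e⟩, a ∘ e, ?_⟩
    have h1 : (r' ∘ (a ∘ e)) = ⇑(b1.reindex e.symm) := by
      funext k
      simp [b1]
    rw [h1]
    exact (b0.isUnit_det _).ne_zero
  obtain ⟨hne1, g, hg⟩ := hne
  obtain ⟨f, hf⟩ := Finite.exists_max (fun f : Fin n → ι => |b0.det (r' ∘ f)|)
  have hf0 : b0.det (r' ∘ f) ≠ 0 := by
    have := hf g
    have h2 : 0 < |b0.det (r' ∘ g)| := abs_pos.mpr hg
    exact abs_pos.mp (lt_of_lt_of_le h2 this)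
  have hu : IsUnit (b0.det (r' ∘ f)) := hf0.isUnit
  obtain ⟨hli, hsp⟩ := (Basis.is_basis_iff_det b0).mpr hu
  let b : Basis (Fin n) ℝ S := Basis.mk hli hsp.ge
  refine ⟨n, f, Submodule.finrank_le S, fun i => ⟨fun k => b.repr (r' i) k, fun k => ?_, ?_⟩⟩
  · have h1 := Basis.det_smul_mk_coord_eq_det_update b0 hli hsp.ge k
    have h2 := congrArg (fun φ => φ (r' i)) h1
    simp only [LinearMap.smul_apply, smul_eq_mul] at h2
    have h3 : b0.det.toMultilinearMap.toLinearMap (r' ∘ f) k (r' i)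
        = b0.det (r' ∘ (Function.update f k i)) := by
      have : Function.update (r' ∘ f) k (r' i) = r' ∘ (Function.update f k i) := by
        funext j
        by_cases hj : j = k
        · subst hj; simp
        · simp [hj]
      simp only [MultilinearMap.toLinearMap_apply, this]
      rfl
    rw [h3] at h2
    have h4 : |b0.det (r' ∘ f)| * |b.repr (r' i) k| ≤ |b0.det (r' ∘ f)| * 1 := by
      rw [← abs_mul, mul_one]
      have : b.repr (r' i) k = (Basis.mk hli hsp.ge).coord k (r' i) := rfl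
      rw [this, h2]
      exact hf _
    exact le_of_mul_le_mul_left h4 (abs_pos.mpr hf0)
  · have h1 := b.sum_repr (r' i)
    have h2 := congrArg (fun s : S => (s : V)) h1
    simp only [Submodule.coe_sum, Submodule.coe_smul] at h2
    rw [show r i = ((r' i : S) : V) from rfl, ← h2]
    refine Finset.sum_congr rfl fun k _ => ?_
    simp [b, Basis.mk_apply, hr']


/-- `g_τ[X] = G · (y + τ om) + nu + τ be`. -/
def fr {d : ℕ} (G : Fin d → ℝ) (τ : ℝ) (y om : Fin d → ℝ) (nu be : ℝ) : ℝ :=
  (∑ i, G i * (y i + τ * om i)) + nu + τ * be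

/-- The linear form `(y, om) ↦ G · (y + τ om)` on `W × W`. -/
noncomputable def Phi {d : ℕ} (G : Fin d → ℝ) (τ : ℝ) :
    ((Fin d → ℝ) × (Fin d → ℝ)) →ₗ[ℝ] ℝ where
  toFun v := ∑ i, G i * (v.1 i + τ * v.2 i)
  map_add' u v := by
    rw [← Finset.sum_add_distrib]
    refine Finset.sum_congr rfl fun i _ => ?_
    simp only [Prod.fst_add, Prod.snd_add, Pi.add_apply]
    ring
  map_smul' c v := by
    simp only [Prod.smul_fst, Prod.smul_snd, Pi.smul_apply, smul_eq_mul, RingHom.id_apply]
    rw [Finset.mul_sum]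
    refine Finset.sum_congr rfl fun i _ => ?_
    ring

theorem Phi_apply {d : ℕ} (G : Fin d → ℝ) (τ : ℝ) (v : (Fin d → ℝ) × (Fin d → ℝ)) :
    Phi G τ v = ∑ i, G i * (v.1 i + τ * v.2 i) := rfl

theorem Phi_fst {d : ℕ} (G : Fin d → ℝ) (τ : ℝ) (l : Fin d) :
    Phi G τ (Pi.single l 1, 0) = G l := by
  classical
  rw [Phi_apply]
  simp [Pi.single_apply]

theorem Phi_snd {d : ℕ} (G : Fin d → ℝ) (τ : ℝ) (l : Fin d) :
    Phi G τ (0, Pi.single l 1) = τ * G l := by
  classical
  rw [Phi_apply]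
  simp [Pi.single_apply, mul_comm]

/-- STEP (i)+(ii): nodes and the affine relations. -/
theorem nodes {d D : ℕ} {κ : Type*} [Fintype κ] (T : Finset ℝ) (G : ℝ → Fin d → ℝ)
    (y om : κ → Fin d → ℝ) (nu be : κ → ℝ) (ε K2 : ℝ) (hε0 : 0 ≤ ε)
    (hM : ∀ τ ∈ T, ∀ x, |fr (G τ) τ (y x) (om x) (nu x) (be x)| ≤ ε)
    (U : Submodule ℝ ((Fin d → ℝ) × (Fin d → ℝ))) (hU : finrank ℝ U ≤ D)
    (hA2 : ∀ l : Fin d,
      (∃ c : κ → ℝ, ∑ x, |c x| ≤ K2 ∧ ((Pi.single l 1, 0) : (Fin d → ℝ) × (Fin d → ℝ))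
          - ∑ x, c x • (y x, om x) ∈ U) ∧
      (∃ c : κ → ℝ, ∑ x, |c x| ≤ K2 ∧ ((0, Pi.single l 1) : (Fin d → ℝ) × (Fin d → ℝ))
          - ∑ x, c x • (y x, om x) ∈ U)) :
    ∃ (n : ℕ) (t : Fin n → ℝ), n ≤ D + 2 ∧ (∀ k, t k ∈ T) ∧ ∀ τ ∈ T, ∃ c : Fin n → ℝ,
      (∀ k, |c k| ≤ 1) ∧ ∑ k, c k = 1 ∧ ∑ k, c k * t k = τ ∧
      (∀ l, |G τ l - ∑ k, c k * G (t k) l| ≤ K2 * ((n + 1) * ε)) ∧
      (∀ l, |τ * G τ l - ∑ k, c k * (t k * G (t k) l)| ≤ K2 * ((n + 1) * ε)) := by
  classical
  -- the vectors r_τ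
  let r : T → (Module.Dual ℝ U × ℝ × ℝ) := fun τ => ((Phi (G τ) τ).comp U.subtype, 1, (τ : ℝ))
  obtain ⟨n, f, hn, hf⟩ := maxvol r
  have hdim : finrank ℝ (Module.Dual ℝ U × ℝ × ℝ) ≤ D + 2 := by
    rw [finrank_prod, finrank_prod, Subspace.dual_finrank_eq, finrank_self]
    omega
  refine ⟨n, fun k => (f k : ℝ), hn.trans hdim, fun k => (f k).2, fun τ hτ => ?_⟩
  obtain ⟨c, hc, hr⟩ := hf ⟨τ, hτ⟩
  have hr1 : (Phi (G τ) τ).comp U.subtype
      = ∑ k, c k • (Phi (G (f k)) (f k)).comp U.subtype := by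
    have := congrArg Prod.fst hr
    simpa [r, Prod.fst_sum] using this
  have hr2 : (1 : ℝ) = ∑ k, c k := by
    have := congrArg (fun v => v.2.1) hr
    simpa [r, Prod.snd_sum, Prod.fst_sum] using this
  have hr3 : τ = ∑ k, c k * (f k : ℝ) := by
    have := congrArg (fun v => v.2.2) hr
    simpa [r, Prod.snd_sum, Prod.fst_sum] using this
  -- on elements of M
  have hx : ∀ x, |Phi (G τ) τ (y x, om x) - ∑ k, c k * Phi (G (f k)) (f k) (y x, om x)|
      ≤ (n + 1) * ε := by
    intro x
    have e1 : Phi (G τ) τ (y x, om x) - ∑ k, c k * Phi (G (f k)) (f k) (y x, om x)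
        = fr (G τ) τ (y x) (om x) (nu x) (be x)
          - ∑ k, c k * fr (G (f k)) (f k) (y x) (om x) (nu x) (be x) := by
      have e2 : ∀ (H : Fin d → ℝ) (s : ℝ), fr H s (y x) (om x) (nu x) (be x)
          = Phi H s (y x, om x) + nu x + s * be x := fun H s => rfl
      simp only [e2, mul_add, Finset.sum_add_distrib]
      have e3 : ∑ k, c k * nu x = nu x := by rw [← Finset.sum_mul, ← hr2, one_mul]
      have e4 : ∑ k, c k * ((f k : ℝ) * be x) = τ * be x := by
        rw [hr3, Finset.sum_mul]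
        exact Finset.sum_congr rfl fun k _ => by ring
      rw [e3, e4]
      ring
    rw [e1]
    have h1 := hM τ hτ x
    have h2 : |∑ k, c k * fr (G (f k)) (f k) (y x) (om x) (nu x) (be x)| ≤ n * ε := by
      calc |∑ k, c k * fr (G (f k)) (f k) (y x) (om x) (nu x) (be x)|
          ≤ ∑ k, |c k * fr (G (f k)) (f k) (y x) (om x) (nu x) (be x)| :=
            Finset.abs_sum_le_sum_abs _ _
        _ ≤ ∑ _k : Fin n, ε := by
            refine Finset.sum_le_sum fun k _ => ?_
            rw [abs_mul]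
            have := hM (f k) (f k).2 x
            calc |c k| * |fr (G (f k)) (f k) (y x) (om x) (nu x) (be x)|
                ≤ 1 * |fr (G (f k)) (f k) (y x) (om x) (nu x) (be x)| :=
                  mul_le_mul_of_nonneg_right (hc k) (abs_nonneg _)
              _ ≤ ε := by rw [one_mul]; exact this
        _ = n * ε := by simp
    calc |fr (G τ) τ (y x) (om x) (nu x) (be x)
          - ∑ k, c k * fr (G (f k)) (f k) (y x) (om x) (nu x) (be x)|
        ≤ |fr (G τ) τ (y x) (om x) (nu x) (be x)|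
          + |∑ k, c k * fr (G (f k)) (f k) (y x) (om x) (nu x) (be x)| := abs_sub _ _
      _ ≤ ε + n * ε := add_le_add h1 h2
      _ = (n + 1) * ε := by ring
  -- general vectors
  have hE : ∀ e : (Fin d → ℝ) × (Fin d → ℝ),
      (∃ a : κ → ℝ, ∑ x, |a x| ≤ K2 ∧ e - ∑ x, a x • (y x, om x) ∈ U) →
      |Phi (G τ) τ e - ∑ k, c k * Phi (G (f k)) (f k) e| ≤ K2 * ((n + 1) * ε) := by
    rintro e ⟨a, ha, hmem⟩
    set u : U := ⟨e - ∑ x, a x • (y x, om x), hmem⟩ with hu
    have hu1 : Phi (G τ) τ (u : (Fin d → ℝ) × (Fin d → ℝ))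
        = ∑ k, c k * Phi (G (f k)) (f k) (u : (Fin d → ℝ) × (Fin d → ℝ)) := by
      have := congrArg (fun φ => φ u) hr1
      simpa using this
    have he : e = (u : (Fin d → ℝ) × (Fin d → ℝ)) + ∑ x, a x • (y x, om x) := by
      rw [hu]; simp
    have hlin : ∀ (H : Fin d → ℝ) (s : ℝ), Phi H s e
        = Phi H s (u : (Fin d → ℝ) × (Fin d → ℝ)) + ∑ x, a x * Phi H s (y x, om x) := by
      intro H s
      conv_lhs => rw [he]
      rw [map_add, map_sum]
      simp only [map_smul, smul_eq_mul]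
    have e1 : Phi (G τ) τ e - ∑ k, c k * Phi (G (f k)) (f k) e
        = ∑ x, a x * (Phi (G τ) τ (y x, om x)
            - ∑ k, c k * Phi (G (f k)) (f k) (y x, om x)) := by
      simp only [hlin, mul_add, Finset.sum_add_distrib, hu1, mul_sub, Finset.sum_sub_distrib,
        Finset.mul_sum]
      rw [Finset.sum_comm (s := (Finset.univ : Finset κ))]
      have : ∑ k, ∑ x, a x * (c k * Phi (G (f k)) (f k) (y x, om x))
          = ∑ k, ∑ x, c k * (a x * Phi (G (f k)) (f k) (y x, om x)) := by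
        refine Finset.sum_congr rfl fun k _ => Finset.sum_congr rfl fun x _ => ?_
        ring
      rw [this]
      ring
    rw [e1]
    have hε : 0 ≤ (n + 1) * ε := by positivity
    calc |∑ x, a x * (Phi (G τ) τ (y x, om x)
            - ∑ k, c k * Phi (G (f k)) (f k) (y x, om x))|
        ≤ ∑ x, |a x * (Phi (G τ) τ (y x, om x)
            - ∑ k, c k * Phi (G (f k)) (f k) (y x, om x))| := Finset.abs_sum_le_sum_abs _ _
      _ ≤ ∑ x, |a x| * ((n + 1) * ε) := by
          refine Finset.sum_le_sum fun x _ => ?_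
          rw [abs_mul]
          exact mul_le_mul_of_nonneg_left (hx x) (abs_nonneg _)
      _ = (∑ x, |a x|) * ((n + 1) * ε) := by rw [Finset.sum_mul]
      _ ≤ K2 * ((n + 1) * ε) := mul_le_mul_of_nonneg_right ha hε
  refine ⟨c, hc, hr2.symm, hr3.symm, fun l => ?_, fun l => ?_⟩
  · have := hE _ (hA2 l).1
    simpa only [Phi_fst] using this
  · have := hE _ (hA2 l).2
    simpa only [Phi_snd] using this


/-- The polynomial `∏_{j ≠ k} (X - t j) - X^(n-1)`. -/
noncomputable def B {n : ℕ} (t : Fin n → ℝ) (k : Fin n) : ℝ[X] :=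
  (∏ j ∈ Finset.univ.erase k, (X - C (t j))) - X ^ (n - 1)

theorem natDegree_B {n D : ℕ} (t : Fin n → ℝ) (k : Fin n) (hn : n ≤ D + 2) :
    (B t k).natDegree ≤ D := by
  classical
  have hm : (∏ j ∈ Finset.univ.erase k, (X - C (t j))).Monic :=
    monic_prod_of_monic _ _ fun j _ => monic_X_sub_C _
  have hd : (∏ j ∈ Finset.univ.erase k, (X - C (t j))).degree = ((n - 1 : ℕ) : WithBot ℕ) := by
    rw [degree_prod]
    simp only [degree_X_sub_C]
    rw [Finset.sum_const, Finset.card_erase_of_mem (Finset.mem_univ k), Finset.card_univ,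
      Fintype.card_fin]
    simp
  have h1 : (B t k).degree < ((n - 1 : ℕ) : WithBot ℕ) := by
    rw [← hd]
    refine degree_sub_lt_left ?_ hm.ne_zero ?_
    · rw [hd, degree_X_pow]
    · rw [hm.leadingCoeff, (monic_X_pow _).leadingCoeff]
  by_cases h0 : B t k = 0
  · rw [h0]; simp
  · have := (natDegree_lt_iff_degree_lt h0).mpr h1
    omega

theorem eval_B {n : ℕ} (t : Fin n → ℝ) (k : Fin n) (s : ℝ) :
    (B t k).eval s = (∏ j ∈ Finset.univ.erase k, (s - t j)) - s ^ (n - 1) := by
  simp [B, eval_prod]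

theorem natDegree_sum_C_mul {n D : ℕ} (t : Fin n → ℝ) (a : Fin n → ℝ) (hn : n ≤ D + 2) :
    (∑ k, C (a k) * B t k).natDegree ≤ D :=
  natDegree_sum_le_of_forall_le _ _ fun k _ =>
    (natDegree_C_mul_le _ _).trans (natDegree_B t k hn)

theorem abs_prod_erase_le {n : ℕ} (t : Fin n → ℝ) (k : Fin n) (s : ℝ) (hs : |s| ≤ 1)
    (ht : ∀ j, |t j| ≤ 1) : |∏ j ∈ Finset.univ.erase k, (s - t j)| ≤ 2 ^ (n - 1) := by
  classical
  rw [Finset.abs_prod]
  calc ∏ j ∈ Finset.univ.erase k, |s - t j| ≤ ∏ _j ∈ Finset.univ.erase k, (2 : ℝ) := by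
        refine Finset.prod_le_prod (fun j _ => abs_nonneg _) fun j _ => ?_
        calc |s - t j| ≤ |s| + |t j| := abs_sub _ _
          _ ≤ 2 := by linarith [ht j]
    _ = 2 ^ (n - 1) := by
        rw [Finset.prod_const, Finset.card_erase_of_mem (Finset.mem_univ k), Finset.card_univ,
          Fintype.card_fin]

/-- **LEMMA P.** -/
theorem path {d D : ℕ} {κ : Type*} [Fintype κ] (T : Finset ℝ) (hT : ∀ τ ∈ T, |τ| ≤ 1)
    (G : ℝ → Fin d → ℝ)
    (y om : κ → Fin d → ℝ) (nu be : κ → ℝ) (ε K1 K2 : ℝ) (hε0 : 0 ≤ ε) (hK1 : 0 ≤ K1)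
    (hK2 : 0 ≤ K2) (hom : ∀ x i, |om x i| ≤ 1)
    (hM : ∀ τ ∈ T, ∀ x, |fr (G τ) τ (y x) (om x) (nu x) (be x)| ≤ ε)
    (hA1 : ∀ τ ∈ T, ∀ l : Fin d, ∃ c : κ → ℝ, ∑ x, |c x| ≤ K1 ∧
      ∀ i, ∑ x, c x * (y x i + τ * om x i) = if i = l then 1 else 0)
    (U : Submodule ℝ ((Fin d → ℝ) × (Fin d → ℝ))) (hU : finrank ℝ U ≤ D)
    (hA2 : ∀ l : Fin d,
      (∃ c : κ → ℝ, ∑ x, |c x| ≤ K2 ∧ ((Pi.single l 1, 0) : (Fin d → ℝ) × (Fin d → ℝ))
          - ∑ x, c x • (y x, om x) ∈ U) ∧
      (∃ c : κ → ℝ, ∑ x, |c x| ≤ K2 ∧ ((0, Pi.single l 1) : (Fin d → ℝ) × (Fin d → ℝ))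
          - ∑ x, c x • (y x, om x) ∈ U)) :
    ∃ (n : ℕ) (t : Fin n → ℝ), n ≤ D + 2 ∧ (∀ k, t k ∈ T) ∧ ∀ s ∈ T,
      ∃ (q : ℝ[X]) (p : Fin d → ℝ[X]), q.natDegree ≤ D ∧ (∀ l, (p l).natDegree ≤ D) ∧
        q.eval s = ∏ k, (s - t k) ∧
        (∀ τ : ℝ, |τ| ≤ 1 → |q.eval τ| ≤ (D + 2) * 2 ^ (D + 3)) ∧
        ∀ τ ∈ T, ∀ l, |q.eval τ * G τ l - (p l).eval τ|
          ≤ (D + 3) * 2 ^ (D + 3) * (K1 * (1 + d * K2) + K2) * ε := by
  classical
  obtain ⟨n, t, hn, ht, hc⟩ := nodes T G y om nu be ε K2 hε0 hM U hU hA2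
  refine ⟨n, t, hn, ht, fun s hs => ?_⟩
  obtain ⟨c, hc1, hc2, hc3, hc4, hc5⟩ := hc s hs
  set z : Fin n → ℝ := fun k => (s - t k) * c k with hz
  have hts : ∀ k, |t k| ≤ 1 := fun k => hT _ (ht k)
  have hss : |s| ≤ 1 := hT _ hs
  have hz0 : ∑ k, z k = 0 := by
    have : ∑ k, z k = s * ∑ k, c k - ∑ k, c k * t k := by
      rw [Finset.mul_sum, ← Finset.sum_sub_distrib]
      exact Finset.sum_congr rfl fun k _ => by rw [hz]; ring
    rw [this, hc2, hc3]; ring
  have hz2 : ∀ k, |z k| ≤ 2 := by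
    intro k
    rw [hz]
    simp only
    rw [abs_mul]
    have h1 : |s - t k| ≤ 2 := (abs_sub _ _).trans (by linarith [hts k])
    calc |s - t k| * |c k| ≤ 2 * 1 := mul_le_mul h1 (hc1 k) (abs_nonneg _) (by norm_num)
      _ = 2 := by norm_num
  have hkap : ∀ l, |∑ k, z k * G (t k) l| ≤ 2 * (K2 * ((n + 1) * ε)) := by
    intro l
    have e1 : ∑ k, z k * G (t k) l
        = (s * G s l - ∑ k, c k * (t k * G (t k) l)) - s * (G s l - ∑ k, c k * G (t k) l) := by
      rw [mul_sub, Finset.mul_sum]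
      have : ∑ k, z k * G (t k) l
          = ∑ k, s * (c k * G (t k) l) - ∑ k, c k * (t k * G (t k) l) := by
        rw [← Finset.sum_sub_distrib]
        exact Finset.sum_congr rfl fun k _ => by rw [hz]; ring
      rw [this]; ring
    rw [e1]
    calc |(s * G s l - ∑ k, c k * (t k * G (t k) l)) - s * (G s l - ∑ k, c k * G (t k) l)|
        ≤ |s * G s l - ∑ k, c k * (t k * G (t k) l)| + |s * (G s l - ∑ k, c k * G (t k) l)| :=
          abs_sub _ _
      _ ≤ K2 * ((n + 1) * ε) + 1 * (K2 * ((n + 1) * ε)) := by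
          refine add_le_add (hc5 l) ?_
          rw [abs_mul]
          exact mul_le_mul hss (hc4 l) (abs_nonneg _) (by norm_num)
      _ = 2 * (K2 * ((n + 1) * ε)) := by ring
  refine ⟨∑ k, C (z k) * B t k, fun l => ∑ k, C (z k * G (t k) l) * B t k,
    natDegree_sum_C_mul t z hn, fun l => natDegree_sum_C_mul t _ hn, ?_, ?_, ?_⟩
  · -- value at s
    rw [eval_finsetSum]
    simp only [eval_mul, eval_C, eval_B, mul_sub, Finset.sum_sub_distrib]
    rw [← Finset.sum_mul, hz0, zero_mul, sub_zero]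
    have : ∀ k : Fin n, z k * ∏ j ∈ Finset.univ.erase k, (s - t j)
        = c k * ∏ j, (s - t j) := by
      intro k
      rw [← Finset.mul_prod_erase Finset.univ _ (Finset.mem_univ k), hz]
      ring
    simp only [this]
    rw [← Finset.sum_mul, hc2, one_mul]
  · -- sup bound
    intro τ hτ
    rw [eval_finsetSum]
    simp only [eval_mul, eval_C, eval_B]
    calc |∑ k, z k * ((∏ j ∈ Finset.univ.erase k, (τ - t j)) - τ ^ (n - 1))|
        ≤ ∑ k, |z k * ((∏ j ∈ Finset.univ.erase k, (τ - t j)) - τ ^ (n - 1))| :=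
          Finset.abs_sum_le_sum_abs _ _
      _ ≤ ∑ _k : Fin n, (2 : ℝ) ^ (D + 3) := by
          refine Finset.sum_le_sum fun k _ => ?_
          have hn1 : 1 ≤ n := Nat.one_le_iff_ne_zero.mpr (by
            rintro rfl
            exact k.elim0)
          rw [abs_mul]
          have h1 : |(∏ j ∈ Finset.univ.erase k, (τ - t j)) - τ ^ (n - 1)| ≤ 2 ^ (D + 2) := by
            calc |(∏ j ∈ Finset.univ.erase k, (τ - t j)) - τ ^ (n - 1)|
                ≤ |∏ j ∈ Finset.univ.erase k, (τ - t j)| + |τ ^ (n - 1)| := abs_sub _ _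
              _ ≤ 2 ^ (n - 1) + 1 := by
                  refine add_le_add (abs_prod_erase_le t k τ hτ hts) ?_
                  rw [abs_pow]
                  exact pow_le_one₀ (abs_nonneg _) hτ
              _ ≤ 2 ^ (n - 1) + 2 ^ (n - 1) := by
                  have : (1 : ℝ) ≤ 2 ^ (n - 1) := one_le_pow₀ (by norm_num)
                  linarith
              _ = 2 ^ (n - 1 + 1) := by rw [pow_succ]; ring
              _ ≤ 2 ^ (D + 2) := pow_le_pow_right₀ (by norm_num) (by omega)
          calc |z k| * |(∏ j ∈ Finset.univ.erase k, (τ - t j)) - τ ^ (n - 1)|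
              ≤ 2 * 2 ^ (D + 2) := mul_le_mul (hz2 k) h1 (abs_nonneg _) (by norm_num)
            _ = 2 ^ (D + 3) := by ring
      _ = n * 2 ^ (D + 3) := by simp
      _ ≤ (D + 2) * 2 ^ (D + 3) := by
          refine mul_le_mul_of_nonneg_right ?_ (by positivity)
          exact_mod_cast hn
  · -- main inequality
    intro τ hτ l
    have hτ1 : |τ| ≤ 1 := hT _ hτ
    set P : Fin n → ℝ := fun k => ∏ j ∈ Finset.univ.erase k, (τ - t j) with hP
    set Pt : ℝ := ∏ j, (τ - t j) with hPt
    have hPk : ∀ k, P k * (τ - t k) = Pt := by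
      intro k
      rw [hPt, ← Finset.mul_prod_erase Finset.univ _ (Finset.mem_univ k), hP]
      ring
    have hPtb : |Pt| ≤ 2 ^ n := by
      rw [hPt, Finset.abs_prod]
      calc ∏ j, |τ - t j| ≤ ∏ _j : Fin n, (2 : ℝ) := by
            refine Finset.prod_le_prod (fun j _ => abs_nonneg _) fun j _ => ?_
            exact (abs_sub _ _).trans (by linarith [hts j])
        _ = 2 ^ n := by simp
    set A : Fin d → ℝ := fun i => ∑ k, z k * P k * (G (t k) i - G τ i) with hA
    have hmain : (∑ k, C (z k) * B t k).eval τ * G τ l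
        - (∑ k, C (z k * G (t k) l) * B t k).eval τ
        = - A l + τ ^ (n - 1) * ∑ k, z k * G (t k) l := by
      rw [eval_finsetSum, eval_finsetSum]
      simp only [eval_mul, eval_C, eval_B]
      have e1 : (∑ k, z k * (P k - τ ^ (n - 1))) * G τ l
          - ∑ k, z k * G (t k) l * (P k - τ ^ (n - 1))
          = - A l + τ ^ (n - 1) * ∑ k, z k * G (t k) l - τ ^ (n - 1) * G τ l * ∑ k, z k := by
        rw [hA]
        simp only
        rw [Finset.sum_mul, Finset.mul_sum, Finset.mul_sum, ← Finset.sum_neg_distrib,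
          ← Finset.sum_sub_distrib, ← Finset.sum_add_distrib, ← Finset.sum_sub_distrib]
        exact Finset.sum_congr rfl fun k _ => by ring
      rw [hz0, mul_zero, sub_zero] at e1
      exact e1
    have hX : ∀ x, |∑ i, A i * (y x i + τ * om x i)|
        ≤ (n + 1) * 2 ^ (n + 1) * (1 + d * K2) * ε := by
      intro x
      have hfr : ∀ k, ∑ i, G (t k) i * (y x i + τ * om x i)
          = fr (G (t k)) (t k) (y x) (om x) (nu x) (be x) - nu x - t k * be x
            + (τ - t k) * ∑ i, G (t k) i * om x i := by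
        intro k
        have : ∑ i, G (t k) i * (y x i + τ * om x i)
            = ∑ i, G (t k) i * (y x i + t k * om x i)
              + (τ - t k) * ∑ i, G (t k) i * om x i := by
          rw [Finset.mul_sum, ← Finset.sum_add_distrib]
          exact Finset.sum_congr rfl fun i _ => by ring
        rw [this]
        unfold fr
        ring
      have hfr0 : ∑ i, G τ i * (y x i + τ * om x i)
          = fr (G τ) τ (y x) (om x) (nu x) (be x) - nu x - τ * be x := by
        unfold fr
        ring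
      have e1 : ∑ i, A i * (y x i + τ * om x i)
          = ∑ k, z k * P k * (∑ i, G (t k) i * (y x i + τ * om x i)
              - ∑ i, G τ i * (y x i + τ * om x i)) := by
        rw [hA]
        simp only [Finset.sum_mul, ← Finset.sum_sub_distrib, Finset.mul_sum]
        rw [Finset.sum_comm]
        refine Finset.sum_congr rfl fun k _ => Finset.sum_congr rfl fun i _ => ?_
        ring
      have e2 : ∑ i, A i * (y x i + τ * om x i)
          = ∑ k, z k * P k * (fr (G (t k)) (t k) (y x) (om x) (nu x) (be x)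
              - fr (G τ) τ (y x) (om x) (nu x) (be x))
            + Pt * ∑ i, (∑ k, z k * G (t k) i) * om x i := by
        rw [e1]
        have e3 : ∑ k, z k * P k * (∑ i, G (t k) i * (y x i + τ * om x i)
              - ∑ i, G τ i * (y x i + τ * om x i))
            = ∑ k, (z k * P k * (fr (G (t k)) (t k) (y x) (om x) (nu x) (be x)
              - fr (G τ) τ (y x) (om x) (nu x) (be x))
              + (Pt * be x * z k + Pt * (z k * ∑ i, G (t k) i * om x i))) := by
          refine Finset.sum_congr rfl fun k _ => ?_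
          rw [hfr k, hfr0, ← hPk k]
          ring
        rw [e3, Finset.sum_add_distrib, Finset.sum_add_distrib, ← Finset.mul_sum, hz0,
          mul_zero, zero_add, ← Finset.mul_sum]
        congr 2
        simp only [Finset.mul_sum, Finset.sum_mul]
        rw [Finset.sum_comm]
        refine Finset.sum_congr rfl fun i _ => Finset.sum_congr rfl fun k _ => ?_
        ring
      rw [e2]
      have b1 : |∑ k, z k * P k * (fr (G (t k)) (t k) (y x) (om x) (nu x) (be x)
              - fr (G τ) τ (y x) (om x) (nu x) (be x))| ≤ n * (2 ^ (n + 1) * ε) := by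
        calc |∑ k, z k * P k * (fr (G (t k)) (t k) (y x) (om x) (nu x) (be x)
              - fr (G τ) τ (y x) (om x) (nu x) (be x))|
            ≤ ∑ k, |z k * P k * (fr (G (t k)) (t k) (y x) (om x) (nu x) (be x)
              - fr (G τ) τ (y x) (om x) (nu x) (be x))| := Finset.abs_sum_le_sum_abs _ _
          _ ≤ ∑ _k : Fin n, (2 ^ (n + 1) * ε) := by
              refine Finset.sum_le_sum fun k _ => ?_
              have hn1 : 1 ≤ n := Nat.one_le_iff_ne_zero.mpr (by
                rintro rfl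
                exact k.elim0)
              rw [abs_mul, abs_mul]
              have h1 := hM (t k) (ht k) x
              have h2 := hM τ hτ x
              have h3 : |fr (G (t k)) (t k) (y x) (om x) (nu x) (be x)
                  - fr (G τ) τ (y x) (om x) (nu x) (be x)| ≤ 2 * ε :=
                (abs_sub _ _).trans (by linarith)
              have h4 : |z k| * |P k| ≤ 2 * 2 ^ (n - 1) :=
                mul_le_mul (hz2 k) (abs_prod_erase_le t k τ hτ1 hts) (abs_nonneg _)
                  (by norm_num)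
              have h5 : (2 : ℝ) * 2 ^ (n - 1) = 2 ^ n := by
                rw [← pow_succ']
                congr 1
                omega
              calc |z k| * |P k| * |fr (G (t k)) (t k) (y x) (om x) (nu x) (be x)
                  - fr (G τ) τ (y x) (om x) (nu x) (be x)|
                  ≤ (2 * 2 ^ (n - 1)) * (2 * ε) :=
                    mul_le_mul h4 h3 (abs_nonneg _) (by positivity)
                _ = 2 ^ (n + 1) * ε := by rw [h5]; ring
          _ = n * (2 ^ (n + 1) * ε) := by simp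
      have b2 : |Pt * ∑ i, (∑ k, z k * G (t k) i) * om x i|
          ≤ 2 ^ n * (d * (2 * (K2 * ((n + 1) * ε)))) := by
        rw [abs_mul]
        refine mul_le_mul hPtb ?_ (abs_nonneg _) (by positivity)
        calc |∑ i, (∑ k, z k * G (t k) i) * om x i|
            ≤ ∑ i, |(∑ k, z k * G (t k) i) * om x i| := Finset.abs_sum_le_sum_abs _ _
          _ ≤ ∑ _i : Fin d, (2 * (K2 * ((n + 1) * ε))) := by
              refine Finset.sum_le_sum fun i _ => ?_
              rw [abs_mul]
              calc |∑ k, z k * G (t k) i| * |om x i|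
                  ≤ (2 * (K2 * ((n + 1) * ε))) * 1 :=
                    mul_le_mul (hkap i) (hom x i) (abs_nonneg _) (by positivity)
                _ = _ := mul_one _
          _ = d * (2 * (K2 * ((n + 1) * ε))) := by simp
      calc |∑ k, z k * P k * (fr (G (t k)) (t k) (y x) (om x) (nu x) (be x)
              - fr (G τ) τ (y x) (om x) (nu x) (be x))
            + Pt * ∑ i, (∑ k, z k * G (t k) i) * om x i|
          ≤ n * (2 ^ (n + 1) * ε) + 2 ^ n * (d * (2 * (K2 * ((n + 1) * ε)))) :=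
            (abs_add_le _ _).trans (add_le_add b1 b2)
        _ ≤ (n + 1) * (2 ^ (n + 1) * ε) + 2 ^ n * (d * (2 * (K2 * ((n + 1) * ε)))) := by
            have : 0 ≤ 2 ^ (n + 1) * ε := by positivity
            nlinarith
        _ = (n + 1) * 2 ^ (n + 1) * (1 + d * K2) * ε := by ring
    have hAl : |A l| ≤ K1 * ((n + 1) * 2 ^ (n + 1) * (1 + d * K2) * ε) := by
      obtain ⟨a, ha, hai⟩ := hA1 τ hτ l
      have e1 : A l = ∑ x, a x * ∑ i, A i * (y x i + τ * om x i) := by
        have e2 : ∑ x, a x * ∑ i, A i * (y x i + τ * om x i)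
            = ∑ i, A i * ∑ x, a x * (y x i + τ * om x i) := by
          simp only [Finset.mul_sum]
          rw [Finset.sum_comm]
          refine Finset.sum_congr rfl fun i _ => Finset.sum_congr rfl fun x _ => ?_
          ring
        rw [e2]
        simp only [hai]
        simp
      rw [e1]
      have hE0 : 0 ≤ (n + 1) * 2 ^ (n + 1) * (1 + d * K2) * ε := by positivity
      calc |∑ x, a x * ∑ i, A i * (y x i + τ * om x i)|
          ≤ ∑ x, |a x * ∑ i, A i * (y x i + τ * om x i)| := Finset.abs_sum_le_sum_abs _ _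
        _ ≤ ∑ x, |a x| * ((n + 1) * 2 ^ (n + 1) * (1 + d * K2) * ε) := by
            refine Finset.sum_le_sum fun x _ => ?_
            rw [abs_mul]
            exact mul_le_mul_of_nonneg_left (hX x) (abs_nonneg _)
        _ = (∑ x, |a x|) * ((n + 1) * 2 ^ (n + 1) * (1 + d * K2) * ε) := by
            rw [Finset.sum_mul]
        _ ≤ K1 * ((n + 1) * 2 ^ (n + 1) * (1 + d * K2) * ε) :=
            mul_le_mul_of_nonneg_right ha hE0
    rw [hmain]
    have hn' : (n : ℝ) + 1 ≤ D + 3 := by
      have : (n : ℝ) ≤ D + 2 := by exact_mod_cast hn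
      linarith
    have hp' : (2 : ℝ) ^ (n + 1) ≤ 2 ^ (D + 3) := pow_le_pow_right₀ (by norm_num) (by omega)
    have hp2 : (2 : ℝ) ≤ 2 ^ (D + 3) := by
      calc (2 : ℝ) = 2 ^ 1 := by norm_num
        _ ≤ 2 ^ (D + 3) := pow_le_pow_right₀ (by norm_num) (by omega)
    have hb : |τ ^ (n - 1) * ∑ k, z k * G (t k) l| ≤ 2 * (K2 * ((n + 1) * ε)) := by
      rw [abs_mul, abs_pow]
      calc |τ| ^ (n - 1) * |∑ k, z k * G (t k) l| ≤ 1 * (2 * (K2 * ((n + 1) * ε))) :=
            mul_le_mul (pow_le_one₀ (abs_nonneg _) hτ1) (hkap l) (abs_nonneg _) (by norm_num)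
        _ = _ := one_mul _
    calc |-A l + τ ^ (n - 1) * ∑ k, z k * G (t k) l|
        ≤ |-A l| + |τ ^ (n - 1) * ∑ k, z k * G (t k) l| := abs_add_le _ _
      _ ≤ K1 * ((n + 1) * 2 ^ (n + 1) * (1 + d * K2) * ε) + 2 * (K2 * ((n + 1) * ε)) := by
          rw [abs_neg]
          exact add_le_add hAl hb
      _ ≤ K1 * ((D + 3) * 2 ^ (D + 3) * (1 + d * K2) * ε)
          + 2 ^ (D + 3) * (K2 * ((D + 3) * ε)) := by
          refine add_le_add ?_ ?_
          · refine mul_le_mul_of_nonneg_left ?_ hK1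
            refine mul_le_mul_of_nonneg_right ?_ hε0
            refine mul_le_mul_of_nonneg_right ?_ (by positivity)
            exact mul_le_mul hn' hp' (by positivity) (by positivity)
          · refine mul_le_mul hp2 ?_ (by positivity) (by positivity)
            refine mul_le_mul_of_nonneg_left ?_ hK2
            exact mul_le_mul_of_nonneg_right hn' hε0
      _ = (D + 3) * 2 ^ (D + 3) * (K1 * (1 + d * K2) + K2) * ε := by ring


/-! ## Determinant form -/

open Matrix in
/-- Cramer: a square matrix with entries `≤ b` and `|det| ≥ ρ` generates the coordinate vectors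
with coefficients of total size `≤ r r! b^r / ρ`. -/
theorem rowcomb {r : ℕ} (M : Matrix (Fin r) (Fin r) ℝ) (b ρ : ℝ) (hb : ∀ i j, |M i j| ≤ b)
    (h1 : 1 ≤ b) (hρ : 0 < ρ) (hdet : ρ ≤ |M.det|) (l : Fin r) :
    ∃ c : Fin r → ℝ, ∑ i, |c i| ≤ r * (r.factorial * b ^ r) / ρ ∧
      ∀ j, ∑ i, c i * M i j = if j = l then 1 else 0 := by
  classical
  have hd : IsUnit M.det := by
    have : 0 < |M.det| := lt_of_lt_of_le hρ hdet
    exact (abs_pos.mp this).isUnit
  refine ⟨fun i => M⁻¹ l i, ?_, fun j => ?_⟩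
  · have : ∀ i, |M⁻¹ l i| ≤ (r.factorial * b ^ r) / ρ := by
      intro i
      rw [Matrix.inv_def, Matrix.smul_apply, smul_eq_mul, Ring.inverse_eq_inv', abs_mul, abs_inv,
        Matrix.adjugate_apply, inv_mul_eq_div]
      have h2 : |(M.updateRow i (Pi.single l 1)).det| ≤ r.factorial * b ^ r := by
        have := Matrix.det_le (abv := AbsoluteValue.abs) (A := M.updateRow i (Pi.single l 1))
          (x := b) (fun a c => by
            rw [AbsoluteValue.abs_apply]
            by_cases h : a = i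
            · subst h
              rw [Matrix.updateRow_self]
              by_cases h' : c = l
              · subst h'; simpa using h1
              · simp [h']; linarith
            · rw [Matrix.updateRow_ne h]; exact hb a c)
        simpa using this
      gcongr
    calc ∑ i, |M⁻¹ l i| ≤ ∑ _i : Fin r, (r.factorial * b ^ r) / ρ :=
          Finset.sum_le_sum fun i _ => this i
      _ = r * (r.factorial * b ^ r) / ρ := by
          simp; ring
  · have h2 := congrFun (congrFun (Matrix.nonsing_inv_mul M hd) l) j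
    rw [Matrix.mul_apply] at h2
    rw [h2, Matrix.one_apply]
    simp [eq_comm]

/-- Push coefficients forward along `x`. -/
theorem push {κ : Type*} [Fintype κ] {r : ℕ} (x : Fin r → κ) (c : Fin r → ℝ) :
    ∃ c' : κ → ℝ, ∑ a, |c' a| ≤ ∑ i, |c i| ∧
      ∀ {V : Type} [AddCommGroup V] [Module ℝ V] (F : κ → V),
        ∑ a, c' a • F a = ∑ i, c i • F (x i) := by
  classical
  refine ⟨fun a => ∑ i, if x i = a then c i else 0, ?_, ?_⟩
  · calc ∑ a, |∑ i, if x i = a then c i else 0|
        ≤ ∑ a, ∑ i, |if x i = a then c i else 0| :=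
          Finset.sum_le_sum fun a _ => Finset.abs_sum_le_sum_abs _ _
      _ = ∑ i, ∑ a, |if x i = a then c i else 0| := Finset.sum_comm
      _ = ∑ i, |c i| := by
          refine Finset.sum_congr rfl fun i _ => ?_
          rw [Finset.sum_eq_single (x i)]
          · simp
          · intro a _ ha
            simp [Ne.symm ha]
          · simp
  · intro V _ _ F
    simp only [Finset.sum_smul]
    rw [Finset.sum_comm]
    refine Finset.sum_congr rfl fun i _ => ?_
    rw [Finset.sum_eq_single (x i)]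
    · simp
    · intro a _ ha
      simp [Ne.symm ha]
    · simp

/-- The coordinates of `W × W`. -/
def co {d : ℕ} (v : (Fin d → ℝ) × (Fin d → ℝ)) : Fin d ⊕ Fin d → ℝ := Sum.elim v.1 v.2

/-- **LEMMA P, determinant form.**  `(A1)` at each `τ ∈ T` there are `d` elements with
`|det (y_i + τ om_i)| ≥ ρ`;  `(A2)` there are `r` elements and `r` coordinates of `W × W`
(`r + D ≥ 2 d`) for which the minor of the vectors `(y, om)` has absolute value `≥ ρ`. -/
theorem path_det {d D r : ℕ} {κ : Type*} [Fintype κ] (T : Finset ℝ) (hT : ∀ τ ∈ T, |τ| ≤ 1)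
    (G : ℝ → Fin d → ℝ)
    (y om : κ → Fin d → ℝ) (nu be : κ → ℝ) (ε ρ : ℝ) (hε0 : 0 ≤ ε) (hρ : 0 < ρ)
    (hy : ∀ x i, |y x i| ≤ 1) (hom : ∀ x i, |om x i| ≤ 1)
    (hM : ∀ τ ∈ T, ∀ x, |fr (G τ) τ (y x) (om x) (nu x) (be x)| ≤ ε)
    (hA1 : ∀ τ ∈ T, ∃ a : Fin d → κ,
      ρ ≤ |(Matrix.of fun i j => y (a i) j + τ * om (a i) j).det|)
    (hr : 2 * d ≤ r + D)
    (hA2 : ∃ (a : Fin r → κ) (col : Fin r → Fin d ⊕ Fin d), Function.Injective col ∧
      ρ ≤ |(Matrix.of fun i j => co (y (a i), om (a i)) (col j)).det|) :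
    ∃ (n : ℕ) (t : Fin n → ℝ), n ≤ D + 2 ∧ (∀ k, t k ∈ T) ∧ ∀ s ∈ T,
      ∃ (q : ℝ[X]) (p : Fin d → ℝ[X]), q.natDegree ≤ D ∧ (∀ l, (p l).natDegree ≤ D) ∧
        q.eval s = ∏ k, (s - t k) ∧
        (∀ τ : ℝ, |τ| ≤ 1 → |q.eval τ| ≤ (D + 2) * 2 ^ (D + 3)) ∧
        ∀ τ ∈ T, ∀ l, |q.eval τ * G τ l - (p l).eval τ|
          ≤ (D + 3) * 2 ^ (D + 3) * ((d * (d.factorial * 2 ^ d) / ρ)
              * (1 + d * (r * (r.factorial * 1 ^ r) / ρ)) + r * (r.factorial * 1 ^ r) / ρ) * ε := by
  classical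
  obtain ⟨a, col, hcol, hdet⟩ := hA2
  -- the evaluation map
  let ev : ((Fin d → ℝ) × (Fin d → ℝ)) →ₗ[ℝ] (Fin r → ℝ) :=
    { toFun := fun v j => co v (col j)
      map_add' := fun u v => by
        funext j
        rcases h : col j with i | i <;> simp [co, h]
      map_smul' := fun c v => by
        funext j
        rcases h : col j with i | i <;> simp [co, h] }
  have hev : ∀ v j, ev v j = co v (col j) := fun v j => rfl
  have hsurj : Function.Surjective ev := by
    intro w
    refine ⟨(fun i => ∑ j, if col j = Sum.inl i then w j else 0,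
      fun i => ∑ j, if col j = Sum.inr i then w j else 0), ?_⟩
    funext j
    rw [hev]
    rcases h : col j with i | i
    · simp only [co, Sum.elim_inl]
      rw [Finset.sum_eq_single j]
      · simp [h]
      · intro b _ hb
        have : col b ≠ Sum.inl i := fun hh => hb (hcol (hh.trans h.symm))
        simp [this]
      · simp
    · simp only [co, Sum.elim_inr]
      rw [Finset.sum_eq_single j]
      · simp [h]
      · intro b _ hb
        have : col b ≠ Sum.inr i := fun hh => hb (hcol (hh.trans h.symm))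
        simp [this]
      · simp
  have hker : finrank ℝ (LinearMap.ker ev) ≤ D := by
    have h1 := LinearMap.finrank_range_add_finrank_ker ev
    rw [LinearMap.range_eq_top.mpr hsurj, finrank_top] at h1
    simp only [finrank_prod, finrank_fintype_fun_eq_card, Fintype.card_fin] at h1
    omega
  have hcomb : ∀ e : (Fin d → ℝ) × (Fin d → ℝ), (∃ s : Fin d ⊕ Fin d, co e = Pi.single s 1) →
      ∃ c : κ → ℝ, ∑ x, |c x| ≤ r * (r.factorial * 1 ^ r) / ρ ∧
        e - ∑ x, c x • (y x, om x) ∈ LinearMap.ker ev := by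
    rintro e ⟨s, hs⟩
    have hnn : (0 : ℝ) ≤ r * (r.factorial * 1 ^ r) / ρ := by positivity
    by_cases hin : ∃ j0, col j0 = s
    · obtain ⟨j0, hj0⟩ := hin
      obtain ⟨c0, hc0, hc1⟩ := rowcomb (Matrix.of fun i j => co (y (a i), om (a i)) (col j)) 1 ρ
        (fun i j => by
          rcases h : col j with k | k
          · simpa [co, h] using hy (a i) k
          · simpa [co, h] using hom (a i) k) le_rfl hρ hdet j0
      obtain ⟨c, hc, hcF⟩ := push a c0
      refine ⟨c, hc.trans hc0, ?_⟩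
      rw [LinearMap.mem_ker, map_sub, hcF, map_sum]
      simp only [map_smul]
      funext j
      rw [Pi.sub_apply, Finset.sum_apply]
      simp only [Pi.smul_apply, smul_eq_mul, hev]
      have := hc1 j
      simp only [Matrix.of_apply] at this
      rw [this, hs, Pi.single_apply]
      by_cases hj : j = j0
      · subst hj; simp [hj0]
      · have : col j ≠ s := fun hh => hj (hcol (hh.trans hj0.symm))
        simp [hj, this]
    · refine ⟨0, by simpa using hnn, ?_⟩
      rw [LinearMap.mem_ker]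
      simp only [Pi.zero_apply, zero_smul, Finset.sum_const_zero, sub_zero]
      funext j
      rw [hev, hs, Pi.single_apply]
      have : col j ≠ s := fun hh => hin ⟨j, hh⟩
      simp [this]
  refine path T hT G y om nu be ε _ _ hε0 (by positivity) (by positivity) hom hM ?_
    (LinearMap.ker ev) hker ?_
  · intro τ hτ l
    obtain ⟨b, hb⟩ := hA1 τ hτ
    obtain ⟨c0, hc0, hc1⟩ := rowcomb (Matrix.of fun i j => y (b i) j + τ * om (b i) j) 2 ρ
      (fun i j => by
        simp only [Matrix.of_apply]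
        calc |y (b i) j + τ * om (b i) j| ≤ |y (b i) j| + |τ * om (b i) j| := abs_add_le _ _
          _ ≤ 1 + 1 * 1 := by
              rw [abs_mul]
              exact add_le_add (hy _ _) (mul_le_mul (hT τ hτ) (hom _ _) (abs_nonneg _)
                (by norm_num))
          _ = 2 := by norm_num) (by norm_num) hρ hb l
    obtain ⟨c, hc, hcF⟩ := push b c0
    refine ⟨c, hc.trans hc0, fun i => ?_⟩
    have h1 := hcF (V := ℝ) (fun x => y x i + τ * om x i)
    simp only [smul_eq_mul] at h1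
    rw [h1]
    have h2 := hc1 i
    simpa only [Matrix.of_apply] using h2
  · intro l
    refine ⟨hcomb _ ⟨Sum.inl l, ?_⟩, hcomb _ ⟨Sum.inr l, ?_⟩⟩
    · funext s
      rcases s with i | i
      · simp [co, Pi.single_apply]
      · simp [co]
    · funext s
      rcases s with i | i
      · simp [co]
      · simp [co, Pi.single_apply]

end Pool.H72.PATH
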