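import Mathlib

set_option autoImplicit false

namespace Pool.Agent.H72

open Set Topology

/-- covering dimension at most `m` of a subset `A` of a topological space, by finite open covers. -/
def DimLe {X : Type*} [TopologicalSpace X] (A : Set X) (m : ℕ) : Prop :=
  ∀ 𝒰 : Finset (Set X), (∀ U ∈ 𝒰, IsOpen U) → A ⊆ ⋃₀ (↑𝒰 : Set (Set X)) →
    ∃ 𝒱 : Finset (Set X),
      (∀ V ∈ 𝒱, IsOpen V ∧ ∃ U ∈ 𝒰, V ∩ A ⊆ U) ∧
      A ⊆ ⋃₀ (↑𝒱 : Set (Set X)) ∧
      ∀ z ∈ A, {V | V ∈ 𝒱 ∧ z ∈ V}.ncard ≤ m + 1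

/-- the edge indicator of labels `0,1`. -/
def edg (a b : Fin 3) : ZMod 2 := if (a = 0 ∧ b = 1) ∨ (a = 1 ∧ b = 0) then 1 else 0

lemma edg_square : ∀ p q r s : Fin 3, (∃ c : Fin 3, p ≠ c ∧ q ≠ c ∧ r ≠ c ∧ s ≠ c) →
    edg p q + edg q s + edg p r + edg r s = 0 := by
  decide

lemma edg_bottom : ∀ a b : Fin 3, a ≠ 2 → b ≠ 2 →
    edg a b = (if a = 1 then 1 else 0) + (if b = 1 then 1 else 0) := by
  decide

lemma edg_right : ∀ a b : Fin 3, a ≠ 0 → b ≠ 0 → edg a b = 0 := by decide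

lemma edg_top : ∀ a b : Fin 3, a ≠ 1 → b ≠ 1 → edg a b = 0 := by decide

lemma zmod2_telescope (f : ℕ → ZMod 2) (n : ℕ) :
    ∑ i ∈ Finset.range n, (f i + f (i + 1)) = f 0 + f n := by
  induction n with
  | zero => 
    simp only [Finset.range_zero, Finset.sum_empty]
    exact (CharTwo.add_self_eq_zero (f 0)).symm
  | succ n ih =>
    rw [Finset.sum_range_succ, ih]
    have := CharTwo.add_self_eq_zero (f n)
    linear_combination this

/-- Sperner-type lemma on a square grid. -/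
lemma sperner_grid (n : ℕ) (l : ℕ → ℕ → Fin 3)
    (h0 : ∀ j ≤ n, l 0 j = 0) (h1 : ∀ j ≤ n, l n j ≠ 0)
    (h2 : ∀ i ≤ n, l i 0 ≠ 2) (h3 : ∀ i ≤ n, l i n ≠ 1) :
    ∃ i < n, ∃ j < n, ∀ c : Fin 3,
      ∃ a b : ℕ, (a = i ∨ a = i + 1) ∧ (b = j ∨ b = j + 1) ∧ l a b = c := by
  by_contra hcon
  push Not at hcon
  have hsq : ∀ i < n, ∀ j < n,
      edg (l i j) (l (i+1) j) + edg (l (i+1) j) (l (i+1) (j+1)) + edg (l i j) (l i (j+1))
        + edg (l i (j+1)) (l (i+1) (j+1)) = 0 := by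
    intro i hi j hj
    apply edg_square
    obtain ⟨c, hc⟩ := hcon i hi j hj
    exact ⟨c, hc i j (Or.inl rfl) (Or.inl rfl), hc (i+1) j (Or.inr rfl) (Or.inl rfl),
      hc i (j+1) (Or.inl rfl) (Or.inr rfl), hc (i+1) (j+1) (Or.inr rfl) (Or.inr rfl)⟩
  -- column sums
  have hcol : ∀ i < n,
      (edg (l i 0) (l (i+1) 0) + edg (l i n) (l (i+1) n)) +
      (∑ j ∈ Finset.range n, edg (l i j) (l i (j+1)) +
       ∑ j ∈ Finset.range n, edg (l (i+1) j) (l (i+1) (j+1))) = 0 := by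
    intro i hi
    rw [← zmod2_telescope (fun j => edg (l i j) (l (i+1) j)) n, ← Finset.sum_add_distrib,
      ← Finset.sum_add_distrib]
    apply Finset.sum_eq_zero
    intro j hj
    have := hsq i hi j (Finset.mem_range.mp hj)
    linear_combination this
  have htot : ∑ i ∈ Finset.range n, ((edg (l i 0) (l (i+1) 0) + edg (l i n) (l (i+1) n)) +
      (∑ j ∈ Finset.range n, edg (l i j) (l i (j+1)) +
       ∑ j ∈ Finset.range n, edg (l (i+1) j) (l (i+1) (j+1)))) = 0 :=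
    Finset.sum_eq_zero (fun i hi => hcol i (Finset.mem_range.mp hi))
  rw [Finset.sum_add_distrib,
    zmod2_telescope (fun i => ∑ j ∈ Finset.range n, edg (l i j) (l i (j+1))) n,
    Finset.sum_add_distrib] at htot
  have e1 : ∑ j ∈ Finset.range n, edg (l 0 j) (l 0 (j+1)) = 0 := by
    apply Finset.sum_eq_zero
    intro j hj
    have hj' := Finset.mem_range.mp hj
    rw [h0 j hj'.le, h0 (j+1) hj']
    decide
  have e2 : ∑ j ∈ Finset.range n, edg (l n j) (l n (j+1)) = 0 := by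
    apply Finset.sum_eq_zero
    intro j hj
    have hj' := Finset.mem_range.mp hj
    exact edg_right _ _ (h1 j hj'.le) (h1 (j+1) hj')
  have e3 : ∑ i ∈ Finset.range n, edg (l i n) (l (i+1) n) = 0 := by
    apply Finset.sum_eq_zero
    intro i hi
    have hi' := Finset.mem_range.mp hi
    exact edg_top _ _ (h3 i hi'.le) (h3 (i+1) hi')
  have e4 : ∑ i ∈ Finset.range n, edg (l i 0) (l (i+1) 0) = 1 := by
    have : ∑ i ∈ Finset.range n, edg (l i 0) (l (i+1) 0)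
        = ∑ i ∈ Finset.range n, ((fun i => if l i 0 = 1 then (1 : ZMod 2) else 0) i +
            (fun i => if l i 0 = 1 then (1 : ZMod 2) else 0) (i+1)) := by
      apply Finset.sum_congr rfl
      intro i hi
      have hi' := Finset.mem_range.mp hi
      exact edg_bottom _ _ (h2 i hi'.le) (h2 (i+1) hi')
    rw [this, zmod2_telescope]
    have hn1 : l n 0 = 1 := by
      have a1 := h1 0 (Nat.zero_le _)
      have a2 := h2 n le_rfl
      generalize l n 0 = x at a1 a2 ⊢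
      revert a1 a2
      revert x
      decide
    have h00 : l 0 0 = 0 := h0 0 (Nat.zero_le _)
    simp only [hn1, h00]
    decide
  rw [e1, e2, e3, e4] at htot
  revert htot
  decide

/-- A set that contains an embedded square does not have covering dimension at most one. -/
theorem not_dimLe_one_of_square {X : Type*} [TopologicalSpace X] [T2Space X] (K : Set X)
    (σ : ℝ × ℝ → X) (hσ : Continuous σ) (hinj : Function.Injective σ)
    (hK : ∀ p ∈ Icc (0:ℝ) 1 ×ˢ Icc (0:ℝ) 1, σ p ∈ K) : ¬ DimLe K 1 := by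
  classical
  intro hdim
  set L : Set X := σ '' ({(0:ℝ)} ×ˢ Icc (0:ℝ) 1) with hL
  set R : Set X := σ '' ({(1:ℝ)} ×ˢ Icc (0:ℝ) 1) with hR
  set B : Set X := σ '' (Icc (0:ℝ) 1 ×ˢ {(0:ℝ)}) with hB
  set T : Set X := σ '' (Icc (0:ℝ) 1 ×ˢ {(1:ℝ)}) with hT
  have hLc : IsClosed L := ((isCompact_singleton.prod isCompact_Icc).image hσ).isClosed
  have hRc : IsClosed R := ((isCompact_singleton.prod isCompact_Icc).image hσ).isClosed
  have hBc : IsClosed B := ((isCompact_Icc.prod isCompact_singleton).image hσ).isClosed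
  have hTc : IsClosed T := ((isCompact_Icc.prod isCompact_singleton).image hσ).isClosed
  have hLR : ∀ x, x ∉ L ∨ x ∉ R := by
    intro x
    by_contra h
    push Not at h
    obtain ⟨⟨⟨a, b⟩, ⟨ha, hb⟩, rfl⟩, ⟨⟨c, d⟩, ⟨hc, hd⟩, h2⟩⟩ := h
    have := hinj h2
    simp only [mem_singleton_iff] at ha hc
    simp only [Prod.mk.injEq] at this
    rw [ha, hc] at this
    exact one_ne_zero this.1
  have hBT : ∀ x, x ∉ B ∨ x ∉ T := by
    intro x
    by_contra h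
    push Not at h
    obtain ⟨⟨⟨a, b⟩, ⟨ha, hb⟩, rfl⟩, ⟨⟨c, d⟩, ⟨hc, hd⟩, h2⟩⟩ := h
    have := hinj h2
    simp only [mem_singleton_iff] at hb hd
    simp only [Prod.mk.injEq] at this
    rw [hb, hd] at this
    exact one_ne_zero this.2
  have hLK : L ⊆ K := by
    rintro _ ⟨⟨a, b⟩, ⟨ha, hb⟩, rfl⟩
    simp only [mem_singleton_iff] at ha
    exact hK _ ⟨by simp [ha], hb⟩
  have hBK : B ⊆ K := by
    rintro _ ⟨⟨a, b⟩, ⟨ha, hb⟩, rfl⟩
    simp only [mem_singleton_iff] at hb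
    exact hK _ ⟨ha, by simp [hb]⟩
  set 𝒰 : Finset (Set X) := {(L ∪ B)ᶜ, (L ∪ T)ᶜ, (R ∪ B)ᶜ, (R ∪ T)ᶜ} with h𝒰
  obtain ⟨𝒱, hV1, hV2, hV3⟩ := hdim 𝒰
    (by
      intro U hU
      simp only [h𝒰, Finset.mem_insert, Finset.mem_singleton] at hU
      rcases hU with rfl | rfl | rfl | rfl
      · exact (hLc.union hBc).isOpen_compl
      · exact (hLc.union hTc).isOpen_compl
      · exact (hRc.union hBc).isOpen_compl
      · exact (hRc.union hTc).isOpen_compl)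
    (by
      intro x _
      simp only [h𝒰, Finset.coe_insert, Finset.coe_singleton, mem_sUnion, mem_insert_iff,
        mem_singleton_iff, exists_eq_or_imp, mem_compl_iff, mem_union, exists_eq_left]
      have h1 := hLR x
      have h2 := hBT x
      tauto)
  -- no member of the cover meeting the right side meets the left side, etc.
  have hVR : ∀ V ∈ 𝒱, ∀ x ∈ V, x ∈ K → x ∈ R → ¬ (V ∩ L).Nonempty := by
    intro V hV x hx hxK hxR ⟨y, hyV, hyL⟩
    obtain ⟨_, U, hU, hVU⟩ := hV1 V hV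
    have hxU := hVU ⟨hx, hxK⟩
    have hyU := hVU ⟨hyV, hLK hyL⟩
    simp only [h𝒰, Finset.mem_insert, Finset.mem_singleton] at hU
    rcases hU with rfl | rfl | rfl | rfl
    · exact hyU (Or.inl hyL)
    · exact hyU (Or.inl hyL)
    · exact hxU (Or.inl hxR)
    · exact hxU (Or.inl hxR)
  have hVT : ∀ V ∈ 𝒱, ∀ x ∈ V, x ∈ K → x ∈ T → ¬ (V ∩ B).Nonempty := by
    intro V hV x hx hxK hxT ⟨y, hyV, hyB⟩
    obtain ⟨_, U, hU, hVU⟩ := hV1 V hV
    have hxU := hVU ⟨hx, hxK⟩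
    have hyU := hVU ⟨hyV, hBK hyB⟩
    simp only [h𝒰, Finset.mem_insert, Finset.mem_singleton] at hU
    rcases hU with rfl | rfl | rfl | rfl
    · exact hyU (Or.inr hyB)
    · exact hxU (Or.inr hxT)
    · exact hyU (Or.inr hyB)
    · exact hxU (Or.inr hxT)
  -- Lebesgue number
  have hQ : IsCompact (Icc (0:ℝ) 1 ×ˢ Icc (0:ℝ) 1) := isCompact_Icc.prod isCompact_Icc
  obtain ⟨δ, hδ, hleb⟩ := lebesgue_number_lemma_of_metric (ι := {V // V ∈ 𝒱})
    (c := fun V => σ ⁻¹' V.1) hQ (fun V => (hV1 V.1 V.2).1.preimage hσ)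
    (by
      intro p hp
      obtain ⟨V, hV, hpV⟩ := hV2 (hK p hp)
      exact mem_iUnion.mpr ⟨⟨V, hV⟩, hpV⟩)
  have : Nonempty {V // V ∈ 𝒱} := by
    obtain ⟨V, hV, _⟩ := hV2 (hK (0, 0) ⟨by simp, by simp⟩)
    exact ⟨⟨V, hV⟩⟩
  choose! W hW using hleb
  obtain ⟨n, hn⟩ := exists_nat_gt (1 / δ)
  have hnpos : (0:ℝ) < n := lt_trans (by positivity) hn
  have hn1 : 1 / (n:ℝ) < δ := by
    rw [div_lt_iff₀ hnpos]
    rw [div_lt_iff₀ hδ] at hn
    linarith
  have hn0 : (n:ℝ) ≠ 0 := hnpos.ne'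
  set pt : ℕ → ℕ → ℝ × ℝ := fun i j => ((i:ℝ) / n, (j:ℝ) / n) with hpt
  have hIcc : ∀ i ≤ n, (i:ℝ) / n ∈ Icc (0:ℝ) 1 := by
    intro i hi
    refine ⟨by positivity, ?_⟩
    rw [div_le_one hnpos]
    exact_mod_cast hi
  have hptQ : ∀ i ≤ n, ∀ j ≤ n, pt i j ∈ Icc (0:ℝ) 1 ×ˢ Icc (0:ℝ) 1 :=
    fun i hi j hj => ⟨hIcc i hi, hIcc j hj⟩
  set lab : Set X → Fin 3 := fun V =>
    if (V ∩ L).Nonempty then 0 else if (V ∩ B).Nonempty then 1 else 2 with hlab
  have hself : ∀ i ≤ n, ∀ j ≤ n, σ (pt i j) ∈ (W (pt i j)).1 := by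
    intro i hi j hj
    have := hW (pt i j) (hptQ i hi j hj) (Metric.mem_ball_self hδ)
    exact this
  obtain ⟨i, hi, j, hj, hall⟩ := sperner_grid n (fun i j => lab (W (pt i j)).1)
    (by
      intro j hj
      have h1 := hself 0 (Nat.zero_le _) j hj
      have h2 : σ (pt 0 j) ∈ L := ⟨pt 0 j, ⟨by simp [hpt], (hIcc j hj)⟩, rfl⟩
      simp only [hlab]
      rw [if_pos ⟨_, h1, h2⟩])
    (by
      intro j hj
      have h1 := hself n le_rfl j hj
      have h2 : σ (pt n j) ∈ R := ⟨pt n j, ⟨by simp [hpt, hn0], (hIcc j hj)⟩, rfl⟩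
      have h3 := hVR _ (W (pt n j)).2 _ h1 (hK _ (hptQ n le_rfl j hj)) h2
      simp only [hlab]
      rw [if_neg h3]
      split_ifs <;> decide)
    (by
      intro i hi
      have h1 := hself i hi 0 (Nat.zero_le _)
      have h2 : σ (pt i 0) ∈ B := ⟨pt i 0, ⟨(hIcc i hi), by simp [hpt]⟩, rfl⟩
      simp only [hlab]
      split_ifs with h4 h5
      · decide
      · decide
      · exact absurd ⟨_, h1, h2⟩ h5)
    (by
      intro i hi
      have h1 := hself i hi n le_rfl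
      have h2 : σ (pt i n) ∈ T := ⟨pt i n, ⟨(hIcc i hi), by simp [hpt, hn0]⟩, rfl⟩
      have h3 := hVT _ (W (pt i n)).2 _ h1 (hK _ (hptQ i hi n le_rfl)) h2
      simp only [hlab]
      rw [if_neg h3]
      split_ifs <;> decide)
  obtain ⟨a0, b0, ha0, hb0, hl0⟩ := hall 0
  obtain ⟨a1, b1, ha1, hb1, hl1⟩ := hall 1
  obtain ⟨a2, b2, ha2, hb2, hl2⟩ := hall 2
  have hle : ∀ a b : ℕ, (a = i ∨ a = i + 1) → (b = j ∨ b = j + 1) → a ≤ n ∧ b ≤ n := by
    intro a b ha hb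
    constructor
    · rcases ha with rfl | rfl <;> omega
    · rcases hb with rfl | rfl <;> omega
  have hclose1 : ∀ a a' k : ℕ, (a = k ∨ a = k + 1) → (a' = k ∨ a' = k + 1) →
      |(a:ℝ) / n - (a':ℝ) / n| ≤ 1 / n := by
    intro a a' k ha ha'
    rw [← sub_div, abs_div, abs_of_pos hnpos]
    apply div_le_div_of_nonneg_right _ hnpos.le
    rcases ha with rfl | rfl <;> rcases ha' with rfl | rfl <;> simp
  have hclose : ∀ a b a' b' : ℕ, (a = i ∨ a = i + 1) → (b = j ∨ b = j + 1) →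
      (a' = i ∨ a' = i + 1) → (b' = j ∨ b' = j + 1) → pt a b ∈ Metric.ball (pt a' b') δ := by
    intro a b a' b' ha hb ha' hb'
    rw [Metric.mem_ball, Prod.dist_eq, Real.dist_eq, Real.dist_eq]
    exact lt_of_le_of_lt (max_le (hclose1 a a' i ha ha') (hclose1 b b' j hb hb')) hn1
  have hmem : ∀ a b : ℕ, (a = i ∨ a = i + 1) → (b = j ∨ b = j + 1) →
      σ (pt a0 b0) ∈ (W (pt a b)).1 := by
    intro a b ha hb
    have h1 := hW (pt a b) (hptQ a (hle a b ha hb).1 b (hle a b ha hb).2)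
    exact h1 (hclose a0 b0 a b ha0 hb0 ha hb)
  have hK0 : σ (pt a0 b0) ∈ K := hK _ (hptQ a0 (hle a0 b0 ha0 hb0).1 b0 (hle a0 b0 ha0 hb0).2)
  have hcard := hV3 (σ (pt a0 b0)) hK0
  have hne01 : (W (pt a0 b0)).1 ≠ (W (pt a1 b1)).1 := by
    intro h
    rw [h, hl1] at hl0
    exact absurd hl0 (by decide)
  have hne02 : (W (pt a0 b0)).1 ≠ (W (pt a2 b2)).1 := by
    intro h
    rw [h, hl2] at hl0
    exact absurd hl0 (by decide)
  have hne12 : (W (pt a1 b1)).1 ≠ (W (pt a2 b2)).1 := by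
    intro h
    rw [h, hl2] at hl1
    exact absurd hl1 (by decide)
  have hsub : ({(W (pt a0 b0)).1, (W (pt a1 b1)).1, (W (pt a2 b2)).1} : Set (Set X)) ⊆
      {V | V ∈ 𝒱 ∧ σ (pt a0 b0) ∈ V} := by
    intro V hV
    simp only [mem_insert_iff, mem_singleton_iff] at hV
    rcases hV with rfl | rfl | rfl
    · exact ⟨(W (pt a0 b0)).2, hmem a0 b0 ha0 hb0⟩
    · exact ⟨(W (pt a1 b1)).2, hmem a1 b1 ha1 hb1⟩
    · exact ⟨(W (pt a2 b2)).2, hmem a2 b2 ha2 hb2⟩
  have hfin : {V | V ∈ 𝒱 ∧ σ (pt a0 b0) ∈ V}.Finite :=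
    (Finset.finite_toSet 𝒱).subset (fun V hV => hV.1)
  have h3 : ({(W (pt a0 b0)).1, (W (pt a1 b1)).1, (W (pt a2 b2)).1} : Set (Set X)).ncard = 3 := by
    rw [Set.ncard_insert_of_notMem, Set.ncard_pair hne12]
    simp only [mem_insert_iff, mem_singleton_iff, not_or]
    exact ⟨hne01, hne02⟩
  have := Set.ncard_le_ncard hsub hfin
  omega

end Pool.Agent.H72
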