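import Mathlib
import Pool.Agent.H72.Lebesgue

set_option autoImplicit false

namespace Pool.Agent.H72

open Set Topology

/-- every point of `S` has arbitrarily small open neighbourhoods whose frontier misses `S`. -/
def SmallInd {X : Type*} [TopologicalSpace X] (S : Set X) : Prop :=
  ∀ y ∈ S, ∀ W : Set X, IsOpen W → y ∈ W → ∃ O : Set X, IsOpen O ∧ y ∈ O ∧ O ⊆ W ∧
    Disjoint (frontier O) S

lemma SmallInd.exists_disjoint {X : Type*} [TopologicalSpace X] [SecondCountableTopology X]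
    {S : Set X} (hS : SmallInd S) (𝒰 : Finset (Set X)) (hU : ∀ U ∈ 𝒰, IsOpen U)
    (hcov : S ⊆ ⋃₀ (↑𝒰 : Set (Set X))) :
    ∃ g : Set X → Set X, (∀ U ∈ 𝒰, IsOpen (g U) ∧ g U ⊆ U) ∧
      (∀ U ∈ 𝒰, ∀ U' ∈ 𝒰, U ≠ U' → Disjoint (g U) (g U')) ∧
      ∀ x ∈ S, ∃ U ∈ 𝒰, x ∈ g U := by
  classical
  rcases S.eq_empty_or_nonempty with hemp | hne
  · refine ⟨fun _ => ∅, fun U _ => ⟨isOpen_empty, empty_subset _⟩, fun _ _ _ _ _ => ?_, ?_⟩
    · exact disjoint_bot_left
    · intro x hx; rw [hemp] at hx; exact absurd hx (notMem_empty x)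
  have h1 : ∀ y ∈ S, ∃ U ∈ 𝒰, ∃ O : Set X, IsOpen O ∧ y ∈ O ∧ O ⊆ U ∧ Disjoint (frontier O) S := by
    intro y hy
    obtain ⟨U, hU', hyU⟩ := hcov hy
    obtain ⟨O, hO, hyO, hOU, hOS⟩ := hS y hy U (hU U hU') hyU
    exact ⟨U, hU', O, hO, hyO, hOU, hOS⟩
  choose! Uf hUf Of hOopen hyO hOU hOS using h1
  obtain ⟨t, htS, htc, htcov⟩ := TopologicalSpace.countable_cover_nhdsWithin
    (f := Of) (s := S) (fun x hx => mem_nhdsWithin_of_mem_nhds ((hOopen x hx).mem_nhds (hyO x hx)))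
  have htne : t.Nonempty := by
    obtain ⟨x, hx⟩ := hne
    have := htcov hx
    simp only [mem_iUnion] at this
    obtain ⟨y, hy, _⟩ := this
    exact ⟨y, hy⟩
  obtain ⟨ys, hys⟩ := htc.exists_eq_range htne
  have hysS : ∀ k, ys k ∈ S := fun k => htS (hys ▸ mem_range_self k)
  set W : ℕ → Set X := fun k => Of (ys k) \ ⋃ j ∈ Finset.range k, closure (Of (ys j)) with hW
  have hWopen : ∀ k, IsOpen (W k) := by
    intro k
    apply (hOopen _ (hysS k)).sdiff
    exact isClosed_biUnion_finset (fun j _ => isClosed_closure)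
  have hWdisj : ∀ j k, j < k → Disjoint (W j) (W k) := by
    intro j k hjk
    rw [Set.disjoint_left]
    intro x hxj hxk
    apply hxk.2
    simp only [mem_iUnion, Finset.mem_range]
    exact ⟨j, hjk, subset_closure hxj.1⟩
  have hWcov : ∀ x ∈ S, ∃ k, x ∈ W k := by
    intro x hx
    have hex : ∃ k, x ∈ Of (ys k) := by
      have := htcov hx
      simp only [mem_iUnion] at this
      obtain ⟨y, hy, hxy⟩ := this
      rw [hys] at hy
      obtain ⟨k, rfl⟩ := hy
      exact ⟨k, hxy⟩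
    refine ⟨Nat.find hex, Nat.find_spec hex, ?_⟩
    simp only [mem_iUnion, Finset.mem_range, not_exists]
    intro j hj hxj
    have hnot : x ∉ Of (ys j) := Nat.find_min hex hj
    have hfr : x ∈ frontier (Of (ys j)) := by
      rw [(hOopen _ (hysS j)).frontier_eq]
      exact ⟨hxj, hnot⟩
    exact (Set.disjoint_left.mp (hOS _ (hysS j))) hfr hx
  refine ⟨fun U => ⋃ k ∈ {k | Uf (ys k) = U}, W k, ?_, ?_, ?_⟩
  · intro U hU'
    constructor
    · exact isOpen_biUnion (fun k _ => hWopen k)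
    · intro x hx
      simp only [mem_iUnion, mem_ofPred_eq] at hx
      obtain ⟨k, hk, hxk⟩ := hx
      rw [← hk]
      exact hOU _ (hysS k) hxk.1
  · intro U _ U' _ hne'
    rw [Set.disjoint_left]
    intro x hx hx'
    simp only [mem_iUnion, mem_ofPred_eq] at hx hx'
    obtain ⟨k, hk, hxk⟩ := hx
    obtain ⟨k', hk', hxk'⟩ := hx'
    rcases lt_trichotomy k k' with h | h | h
    · exact (Set.disjoint_left.mp (hWdisj k k' h)) hxk hxk'
    · apply hne'
      rw [← hk, ← hk', h]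
    · exact (Set.disjoint_left.mp (hWdisj k' k h)) hxk' hxk
  · intro x hx
    obtain ⟨k, hk⟩ := hWcov x hx
    refine ⟨Uf (ys k), hUf _ (hysS k), ?_⟩
    simp only [mem_iUnion, mem_ofPred_eq]
    exact ⟨k, rfl, hk⟩

lemma ncard_le_one_of_unique {α : Type*} (s : Set α) (h : ∀ a ∈ s, ∀ b ∈ s, a = b) :
    s.ncard ≤ 1 := by
  have hs : s.Subsingleton := fun a ha b hb => h a ha b hb
  rcases hs.eq_empty_or_singleton with h0 | ⟨a, ha⟩
  · simp [h0]
  · simp [ha]

/-- The union of two zero-dimensional sets has dimension at most one. -/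
theorem dimLe_one_of_union {X : Type*} [TopologicalSpace X] [SecondCountableTopology X]
    {S₀ S₁ : Set X} (h₀ : SmallInd S₀) (h₁ : SmallInd S₁) : DimLe (S₀ ∪ S₁) 1 := by
  classical
  intro 𝒰 hU hcov
  obtain ⟨g, hg1, hg2, hg3⟩ := h₀.exists_disjoint 𝒰 hU (subset_union_left.trans hcov)
  obtain ⟨g', hg1', hg2', hg3'⟩ := h₁.exists_disjoint 𝒰 hU (subset_union_right.trans hcov)
  refine ⟨𝒰.image g ∪ 𝒰.image g', ?_, ?_, ?_⟩
  · intro V hV
    simp only [Finset.mem_union, Finset.mem_image] at hV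
    rcases hV with ⟨U, hU', rfl⟩ | ⟨U, hU', rfl⟩
    · exact ⟨(hg1 U hU').1, U, hU', inter_subset_left.trans (hg1 U hU').2⟩
    · exact ⟨(hg1' U hU').1, U, hU', inter_subset_left.trans (hg1' U hU').2⟩
  · intro x hx
    rcases hx with hx | hx
    · obtain ⟨U, hU', hxU⟩ := hg3 x hx
      exact ⟨g U, by simp only [Finset.coe_union, Finset.coe_image]; exact Or.inl ⟨U, hU', rfl⟩, hxU⟩
    · obtain ⟨U, hU', hxU⟩ := hg3' x hx
      exact ⟨g' U, by simp only [Finset.coe_union, Finset.coe_image]; exact Or.inr ⟨U, hU', rfl⟩,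
        hxU⟩
  · intro z _
    have hsub : {V | V ∈ 𝒰.image g ∪ 𝒰.image g' ∧ z ∈ V} ⊆
        {V | V ∈ 𝒰.image g ∧ z ∈ V} ∪ {V | V ∈ 𝒰.image g' ∧ z ∈ V} := by
      intro V hV
      simp only [Finset.mem_union, mem_ofPred_eq, mem_union] at hV ⊢
      tauto
    have hfin : ({V | V ∈ 𝒰.image g ∧ z ∈ V} ∪ {V | V ∈ 𝒰.image g' ∧ z ∈ V}).Finite :=
      ((Finset.finite_toSet (𝒰.image g)).subset (fun V hV => hV.1)).union
        ((Finset.finite_toSet (𝒰.image g')).subset (fun V hV => hV.1))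
    refine (Set.ncard_le_ncard hsub hfin).trans ((Set.ncard_union_le _ _).trans ?_)
    apply add_le_add
    · apply ncard_le_one_of_unique
      rintro V ⟨hV, hz⟩ V' ⟨hV', hz'⟩
      obtain ⟨U, hU', rfl⟩ := Finset.mem_image.mp hV
      obtain ⟨U', hU'', rfl⟩ := Finset.mem_image.mp hV'
      by_contra hne
      have : U ≠ U' := fun h => hne (by rw [h])
      exact (Set.disjoint_left.mp (hg2 U hU' U' hU'' this)) hz hz'
    · apply ncard_le_one_of_unique
      rintro V ⟨hV, hz⟩ V' ⟨hV', hz'⟩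
      obtain ⟨U, hU', rfl⟩ := Finset.mem_image.mp hV
      obtain ⟨U', hU'', rfl⟩ := Finset.mem_image.mp hV'
      by_contra hne
      have : U ≠ U' := fun h => hne (by rw [h])
      exact (Set.disjoint_left.mp (hg2' U hU' U' hU'' this)) hz hz'

/-- transfer of covering dimension along a continuous map with a relatively continuous section. -/
theorem DimLe.transfer {X Y : Type*} [TopologicalSpace X] [TopologicalSpace Y]
    {A : Set X} {P : Set Y} {m : ℕ} (hP : DimLe P m) (h : X → Y) (hc : Continuous h)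
    (hAP : ∀ x ∈ A, h x ∈ P) (Θ : Y → X) (hΘ : ContinuousOn Θ P) (hPA : ∀ y ∈ P, Θ y ∈ A)
    (hid : ∀ x ∈ A, Θ (h x) = x) : DimLe A m := by
  classical
  intro 𝒰 hU hcov
  have h1 : ∀ U ∈ 𝒰, ∃ U' : Set Y, IsOpen U' ∧ Θ ⁻¹' U ∩ P = U' ∩ P := by
    intro U hU'
    exact (continuousOn_iff'.mp hΘ) U (hU U hU')
  choose! ψ hψo hψ using h1
  obtain ⟨𝒱, hV1, hV2, hV3⟩ := hP (𝒰.image ψ)
    (by
      intro V hV
      obtain ⟨U, hU', rfl⟩ := Finset.mem_image.mp hV
      exact hψo U hU')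
    (by
      intro y hy
      obtain ⟨U, hU', hyU⟩ := hcov (hPA y hy)
      refine ⟨ψ U, ?_, ?_⟩
      · simp only [Finset.coe_image]
        exact ⟨U, hU', rfl⟩
      · have : y ∈ Θ ⁻¹' U ∩ P := ⟨hyU, hy⟩
        rw [hψ U hU'] at this
        exact this.1)
  refine ⟨𝒱.image (fun V => h ⁻¹' V), ?_, ?_, ?_⟩
  · intro V hV
    obtain ⟨V', hV', rfl⟩ := Finset.mem_image.mp hV
    obtain ⟨ho, U', hU', hVU⟩ := hV1 V' hV'
    obtain ⟨U, hU, rfl⟩ := Finset.mem_image.mp hU'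
    refine ⟨ho.preimage hc, U, hU, ?_⟩
    rintro x ⟨hx, hxA⟩
    have h2 : h x ∈ ψ U ∩ P := ⟨hVU ⟨hx, hAP x hxA⟩, hAP x hxA⟩
    rw [← hψ U hU] at h2
    have h3 := h2.1
    simp only [mem_preimage] at h3
    rwa [hid x hxA] at h3
  · intro x hx
    obtain ⟨V, hV, hxV⟩ := hV2 (hAP x hx)
    refine ⟨h ⁻¹' V, ?_, hxV⟩
    simp only [Finset.coe_image]
    exact ⟨V, hV, rfl⟩
  · intro z hz
    have hsub : {V | V ∈ 𝒱.image (fun V => h ⁻¹' V) ∧ z ∈ V} ⊆
        (fun V => h ⁻¹' V) '' {V | V ∈ 𝒱 ∧ h z ∈ V} := by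
      rintro V ⟨hV, hzV⟩
      obtain ⟨V', hV', rfl⟩ := Finset.mem_image.mp hV
      exact ⟨V', ⟨hV', hzV⟩, rfl⟩
    have hfin : {V | V ∈ 𝒱 ∧ h z ∈ V}.Finite :=
      (Finset.finite_toSet 𝒱).subset (fun V hV => hV.1)
    calc _ ≤ _ := Set.ncard_le_ncard hsub (hfin.image _)
      _ ≤ _ := Set.ncard_image_le hfin
      _ ≤ _ := hV3 (h z) (hAP z hz)

/-- dyadic rationals -/
def Dy : Set ℝ := {x | ∃ (n : ℕ) (k : ℤ), x = k / 2 ^ n}

lemma Dy.exists_between {a b : ℝ} (hab : a < b) : ∃ d ∈ Dy, a < d ∧ d < b := by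
  obtain ⟨n, hn⟩ := exists_pow_lt_of_lt_one (sub_pos.mpr hab) (show (1/2 : ℝ) < 1 by norm_num)
  have h2 : (0:ℝ) < 2 ^ n := by positivity
  refine ⟨((⌊a * 2 ^ n⌋ + 1 : ℤ) : ℝ) / 2 ^ n, ⟨n, _, rfl⟩, ?_, ?_⟩
  · rw [lt_div_iff₀ h2]
    push_cast
    exact Int.lt_floor_add_one _
  · rw [div_lt_iff₀ h2]
    push_cast
    have h3 := Int.floor_le (a * 2 ^ n)
    have h4 : (1/2 : ℝ)^n * 2^n = 1 := by
      rw [← mul_pow]; norm_num
    nlinarith

lemma Dy.add {x y : ℝ} (hx : x ∈ Dy) (hy : y ∈ Dy) : x + y ∈ Dy := by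
  obtain ⟨n, k, rfl⟩ := hx
  obtain ⟨m, l, rfl⟩ := hy
  refine ⟨n + m, k * 2 ^ m + l * 2 ^ n, ?_⟩
  push_cast
  have h1 : (2:ℝ) ^ n ≠ 0 := by positivity
  have h2 : (2:ℝ) ^ m ≠ 0 := by positivity
  field_simp
  ring

lemma Dy.neg {x : ℝ} (hx : x ∈ Dy) : -x ∈ Dy := by
  obtain ⟨n, k, rfl⟩ := hx
  refine ⟨n, -k, ?_⟩
  push_cast
  ring

lemma Dy.sub {x y : ℝ} (hx : x ∈ Dy) (hy : y ∈ Dy) : x - y ∈ Dy := by
  rw [sub_eq_add_neg]; exact Dy.add hx (Dy.neg hy)

/-- the set of dyadic points of the plane -/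
def CC : Set ℂ := {z | z.re ∈ Dy ∧ z.im ∈ Dy}

lemma smallInd_of_pair (S : Set ℂ) (F G : ℂ → ℝ) (hF : Continuous F) (hG : Continuous G)
    (hFG : ∀ z : ℂ, ∀ W : Set ℂ, IsOpen W → z ∈ W →
      ∃ ε > 0, ∀ w, |F w - F z| < ε → |G w - G z| < ε → w ∈ W)
    (hS : ∀ w ∈ S, F w ∉ Dy ∧ G w ∉ Dy) : SmallInd S := by
  intro y _ W hW hyW
  obtain ⟨ε, hε, hεW⟩ := hFG y W hW hyW
  obtain ⟨a, ha, ha1, ha2⟩ := Dy.exists_between (show F y - ε < F y by linarith)
  obtain ⟨b, hb, hb1, hb2⟩ := Dy.exists_between (show F y < F y + ε by linarith)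
  obtain ⟨c, hc, hc1, hc2⟩ := Dy.exists_between (show G y - ε < G y by linarith)
  obtain ⟨d, hd, hd1, hd2⟩ := Dy.exists_between (show G y < G y + ε by linarith)
  set O : Set ℂ := {w | a < F w ∧ F w < b ∧ c < G w ∧ G w < d} with hO
  have hOopen : IsOpen O := by
    apply IsOpen.and (isOpen_lt continuous_const hF)
    apply IsOpen.and (isOpen_lt hF continuous_const)
    exact IsOpen.and (isOpen_lt continuous_const hG) (isOpen_lt hG continuous_const)
  refine ⟨O, hOopen, ⟨ha2, hb1, hc2, hd1⟩, ?_, ?_⟩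
  · rintro w ⟨h1, h2, h3, h4⟩
    apply hεW w
    · rw [abs_lt]; constructor <;> linarith
    · rw [abs_lt]; constructor <;> linarith
  · have hcl : closure O ⊆ {w | a ≤ F w ∧ F w ≤ b ∧ c ≤ G w ∧ G w ≤ d} := by
      apply closure_minimal
      · rintro w ⟨h1, h2, h3, h4⟩
        exact ⟨h1.le, h2.le, h3.le, h4.le⟩
      · apply IsClosed.and (isClosed_le continuous_const hF)
        apply IsClosed.and (isClosed_le hF continuous_const)
        exact IsClosed.and (isClosed_le continuous_const hG) (isClosed_le hG continuous_const)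
    rw [Set.disjoint_left]
    intro w hw hwS
    rw [hOopen.frontier_eq] at hw
    obtain ⟨h1, h2, h3, h4⟩ := hcl hw.1
    obtain ⟨hwF, hwG⟩ := hS w hwS
    apply hw.2
    refine ⟨lt_of_le_of_ne h1 ?_, lt_of_le_of_ne h2 ?_, lt_of_le_of_ne h3 ?_, lt_of_le_of_ne h4 ?_⟩
    · intro h; exact hwF (h ▸ ha)
    · intro h; exact hwF (h ▸ hb)
    · intro h; exact hwG (h ▸ hc)
    · intro h; exact hwG (h ▸ hd)

lemma complex_norm_le_re_im (w : ℂ) : ‖w‖ ≤ |w.re| + |w.im| := Complex.norm_le_abs_re_add_abs_im w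

/-- The plane without the dyadic points has dimension at most one. -/
theorem dimLe_compl_CC : DimLe (CCᶜ : Set ℂ) 1 := by
  have h0 : SmallInd {z : ℂ | z.re ∉ Dy ∧ z.im ∉ Dy} := by
    apply smallInd_of_pair _ Complex.re Complex.im Complex.continuous_re Complex.continuous_im
    · intro z W hW hz
      obtain ⟨ε, hε, hball⟩ := Metric.isOpen_iff.mp hW z hz
      refine ⟨ε / 2, by positivity, ?_⟩
      intro w h1 h2
      apply hball
      rw [Metric.mem_ball, dist_eq_norm]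
      have := complex_norm_le_re_im (w - z)
      simp only [Complex.sub_re, Complex.sub_im] at this
      linarith
    · intro w hw; exact hw
  have h1 : SmallInd {z : ℂ | (z.re ∈ Dy ∧ z.im ∉ Dy) ∨ (z.re ∉ Dy ∧ z.im ∈ Dy)} := by
    apply smallInd_of_pair _ (fun z => z.re + z.im) (fun z => z.re - z.im)
      (Complex.continuous_re.add Complex.continuous_im)
      (Complex.continuous_re.sub Complex.continuous_im)
    · intro z W hW hz
      obtain ⟨ε, hε, hball⟩ := Metric.isOpen_iff.mp hW z hz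
      refine ⟨ε / 2, by positivity, ?_⟩
      intro w h1 h2
      apply hball
      rw [Metric.mem_ball, dist_eq_norm]
      have := complex_norm_le_re_im (w - z)
      simp only [Complex.sub_re, Complex.sub_im] at this
      rw [abs_lt] at h1 h2
      have h3 : |w.re - z.re| < ε / 2 := by
        rw [abs_lt]; constructor <;> linarith
      have h4 : |w.im - z.im| < ε / 2 := by
        rw [abs_lt]; constructor <;> linarith
      linarith
    · rintro w (⟨h1, h2⟩ | ⟨h1, h2⟩)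
      · constructor
        · intro h
          apply h2
          have := Dy.sub h h1
          simpa using this
        · intro h
          apply h2
          have := Dy.sub h1 h
          simpa using this
      · constructor
        · intro h
          apply h1
          have := Dy.sub h h2
          simpa using this
        · intro h
          apply h1
          have := Dy.add h h2
          simpa using this
  have heq : (CCᶜ : Set ℂ) = {z : ℂ | z.re ∉ Dy ∧ z.im ∉ Dy} ∪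
      {z : ℂ | (z.re ∈ Dy ∧ z.im ∉ Dy) ∨ (z.re ∉ Dy ∧ z.im ∈ Dy)} := by
    ext z
    simp only [CC, mem_compl_iff, mem_ofPred_eq, mem_union]
    tauto
  rw [heq]
  exact dimLe_one_of_union h0 h1

end Pool.Agent.H72
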