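import Mathlib
import Pool.Agent.H72.ZeroDim

set_option autoImplicit false

namespace Pool.Agent.H72

open Set Topology

/-- points of the grid of mesh `2^{-n}` -/
def Fg (n : ℕ) : Set ℂ := {z | ∃ a b : ℤ, z.re = a / 2 ^ n ∧ z.im = b / 2 ^ n}

lemma Fg_nonempty (n : ℕ) : (Fg n).Nonempty := ⟨0, 0, 0, by simp, by simp⟩

lemma Fg_mono {m n : ℕ} (h : m ≤ n) : Fg m ⊆ Fg n := by
  rintro z ⟨a, b, ha, hb⟩
  obtain ⟨k, rfl⟩ := Nat.exists_eq_add_of_le h
  refine ⟨a * 2 ^ k, b * 2 ^ k, ?_, ?_⟩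
  · rw [ha]; push_cast; rw [pow_add]; field_simp
  · rw [hb]; push_cast; rw [pow_add]; field_simp

lemma CC_iff (z : ℂ) : z ∈ CC ↔ ∃ n, z ∈ Fg n := by
  constructor
  · rintro ⟨⟨n, k, hk⟩, ⟨m, l, hl⟩⟩
    refine ⟨n + m, k * 2 ^ m, l * 2 ^ n, ?_, ?_⟩
    · rw [hk]; push_cast; rw [pow_add]; field_simp
    · rw [hl]; push_cast; rw [pow_add]; field_simp
  · rintro ⟨n, a, b, ha, hb⟩
    exact ⟨⟨n, a, ha⟩, ⟨n, b, hb⟩⟩

lemma CC_countable : CC.Countable := by
  have : CC = ⋃ n : ℕ, Fg n := by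
    ext z; rw [CC_iff, mem_iUnion]
  rw [this]
  apply countable_iUnion
  intro n
  have : Fg n ⊆ range (fun p : ℤ × ℤ => (⟨(p.1 : ℝ) / 2 ^ n, (p.2 : ℝ) / 2 ^ n⟩ : ℂ)) := by
    rintro z ⟨a, b, ha, hb⟩
    exact ⟨(a, b), by apply Complex.ext <;> simp [ha, hb]⟩
  exact (countable_range _).mono this

lemma infDist_Fg_le (n : ℕ) (z : ℂ) : Metric.infDist z (Fg n) ≤ 2 * (1 / 2) ^ n := by
  have h2 : (0:ℝ) < 2 ^ n := by positivity
  set c : ℂ := ⟨(⌊z.re * 2 ^ n⌋ : ℝ) / 2 ^ n, (⌊z.im * 2 ^ n⌋ : ℝ) / 2 ^ n⟩ with hc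
  have hcF : c ∈ Fg n := ⟨_, _, rfl, rfl⟩
  refine (Metric.infDist_le_dist_of_mem hcF).trans ?_
  rw [dist_eq_norm]
  refine (complex_norm_le_re_im _).trans ?_
  have key : ∀ x : ℝ, |x - (⌊x * 2 ^ n⌋ : ℝ) / 2 ^ n| ≤ (1 / 2) ^ n := by
    intro x
    have h3 := Int.floor_le (x * 2 ^ n)
    have h4 := Int.lt_floor_add_one (x * 2 ^ n)
    have h5 : x - (⌊x * 2 ^ n⌋ : ℝ) / 2 ^ n = (x * 2 ^ n - ⌊x * 2 ^ n⌋) / 2 ^ n := by
      field_simp
    rw [h5, abs_div, abs_of_pos h2, div_le_iff₀ h2]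
    have h6 : (1/2 : ℝ)^n * 2^n = 1 := by
      rw [← mul_pow]; norm_num
    rw [h6, abs_le]
    constructor <;> linarith
  have k1 := key z.re
  have k2 := key z.im
  simp only [hc, Complex.sub_re, Complex.sub_im]
  linarith

lemma summable_bound : Summable (fun n : ℕ => 2 * (1 / 2 : ℝ) ^ n) :=
  (summable_geometric_two).mul_left 2

lemma summable_infDist (z : ℂ) : Summable (fun n : ℕ => Metric.infDist z (Fg n)) :=
  Summable.of_nonneg_of_le (fun _ => Metric.infDist_nonneg) (fun n => infDist_Fg_le n z)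
    summable_bound

/-- the height function: continuous, with a strict local minimum at each dyadic point -/
noncomputable def phi (z : ℂ) : ℝ := ∑' n : ℕ, Metric.infDist z (Fg n)

lemma phi_continuous : Continuous phi := by
  apply continuous_tsum (u := fun n : ℕ => 2 * (1 / 2 : ℝ) ^ n)
  · intro n; exact Metric.continuous_infDist_pt _
  · exact summable_bound
  · intro n z
    rw [Real.norm_eq_abs, abs_of_nonneg Metric.infDist_nonneg]
    exact infDist_Fg_le n z

lemma phi_nonneg (z : ℂ) : 0 ≤ phi z := tsum_nonneg (fun _ => Metric.infDist_nonneg)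

lemma phi_le (z : ℂ) : phi z ≤ 4 := by
  have h1 : phi z ≤ ∑' n : ℕ, 2 * (1 / 2 : ℝ) ^ n :=
    Summable.tsum_le_tsum (fun n => infDist_Fg_le n z) (summable_infDist z) summable_bound
  rw [tsum_mul_left, tsum_geometric_two] at h1
  linarith

lemma Fg_sep (n : ℕ) {c c' : ℂ} (hc : c ∈ Fg n) (hc' : c' ∈ Fg n) (hne : c ≠ c') :
    (1 / 2 : ℝ) ^ n ≤ dist c c' := by
  obtain ⟨a, b, ha, hb⟩ := hc
  obtain ⟨a', b', ha', hb'⟩ := hc'
  have h2 : (0:ℝ) < 2 ^ n := by positivity
  have h6 : (1/2 : ℝ)^n = 1 / 2^n := by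
    rw [one_div_pow]
  rw [dist_eq_norm, h6]
  by_cases hab : a = a'
  · have hbb : b ≠ b' := by
      intro h
      apply hne
      apply Complex.ext
      · rw [ha, ha', hab]
      · rw [hb, hb', h]
    refine le_trans ?_ (Complex.abs_im_le_norm _)
    rw [Complex.sub_im, hb, hb', ← sub_div, abs_div, abs_of_pos h2]
    apply div_le_div_of_nonneg_right _ h2.le
    have : (1:ℤ) ≤ |b - b'| := Int.one_le_abs (sub_ne_zero.mpr hbb)
    exact_mod_cast this
  · refine le_trans ?_ (Complex.abs_re_le_norm _)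
    rw [Complex.sub_re, ha, ha', ← sub_div, abs_div, abs_of_pos h2]
    apply div_le_div_of_nonneg_right _ h2.le
    have : (1:ℤ) ≤ |a - a'| := Int.one_le_abs (sub_ne_zero.mpr hab)
    exact_mod_cast this

lemma le_infDist_Fg (n : ℕ) {c x : ℂ} (hc : c ∈ Fg n) (hx : dist x c ≤ (1 / 2) ^ n / 2) :
    dist x c ≤ Metric.infDist x (Fg n) := by
  rw [Metric.le_infDist (Fg_nonempty n)]
  intro c' hc'
  by_cases h : c = c'
  · rw [h]
  · have h1 := Fg_sep n hc hc' h
    have h2 := dist_triangle c x c'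
    rw [dist_comm c x] at h2
    linarith

/-- strict local minimum at dyadic points -/
lemma phi_local_min {c : ℂ} (hc : c ∈ CC) :
    ∃ r > 0, ∀ x : ℂ, dist x c ≤ r → phi c + dist x c ≤ phi x := by
  obtain ⟨m, hm⟩ := (CC_iff c).mp hc
  refine ⟨(1/2) ^ (2 * m) / 2, by positivity, ?_⟩
  intro x hx
  have hsum : Summable (fun n : ℕ => Metric.infDist x (Fg n) - Metric.infDist c (Fg n)) :=
    (summable_infDist x).sub (summable_infDist c)
  have h1 : phi x - phi c = ∑' n : ℕ, (Metric.infDist x (Fg n) - Metric.infDist c (Fg n)) := by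
    rw [Summable.tsum_sub (summable_infDist x) (summable_infDist c)]
    rfl
  have h0 : ∀ n, m ≤ n → Metric.infDist c (Fg n) = 0 := fun n hn =>
    Metric.infDist_zero_of_mem (Fg_mono hn hm)
  have h2 : ∑ n ∈ Finset.range (2 * m + 1),
      (Metric.infDist x (Fg n) - Metric.infDist c (Fg n)) ≤
      ∑' n : ℕ, (Metric.infDist x (Fg n) - Metric.infDist c (Fg n)) := by
    apply Summable.sum_le_tsum _ _ hsum
    intro n hn
    rw [Finset.mem_range, not_lt] at hn
    rw [h0 n (by omega), sub_zero]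
    exact Metric.infDist_nonneg
  have h3 : ∑ n ∈ Finset.range (2 * m + 1), (if n < m then - dist x c else dist x c) ≤
      ∑ n ∈ Finset.range (2 * m + 1),
      (Metric.infDist x (Fg n) - Metric.infDist c (Fg n)) := by
    apply Finset.sum_le_sum
    intro n hn
    rw [Finset.mem_range] at hn
    split_ifs with h
    · have := Metric.infDist_le_infDist_add_dist (s := Fg n) (x := c) (y := x)
      rw [dist_comm] at this
      linarith
    · rw [h0 n (by omega), sub_zero]
      apply le_infDist_Fg n (Fg_mono (by omega) hm)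
      refine hx.trans ?_
      apply div_le_div_of_nonneg_right _ (by norm_num)
      apply pow_le_pow_of_le_one (by norm_num) (by norm_num)
      omega
  have h4 : ∑ n ∈ Finset.range (2 * m + 1), (if n < m then - dist x c else dist x c)
      = dist x c := by
    have : 2 * m + 1 = m + (m + 1) := by ring
    rw [this, Finset.sum_range_add]
    have e1 : ∑ n ∈ Finset.range m, (if n < m then - dist x c else dist x c)
        = ∑ n ∈ Finset.range m, (- dist x c) := by
      apply Finset.sum_congr rfl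
      intro n hn
      rw [if_pos (Finset.mem_range.mp hn)]
    have e2 : ∑ n ∈ Finset.range (m + 1), (if m + n < m then - dist x c else dist x c)
        = ∑ n ∈ Finset.range (m + 1), (dist x c) := by
      apply Finset.sum_congr rfl
      intro n hn
      rw [if_neg (by omega)]
    rw [e1, e2]
    simp only [Finset.sum_const, Finset.card_range, nsmul_eq_mul]
    push_cast
    ring
  linarith

end Pool.Agent.H72
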