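import Mathlib
import Pool.Agent.H72.Phi

set_option autoImplicit false

namespace Pool.Agent.H72

open Set Topology Filter

/-- the oscillating direction -/
noncomputable def om (s : ℝ) : ℂ := ⟨Real.sin (1 / s) / 2, Real.sin (1 / s ^ 2) / 2⟩

lemma om_sq_le (s : ℝ) : ‖om s‖ ^ 2 ≤ 1 / 2 := by
  rw [Complex.sq_norm, Complex.normSq_apply]
  simp only [om]
  have h1 := Real.sin_sq_le_one (1 / s)
  have h2 := Real.sin_sq_le_one (1 / s ^ 2)
  nlinarith

lemma om_le (s : ℝ) : ‖om s‖ ≤ 1 := by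
  have := om_sq_le s
  nlinarith [norm_nonneg (om s)]

lemma om_continuousAt {s : ℝ} (hs : s ≠ 0) : ContinuousAt om s := by
  have h1 : ContinuousAt (fun s : ℝ => Real.sin (1 / s) / 2) s := by
    apply ContinuousAt.div_const
    apply Real.continuous_sin.continuousAt.comp
    exact continuousAt_const.div continuousAt_id hs
  have h2 : ContinuousAt (fun s : ℝ => Real.sin (1 / s ^ 2) / 2) s := by
    apply ContinuousAt.div_const
    apply Real.continuous_sin.continuousAt.comp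
    exact continuousAt_const.div (continuousAt_id.pow 2) (pow_ne_zero 2 hs)
  have h3 : om = fun s : ℝ => ((Real.sin (1 / s) / 2 : ℝ) : ℂ) +
      ((Real.sin (1 / s ^ 2) / 2 : ℝ) : ℂ) * Complex.I := by
    funext s
    exact Complex.mk_eq_add_mul_I _ _
  rw [h3]
  exact (Complex.continuous_ofReal.continuousAt.comp h1).add
    ((Complex.continuous_ofReal.continuousAt.comp h2).mul continuousAt_const)

/-- displacement of the tube -/
noncomputable def av (s : ℝ) : ℂ := (√|s| : ℝ) • om s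

/-- smoothing height -/
noncomputable def lm (s : ℝ) : ℝ := √|s| * √(1 - ‖om s‖ ^ 2)

lemma sqrtabs_tendsto : Tendsto (fun s : ℝ => √|s|) (𝓝 0) (𝓝 0) := by
  have : Continuous (fun s : ℝ => √|s|) := Real.continuous_sqrt.comp continuous_abs
  have h := this.tendsto 0
  simpa using h

lemma av_continuous : Continuous av := by
  rw [continuous_iff_continuousAt]
  intro s
  by_cases hs : s = 0
  · subst hs
    have h0 : av 0 = 0 := by simp [av]
    rw [ContinuousAt, h0]
    apply squeeze_zero_norm _ sqrtabs_tendsto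
    intro s
    rw [av, norm_smul, Real.norm_eq_abs, abs_of_nonneg (Real.sqrt_nonneg _)]
    exact mul_le_of_le_one_right (Real.sqrt_nonneg _) (om_le s)
  · exact (Real.continuous_sqrt.comp continuous_abs).continuousAt.smul (om_continuousAt hs)

lemma lm_continuous : Continuous lm := by
  rw [continuous_iff_continuousAt]
  intro s
  by_cases hs : s = 0
  · subst hs
    have h0 : lm 0 = 0 := by simp [lm]
    rw [ContinuousAt, h0]
    apply squeeze_zero_norm _ sqrtabs_tendsto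
    intro s
    rw [lm, norm_mul, Real.norm_eq_abs, Real.norm_eq_abs, abs_of_nonneg (Real.sqrt_nonneg _),
      abs_of_nonneg (Real.sqrt_nonneg _)]
    apply mul_le_of_le_one_right (Real.sqrt_nonneg _)
    rw [Real.sqrt_le_one]
    nlinarith [norm_nonneg (om s)]
  · apply (Real.continuous_sqrt.comp continuous_abs).continuousAt.mul
    apply Real.continuous_sqrt.continuousAt.comp
    exact continuousAt_const.sub ((om_continuousAt hs).norm.pow 2)

lemma lm_pos {s : ℝ} (hs : s ≠ 0) : 0 < lm s := by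
  apply mul_pos
  · exact Real.sqrt_pos.mpr (abs_pos.mpr hs)
  · apply Real.sqrt_pos.mpr
    have := om_sq_le s
    linarith

/-- tilted norm -/
noncomputable def uu (z : ℂ) (s : ℝ) : ℝ := √(‖z + av s‖ ^ 2 + lm s ^ 2)

/-- its gradient (zero at the singular point) -/
noncomputable def tau (z : ℂ) (s : ℝ) : ℂ := (uu z s)⁻¹ • (z + av s)

lemma uu_continuous : Continuous (fun p : ℂ × ℝ => uu p.1 p.2) := by
  apply Real.continuous_sqrt.comp
  apply Continuous.add
  · exact ((continuous_fst.add (av_continuous.comp continuous_snd)).norm).pow 2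
  · exact (lm_continuous.comp continuous_snd).pow 2

lemma uu_nonneg (z : ℂ) (s : ℝ) : 0 ≤ uu z s := Real.sqrt_nonneg _

lemma uu_sq (z : ℂ) (s : ℝ) : uu z s ^ 2 = ‖z + av s‖ ^ 2 + lm s ^ 2 :=
  Real.sq_sqrt (by positivity)

lemma norm_le_uu (z : ℂ) (s : ℝ) : ‖z + av s‖ ≤ uu z s := by
  apply Real.le_sqrt_of_sq_le
  nlinarith [sq_nonneg (lm s)]

lemma uu_ne_zero {z : ℂ} {s : ℝ} (h : z ≠ 0 ∨ s ≠ 0) : uu z s ≠ 0 := by
  by_cases hs : s = 0
  · have hz : z ≠ 0 := by tauto
    have h1 := norm_le_uu z s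
    subst hs
    have : av 0 = 0 := by simp [av]
    rw [this, add_zero] at h1
    have := norm_pos_iff.mpr hz
    linarith
  · apply ne_of_gt
    apply Real.sqrt_pos.mpr
    have := lm_pos hs
    positivity

lemma tau_norm_le (z : ℂ) (s : ℝ) : ‖tau z s‖ ≤ 1 := by
  rw [tau, norm_smul, norm_inv, Real.norm_eq_abs, abs_of_nonneg (uu_nonneg z s)]
  by_cases h : uu z s = 0
  · rw [h]; simp
  · rw [inv_mul_le_iff₀ (lt_of_le_of_ne (uu_nonneg z s) (Ne.symm h)), mul_one]
    exact norm_le_uu z s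

lemma tau_continuousAt {z : ℂ} {s : ℝ} (h : z ≠ 0 ∨ s ≠ 0) :
    ContinuousAt (fun p : ℂ × ℝ => tau p.1 p.2) (z, s) := by
  change ContinuousAt (fun p : ℂ × ℝ => (uu p.1 p.2)⁻¹ • (p.1 + av p.2)) (z, s)
  apply ContinuousAt.fun_smul
  · exact uu_continuous.continuousAt.inv₀ (uu_ne_zero h)
  · exact (continuous_fst.add (av_continuous.comp continuous_snd)).continuousAt

/-- subgradient inequality for the tilted norm -/
lemma uu_subgrad (z z' : ℂ) (s : ℝ) :
    uu z s + inner ℝ (tau z s) (z' - z) ≤ uu z' s := by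
  by_cases h : uu z s = 0
  · rw [tau, h]; simp [uu_nonneg]
  · have hpos : 0 < uu z s := lt_of_le_of_ne (uu_nonneg z s) (Ne.symm h)
    have h1 := uu_sq z s
    have h2 := uu_sq z' s
    set w := z + av s with hw
    set w' := z' + av s with hw'
    have hdiff : z' - z = w' - w := by rw [hw, hw']; ring
    have hcs : inner ℝ w w' + lm s ^ 2 ≤ uu z s * uu z' s := by
      have h3 : inner ℝ w w' ≤ ‖w‖ * ‖w'‖ := real_inner_le_norm w w'
      have h4 : (‖w‖ * ‖w'‖ + lm s ^ 2) ^ 2 ≤ (uu z s * uu z' s) ^ 2 := by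
        rw [mul_pow, h1, h2]
        nlinarith [sq_nonneg (lm s * (‖w‖ - ‖w'‖))]
      have h5 := (abs_le_of_sq_le_sq' h4
        (mul_nonneg (uu_nonneg z s) (uu_nonneg z' s))).2
      linarith
    rw [tau, inner_smul_left, hdiff, inner_sub_right, real_inner_self_eq_norm_sq]
    simp only [conj_trivial]
    have : uu z s + (uu z s)⁻¹ * (inner ℝ w w' - ‖w‖ ^ 2) =
        (uu z s)⁻¹ * (inner ℝ w w' + lm s ^ 2) := by
      field_simp
      linarith
    rw [this, inv_mul_le_iff₀ hpos]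
    exact hcs

lemma exists_seq_om {q : ℂ} (h1 : |q.re| ≤ 1 / 2) (h2 : |q.im| ≤ 1 / 2) :
    ∃ s : ℕ → ℝ, (∀ k, 0 < s k) ∧ Tendsto s atTop (𝓝 0) ∧
      Tendsto (fun k => om (s k)) atTop (𝓝 q) := by
  set A := Real.arcsin (2 * q.re) with hA
  set B := Real.arcsin (2 * q.im) with hB
  have hsA : Real.sin A = 2 * q.re := by
    apply Real.sin_arcsin
    · linarith [(abs_le.mp h1).1]
    · linarith [(abs_le.mp h1).2]
  have hsB : Real.sin B = 2 * q.im := by
    apply Real.sin_arcsin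
    · linarith [(abs_le.mp h2).1]
    · linarith [(abs_le.mp h2).2]
  have hpi := Real.pi_gt_three
  have hAl : -(Real.pi / 2) ≤ A := Real.neg_pi_div_two_le_arcsin _
  set T : ℕ → ℝ := fun k => A + (k + 1 : ℕ) * (2 * Real.pi) with hT
  have hTpos : ∀ k : ℕ, (k : ℝ) + 1 ≤ T k := by
    intro k
    simp only [hT]
    push_cast
    nlinarith [(Nat.cast_nonneg k : (0:ℝ) ≤ k)]
  set m : ℕ → ℤ := fun k => ⌈(T k ^ 2 - B) / (2 * Real.pi)⌉ with hm
  have hm1 : ∀ k, T k ^ 2 ≤ B + m k * (2 * Real.pi) := by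
    intro k
    have := Int.le_ceil ((T k ^ 2 - B) / (2 * Real.pi))
    rw [div_le_iff₀ (by positivity)] at this
    simp only [hm]
    linarith
  have hm2 : ∀ k, B + m k * (2 * Real.pi) < T k ^ 2 + 2 * Real.pi := by
    intro k
    have h3 := Int.ceil_lt_add_one ((T k ^ 2 - B) / (2 * Real.pi))
    have h4 : (⌈(T k ^ 2 - B) / (2 * Real.pi)⌉ : ℝ) * (2 * Real.pi) <
        ((T k ^ 2 - B) / (2 * Real.pi) + 1) * (2 * Real.pi) :=
      mul_lt_mul_of_pos_right h3 (by positivity)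
    have h5 : ((T k ^ 2 - B) / (2 * Real.pi) + 1) * (2 * Real.pi) = T k ^ 2 - B + 2 * Real.pi := by
      field_simp
    simp only [hm]
    linarith
  set θ : ℕ → ℝ := fun k => √(B + m k * (2 * Real.pi)) with hθ
  have hθT : ∀ k, T k ≤ θ k := by
    intro k
    exact Real.le_sqrt_of_sq_le (hm1 k)
  have hθ1 : ∀ k : ℕ, (k : ℝ) + 1 ≤ θ k := fun k => (hTpos k).trans (hθT k)
  have hθpos : ∀ k, 0 < θ k := fun k => lt_of_lt_of_le (by positivity) (hθ1 k)
  have hθsq : ∀ k, θ k ^ 2 = B + m k * (2 * Real.pi) := by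
    intro k
    exact Real.sq_sqrt (le_trans (sq_nonneg _) (hm1 k))
  have hdiff : ∀ k : ℕ, |θ k - T k| ≤ 2 * Real.pi / ((k : ℝ) + 1) := by
    intro k
    rw [abs_of_nonneg (sub_nonneg.mpr (hθT k)), le_div_iff₀ (by positivity)]
    have h3 := hm2 k
    rw [← hθsq k] at h3
    have h4 := hTpos k
    have h5 := hθT k
    have h6 : (θ k - T k) * (k + 1) ≤ (θ k - T k) * (θ k + T k) := by
      apply mul_le_mul_of_nonneg_left _ (sub_nonneg.mpr h5)
      have := hθpos k
      linarith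
    nlinarith
  have hlim1 : Tendsto (fun k : ℕ => 2 * Real.pi / ((k : ℝ) + 1)) atTop (𝓝 0) := by
    have := tendsto_one_div_add_atTop_nhds_zero_nat (𝕜 := ℝ)
    have h := this.const_mul (2 * Real.pi)
    simp only [mul_zero] at h
    refine h.congr (fun k => ?_)
    rw [mul_one_div]
  have hsin : Tendsto (fun k => Real.sin (θ k)) atTop (𝓝 (2 * q.re)) := by
    rw [tendsto_iff_norm_sub_tendsto_zero]
    apply squeeze_zero (fun _ => norm_nonneg _) _ hlim1
    intro k
    rw [Real.norm_eq_abs]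
    have h3 : Real.sin (T k) = 2 * q.re := by
      simp only [hT]
      rw [Real.sin_add_nat_mul_two_pi]
      exact hsA
    rw [← h3]
    exact (Real.abs_sin_sub_sin_le _ _).trans (hdiff k)
  have hsin2 : ∀ k, Real.sin (θ k ^ 2) = 2 * q.im := by
    intro k
    rw [hθsq k, Real.sin_add_int_mul_two_pi]
    exact hsB
  refine ⟨fun k => 1 / θ k, fun k => by have := hθpos k; positivity, ?_, ?_⟩
  · have := tendsto_one_div_add_atTop_nhds_zero_nat (𝕜 := ℝ)
    apply squeeze_zero (fun k => by have := hθpos k; positivity) _ this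
    intro k
    exact one_div_le_one_div_of_le (by positivity) (hθ1 k)
  · have h3 : (fun k => om (1 / θ k)) = fun k => ((Real.sin (θ k) / 2 : ℝ) : ℂ) +
        ((q.im : ℝ) : ℂ) * Complex.I := by
      funext k
      have h4 : (1:ℝ) / (1 / θ k) = θ k := by rw [one_div_one_div]
      have h5 : (1:ℝ) / (1 / θ k) ^ 2 = θ k ^ 2 := by rw [one_div_pow, one_div_one_div]
      have h7 : om (1 / θ k) = ⟨Real.sin (θ k) / 2, q.im⟩ := by
        simp only [om, h4, h5, hsin2 k]
        congr 1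
        ring
      rw [h7]
      exact Complex.mk_eq_add_mul_I _ _
    rw [h3]
    have h6 : q = ((2 * q.re / 2 : ℝ) : ℂ) + ((q.im : ℝ) : ℂ) * Complex.I := by
      apply Complex.ext <;> simp
    conv_rhs => rw [h6]
    apply Tendsto.add _ tendsto_const_nhds
    exact (Complex.continuous_ofReal.tendsto _).comp (hsin.div_const 2)

lemma tau_eq {z : ℂ} {s : ℝ} (hs : 0 < s) :
    tau z s = (√(‖(√s)⁻¹ • z + om s‖ ^ 2 + 1 - ‖om s‖ ^ 2))⁻¹ • ((√s)⁻¹ • z + om s) := by
  have hs' : 0 < √s := Real.sqrt_pos.mpr hs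
  have h1 : z + av s = √s • ((√s)⁻¹ • z + om s) := by
    rw [smul_add, smul_smul, mul_inv_cancel₀ hs'.ne', one_smul, av, abs_of_pos hs]
  have h2 : uu z s = √s * √(‖(√s)⁻¹ • z + om s‖ ^ 2 + 1 - ‖om s‖ ^ 2) := by
    rw [uu, h1, norm_smul, lm, abs_of_pos hs, Real.norm_eq_abs, abs_of_pos hs', mul_pow, mul_pow,
      Real.sq_sqrt hs.le, Real.sq_sqrt (by have := om_sq_le s; linarith), ← mul_add,
      Real.sqrt_mul hs.le]
    congr 2
    ring
  rw [tau, h2, h1, smul_smul, mul_inv, mul_comm (√s)⁻¹, mul_assoc, inv_mul_cancel₀ hs'.ne',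
    mul_one]

lemma exists_seq_tau {q : ℂ} (h1 : |q.re| ≤ 1 / 2) (h2 : |q.im| ≤ 1 / 2) {r : ℝ} (hr : 0 < r) :
    ∃ s : ℕ → ℝ, (∀ k, 0 < s k ∧ s k < r) ∧ Tendsto s atTop (𝓝 0) ∧
      ∀ z : ℕ → ℂ, (∀ k, ‖z k‖ ≤ 2 * s k) → Tendsto (fun k => tau (z k) (s k)) atTop (𝓝 q) := by
  obtain ⟨s0, hpos, hlim, hom⟩ := exists_seq_om h1 h2
  have hev : ∀ᶠ k in atTop, s0 k < r := hlim.eventually (gt_mem_nhds hr)
  obtain ⟨k0, hk0⟩ := eventually_atTop.mp hev
  have hshift : Tendsto (fun k => k + k0) atTop atTop := tendsto_add_atTop_nat k0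
  refine ⟨fun k => s0 (k + k0), fun k => ⟨hpos _, hk0 _ (Nat.le_add_left _ _)⟩,
    hlim.comp hshift, ?_⟩
  intro z hz
  set s := fun k => s0 (k + k0) with hs
  have hspos : ∀ k, 0 < s k := fun k => hpos _
  have hslim : Tendsto s atTop (𝓝 0) := hlim.comp hshift
  have hsom : Tendsto (fun k => om (s k)) atTop (𝓝 q) := hom.comp hshift
  have hζ : Tendsto (fun k => (√(s k))⁻¹ • z k) atTop (𝓝 0) := by
    have h3 : Tendsto (fun k => 2 * √(s k)) atTop (𝓝 0) := by
      have := ((Real.continuous_sqrt.tendsto 0).comp hslim).const_mul 2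
      simpa using this
    apply squeeze_zero_norm _ h3
    intro k
    have hs' : 0 < √(s k) := Real.sqrt_pos.mpr (hspos k)
    rw [norm_smul, norm_inv, Real.norm_eq_abs, abs_of_pos hs', inv_mul_le_iff₀ hs']
    have h4 : √(s k) * √(s k) = s k := Real.mul_self_sqrt (hspos k).le
    have h5 := hz k
    have h6 : ‖z k‖ ≤ 2 * s k := h5
    nlinarith
  have hsum : Tendsto (fun k => (√(s k))⁻¹ • z k + om (s k)) atTop (𝓝 q) := by
    have := hζ.add hsom
    simpa using this
  have hX : Tendsto (fun k => √(‖(√(s k))⁻¹ • z k + om (s k)‖ ^ 2 + 1 - ‖om (s k)‖ ^ 2)) atTop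
      (𝓝 1) := by
    have h3 : Tendsto (fun k => ‖(√(s k))⁻¹ • z k + om (s k)‖ ^ 2 + 1 - ‖om (s k)‖ ^ 2) atTop
        (𝓝 (‖q‖ ^ 2 + 1 - ‖q‖ ^ 2)) :=
      ((hsum.norm.pow 2).add_const 1).sub (hsom.norm.pow 2)
    have h4 : ‖q‖ ^ 2 + 1 - ‖q‖ ^ 2 = 1 := by ring
    rw [h4] at h3
    have := (Real.continuous_sqrt.tendsto 1).comp h3
    rw [Real.sqrt_one] at this
    exact this
  have hfin := (hX.inv₀ one_ne_zero).smul hsum
  rw [inv_one, one_smul] at hfin
  refine hfin.congr (fun k => ?_)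
  exact (tau_eq (hspos k)).symm

end Pool.Agent.H72
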