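import Mathlib
import Pool.Agent.H72.Tau

set_option autoImplicit false

namespace Pool.Agent.H72

open Set Topology Filter

/-- positive summable weights on the dyadic points -/
noncomputable def bw : ℂ → ℝ := (CC_countable.exists_pos_hasSum_le one_pos).choose

lemma bw_pos (c : ℂ) : 0 < bw c := (CC_countable.exists_pos_hasSum_le one_pos).choose_spec.1 c

lemma bw_summable : Summable (fun c : CC => bw c) := by
  obtain ⟨s, hs, _⟩ := (CC_countable.exists_pos_hasSum_le one_pos).choose_spec.2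
  exact hs.summable

lemma bw_tsum_le : ∑' c : CC, bw c ≤ 1 := by
  obtain ⟨s, hs, hs1⟩ := (CC_countable.exists_pos_hasSum_le one_pos).choose_spec.2
  have : ∑' c : CC, bw c = s := hs.tsum_eq
  rw [this]
  exact hs1

lemma uu_subgrad' (z z' : ℂ) (s : ℝ) :
    uu z s + inner ℝ (z' - z) (tau z s) ≤ uu z' s := by
  rw [real_inner_comm]
  exact uu_subgrad z z' s

lemma uu_lip (z z' : ℂ) (s : ℝ) : |uu z s - uu z' s| ≤ ‖z - z'‖ := by
  have key : ∀ z z' : ℂ, uu z s - uu z' s ≤ ‖z - z'‖ := by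
    intro z z'
    have h1 := uu_subgrad' z z' s
    have h2 : -(‖z' - z‖ * ‖tau z s‖) ≤ inner ℝ (z' - z) (tau z s) := by
      have := abs_real_inner_le_norm (z' - z) (tau z s)
      exact (abs_le.mp this).1
    have h3 : ‖z' - z‖ * ‖tau z s‖ ≤ ‖z' - z‖ :=
      mul_le_of_le_one_right (norm_nonneg _) (tau_norm_le z s)
    have e : ‖z' - z‖ = ‖z - z'‖ := norm_sub_rev _ _
    rw [e] at h2 h3
    linarith
  rw [abs_le]
  constructor
  · have := key z' z
    rw [norm_sub_rev] at this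
    linarith
  · exact key z z'

/-- the convex potential -/
noncomputable def vv (x : ℂ) (t : ℝ) : ℝ :=
  ∑' c : CC, bw c * (uu (x - c) (t - phi c) - uu (-(c : ℂ)) (t - phi c))

/-- its gradient -/
noncomputable def PP (x : ℂ) (t : ℝ) : ℂ :=
  ∑' c : CC, bw c • tau (x - c) (t - phi c)

lemma vv_term_bound (x : ℂ) (t : ℝ) (c : CC) :
    ‖bw c * (uu (x - c) (t - phi c) - uu (-(c : ℂ)) (t - phi c))‖ ≤ bw c * ‖x‖ := by
  rw [norm_mul, Real.norm_eq_abs, Real.norm_eq_abs, abs_of_pos (bw_pos c)]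
  apply mul_le_mul_of_nonneg_left _ (bw_pos c).le
  have := uu_lip (x - c) (-(c : ℂ)) (t - phi c)
  have h2 : x - c - -(c : ℂ) = x := by ring
  rw [h2] at this
  exact this

lemma vv_summable (x : ℂ) (t : ℝ) : Summable
    (fun c : CC => bw c * (uu (x - c) (t - phi c) - uu (-(c : ℂ)) (t - phi c))) :=
  Summable.of_norm_bounded (bw_summable.mul_right ‖x‖) (vv_term_bound x t)

lemma PP_term_bound (x : ℂ) (t : ℝ) (c : CC) : ‖bw c • tau (x - c) (t - phi c)‖ ≤ bw c := by
  rw [norm_smul, Real.norm_eq_abs, abs_of_pos (bw_pos c)]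
  exact mul_le_of_le_one_right (bw_pos c).le (tau_norm_le _ _)

lemma PP_summable (x : ℂ) (t : ℝ) : Summable (fun c : CC => bw c • tau (x - c) (t - phi c)) :=
  Summable.of_norm_bounded bw_summable (PP_term_bound x t)

lemma PP_norm_le (x : ℂ) (t : ℝ) : ‖PP x t‖ ≤ 1 :=
  (tsum_of_norm_bounded bw_summable.hasSum (PP_term_bound x t)).trans bw_tsum_le

lemma vv_subgrad (x x' : ℂ) (t : ℝ) : vv x t + inner ℝ (x' - x) (PP x t) ≤ vv x' t := by
  have h1 : inner ℝ (x' - x) (PP x t) =
      ∑' c : CC, inner ℝ (x' - x) (bw c • tau (x - c) (t - phi c)) := by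
    have := (innerSL ℝ (x' - x)).map_tsum (PP_summable x t)
    simp only [innerSL_apply_apply] at this
    exact this
  have hs : Summable (fun c : CC => inner ℝ (x' - x) (bw c • tau (x - c) (t - phi c))) := by
    have := (PP_summable x t).map (innerSL ℝ (x' - x)) (innerSL ℝ (x' - x)).continuous
    simp only [Function.comp_def, innerSL_apply_apply] at this
    exact this
  rw [h1, vv, vv, ← Summable.tsum_add (vv_summable x t) hs]
  apply Summable.tsum_le_tsum _ ((vv_summable x t).add hs) (vv_summable x' t)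
  intro c
  rw [inner_smul_right, ← mul_add]
  apply mul_le_mul_of_nonneg_left _ (bw_pos c).le
  have h2 := uu_subgrad' (x - c) (x' - c) (t - phi c)
  have h3 : x' - (c : ℂ) - (x - c) = x' - x := by ring
  rw [h3] at h2
  linarith

lemma vv_continuous : Continuous (fun p : ℂ × ℝ => vv p.1 p.2) := by
  rw [continuous_iff_continuousAt]
  intro p
  have hopen : IsOpen {p' : ℂ × ℝ | ‖p'.1‖ < ‖p.1‖ + 1} :=
    isOpen_lt continuous_fst.norm continuous_const
  have hmem : p ∈ {p' : ℂ × ℝ | ‖p'.1‖ < ‖p.1‖ + 1} := by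
    simp
  apply ContinuousOn.continuousAt _ (hopen.mem_nhds hmem)
  apply continuousOn_tsum (u := fun c : CC => bw c * (‖p.1‖ + 1))
  · intro c
    apply Continuous.continuousOn
    apply continuous_const.mul
    apply Continuous.sub
    · exact uu_continuous.comp ((continuous_fst.sub continuous_const).prodMk
        (continuous_snd.sub continuous_const))
    · exact uu_continuous.comp (continuous_const.prodMk (continuous_snd.sub continuous_const))
  · exact bw_summable.mul_right _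
  · intro c p' hp'
    refine (vv_term_bound p'.1 p'.2 c).trans ?_
    apply mul_le_mul_of_nonneg_left _ (bw_pos c).le
    exact le_of_lt hp'

lemma PP_continuousAt {x : ℂ} (hx : x ∉ CC) (t : ℝ) :
    ContinuousAt (fun p : ℂ × ℝ => PP p.1 p.2) (x, t) := by
  apply tendsto_tsum_of_dominated_convergence bw_summable
  · intro c
    have hne : x - (c : ℂ) ≠ 0 := by
      rw [sub_ne_zero]
      intro h
      exact hx (h ▸ c.2)
    have h1 : ContinuousAt (fun p : ℂ × ℝ => tau p.1 p.2) (x - c, t - phi c) :=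
      tau_continuousAt (Or.inl hne)
    have h2 : Tendsto (fun p : ℂ × ℝ => (p.1 - (c : ℂ), p.2 - phi c)) (𝓝 (x, t))
        (𝓝 (x - c, t - phi c)) := by
      have : Continuous (fun p : ℂ × ℝ => (p.1 - (c : ℂ), p.2 - phi c)) :=
        (continuous_fst.sub continuous_const).prodMk (continuous_snd.sub continuous_const)
      exact this.tendsto (x, t)
    have h3 := h1.tendsto.comp h2
    exact h3.const_smul (bw c)
  · exact Eventually.of_forall (fun p c => PP_term_bound p.1 p.2 c)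

attribute [irreducible] vv PP bw

/-- the variational inequality characterising the proximal point -/
def IsProx (y : ℂ) (t : ℝ) (x : ℂ) : Prop := ∀ ξ : ℂ, vv x t + inner ℝ (y - x) (ξ - x) ≤ vv ξ t

lemma vv_lower (x x' : ℂ) (t : ℝ) : vv x t - ‖x' - x‖ ≤ vv x' t := by
  have h1 := vv_subgrad x x' t
  have h2 : -(‖x' - x‖ * ‖PP x t‖) ≤ inner ℝ (x' - x) (PP x t) :=
    (abs_le.mp (abs_real_inner_le_norm _ _)).1
  have h3 : ‖x' - x‖ * ‖PP x t‖ ≤ ‖x' - x‖ :=
    mul_le_of_le_one_right (norm_nonneg _) (PP_norm_le x t)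
  linarith

lemma exists_min (y : ℂ) (t : ℝ) :
    ∃ x : ℂ, ∀ ξ : ℂ, ‖x - y‖ ^ 2 / 2 + vv x t ≤ ‖ξ - y‖ ^ 2 / 2 + vv ξ t := by
  have hc : Continuous (fun ξ : ℂ => ‖ξ - y‖ ^ 2 / 2 + vv ξ t) := by
    apply Continuous.add
    · exact (((continuous_id.sub continuous_const).norm).pow 2).div_const 2
    · exact vv_continuous.comp (continuous_id.prodMk continuous_const)
  obtain ⟨x, hx, hmin⟩ := (isCompact_closedBall y 2).exists_isMinOn
    ⟨y, Metric.mem_closedBall_self (by norm_num)⟩ hc.continuousOn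
  refine ⟨x, fun ξ => ?_⟩
  by_cases h : ξ ∈ Metric.closedBall y 2
  · exact hmin h
  · rw [Metric.mem_closedBall, dist_eq_norm, not_le] at h
    have h1 := hmin (Metric.mem_closedBall_self (show (0:ℝ) ≤ 2 by norm_num))
    simp only [sub_self, norm_zero, mem_ofPred_eq] at h1
    have h2 := vv_lower y ξ t
    have h1' : ‖x - y‖ ^ 2 / 2 + vv x t ≤ vv y t := by
      have := h1
      simp at this
      exact this
    nlinarith

lemma exists_isProx (y : ℂ) (t : ℝ) : ∃ x, IsProx y t x := by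
  obtain ⟨x, hx⟩ := exists_min y t
  refine ⟨x, fun ξ => ?_⟩
  -- for all θ in (0,1]
  have key : ∀ θ : ℝ, 0 < θ → θ ≤ 1 →
      vv x t + inner ℝ (y - x) (ξ - x) ≤ vv ξ t + θ * (‖ξ - x‖ ^ 2 / 2) := by
    intro θ hθ hθ1
    set m := x + θ • (ξ - x) with hm
    have h1 := hx m
    have h2 : ‖m - y‖ ^ 2 = ‖x - y‖ ^ 2 + 2 * (θ * inner ℝ (x - y) (ξ - x)) +
        θ ^ 2 * ‖ξ - x‖ ^ 2 := by
      have : m - y = (x - y) + θ • (ξ - x) := by rw [hm]; ring_nf
      rw [this, norm_add_sq_real, inner_smul_right, norm_smul, mul_pow, Real.norm_eq_abs, sq_abs]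
    have h3 := vv_subgrad m x t
    have h4 := vv_subgrad m ξ t
    have h5 : x - m = -θ • (ξ - x) := by
      rw [hm, neg_smul]; ring_nf
    have h6 : ξ - m = (1 - θ) • (ξ - x) := by
      rw [hm, sub_smul, one_smul]; ring_nf
    rw [h5, inner_smul_left] at h3
    rw [h6, inner_smul_left] at h4
    simp only [conj_trivial] at h3 h4
    -- convexity: vv m ≤ (1-θ) vv x + θ vv ξ
    have h7 : vv m t ≤ (1 - θ) * vv x t + θ * vv ξ t := by
      have h8 := mul_le_mul_of_nonneg_left h3 (sub_nonneg.mpr hθ1)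
      have h9 := mul_le_mul_of_nonneg_left h4 hθ.le
      nlinarith
    have h10 : inner ℝ (x - y) (ξ - x) = - inner ℝ (y - x) (ξ - x) := by
      rw [← inner_neg_left]; congr 1; ring
    rw [h2, h10] at h1
    have h11 : θ * (vv x t + inner ℝ (y - x) (ξ - x)) ≤ θ * (vv ξ t + θ * (‖ξ - x‖ ^ 2 / 2)) := by
      nlinarith
    exact le_of_mul_le_mul_left h11 hθ
  by_contra hcon
  rw [not_le] at hcon
  set δ := vv x t + inner ℝ (y - x) (ξ - x) - vv ξ t with hδ
  have hδpos : 0 < δ := by linarith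
  set M := ‖ξ - x‖ ^ 2 / 2 with hM
  have hM0 : 0 ≤ M := by positivity
  have h1 := key (min 1 (δ / (2 * (M + 1)))) (by positivity) (min_le_left _ _)
  have h2 : min 1 (δ / (2 * (M + 1))) * M ≤ δ / (2 * (M + 1)) * M :=
    mul_le_mul_of_nonneg_right (min_le_right _ _) hM0
  have h3 : δ / (2 * (M + 1)) * M ≤ δ / 2 := by
    rw [div_mul_eq_mul_div, div_le_div_iff₀ (by positivity) (by norm_num)]
    nlinarith
  linarith

lemma IsProx.unique {y : ℂ} {t : ℝ} {x x' : ℂ} (h : IsProx y t x) (h' : IsProx y t x') :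
    x = x' := by
  have h1 := h x'
  have h2 := h' x
  have h3 : inner ℝ (y - x) (x' - x) + inner ℝ (y - x') (x - x') = ‖x - x'‖ ^ 2 := by
    have e1 : inner ℝ (y - x) (x' - x) = - inner ℝ (y - x) (x - x') := by
      rw [← inner_neg_right]; congr 1; ring
    rw [e1, neg_add_eq_sub, ← inner_sub_left]
    have e2 : y - x' - (y - x) = x - x' := by ring
    rw [e2, real_inner_self_eq_norm_sq]
  have h4 : ‖x - x'‖ ^ 2 ≤ 0 := by linarith
  have h5 : ‖x - x'‖ = 0 := by nlinarith [norm_nonneg (x - x')]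
  exact sub_eq_zero.mp (norm_eq_zero.mp h5)

/-- the proximal map at level `t` -/
noncomputable def prox (y : ℂ) (t : ℝ) : ℂ := (exists_isProx y t).choose

lemma prox_spec (y : ℂ) (t : ℝ) : IsProx y t (prox y t) := (exists_isProx y t).choose_spec

lemma prox_eq {y : ℂ} {t : ℝ} {x : ℂ} (h : IsProx y t x) : prox y t = x :=
  (prox_spec y t).unique h

lemma isProx_add_PP (x : ℂ) (t : ℝ) : IsProx (x + PP x t) t x := by
  intro ξ
  have h := vv_subgrad x ξ t
  rw [add_sub_cancel_left, real_inner_comm]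
  exact h

lemma IsProx.norm_le {y : ℂ} {t : ℝ} {x : ℂ} (h : IsProx y t x) : ‖x - y‖ ≤ 1 := by
  have h1 := h y
  have h2 := vv_lower y x t
  rw [real_inner_self_eq_norm_sq, norm_sub_rev] at h1
  by_contra hcon
  rw [not_le] at hcon
  nlinarith

lemma prox_continuous : Continuous (fun p : ℂ × ℝ => prox p.1 p.2) := by
  rw [continuous_iff_continuousAt]
  intro p
  apply tendsto_of_subseq_tendsto
  intro ns hns
  -- the sequence of proximal points is bounded
  have hns1 : Tendsto (fun k => (ns k).1) atTop (𝓝 p.1) := (continuous_fst.tendsto p).comp hns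
  have hbd : ∃ R : ℝ, ∀ᶠ k in atTop, prox (ns k).1 (ns k).2 ∈ Metric.closedBall (0:ℂ) R := by
    refine ⟨‖p.1‖ + 2, ?_⟩
    have h1 : ∀ᶠ k in atTop, ‖(ns k).1‖ < ‖p.1‖ + 1 :=
      hns1.norm.eventually (gt_mem_nhds (by linarith))
    filter_upwards [h1] with k hk
    rw [mem_closedBall_zero_iff]
    have h2 := (prox_spec (ns k).1 (ns k).2).norm_le
    have h3 := norm_le_norm_add_norm_sub' (prox (ns k).1 (ns k).2) (ns k).1
    linarith
  obtain ⟨R, hR⟩ := hbd
  obtain ⟨x, _, ms, hms, hlim⟩ := (isCompact_closedBall (0:ℂ) R).tendsto_subseq' hR.frequently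
  refine ⟨ms, ?_⟩
  have hx : IsProx p.1 p.2 x := by
    intro ξ
    have hnsm : Tendsto (fun k => ns (ms k)) atTop (𝓝 p) := hns.comp hms.tendsto_atTop
    have hL : Tendsto (fun k => (ns (ms k)).2) atTop (𝓝 p.2) := (continuous_snd.tendsto p).comp hnsm
    have hL1 : Tendsto (fun k => (ns (ms k)).1) atTop (𝓝 p.1) :=
      (continuous_fst.tendsto p).comp hnsm
    have h1 : Tendsto (fun k => vv (prox (ns (ms k)).1 (ns (ms k)).2) (ns (ms k)).2) atTop
        (𝓝 (vv x p.2)) :=
      (vv_continuous.tendsto (x, p.2)).comp (hlim.prodMk_nhds hL)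
    have h2 : Tendsto (fun k => vv ξ (ns (ms k)).2) atTop (𝓝 (vv ξ p.2)) :=
      (vv_continuous.tendsto (ξ, p.2)).comp (tendsto_const_nhds.prodMk_nhds hL)
    have h3 : Tendsto (fun k => inner ℝ ((ns (ms k)).1 - prox (ns (ms k)).1 (ns (ms k)).2)
        (ξ - prox (ns (ms k)).1 (ns (ms k)).2)) atTop (𝓝 (inner ℝ (p.1 - x) (ξ - x))) :=
      (hL1.sub hlim).inner (tendsto_const_nhds.sub hlim)
    exact le_of_tendsto_of_tendsto' (h1.add h3) h2
      (fun k => prox_spec (ns (ms k)).1 (ns (ms k)).2 ξ)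
  change Tendsto _ atTop (𝓝 (prox p.1 p.2))
  rw [prox_eq hx]
  exact hlim

/-- Minty's inequality -/
lemma IsProx.minty {y : ℂ} {t : ℝ} {x : ℂ} (h : IsProx y t x) (ξ : ℂ) :
    inner ℝ (ξ - x) (y - x - PP ξ t) ≤ 0 := by
  have h1 := h ξ
  have h2 := vv_subgrad ξ x t
  have h3 : inner ℝ (x - ξ) (PP ξ t) = - inner ℝ (ξ - x) (PP ξ t) := by
    rw [← inner_neg_left]; congr 1; ring
  rw [h3] at h2
  rw [real_inner_comm] at h1
  rw [inner_sub_right]
  linarith

lemma IsProx.norm_sub_le {y : ℂ} {t : ℝ} {x : ℂ} (h : IsProx y t x) {ε : ℝ} (hε : 0 < ε) :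
    ‖y - x - PP x t‖ ≤ ‖PP (x + ε • (y - x - PP x t)) t - PP x t‖ := by
  set w := y - x - PP x t with hw
  have h1 := h.minty (x + ε • w)
  have h2 : x + ε • w - x = ε • w := by ring_nf
  rw [h2, inner_smul_left] at h1
  simp only [conj_trivial] at h1
  have h3 : inner ℝ w (y - x - PP (x + ε • w) t) ≤ 0 := by
    by_contra hcon
    rw [not_le] at hcon
    have := mul_pos hε hcon
    linarith
  have h4 : y - x - PP (x + ε • w) t = w - (PP (x + ε • w) t - PP x t) := by
    rw [hw]; ring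
  rw [h4, inner_sub_right, real_inner_self_eq_norm_sq] at h3
  have h5 : inner ℝ w (PP (x + ε • w) t - PP x t) ≤ ‖w‖ * ‖PP (x + ε • w) t - PP x t‖ :=
    real_inner_le_norm _ _
  by_cases h6 : ‖w‖ = 0
  · rw [h6]; exact norm_nonneg _
  · have h7 : 0 < ‖w‖ := lt_of_le_of_ne (norm_nonneg _) (Ne.symm h6)
    have h8 : ‖w‖ * ‖w‖ ≤ ‖w‖ * ‖PP (x + ε • w) t - PP x t‖ := by nlinarith
    exact le_of_mul_le_mul_left h8 h7

lemma IsProx.eq_of_notMem {y : ℂ} {t : ℝ} {x : ℂ} (h : IsProx y t x) (hx : x ∉ CC) :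
    y = x + PP x t := by
  set w := y - x - PP x t with hw
  have h1 : Tendsto (fun k : ℕ => ‖PP (x + (1 / ((k : ℝ) + 1)) • w) t - PP x t‖) atTop (𝓝 0) := by
    rw [← tendsto_iff_norm_sub_tendsto_zero]
    have h2 : Tendsto (fun k : ℕ => (x + (1 / ((k : ℝ) + 1)) • w, t)) atTop (𝓝 (x, t)) := by
      apply Tendsto.prodMk_nhds _ tendsto_const_nhds
      have h3 : Tendsto (fun k : ℕ => x + (1 / ((k : ℝ) + 1)) • w) atTop
          (𝓝 (x + (0:ℝ) • w)) :=
        tendsto_const_nhds.add ((tendsto_one_div_add_atTop_nhds_zero_nat (𝕜 := ℝ)).smul_const w)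
      simpa using h3
    exact (PP_continuousAt hx t).tendsto.comp h2
  have h2 : ‖w‖ ≤ 0 := by
    apply ge_of_tendsto' h1
    intro k
    exact h.norm_sub_le (by positivity)
  have h3 : w = 0 := norm_le_zero_iff.mp h2
  rw [hw, sub_sub, sub_eq_zero] at h3
  exact h3

end Pool.Agent.H72
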