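import Mathlib
import Pool.Agent.H72.Prox

set_option autoImplicit false

namespace Pool.Agent.H72

open Set Topology Filter

attribute [local irreducible] phi prox

/-- the bad set -/
def AA : Set (ℂ × ℝ) := {p | phi (prox p.1 p.2) = p.2 ∧ prox p.1 p.2 ∉ CC}

theorem dimLe_AA : DimLe AA 1 := by
  apply DimLe.transfer dimLe_compl_CC (fun p => prox p.1 p.2) prox_continuous
    (fun p hp => hp.2) (fun x => (x + PP x (phi x), phi x))
  · intro x hx
    apply ContinuousAt.continuousWithinAt
    apply ContinuousAt.prodMk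
    · apply ContinuousAt.add continuousAt_id
      have h1 := PP_continuousAt (show x ∉ CC from hx) (phi x)
      exact ContinuousAt.comp (f := fun x : ℂ => (x, phi x)) h1
        (continuousAt_id.prodMk phi_continuous.continuousAt)
    · exact phi_continuous.continuousAt
  · intro x hx
    have h1 : prox (x + PP x (phi x)) (phi x) = x := prox_eq (isProx_add_PP x (phi x))
    refine ⟨?_, ?_⟩
    · change phi (prox (x + PP x (phi x)) (phi x)) = phi x
      rw [h1]
    · change prox (x + PP x (phi x)) (phi x) ∉ CC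
      rw [h1]
      exact hx
  · rintro ⟨y, t⟩ ⟨h1, h2⟩
    simp only at h1 h2 ⊢
    have h3 := (prox_spec y t).eq_of_notMem h2
    rw [h1, ← h3]

/-- the limit gradient at the singular point, when the direction tends to `q` -/
noncomputable def Pstar (c q : ℂ) : ℂ :=
  open Classical in
  ∑' c' : CC, if (c' : ℂ) = c then bw c • q else bw c' • tau (c - c') (phi c - phi c')

lemma Pstar_eq {c : ℂ} (hc : c ∈ CC) (q : ℂ) : Pstar c q = bw c • q + Pstar c 0 := by
  classical
  have hsum : ∀ q : ℂ, Summable (fun c' : CC => if (c' : ℂ) = c then bw c • q else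
      bw c' • tau (c - c') (phi c - phi c')) := by
    intro q
    apply Summable.of_norm_bounded (bw_summable.mul_right (‖q‖ + 1))
    intro c'
    split_ifs with h
    · rw [norm_smul, Real.norm_eq_abs, abs_of_pos (bw_pos c), h]
      apply mul_le_mul_of_nonneg_left _ (bw_pos c).le
      linarith
    · refine (PP_term_bound c (phi c) c').trans ?_
      apply le_mul_of_one_le_right (bw_pos c').le
      linarith [norm_nonneg q]
  have key : ∀ q : ℂ, Pstar c q = bw c • q + ∑' c' : CC, if c' = ⟨c, hc⟩ then 0 else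
      bw c' • tau (c - c') (phi c - phi c') := by
    intro q
    rw [Pstar, (hsum q).tsum_eq_add_tsum_ite ⟨c, hc⟩]
    simp only [if_true]
    congr 1
    apply tsum_congr
    intro c'
    by_cases h : c' = ⟨c, hc⟩
    · rw [if_pos h, if_pos h]
    · rw [if_neg h, if_neg h, if_neg]
      intro h'
      exact h (Subtype.ext h')
  rw [key q, key 0, smul_zero, zero_add]

lemma PP_tendsto {c : ℂ} {q : ℂ} {x : ℕ → ℂ} {s : ℕ → ℝ} (hs : Tendsto s atTop (𝓝 0))
    (hx : Tendsto x atTop (𝓝 c))
    (htau : Tendsto (fun k => tau (x k - c) (s k)) atTop (𝓝 q)) :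
    Tendsto (fun k => PP (x k) (phi c + s k)) atTop (𝓝 (Pstar c q)) := by
  classical
  have hP : ∀ k, PP (x k) (phi c + s k) =
      ∑' c' : CC, bw c' • tau (x k - c') (phi c + s k - phi c') := by
    intro k
    unfold PP
    rfl
  simp only [hP, Pstar]
  apply tendsto_tsum_of_dominated_convergence bw_summable
  · intro c'
    by_cases h : (c' : ℂ) = c
    · rw [if_pos h, h]
      have : ∀ k, phi c + s k - phi c = s k := fun k => by ring
      simp only [this]
      exact htau.const_smul (bw c)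
    · rw [if_neg h]
      have hne : c - (c' : ℂ) ≠ 0 := by
        rw [sub_ne_zero]
        exact fun h' => h h'.symm
      have h1 : ContinuousAt (fun p : ℂ × ℝ => tau p.1 p.2) (c - c', phi c - phi c') :=
        tau_continuousAt (Or.inl hne)
      have h2 : Tendsto (fun k => (x k - (c' : ℂ), phi c + s k - phi c')) atTop
          (𝓝 (c - c', phi c - phi c')) := by
        apply Tendsto.prodMk_nhds (hx.sub_const _)
        have := (hs.const_add (phi c)).sub_const (phi c')
        rw [add_zero] at this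
        exact this
      exact (h1.tendsto.comp h2).const_smul (bw c')
  · exact Eventually.of_forall (fun k c' => PP_term_bound (x k) (phi c + s k) c')

lemma barrier {c : ℂ} (hc : c ∈ CC) {q : ℂ} (h1 : |q.re| ≤ 1 / 2) (h2 : |q.im| ≤ 1 / 2)
    {ε : ℝ} (hε : 0 < ε) :
    ∃ N : Set (ℂ × ℝ), IsOpen N ∧ (c, phi c) ∈ N ∧ (∀ p ∈ closure N, p.2 < 5) ∧
      ∀ p : ℂ × ℝ, (prox p.1 p.2, p.2) ∈ closure N → (prox p.1 p.2, p.2) ∉ N →
        phi (prox p.1 p.2) ≤ p.2 → dist p (c + Pstar c q, phi c) < ε := by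
  obtain ⟨r, hr, hloc⟩ := phi_local_min hc
  obtain ⟨s, hs, hslim, htau⟩ := exists_seq_tau h1 h2 (show 0 < min (r / 2) (1 / 2) by positivity)
  have hspos : ∀ k, 0 < s k := fun k => (hs k).1
  have hsr : ∀ k, 2 * s k ≤ r := fun k => by
    have := (hs k).2.le.trans (min_le_left _ _)
    linarith
  have hs2 : ∀ k, s k ≤ 1 / 2 := fun k => (hs k).2.le.trans (min_le_right _ _)
  set N : ℕ → Set (ℂ × ℝ) := fun k => {p | dist p.1 c < 2 * s k ∧ |p.2 - phi c| < s k} with hN
  have hNopen : ∀ k, IsOpen (N k) := by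
    intro k
    apply IsOpen.and
    · exact isOpen_lt (continuous_fst.dist continuous_const) continuous_const
    · exact isOpen_lt (continuous_snd.sub continuous_const).abs continuous_const
  have hNcl : ∀ k, closure (N k) ⊆ {p | dist p.1 c ≤ 2 * s k ∧ |p.2 - phi c| ≤ s k} := by
    intro k
    apply closure_minimal
    · rintro p ⟨hp1, hp2⟩
      exact ⟨hp1.le, hp2.le⟩
    · apply IsClosed.and
      · exact isClosed_le (continuous_fst.dist continuous_const) continuous_const
      · exact isClosed_le (continuous_snd.sub continuous_const).abs continuous_const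
  have hNmem : ∀ k, (c, phi c) ∈ N k := by
    intro k
    refine ⟨?_, ?_⟩
    · simp only [dist_self]; have := hspos k; positivity
    · simp only [sub_self, abs_zero]; exact hspos k
  have hN5 : ∀ k, ∀ p ∈ closure (N k), p.2 < 5 := by
    intro k p hp
    have h3 := (hNcl k hp).2
    have h4 := (abs_le.mp h3).2
    have h5 := hs2 k
    have h6 := phi_le c
    linarith
  by_contra hcon
  push Not at hcon
  have hseq : ∀ k, ∃ p : ℂ × ℝ, (prox p.1 p.2, p.2) ∈ closure (N k) ∧ (prox p.1 p.2, p.2) ∉ N k ∧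
      phi (prox p.1 p.2) ≤ p.2 ∧ ε ≤ dist p (c + Pstar c q, phi c) :=
    fun k => hcon (N k) (hNopen k) (hNmem k) (hN5 k)
  choose p hp1 hp2 hp3 hp4 using hseq
  set x : ℕ → ℂ := fun k => prox (p k).1 (p k).2 with hx
  have hxprox : ∀ k, IsProx (p k).1 (p k).2 (x k) := fun k => prox_spec _ _
  have hxc : ∀ k, ‖x k - c‖ ≤ s k := by
    intro k
    obtain ⟨h3, h4⟩ := hNcl k (hp1 k)
    simp only at h3 h4
    have h5 := hloc (x k) (h3.trans (hsr k))
    have h6 := (abs_le.mp h4).2
    have h7 := hp3 k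
    rw [← dist_eq_norm]
    have h8 : phi (x k) ≤ (p k).2 := h7
    linarith
  have ht : ∀ k, (p k).2 = phi c + s k := by
    intro k
    obtain ⟨h3, h4⟩ := hNcl k (hp1 k)
    simp only at h3 h4
    have h5 := hloc (x k) (h3.trans (hsr k))
    have h7 : phi (x k) ≤ (p k).2 := hp3 k
    have h8 : ¬ (|(p k).2 - phi c| < s k) := by
      intro h9
      apply hp2 k
      refine ⟨?_, h9⟩
      have := hxc k
      rw [← dist_eq_norm] at this
      have h10 := hspos k
      change dist (x k) c < 2 * s k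
      linarith
    have h9 : |(p k).2 - phi c| = s k := le_antisymm h4 (not_lt.mp h8)
    have h10 : 0 ≤ (p k).2 - phi c := by
      have := dist_nonneg (x := x k) (y := c)
      linarith
    rw [abs_of_nonneg h10] at h9
    linarith
  set w : ℕ → ℂ := fun k => (p k).1 - x k - PP (x k) (p k).2 with hw
  have hwnorm : ∀ k, ‖w k‖ ≤ 2 := by
    intro k
    have h3 := (hxprox k).norm_le
    rw [norm_sub_rev] at h3
    have h4 := PP_norm_le (x k) (p k).2
    have h5 := norm_sub_le ((p k).1 - x k) (PP (x k) (p k).2)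
    simp only [hw]
    linarith
  set x' : ℕ → ℂ := fun k => x k + (s k / 2) • w k with hx'
  have hx'c : ∀ k, ‖x' k - c‖ ≤ 2 * s k := by
    intro k
    have h3 : x' k - c = (x k - c) + (s k / 2) • w k := by simp only [hx']; ring
    rw [h3]
    refine (norm_add_le _ _).trans ?_
    rw [norm_smul, Real.norm_eq_abs, abs_of_pos (by have := hspos k; positivity)]
    have h4 := hwnorm k
    have h5 := hxc k
    have h6 := hspos k
    nlinarith
  have h2s : Tendsto (fun k => 2 * s k) atTop (𝓝 0) := by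
    have := hslim.const_mul 2
    simpa using this
  have hxlim : Tendsto x atTop (𝓝 c) := by
    rw [tendsto_iff_norm_sub_tendsto_zero]
    exact squeeze_zero (fun _ => norm_nonneg _) hxc hslim
  have hx'lim : Tendsto x' atTop (𝓝 c) := by
    rw [tendsto_iff_norm_sub_tendsto_zero]
    exact squeeze_zero (fun _ => norm_nonneg _) hx'c h2s
  have hPx : Tendsto (fun k => PP (x k) (phi c + s k)) atTop (𝓝 (Pstar c q)) := by
    apply PP_tendsto hslim hxlim
    apply htau
    intro k
    have h5 := hxc k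
    have h6 := hspos k
    linarith
  have hPx' : Tendsto (fun k => PP (x' k) (phi c + s k)) atTop (𝓝 (Pstar c q)) := by
    apply PP_tendsto hslim hx'lim
    exact htau _ hx'c
  have hwlim : Tendsto w atTop (𝓝 0) := by
    have h3 := (hPx'.sub hPx).norm
    rw [sub_self, norm_zero] at h3
    apply squeeze_zero_norm _ h3
    intro k
    have h4 := (hxprox k).norm_sub_le (show 0 < s k / 2 by have := hspos k; positivity)
    rw [ht k] at h4
    simp only [hw, hx', ht k]
    exact h4
  have hylim : Tendsto (fun k => (p k).1) atTop (𝓝 (c + Pstar c q)) := by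
    have h3 := (hxlim.add hPx).add hwlim
    rw [add_zero] at h3
    refine h3.congr (fun k => ?_)
    simp only [hw, ht k]
    ring
  have htlim : Tendsto (fun k => (p k).2) atTop (𝓝 (phi c)) := by
    have h3 := hslim.const_add (phi c)
    rw [add_zero] at h3
    exact h3.congr (fun k => (ht k).symm)
  have hplim : Tendsto p atTop (𝓝 (c + Pstar c q, phi c)) := hylim.prodMk_nhds htlim
  have hev := (Metric.tendsto_nhds.mp hplim) ε hε
  obtain ⟨k, hk⟩ := hev.exists
  exact absurd hk (not_lt.mpr (hp4 k))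

theorem main_K (K : Set (ℂ × ℝ)) (hKc : IsCompact K) (hKconn : IsPreconnected K)
    (hKA : ∀ p ∈ K, p ∉ AA) (h5 : ((0 : ℂ), (5 : ℝ)) ∈ K) (h1 : ((0 : ℂ), (-1 : ℝ)) ∈ K) :
    ∃ c ∈ CC, ∀ q : ℂ, |q.re| ≤ 1 / 2 → |q.im| ≤ 1 / 2 → (c + Pstar c q, phi c) ∈ K := by
  classical
  by_contra hcon
  push Not at hcon
  have hN : ∀ c ∈ CC, ∃ N : Set (ℂ × ℝ), IsOpen N ∧ (c, phi c) ∈ N ∧ (∀ p ∈ closure N, p.2 < 5) ∧
      ∀ p ∈ K, (prox p.1 p.2, p.2) ∈ closure N → phi (prox p.1 p.2) ≤ p.2 →
        (prox p.1 p.2, p.2) ∈ N := by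
    intro c hc
    obtain ⟨q, hq1, hq2, hq⟩ := hcon c hc
    have hopen : IsOpen Kᶜ := hKc.isClosed.isOpen_compl
    obtain ⟨ε, hε, hball⟩ := Metric.isOpen_iff.mp hopen _ hq
    obtain ⟨N, hNo, hNc, hN5, hNb⟩ := barrier hc hq1 hq2 hε
    refine ⟨N, hNo, hNc, hN5, ?_⟩
    intro p hp hpc hphi
    by_contra hpn
    have := hNb p hpc hpn hphi
    exact (hball (Metric.mem_ball.mpr this)) hp
  choose! N hNo hNc hN5 hNb using hN
  have hfc : Continuous (fun p : ℂ × ℝ => (prox p.1 p.2, p.2)) :=
    prox_continuous.prodMk continuous_snd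
  have hphic : Continuous (fun p : ℂ × ℝ => phi (prox p.1 p.2)) :=
    phi_continuous.comp prox_continuous
  have hcomp : IsCompact (K ∩ {p : ℂ × ℝ | phi (prox p.1 p.2) = p.2}) :=
    hKc.inter_right (isClosed_eq hphic continuous_snd)
  obtain ⟨t, ht⟩ := hcomp.elim_finite_subcover
    (fun c : CC => (fun p : ℂ × ℝ => (prox p.1 p.2, p.2)) ⁻¹' (N c))
    (fun c => (hNo c c.2).preimage hfc)
    (by
      rintro p ⟨hpK, hp⟩
      have hpC : prox p.1 p.2 ∈ CC := by
        by_contra h
        exact hKA p hpK ⟨hp, h⟩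
      rw [mem_iUnion]
      refine ⟨⟨prox p.1 p.2, hpC⟩, ?_⟩
      have h3 := hNc (prox p.1 p.2) hpC
      have h4 : phi (prox p.1 p.2) = p.2 := hp
      rw [h4] at h3
      exact h3)
  -- the two separating open sets
  set M : Set (ℂ × ℝ) := ⋃ c ∈ t, N c with hM
  have hMopen : IsOpen M := isOpen_biUnion (fun c _ => hNo c c.2)
  have hMcl : closure M = ⋃ c ∈ t, closure (N c) := t.closure_biUnion _
  set G : Set (ℂ × ℝ) := {p | phi (prox p.1 p.2) < p.2} ∩
    (fun p : ℂ × ℝ => (prox p.1 p.2, p.2)) ⁻¹' (closure M)ᶜ with hG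
  set G' : Set (ℂ × ℝ) := {p | phi (prox p.1 p.2) ≤ p.2} ∩
    (fun p : ℂ × ℝ => (prox p.1 p.2, p.2)) ⁻¹' Mᶜ with hG'
  have hGo : IsOpen G :=
    (isOpen_lt hphic continuous_snd).inter (isClosed_closure.isOpen_compl.preimage hfc)
  have hG'c : IsClosed G' :=
    (isClosed_le hphic continuous_snd).inter (hMopen.isClosed_compl.preimage hfc)
  have hsub : G ⊆ G' := by
    rintro p ⟨hp1, hp2⟩
    have hp1' : phi (prox p.1 p.2) < p.2 := hp1
    exact ⟨hp1'.le, fun h => hp2 (subset_closure h)⟩
  have hcov : K ⊆ G ∪ G'ᶜ := by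
    intro p hp
    by_cases hpG : p ∈ G'
    · left
      obtain ⟨hp1, hp2⟩ := hpG
      have hp1' : phi (prox p.1 p.2) ≤ p.2 := hp1
      refine ⟨?_, ?_⟩
      · apply lt_of_le_of_ne hp1'
        intro heq
        have h3 := ht ⟨hp, heq⟩
        simp only [mem_iUnion] at h3
        obtain ⟨c, hct, hpc⟩ := h3
        apply hp2
        simp only [hM, mem_iUnion]
        exact ⟨c, hct, hpc⟩
      · intro hcl
        rw [hMcl] at hcl
        simp only [mem_iUnion] at hcl
        obtain ⟨c, hct, hpc⟩ := hcl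
        apply hp2
        simp only [hM, mem_iUnion]
        exact ⟨c, hct, hNb c c.2 p hp hpc hp1'⟩
    · right; exact hpG
  have hmem : ((0 : ℂ), (5 : ℝ)) ∈ G := by
    refine ⟨?_, ?_⟩
    · change phi (prox 0 5) < 5
      have := phi_le (prox 0 5)
      linarith
    · intro hcl
      rw [hMcl] at hcl
      simp only [mem_iUnion] at hcl
      obtain ⟨c, _, hpc⟩ := hcl
      have := hN5 c c.2 _ hpc
      exact lt_irrefl _ this
  have hKG : K ⊆ G := hKconn.subset_left_of_subset_union hGo hG'c.isOpen_compl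
    (by
      rw [Set.disjoint_left]
      intro p hp hp'
      exact hp' (hsub hp)) hcov ⟨_, h5, hmem⟩
  have h6 := (hKG h1).1
  have h7 : phi (prox 0 (-1)) < -1 := h6
  have h8 := phi_nonneg (prox 0 (-1))
  linarith

theorem not_dimLe_of_continuum {X : Type*} [TopologicalSpace X] [T2Space X] (e : X ≃ₜ ℂ × ℝ)
    (C : Set X) (hCc : IsCompact C) (hC : IsPreconnected C) (hCA : ∀ p ∈ C, e p ∉ AA)
    (h5 : e.symm ((0 : ℂ), (5 : ℝ)) ∈ C) (h1 : e.symm ((0 : ℂ), (-1 : ℝ)) ∈ C) :
    ¬ DimLe C 1 := by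
  obtain ⟨c, hc, hq⟩ := main_K (e '' C) (hCc.image e.continuous)
    (hC.image e e.continuous.continuousOn)
    (by
      rintro _ ⟨p, hp, rfl⟩
      exact hCA p hp)
    ⟨_, h5, e.apply_symm_apply _⟩ ⟨_, h1, e.apply_symm_apply _⟩
  have hb := bw_pos c
  apply not_dimLe_one_of_square C
    (fun p : ℝ × ℝ => e.symm (c + (bw c • (⟨p.1 - 1 / 2, p.2 - 1 / 2⟩ : ℂ) + Pstar c 0), phi c))
  · apply e.symm.continuous.comp
    apply Continuous.prodMk _ continuous_const
    apply continuous_const.add
    apply Continuous.add _ continuous_const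
    apply Continuous.fun_const_smul
    have : (fun p : ℝ × ℝ => (⟨p.1 - 1 / 2, p.2 - 1 / 2⟩ : ℂ)) =
        fun p : ℝ × ℝ => ((p.1 - 1 / 2 : ℝ) : ℂ) + ((p.2 - 1 / 2 : ℝ) : ℂ) * Complex.I := by
      funext p
      exact Complex.mk_eq_add_mul_I _ _
    rw [this]
    apply Continuous.add
    · exact Complex.continuous_ofReal.comp (continuous_fst.sub continuous_const)
    · exact (Complex.continuous_ofReal.comp (continuous_snd.sub continuous_const)).mul
        continuous_const
  · rintro ⟨a, b⟩ ⟨a', b'⟩ h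
    have h2 := e.symm.injective h
    simp only [Prod.mk.injEq, and_true, add_right_inj, add_left_inj] at h2
    have h3 := smul_right_injective ℂ hb.ne' h2
    have h4 := congrArg Complex.re h3
    have h5 := congrArg Complex.im h3
    simp only [sub_left_inj] at h4 h5
    rw [h4, h5]
  · rintro ⟨a, b⟩ ⟨⟨ha1, ha2⟩, ⟨hb1, hb2⟩⟩
    simp only at ha1 ha2 hb1 hb2
    have h3 := hq ⟨a - 1 / 2, b - 1 / 2⟩
      (by simp only; rw [abs_le]; constructor <;> linarith)
      (by simp only; rw [abs_le]; constructor <;> linarith)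
    rw [Pstar_eq hc] at h3
    obtain ⟨p, hp, hpe⟩ := h3
    simp only
    rw [← hpe, e.symm_apply_apply]
    exact hp

end Pool.Agent.H72
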