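import Pool.Agent.H72.QQC

/-!
# Q5 (CASE T of K3_QQ_S1_helper96): the covector path of a critical context, affine stacks

One context, window units.  Reference path of covectors `(τ G, 1 + α τ)`; exact stack at time `τ`:
`F - s_τ · y`.  From `(**)` at the typical times `τ ∈ T` for the lines of the context and from the
relation `G · (om - α y) = ga - α be + O(ε + θ |G|)` of the lines of a leaf of a quadric, the path
of the exact covectors `(τ G - s_τ, 1 + α τ)` is, up to scalars, a path of degree `≤ 1`.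

`q5a` : no condition on the size of `G` (flat / birth / curved in one statement), error
`C(ρ) (1 + Bd) (ε + θ / ε)`.
-/

namespace Pool.H72.Q5A

open Polynomial Finset Module QQC

/-- Linear combination of the relations `(**)`. -/
theorem comb_star (w : Fin 3 → ℝ) (K ε : ℝ) (hε : 0 ≤ ε) (hw : ∑ i, |w i| ≤ K) (f : Fin 3 → ℝ)
    (hf : ∀ i, |f i| ≤ ε) : |∑ i, w i * f i| ≤ K * ε := by
  calc |∑ i, w i * f i| ≤ ∑ i, |w i * f i| := abs_sum_le_sum_abs _ _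
    _ ≤ ∑ i, |w i| * ε := by
        refine sum_le_sum fun i _ => ?_
        rw [abs_mul]
        exact mul_le_mul_of_nonneg_left (hf i) (abs_nonneg _)
    _ = (∑ i, |w i|) * ε := by rw [sum_mul]
    _ ≤ K * ε := mul_le_mul_of_nonneg_right hw hε

/-- CURVED CASE in the frame `(e, f)`, `G = Γ f`. -/
theorem affB (T : Set ℝ) (ρ ε α Γ K Bd : ℝ) (hρ : 0 < ρ) (hρ1 : ρ ≤ 1) (hε : 0 ≤ ε)
    (hα : |α| ≤ 1) (hΓ : 0 < Γ) (hT : ∀ τ ∈ T, |τ| ≤ 1 ∧ ρ ≤ |τ|)
    (t : Fin 3 → ℝ) (ht : ∀ i, t i ∈ T) (hsep : ∀ i j, i ≠ j → ρ ≤ |t i - t j|)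
    (se sf : ℝ → ℝ) (hse : ∀ τ ∈ T, |se τ| ≤ Bd) (hsf : ∀ τ ∈ T, |sf τ| ≤ Bd)
    (De Df Ds be ga : Fin 3 → ℝ) (hbe : ∀ i, |be i| ≤ 2) (hga : ∀ i, |ga i| ≤ 2)
    (hA : ∀ j : Fin 3, ∃ w : Fin 3 → ℝ, ∑ i, |w i| ≤ K ∧
       ∀ l : Fin 3, ∑ i, w i * (![De i, Df i, Ds i] : Fin 3 → ℝ) l = if l = j then 1 else 0)
    (hstar : ∀ τ ∈ T, ∀ i, |se τ * ((1 + α * τ) * De i + τ * Ds i)
        + sf τ * ((1 + α * τ) * Df i) - τ * be i - τ ^ 2 * ga i| ≤ ε) :
    ∃ b r g : ℝ, |r| ≤ 4 * K / Γ ∧ ∀ τ ∈ T,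
      |(1 + α * τ - τ * r) * (0 - se τ) - (1 + α * τ) * (τ * b)|
        ≤ 2 * (K * ε / ρ) * (1 + 3 * V 3 ρ) + 4 * K / Γ * Bd ∧
      |(1 + α * τ - τ * r) * (τ * Γ - sf τ) - (1 + α * τ) * (τ * g)|
        ≤ 2 * (K * ε / ρ) * (1 + 3 * V 3 ρ) + 4 * K / Γ * Bd := by
  obtain ⟨w0, hw0, hw0'⟩ := hA 0
  obtain ⟨w1, hw1, hw1'⟩ := hA 1
  obtain ⟨w2, hw2, hw2'⟩ := hA 2
  have hK : 0 ≤ K := le_trans (sum_nonneg fun i _ => abs_nonneg _) hw0
  have hBd : 0 ≤ Bd := le_trans (abs_nonneg _) (hse _ (ht 0))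
  have hV : 0 ≤ V 3 ρ := V_nonneg 3 hρ
  -- the three combinations
  have c2 : ∀ τ ∈ T, |τ * se τ - τ * (∑ i, w2 i * be i) - τ ^ 2 * (∑ i, w2 i * ga i)| ≤ K * ε := by
    intro τ hτ
    have h := comb_star w2 K ε hε hw2 _ (hstar τ hτ)
    have e0 := hw2' 0
    have e1 := hw2' 1
    have e2 := hw2' 2
    simp only [Fin.sum_univ_three, Fin.isValue, Matrix.cons_val_zero, Matrix.cons_val_one,
      Matrix.cons_val] at e0 e1 e2 h ⊢
    rw [if_neg (by decide)] at e0 e1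
    rw [if_pos trivial] at e2
    have : τ * se τ - τ * (w2 0 * be 0 + w2 1 * be 1 + w2 2 * be 2)
        - τ ^ 2 * (w2 0 * ga 0 + w2 1 * ga 1 + w2 2 * ga 2)
        = w2 0 * (se τ * ((1 + α * τ) * De 0 + τ * Ds 0)
        + sf τ * ((1 + α * τ) * Df 0) - τ * be 0 - τ ^ 2 * ga 0)
        + w2 1 * (se τ * ((1 + α * τ) * De 1 + τ * Ds 1)
        + sf τ * ((1 + α * τ) * Df 1) - τ * be 1 - τ ^ 2 * ga 1)
        + w2 2 * (se τ * ((1 + α * τ) * De 2 + τ * Ds 2)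
        + sf τ * ((1 + α * τ) * Df 2) - τ * be 2 - τ ^ 2 * ga 2) := by
      linear_combination (-(se τ * (1 + α * τ))) * e0 - sf τ * (1 + α * τ) * e1 - (se τ * τ) * e2
    rw [this]; exact h
  have c0 : ∀ τ ∈ T, |(1 + α * τ) * se τ - τ * (∑ i, w0 i * be i) - τ ^ 2 * (∑ i, w0 i * ga i)|
      ≤ K * ε := by
    intro τ hτ
    have h := comb_star w0 K ε hε hw0 _ (hstar τ hτ)
    have e0 := hw0' 0
    have e1 := hw0' 1
    have e2 := hw0' 2
    simp only [Fin.sum_univ_three, Fin.isValue, Matrix.cons_val_zero, Matrix.cons_val_one,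
      Matrix.cons_val] at e0 e1 e2 h ⊢
    rw [if_neg (by decide)] at e1 e2
    rw [if_pos trivial] at e0
    have : (1 + α * τ) * se τ - τ * (w0 0 * be 0 + w0 1 * be 1 + w0 2 * be 2)
        - τ ^ 2 * (w0 0 * ga 0 + w0 1 * ga 1 + w0 2 * ga 2)
        = w0 0 * (se τ * ((1 + α * τ) * De 0 + τ * Ds 0)
        + sf τ * ((1 + α * τ) * Df 0) - τ * be 0 - τ ^ 2 * ga 0)
        + w0 1 * (se τ * ((1 + α * τ) * De 1 + τ * Ds 1)
        + sf τ * ((1 + α * τ) * Df 1) - τ * be 1 - τ ^ 2 * ga 1)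
        + w0 2 * (se τ * ((1 + α * τ) * De 2 + τ * Ds 2)
        + sf τ * ((1 + α * τ) * Df 2) - τ * be 2 - τ ^ 2 * ga 2) := by
      linear_combination (-(se τ * (1 + α * τ))) * e0 - sf τ * (1 + α * τ) * e1 - (se τ * τ) * e2
    rw [this]; exact h
  have c1 : ∀ τ ∈ T, |(1 + α * τ) * sf τ - τ * (∑ i, w1 i * be i) - τ ^ 2 * (∑ i, w1 i * ga i)|
      ≤ K * ε := by
    intro τ hτ
    have h := comb_star w1 K ε hε hw1 _ (hstar τ hτ)
    have e0 := hw1' 0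
    have e1 := hw1' 1
    have e2 := hw1' 2
    simp only [Fin.sum_univ_three, Fin.isValue, Matrix.cons_val_zero, Matrix.cons_val_one,
      Matrix.cons_val] at e0 e1 e2 h ⊢
    rw [if_neg (by decide)] at e0 e2
    rw [if_pos trivial] at e1
    have : (1 + α * τ) * sf τ - τ * (w1 0 * be 0 + w1 1 * be 1 + w1 2 * be 2)
        - τ ^ 2 * (w1 0 * ga 0 + w1 1 * ga 1 + w1 2 * ga 2)
        = w1 0 * (se τ * ((1 + α * τ) * De 0 + τ * Ds 0)
        + sf τ * ((1 + α * τ) * Df 0) - τ * be 0 - τ ^ 2 * ga 0)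
        + w1 1 * (se τ * ((1 + α * τ) * De 1 + τ * Ds 1)
        + sf τ * ((1 + α * τ) * Df 1) - τ * be 1 - τ ^ 2 * ga 1)
        + w1 2 * (se τ * ((1 + α * τ) * De 2 + τ * Ds 2)
        + sf τ * ((1 + α * τ) * Df 2) - τ * be 2 - τ ^ 2 * ga 2) := by
      linear_combination (-(se τ * (1 + α * τ))) * e0 - sf τ * (1 + α * τ) * e1 - (se τ * τ) * e2
    rw [this]; exact h
  set B1 := ∑ i, w2 i * be i with hB1
  set B2 := ∑ i, w2 i * ga i with hB2
  set B3 := ∑ i, w0 i * be i with hB3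
  set B4 := ∑ i, w0 i * ga i with hB4
  set B5 := ∑ i, w1 i * be i with hB5
  set B6 := ∑ i, w1 i * ga i with hB6
  have hB5' : |B5| ≤ K * 2 := comb_star w1 K 2 (by norm_num) hw1 _ hbe
  have hB6' : |B6| ≤ K * 2 := comb_star w1 K 2 (by norm_num) hw1 _ hga
  have hKε : 0 ≤ K * ε := mul_nonneg hK hε
  have hKρ : K * ε ≤ K * ε / ρ := by
    rw [le_div_iff₀ hρ]
    nlinarith
  -- `se = B1 + τ B2 + O`
  have d2 : ∀ τ ∈ T, |se τ - B1 - τ * B2| ≤ K * ε / ρ := by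
    intro τ hτ
    rw [le_div_iff₀ hρ]
    have h1 := c2 τ hτ
    have h2 := (hT τ hτ).2
    have h3 : τ * se τ - τ * B1 - τ ^ 2 * B2 = τ * (se τ - B1 - τ * B2) := by ring
    rw [h3, abs_mul] at h1
    calc |se τ - B1 - τ * B2| * ρ ≤ |se τ - B1 - τ * B2| * |τ| :=
          mul_le_mul_of_nonneg_left h2 (abs_nonneg _)
      _ = |τ| * |se τ - B1 - τ * B2| := mul_comm _ _
      _ ≤ K * ε := h1
  have h1a : ∀ τ ∈ T, |1 + α * τ| ≤ 2 := by
    intro τ hτ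
    calc |1 + α * τ| ≤ |(1 : ℝ)| + |α * τ| := abs_add_le _ _
      _ ≤ 1 + 1 * 1 := by
          rw [abs_one, abs_mul]
          have := mul_le_mul hα (hT τ hτ).1 (abs_nonneg _) zero_le_one
          linarith
      _ = 2 := by norm_num
  have hB1' : |B1| ≤ V 3 ρ * (3 * (K * ε / ρ)) := by
    have := vand t ρ (3 * (K * ε / ρ)) hρ hρ1 (fun i => (hT _ (ht i)).1) hsep
      ![B1, α * B1 + B2 - B3, α * B2 - B4] (fun i => ?_) 0
    · simpa using this
    · simp only [Fin.sum_univ_three, Fin.isValue, Matrix.cons_val_zero, Matrix.cons_val_one,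
        Matrix.cons_val, Fin.val_zero, pow_zero, Fin.val_one, pow_one, Fin.val_two]
      have k1 := d2 _ (ht i)
      have k2 := c0 _ (ht i)
      have k3 := h1a _ (ht i)
      have : B1 * 1 + (α * B1 + B2 - B3) * t i + (α * B2 - B4) * t i ^ 2
          = ((1 + α * t i) * se (t i) - t i * B3 - t i ^ 2 * B4)
            - (1 + α * t i) * (se (t i) - B1 - t i * B2) := by ring
      rw [this]
      calc _ ≤ |(1 + α * t i) * se (t i) - t i * B3 - t i ^ 2 * B4|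
            + |(1 + α * t i) * (se (t i) - B1 - t i * B2)| := abs_sub _ _
        _ ≤ K * ε / ρ + 2 * (K * ε / ρ) := by
            rw [abs_mul]
            have := mul_le_mul k3 k1 (abs_nonneg _) (by norm_num)
            linarith
        _ = 3 * (K * ε / ρ) := by ring
  have hr : |(α * B5 - B6) / Γ| ≤ 4 * K / Γ := by
    rw [abs_div, abs_of_pos hΓ]
    refine div_le_div_of_nonneg_right ?_ hΓ.le
    calc |α * B5 - B6| ≤ |α * B5| + |B6| := abs_sub _ _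
      _ ≤ 1 * (K * 2) + K * 2 := by
          rw [abs_mul]
          have := mul_le_mul hα hB5' (abs_nonneg _) zero_le_one
          linarith
      _ = 4 * K := by ring
  have hrg : (α * B5 - B6) / Γ * Γ = α * B5 - B6 := div_mul_cancel₀ _ hΓ.ne'
  set r := (α * B5 - B6) / Γ with hrdef
  refine ⟨-B2, r, Γ - B5, hr, fun τ hτ => ⟨?_, ?_⟩⟩
  · have e : (1 + α * τ - τ * r) * (0 - se τ) - (1 + α * τ) * (τ * -B2)
        = -((1 + α * τ) * ((se τ - B1 - τ * B2) + B1)) + τ * r * se τ := by ring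
    rw [e]
    have k1 := d2 τ hτ
    have k2 := h1a τ hτ
    have k3 : |(1 + α * τ) * ((se τ - B1 - τ * B2) + B1)|
        ≤ 2 * (K * ε / ρ + V 3 ρ * (3 * (K * ε / ρ))) := by
      rw [abs_mul]
      refine mul_le_mul k2 ((abs_add_le _ _).trans (by linarith)) (abs_nonneg _) (by norm_num)
    have k4 : |τ * r * se τ| ≤ 4 * K / Γ * Bd := by
      rw [abs_mul, abs_mul]
      have h5 : |τ| * |r| ≤ 1 * (4 * K / Γ) :=
        mul_le_mul (hT τ hτ).1 hr (abs_nonneg _) zero_le_one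
      have h6 := mul_le_mul h5 (hse τ hτ) (abs_nonneg _) (le_trans (by positivity) h5)
      simpa using h6
    calc _ ≤ |-((1 + α * τ) * ((se τ - B1 - τ * B2) + B1))| + |τ * r * se τ| := abs_add_le _ _
      _ ≤ 2 * (K * ε / ρ + V 3 ρ * (3 * (K * ε / ρ))) + 4 * K / Γ * Bd := by
          rw [abs_neg]; linarith
      _ = _ := by ring
  · have e : (1 + α * τ - τ * r) * (τ * Γ - sf τ) - (1 + α * τ) * (τ * (Γ - B5))
        = -((1 + α * τ) * sf τ - τ * B5 - τ ^ 2 * B6) + τ * r * sf τ := by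
      linear_combination (-τ ^ 2) * hrg
    rw [e]
    have k1 := c1 τ hτ
    have k4 : |τ * r * sf τ| ≤ 4 * K / Γ * Bd := by
      rw [abs_mul, abs_mul]
      have h5 : |τ| * |r| ≤ 1 * (4 * K / Γ) :=
        mul_le_mul (hT τ hτ).1 hr (abs_nonneg _) zero_le_one
      have h6 := mul_le_mul h5 (hsf τ hτ) (abs_nonneg _) (le_trans (by positivity) h5)
      simpa using h6
    have k5 : 0 ≤ K * ε / ρ := div_nonneg hKε hρ.le
    have k6 : 0 ≤ K * ε / ρ * V 3 ρ := mul_nonneg k5 hV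
    calc _ ≤ |-((1 + α * τ) * sf τ - τ * B5 - τ ^ 2 * B6)| + |τ * r * sf τ| := abs_add_le _ _
      _ ≤ K * ε / ρ + 4 * K / Γ * Bd := by
          rw [abs_neg]; linarith
      _ ≤ _ := by nlinarith

/-- Constant of the flat / moderate case. -/
noncomputable def CA (ρ : ℝ) : ℝ := 768 * (16 / ρ * (1 + 36 / ρ) + 18 / ρ)

/-- FLAT / MODERATE CASE (`θ |G| ≤ ε`), from Lemma P for the virtual lines
`X = (y, om, nu = 0, β = be - G · y)`. -/
theorem caseA {κ : Type*} [Fintype κ] (T : Finset ℝ) (ρ ε α : ℝ) (hρ : 0 < ρ)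
    (hε : 0 ≤ ε) (hα : |α| ≤ 1 / 2) (hT : ∀ τ ∈ T, |τ| ≤ 1)
    (G : Fin 2 → ℝ) (s : ℝ → Fin 2 → ℝ) (c : ℝ → ℝ) (y om : κ → Fin 2 → ℝ) (be ga : κ → ℝ)
    (hy : ∀ x i, |y x i| ≤ 1 / 2) (hom : ∀ x i, |om x i| ≤ 1 / 2)
    (hstar : ∀ τ ∈ T, ∀ x,
      |∑ i, s τ i * (y x i + τ * om x i) + c τ - τ * be x - τ ^ 2 * ga x| ≤ ε)
    (hrel : ∀ x, |∑ i, G i * (om x i - α * y x i) - ga x + α * be x| ≤ ε)
    (x0 : κ)
    (hA1 : ∀ τ ∈ T, ∃ a : Fin 2 → κ,
      ρ ≤ |(Matrix.of fun i j => (y (a i) j - y x0 j) + τ * (om (a i) j - om x0 j)).det|)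
    (hA2 : ∃ (a : Fin 3 → κ) (col : Fin 3 → Fin 2 ⊕ Fin 2), Function.Injective col ∧
      ρ ≤ |(Matrix.of fun i j => PATH.co
        ((fun l => y (a i) l - y x0 l, fun l => om (a i) l - om x0 l) :
          (Fin 2 → ℝ) × (Fin 2 → ℝ)) (col j)).det|) :
    ∃ (n : ℕ) (t : Fin n → ℝ), n ≤ 3 ∧ (∀ k, t k ∈ T) ∧ ∀ s' ∈ T,
      ∃ (q : ℝ[X]) (p : Fin 2 → ℝ[X]), q.natDegree ≤ 1 ∧ (∀ l, (p l).natDegree ≤ 1) ∧
        q.eval s' = ∏ k, (s' - t k) ∧ (∀ τ : ℝ, |τ| ≤ 1 → |q.eval τ| ≤ 48) ∧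
        ∀ τ ∈ T, ∀ l, |q.eval τ * (τ * G l - s τ l) - (1 + α * τ) * (p l).eval τ|
          ≤ CA ρ * ε := by
  have hpos : ∀ τ ∈ T, 1 / 2 ≤ 1 + α * τ ∧ 1 + α * τ ≤ 3 / 2 := by
    intro τ hτ
    have h1 : |α * τ| ≤ 1 / 2 := by
      rw [abs_mul]
      have := mul_le_mul hα (hT τ hτ) (abs_nonneg _) (by norm_num)
      linarith
    have h2 := abs_le.mp h1
    constructor <;> linarith [h2.1, h2.2]
  have hM : ∀ τ ∈ T, ∀ x, |PATH.fr (fun l => (τ * G l - s τ l) / (1 + α * τ)) τ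
        (fun l => y x l - y x0 l) (fun l => om x l - om x0 l) 0
        ((be x - ∑ i, G i * y x i) - (be x0 - ∑ i, G i * y x0 i))| ≤ 8 * ε := by
    intro τ hτ x
    obtain ⟨ha, hb⟩ := hpos τ hτ
    have hne : (1 + α * τ) ≠ 0 := by linarith
    have h1 := hstar τ hτ x
    have h2 := hstar τ hτ x0
    have h3 := hrel x
    have h4 := hrel x0
    simp only [Fin.sum_univ_two, Fin.isValue] at h1 h2 h3 h4
    have e : (1 + α * τ) * PATH.fr (fun l => (τ * G l - s τ l) / (1 + α * τ)) τ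
        (fun l => y x l - y x0 l) (fun l => om x l - om x0 l) 0
        ((be x - ∑ i, G i * y x i) - (be x0 - ∑ i, G i * y x0 i))
        = -((s τ 0 * (y x 0 + τ * om x 0) + s τ 1 * (y x 1 + τ * om x 1) + c τ - τ * be x
            - τ ^ 2 * ga x)
          - (s τ 0 * (y x0 0 + τ * om x0 0) + s τ 1 * (y x0 1 + τ * om x0 1) + c τ - τ * be x0
            - τ ^ 2 * ga x0))
          + τ ^ 2 * ((G 0 * (om x 0 - α * y x 0) + G 1 * (om x 1 - α * y x 1) - ga x + α * be x)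
            - (G 0 * (om x0 0 - α * y x0 0) + G 1 * (om x0 1 - α * y x0 1) - ga x0
              + α * be x0)) := by
      unfold PATH.fr
      simp only [Fin.sum_univ_two, Fin.isValue]
      field_simp
      ring
    have hτ2 : τ ^ 2 ≤ 1 := by
      have := hT τ hτ
      rw [← sq_abs]
      exact pow_le_one₀ (abs_nonneg _) this
    have k1 : |(1 + α * τ) * PATH.fr (fun l => (τ * G l - s τ l) / (1 + α * τ)) τ
        (fun l => y x l - y x0 l) (fun l => om x l - om x0 l) 0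
        ((be x - ∑ i, G i * y x i) - (be x0 - ∑ i, G i * y x0 i))| ≤ 4 * ε := by
      rw [e]
      refine (abs_add_le _ _).trans ?_
      rw [abs_neg, abs_mul, abs_of_nonneg (sq_nonneg τ)]
      have k2 := (abs_sub (s τ 0 * (y x 0 + τ * om x 0) + s τ 1 * (y x 1 + τ * om x 1) + c τ
            - τ * be x - τ ^ 2 * ga x)
          (s τ 0 * (y x0 0 + τ * om x0 0) + s τ 1 * (y x0 1 + τ * om x0 1) + c τ - τ * be x0
            - τ ^ 2 * ga x0))
      have k3 := (abs_sub (G 0 * (om x 0 - α * y x 0) + G 1 * (om x 1 - α * y x 1) - ga x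
            + α * be x)
          (G 0 * (om x0 0 - α * y x0 0) + G 1 * (om x0 1 - α * y x0 1) - ga x0 + α * be x0))
      have k4 : τ ^ 2 * |(G 0 * (om x 0 - α * y x 0) + G 1 * (om x 1 - α * y x 1) - ga x
            + α * be x)
            - (G 0 * (om x0 0 - α * y x0 0) + G 1 * (om x0 1 - α * y x0 1) - ga x0
              + α * be x0)| ≤ 1 * (2 * ε) :=
        mul_le_mul hτ2 (by linarith) (abs_nonneg _) zero_le_one
      linarith
    rw [abs_mul, abs_of_nonneg (by linarith : (0 : ℝ) ≤ 1 + α * τ)] at k1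
    nlinarith [abs_nonneg (PATH.fr (fun l => (τ * G l - s τ l) / (1 + α * τ)) τ
        (fun l => y x l - y x0 l) (fun l => om x l - om x0 l) 0
        ((be x - ∑ i, G i * y x i) - (be x0 - ∑ i, G i * y x0 i)))]
  obtain ⟨n, t, hn, ht, H⟩ := PATH.path_det (d := 2) (D := 1) (r := 3) T hT
    (fun τ l => (τ * G l - s τ l) / (1 + α * τ))
    (fun x l => y x l - y x0 l) (fun x l => om x l - om x0 l) (fun _ => 0)
    (fun x => (be x - ∑ i, G i * y x i) - (be x0 - ∑ i, G i * y x0 i)) (8 * ε) ρ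
    (by positivity) hρ
    (fun x i => by
      have := abs_sub (y x i) (y x0 i)
      have h1 := hy x i
      have h2 := hy x0 i
      linarith)
    (fun x i => by
      have := abs_sub (om x i) (om x0 i)
      have h1 := hom x i
      have h2 := hom x0 i
      linarith)
    hM hA1 (by norm_num) hA2
  refine ⟨n, t, hn, ht, fun s' hs' => ?_⟩
  obtain ⟨q, p, hq, hp, hqs, hq1, hqp⟩ := H s' hs'
  refine ⟨q, p, hq, hp, hqs, fun τ hτ => ?_, fun τ hτ l => ?_⟩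
  · refine (hq1 τ hτ).trans ?_
    norm_num
  · have h := hqp τ hτ l
    obtain ⟨ha, hb⟩ := hpos τ hτ
    have hne : (1 + α * τ) ≠ 0 := by linarith
    have aux : ∀ m A B C : ℝ, m ≠ 0 → B * A - m * C = m * (B * (A / m) - C) := by
      intro m A B C hm
      field_simp
    have e := aux (1 + α * τ) (τ * G l - s τ l) (q.eval τ) ((p l).eval τ) hne
    rw [e, abs_mul, abs_of_nonneg (by linarith : (0 : ℝ) ≤ 1 + α * τ)]
    calc (1 + α * τ) * |q.eval τ * ((τ * G l - s τ l) / (1 + α * τ)) - (p l).eval τ|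
        ≤ 3 / 2 * (((1 : ℕ) + 3) * 2 ^ (1 + 3)
          * (((2 : ℕ) * ((Nat.factorial 2 : ℕ) * 2 ^ 2) / ρ)
            * (1 + (2 : ℕ) * ((3 : ℕ) * ((Nat.factorial 3 : ℕ) * 1 ^ 3) / ρ))
            + (3 : ℕ) * ((Nat.factorial 3 : ℕ) * 1 ^ 3) / ρ) * (8 * ε)) :=
          mul_le_mul hb h (abs_nonneg _) (by norm_num)
      _ = CA ρ * ε := by
          unfold CA
          norm_num [Nat.factorial]
          ring

theorem det3_lower (a0 a1 p b0 b1 q c0 c1 r ρ1 ρ2 B η : ℝ) (hB : 0 ≤ B)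
    (hρ1 : 0 ≤ ρ1) (ha0 : |a0| ≤ B) (ha1 : |a1| ≤ B) (hp : |p| ≤ B) (hb0 : |b0| ≤ B)
    (hb1 : |b1| ≤ B) (hq : |q| ≤ B) (hc0 : |c0| ≤ η) (hc1 : |c1| ≤ η)
    (h1 : ρ1 ≤ |a0 * b1 - a1 * b0|) (h2 : ρ2 ≤ |r|) :
    ρ1 * ρ2 - 4 * B ^ 2 * η ≤ |a0 * b1 * r - a0 * q * c1 - a1 * b0 * r + a1 * q * c0
      + p * b0 * c1 - p * b1 * c0| := by
  have hη : 0 ≤ η := (abs_nonneg _).trans hc0
  have t1 : ∀ u v w : ℝ, |u| ≤ B → |v| ≤ B → |w| ≤ η → |u * v * w| ≤ B ^ 2 * η := by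
    intro u v w hu hv hw
    rw [abs_mul, abs_mul]
    have := mul_le_mul hu hv (abs_nonneg _) hB
    calc |u| * |v| * |w| ≤ (B * B) * η := mul_le_mul this hw (abs_nonneg _) (by positivity)
      _ = B ^ 2 * η := by ring
  have k1 := abs_le.mp (t1 a0 q c1 ha0 hq hc1)
  have k2 := abs_le.mp (t1 a1 q c0 ha1 hq hc0)
  have k3 := abs_le.mp (t1 p b0 c1 hp hb0 hc1)
  have k4 := abs_le.mp (t1 p b1 c0 hp hb1 hc0)
  have e : (a0 * b1 - a1 * b0) * r = (a0 * b1 * r - a0 * q * c1 - a1 * b0 * r + a1 * q * c0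
      + p * b0 * c1 - p * b1 * c0) + (a0 * q * c1 - a1 * q * c0 - p * b0 * c1 + p * b1 * c0) := by
    ring
  have k5 : ρ1 * ρ2 ≤ |(a0 * b1 - a1 * b0) * r| := by
    rw [abs_mul]
    calc ρ1 * ρ2 ≤ ρ1 * |r| := mul_le_mul_of_nonneg_left h2 hρ1
      _ ≤ |a0 * b1 - a1 * b0| * |r| := mul_le_mul_of_nonneg_right h1 (abs_nonneg _)
  have k6 : |a0 * q * c1 - a1 * q * c0 - p * b0 * c1 + p * b1 * c0| ≤ 4 * B ^ 2 * η := by
    rw [abs_le]; constructor <;> linarith [k1.1, k1.2, k2.1, k2.2, k3.1, k3.2, k4.1, k4.2]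
  rw [e] at k5
  have k7 := abs_add_le (a0 * b1 * r - a0 * q * c1 - a1 * b0 * r + a1 * q * c0
      + p * b0 * c1 - p * b1 * c0) (a0 * q * c1 - a1 * q * c0 - p * b0 * c1 + p * b1 * c0)
  linarith

/-- The constant of the curved case. -/
noncomputable def EB (ρ ε Γ Bd : ℝ) : ℝ :=
  2 * (1944 / ρ ^ 2 * ε / ρ) * (1 + 3 * V 3 ρ) + 4 * (1944 / ρ ^ 2) / Γ * (2 * Bd)

set_option maxHeartbeats 1000000 in
/-- CURVED CASE. -/
theorem caseB {κ : Type*} (T : Finset ℝ) (ρ ε δ η α Γ f0 f1 Bd : ℝ) (hρ : 0 < ρ)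
    (hρ1 : ρ ≤ 1) (hε : 0 ≤ ε) (hα : |α| ≤ 1 / 2) (hΓ : 0 < Γ) (hf : f0 ^ 2 + f1 ^ 2 = 1)
    (hT : ∀ τ ∈ T, |τ| ≤ 1 ∧ ρ ≤ |τ|)
    (t : Fin 3 → ℝ) (ht : ∀ i, t i ∈ T) (hsep : ∀ i j, i ≠ j → ρ ≤ |t i - t j|)
    (G : Fin 2 → ℝ) (hG0 : G 0 = Γ * f0) (hG1 : G 1 = Γ * f1)
    (s : ℝ → Fin 2 → ℝ) (c : ℝ → ℝ) (y om : κ → Fin 2 → ℝ) (be ga : κ → ℝ)
    (hs : ∀ τ ∈ T, ∀ l, |s τ l| ≤ Bd)
    (hy : ∀ x i, |y x i| ≤ 1 / 2) (hom : ∀ x i, |om x i| ≤ 1 / 2)
    (hbe : ∀ x, |be x| ≤ 1) (hga : ∀ x, |ga x| ≤ 1)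
    (hstar : ∀ τ ∈ T, ∀ x,
      |∑ i, s τ i * (y x i + τ * om x i) + c τ - τ * be x - τ ^ 2 * ga x| ≤ ε)
    (hrel : ∀ x, |f0 * (om x 0 - α * y x 0) + f1 * (om x 1 - α * y x 1)| ≤ δ)
    (x0 x1 x2 x3 : κ) (l0 : Fin 2)
    (hdet : ρ ≤ |(y x1 0 - y x0 0) * (y x2 1 - y x0 1) - (y x1 1 - y x0 1) * (y x2 0 - y x0 0)|)
    (hclose : ∀ l, |y x3 l - y x0 l| ≤ η) (hη : η ≤ ρ ^ 2 / 288)
    (hact : ρ ≤ |om x3 l0 - om x0 l0|) (hδ : δ ≤ ρ / 16) :
    ∃ (q : ℝ[X]) (p : Fin 2 → ℝ[X]), q.natDegree ≤ 1 ∧ (∀ l, (p l).natDegree ≤ 1) ∧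
      (∀ τ : ℝ, |τ| ≤ 1 → |q.eval τ - (1 + α * τ)| ≤ 4 * (1944 / ρ ^ 2) / Γ) ∧
      ∀ τ ∈ T, ∀ l, |q.eval τ * (τ * G l - s τ l) - (1 + α * τ) * (p l).eval τ|
        ≤ 2 * EB ρ (2 * ε + 4 * Bd * δ) Γ Bd := by
  have hδ0 : 0 ≤ δ := (abs_nonneg _).trans (hrel x0)
  have hη0 : 0 ≤ η := (abs_nonneg _).trans (hclose 0)
  have hBd : 0 ≤ Bd := (abs_nonneg _).trans (hs _ (ht 0) 0)
  have hf0 : |f0| ≤ 1 := by
    rw [← sq_le_one_iff_abs_le_one]; nlinarith [sq_nonneg f1]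
  have hf1 : |f1| ≤ 1 := by
    rw [← sq_le_one_iff_abs_le_one]; nlinarith [sq_nonneg f0]
  have hρ2 : ρ ^ 2 ≤ ρ := by nlinarith
  -- bound of `± f u ± f' v`
  have lin : ∀ u v a b A : ℝ, |a| ≤ 1 → |b| ≤ 1 → |u| ≤ A → |v| ≤ A → |a * u + b * v| ≤ 2 * A := by
    intro u v a b A ha hb hu hv
    calc |a * u + b * v| ≤ |a * u| + |b * v| := abs_add_le _ _
      _ ≤ 1 * A + 1 * A := by
          rw [abs_mul, abs_mul]
          exact add_le_add (mul_le_mul ha hu (abs_nonneg _) zero_le_one)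
            (mul_le_mul hb hv (abs_nonneg _) zero_le_one)
      _ = 2 * A := by ring
  have hnf1 : |-f1| ≤ 1 := by rwa [abs_neg]
  -- differences
  have hdy : ∀ x l, |y x l - y x0 l| ≤ 1 := by
    intro x l
    have := abs_sub (y x l) (y x0 l)
    linarith [hy x l, hy x0 l]
  have hdom : ∀ x l, |om x l - om x0 l| ≤ 1 := by
    intro x l
    have := abs_sub (om x l) (om x0 l)
    linarith [hom x l, hom x0 l]
  have hdv : ∀ x l, |(om x l - om x0 l) - α * (y x l - y x0 l)| ≤ 3 / 2 := by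
    intro x l
    have h1 := abs_sub (om x l - om x0 l) (α * (y x l - y x0 l))
    have h2 : |α * (y x l - y x0 l)| ≤ 1 / 2 * 1 := by
      rw [abs_mul]
      exact mul_le_mul hα (hdy x l) (abs_nonneg _) (by norm_num)
    linarith [hdom x l]
  obtain ⟨Z, hZ⟩ : ∃ Z : Fin 3 → κ, Z = ![x1, x2, x3] := ⟨_, rfl⟩
  have hZ0 : Z 0 = x1 := by rw [hZ]; rfl
  have hZ1 : Z 1 = x2 := by rw [hZ]; rfl
  have hZ2 : Z 2 = x3 := by rw [hZ]; rfl
  -- the minor
  set De : Fin 3 → ℝ := fun i => -f1 * (y (Z i) 0 - y x0 0) + f0 * (y (Z i) 1 - y x0 1) with hDe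
  set Df : Fin 3 → ℝ := fun i => f0 * (y (Z i) 0 - y x0 0) + f1 * (y (Z i) 1 - y x0 1) with hDf
  set Ds : Fin 3 → ℝ := fun i => -f1 * ((om (Z i) 0 - om x0 0) - α * (y (Z i) 0 - y x0 0))
    + f0 * ((om (Z i) 1 - om x0 1) - α * (y (Z i) 1 - y x0 1)) with hDs
  have bDe : ∀ i, |De i| ≤ 3 := fun i =>
    (lin _ _ _ _ 1 hnf1 hf0 (hdy _ _) (hdy _ _)).trans (by norm_num)
  have bDf : ∀ i, |Df i| ≤ 3 := fun i =>
    (lin _ _ _ _ 1 hf0 hf1 (hdy _ _) (hdy _ _)).trans (by norm_num)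
  have bDs : ∀ i, |Ds i| ≤ 3 := fun i =>
    (lin _ _ _ _ (3 / 2) hnf1 hf0 (hdv _ _) (hdv _ _)).trans (by norm_num)
  have hF : ∀ i, |f0 * ((om (Z i) 0 - om x0 0) - α * (y (Z i) 0 - y x0 0))
      + f1 * ((om (Z i) 1 - om x0 1) - α * (y (Z i) 1 - y x0 1))| ≤ 2 * δ := by
    intro i
    have h1 := hrel (Z i)
    have h2 := hrel x0
    have e : f0 * ((om (Z i) 0 - om x0 0) - α * (y (Z i) 0 - y x0 0))
      + f1 * ((om (Z i) 1 - om x0 1) - α * (y (Z i) 1 - y x0 1))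
      = (f0 * (om (Z i) 0 - α * y (Z i) 0) + f1 * (om (Z i) 1 - α * y (Z i) 1))
        - (f0 * (om x0 0 - α * y x0 0) + f1 * (om x0 1 - α * y x0 1)) := by ring
    rw [e]
    exact (abs_sub _ _).trans (by linarith)
  have hDs2 : ρ / 2 ≤ |Ds 2| := by
    set v : Fin 2 → ℝ := fun l => (om x3 l - om x0 l) - α * (y x3 l - y x0 l) with hv
    have hF2 : |f0 * v 0 + f1 * v 1| ≤ 2 * δ := by
      have := hF 2
      rw [hZ2] at this
      exact this
    have hs2 : Ds 2 = -f1 * v 0 + f0 * v 1 := by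
      rw [hDs]; simp only [hZ2, hv]
    have hv0 : |v l0| ≤ |Ds 2| + |f0 * v 0 + f1 * v 1| := by
      have hl : l0 = 0 ∨ l0 = 1 := by fin_cases l0 <;> simp
      rcases hl with rfl | rfl
      · have e : v 0 = -f1 * Ds 2 + f0 * (f0 * v 0 + f1 * v 1) := by
          rw [hs2]; linear_combination (-v 0) * hf
        calc |v 0| = |-f1 * Ds 2 + f0 * (f0 * v 0 + f1 * v 1)| := by rw [← e]
          _ ≤ |-f1 * Ds 2| + |f0 * (f0 * v 0 + f1 * v 1)| := abs_add_le _ _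
          _ ≤ 1 * |Ds 2| + 1 * |f0 * v 0 + f1 * v 1| := by
              rw [abs_mul, abs_mul]
              exact add_le_add (mul_le_mul_of_nonneg_right hnf1 (abs_nonneg _))
                (mul_le_mul_of_nonneg_right hf0 (abs_nonneg _))
          _ = _ := by ring
      · have e : v 1 = f0 * Ds 2 + f1 * (f0 * v 0 + f1 * v 1) := by
          rw [hs2]; linear_combination (-v 1) * hf
        calc |v 1| = |f0 * Ds 2 + f1 * (f0 * v 0 + f1 * v 1)| := by rw [← e]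
          _ ≤ |f0 * Ds 2| + |f1 * (f0 * v 0 + f1 * v 1)| := abs_add_le _ _
          _ ≤ 1 * |Ds 2| + 1 * |f0 * v 0 + f1 * v 1| := by
              rw [abs_mul, abs_mul]
              exact add_le_add (mul_le_mul_of_nonneg_right hf0 (abs_nonneg _))
                (mul_le_mul_of_nonneg_right hf1 (abs_nonneg _))
          _ = _ := by ring
    have hv1 : ρ - 1 / 2 * η ≤ |v l0| := by
      have h1 : |om x3 l0 - om x0 l0| ≤ |v l0| + |α * (y x3 l0 - y x0 l0)| := by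
        have e : om x3 l0 - om x0 l0 = v l0 + α * (y x3 l0 - y x0 l0) := by
          rw [hv]; ring
        rw [e]; exact abs_add_le _ _
      have h2 : |α * (y x3 l0 - y x0 l0)| ≤ 1 / 2 * η := by
        rw [abs_mul]
        exact mul_le_mul hα (hclose l0) (abs_nonneg _) (by norm_num)
      linarith
    linarith
  have hdetM : ρ ^ 2 / 4 ≤ |(Matrix.of fun i j => (![De i, Df i, Ds i] : Fin 3 → ℝ) j).det| := by
    have e0 : (Matrix.of fun i j => (![De i, Df i, Ds i] : Fin 3 → ℝ) j).det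
        = De 0 * Df 1 * Ds 2 - De 0 * Ds 1 * Df 2 - Df 0 * De 1 * Ds 2 + Df 0 * Ds 1 * De 2
          + Ds 0 * De 1 * Df 2 - Ds 0 * Df 1 * De 2 := by
      rw [Matrix.det_fin_three]
      simp
    have hc0 : |De 2| ≤ 2 * η := by
      rw [hDe]; simp only [hZ2]
      exact lin _ _ _ _ η hnf1 hf0 (hclose 0) (hclose 1)
    have hc1 : |Df 2| ≤ 2 * η := by
      rw [hDf]; simp only [hZ2]
      exact lin _ _ _ _ η hf0 hf1 (hclose 0) (hclose 1)
    have hd : ρ ≤ |De 0 * Df 1 - Df 0 * De 1| := by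
      have e : De 0 * Df 1 - Df 0 * De 1 = -((y x1 0 - y x0 0) * (y x2 1 - y x0 1)
          - (y x1 1 - y x0 1) * (y x2 0 - y x0 0)) := by
        rw [hDe, hDf]; simp only [hZ0, hZ1]
        linear_combination (-((y x1 0 - y x0 0) * (y x2 1 - y x0 1)
          - (y x1 1 - y x0 1) * (y x2 0 - y x0 0))) * hf
      rw [e, abs_neg]; exact hdet
    have := det3_lower (De 0) (Df 0) (Ds 0) (De 1) (Df 1) (Ds 1) (De 2) (Df 2) (Ds 2) ρ (ρ / 2) 3
      (2 * η) (by norm_num) hρ.le (bDe 0) (bDf 0) (bDs 0) (bDe 1) (bDf 1) (bDs 1) hc0 hc1 hd hDs2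
    rw [e0]
    linarith
  have hA : ∀ j : Fin 3, ∃ w : Fin 3 → ℝ, ∑ i, |w i| ≤ 1944 / ρ ^ 2 ∧
       ∀ l : Fin 3, ∑ i, w i * (![De i, Df i, Ds i] : Fin 3 → ℝ) l = if l = j then 1 else 0 := by
    intro j
    obtain ⟨w, hw, hw'⟩ := PATH.rowcomb (Matrix.of fun i j => (![De i, Df i, Ds i] : Fin 3 → ℝ) j)
      3 (ρ ^ 2 / 4) (fun i j => by
        fin_cases j
        · simpa using bDe i
        · simpa using bDf i
        · simpa using bDs i) (by norm_num) (by positivity) hdetM j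
    refine ⟨w, hw.trans (le_of_eq ?_), fun l => ?_⟩
    · norm_num [Nat.factorial]
      field_simp
      norm_num
    · simpa using hw' l
  have hbe' : ∀ i, |be (Z i) - be x0| ≤ 2 := fun i =>
    (abs_sub _ _).trans (by linarith [hbe (Z i), hbe x0])
  have hga' : ∀ i, |ga (Z i) - ga x0| ≤ 2 := fun i =>
    (abs_sub _ _).trans (by linarith [hga (Z i), hga x0])
  have hse : ∀ τ ∈ (↑T : Set ℝ), |-f1 * s τ 0 + f0 * s τ 1| ≤ 2 * Bd := fun τ hτ =>
    lin _ _ _ _ Bd hnf1 hf0 (hs τ (Finset.mem_coe.mp hτ) 0) (hs τ (Finset.mem_coe.mp hτ) 1)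
  have hsf : ∀ τ ∈ (↑T : Set ℝ), |f0 * s τ 0 + f1 * s τ 1| ≤ 2 * Bd := fun τ hτ =>
    lin _ _ _ _ Bd hf0 hf1 (hs τ (Finset.mem_coe.mp hτ) 0) (hs τ (Finset.mem_coe.mp hτ) 1)
  obtain ⟨b, r, g, hr, H⟩ := affB (↑T : Set ℝ) ρ (2 * ε + 4 * Bd * δ) α Γ (1944 / ρ ^ 2) (2 * Bd)
    hρ hρ1 (by positivity) (hα.trans (by norm_num)) hΓ
    (fun τ hτ => hT τ (Finset.mem_coe.mp hτ)) t (fun i => Finset.mem_coe.mpr (ht i)) hsep
    (fun τ => -f1 * s τ 0 + f0 * s τ 1) (fun τ => f0 * s τ 0 + f1 * s τ 1) hse hsf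
    De Df Ds (fun i => be (Z i) - be x0) (fun i => ga (Z i) - ga x0) hbe' hga' hA
    (fun τ hτ i => by
      have h1 := hstar τ (Finset.mem_coe.mp hτ) (Z i)
      have h2 := hstar τ (Finset.mem_coe.mp hτ) x0
      simp only [Fin.sum_univ_two, Fin.isValue] at h1 h2
      have h3 : |τ * ((f0 * s τ 0 + f1 * s τ 1)
          * (f0 * ((om (Z i) 0 - om x0 0) - α * (y (Z i) 0 - y x0 0))
          + f1 * ((om (Z i) 1 - om x0 1) - α * (y (Z i) 1 - y x0 1))))| ≤ 4 * Bd * δ := by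
        rw [abs_mul, abs_mul]
        have k1 := mul_le_mul (hsf τ hτ) (hF i) (abs_nonneg _) (by positivity)
        have k2 := mul_le_mul (hT τ (Finset.mem_coe.mp hτ)).1 k1 (by positivity) zero_le_one
        linarith
      have e : (-f1 * s τ 0 + f0 * s τ 1) * ((1 + α * τ) * De i + τ * Ds i)
          + (f0 * s τ 0 + f1 * s τ 1) * ((1 + α * τ) * Df i) - τ * (be (Z i) - be x0)
          - τ ^ 2 * (ga (Z i) - ga x0)
          = ((s τ 0 * (y (Z i) 0 + τ * om (Z i) 0) + s τ 1 * (y (Z i) 1 + τ * om (Z i) 1) + c τ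
              - τ * be (Z i) - τ ^ 2 * ga (Z i))
            - (s τ 0 * (y x0 0 + τ * om x0 0) + s τ 1 * (y x0 1 + τ * om x0 1) + c τ
              - τ * be x0 - τ ^ 2 * ga x0))
            - τ * ((f0 * s τ 0 + f1 * s τ 1)
          * (f0 * ((om (Z i) 0 - om x0 0) - α * (y (Z i) 0 - y x0 0))
          + f1 * ((om (Z i) 1 - om x0 1) - α * (y (Z i) 1 - y x0 1)))) := by
        rw [hDe, hDf, hDs]
        linear_combination (s τ 0 * ((y (Z i) 0 - y x0 0) + τ * (om (Z i) 0 - om x0 0))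
          + s τ 1 * ((y (Z i) 1 - y x0 1) + τ * (om (Z i) 1 - om x0 1))) * hf
      rw [e]
      refine (abs_sub _ _).trans ?_
      have k3 := abs_sub (s τ 0 * (y (Z i) 0 + τ * om (Z i) 0)
          + s τ 1 * (y (Z i) 1 + τ * om (Z i) 1) + c τ
              - τ * be (Z i) - τ ^ 2 * ga (Z i))
            (s τ 0 * (y x0 0 + τ * om x0 0) + s τ 1 * (y x0 1 + τ * om x0 1) + c τ
              - τ * be x0 - τ ^ 2 * ga x0)
      linarith)
  refine ⟨C 1 + C (α - r) * X, fun l => C ((![-f1, f0] : Fin 2 → ℝ) l * b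
    + (![f0, f1] : Fin 2 → ℝ) l * g) * Polynomial.X, ?_, fun l => ?_, fun τ hτ => ?_,
    fun τ hτ l => ?_⟩
  · compute_degree
  · exact (natDegree_C_mul_le _ _).trans natDegree_X_le
  · have e : (C 1 + C (α - r) * Polynomial.X : ℝ[X]).eval τ - (1 + α * τ) = -(r * τ) := by
      simp only [eval_add, eval_C, eval_mul, eval_X]
      ring
    rw [e, abs_neg, abs_mul]
    calc |r| * |τ| ≤ |r| * 1 := mul_le_mul_of_nonneg_left hτ (abs_nonneg _)
      _ ≤ _ := by rw [mul_one]; exact hr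
  · obtain ⟨h1, h2⟩ := H τ (Finset.mem_coe.mpr hτ)
    have hE : 2 * (1944 / ρ ^ 2 * (2 * ε + 4 * Bd * δ) / ρ) * (1 + 3 * V 3 ρ)
        + 4 * (1944 / ρ ^ 2) / Γ * (2 * Bd) = EB ρ (2 * ε + 4 * Bd * δ) Γ Bd := rfl
    rw [hE] at h1 h2
    have hl : l = 0 ∨ l = 1 := by fin_cases l <;> simp
    rcases hl with rfl | rfl
    · have e : (C 1 + C (α - r) * Polynomial.X : ℝ[X]).eval τ * (τ * G 0 - s τ 0)
          - (1 + α * τ) * (C ((![-f1, f0] : Fin 2 → ℝ) 0 * b + (![f0, f1] : Fin 2 → ℝ) 0 * g)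
            * Polynomial.X : ℝ[X]).eval τ
          = -f1 * ((1 + α * τ - τ * r) * (0 - (-f1 * s τ 0 + f0 * s τ 1))
              - (1 + α * τ) * (τ * b))
            + f0 * ((1 + α * τ - τ * r) * (τ * Γ - (f0 * s τ 0 + f1 * s τ 1))
              - (1 + α * τ) * (τ * g)) := by
        simp only [eval_add, eval_C, eval_mul, eval_X, Matrix.cons_val_zero, hG0]
        linear_combination ((1 + α * τ - τ * r) * s τ 0) * hf
      rw [e]
      exact lin _ _ _ _ _ hnf1 hf0 h1 h2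
    · have e : (C 1 + C (α - r) * Polynomial.X : ℝ[X]).eval τ * (τ * G 1 - s τ 1)
          - (1 + α * τ) * (C ((![-f1, f0] : Fin 2 → ℝ) 1 * b + (![f0, f1] : Fin 2 → ℝ) 1 * g)
            * Polynomial.X : ℝ[X]).eval τ
          = f0 * ((1 + α * τ - τ * r) * (0 - (-f1 * s τ 0 + f0 * s τ 1))
              - (1 + α * τ) * (τ * b))
            + f1 * ((1 + α * τ - τ * r) * (τ * Γ - (f0 * s τ 0 + f1 * s τ 1))
              - (1 + α * τ) * (τ * g)) := by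
        simp only [eval_add, eval_C, eval_mul, eval_X, Matrix.cons_val_one,
          Matrix.cons_val_fin_one, hG1]
        linear_combination ((1 + α * τ - τ * r) * s τ 1) * hf
      rw [e]
      exact lin _ _ _ _ _ hf0 hf1 h1 h2

/-- The constant of `q5a`. -/
noncomputable def CQ (ρ : ℝ) : ℝ := 2 * CA (ρ ^ 2 / 2) + 200 * (1944 / ρ ^ 3) * (1 + 3 * V 3 ρ)

set_option maxHeartbeats 1000000 in
/-- **Q5, affine stacks.**  One context, window units.  `T` typical times, four of them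
`2ρ`-separated; reference path of covectors `(τ G, 1 + α τ)` (no bound on `G`), exact stack of
time `τ`: `F - s_τ · y`; lines `(y, om, be, ga)` of the context with `(**)` (error `ε`) and the
relation `G · (om - α y) - ga + α be = O(ε + θ |G|)`.  The path `τ ↦ [τ G - s_τ : 1 + α τ]` of
the EXACT covectors is a path of degree `≤ 1` up to `C(ρ) (1 + Bd) (ε + θ / ε)`. -/
theorem q5a {κ : Type*} [Fintype κ] (T : Finset ℝ) (ρ ε θ η α Bd : ℝ) (hρ : 0 < ρ)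
    (hρ1 : ρ ≤ 1) (hε : 0 < ε) (hε1 : ε ≤ 1) (hθ : 0 ≤ θ) (hα : |α| ≤ 1 / 2)
    (hT : ∀ τ ∈ T, |τ| ≤ 1 ∧ ρ ≤ |τ|)
    (t : Fin 4 → ℝ) (ht : ∀ i, t i ∈ T) (hsep : ∀ i j, i ≠ j → 2 * ρ ≤ |t i - t j|)
    (G : Fin 2 → ℝ) (s : ℝ → Fin 2 → ℝ) (c : ℝ → ℝ) (y om : κ → Fin 2 → ℝ) (be ga : κ → ℝ)
    (hs : ∀ τ ∈ T, ∀ l, |s τ l| ≤ Bd)
    (hy : ∀ x i, |y x i| ≤ 1 / 2) (hom : ∀ x i, |om x i| ≤ 1 / 2)
    (hbe : ∀ x, |be x| ≤ 1) (hga : ∀ x, |ga x| ≤ 1)
    (hstar : ∀ τ ∈ T, ∀ x,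
      |∑ i, s τ i * (y x i + τ * om x i) + c τ - τ * be x - τ ^ 2 * ga x| ≤ ε)
    (hrel : ∀ x, |∑ i, G i * (om x i - α * y x i) - ga x + α * be x|
      ≤ ε + θ * Real.sqrt (G 0 ^ 2 + G 1 ^ 2))
    (x0 x1 x2 x3 : κ) (l0 : Fin 2)
    (hA1 : ∀ τ ∈ T, ∃ a : Fin 2 → κ,
      ρ ≤ |(Matrix.of fun i j => (y (a i) j - y x0 j) + τ * (om (a i) j - om x0 j)).det|)
    (hdet : ρ ≤ |(y x1 0 - y x0 0) * (y x2 1 - y x0 1) - (y x1 1 - y x0 1) * (y x2 0 - y x0 0)|)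
    (hclose : ∀ l, |y x3 l - y x0 l| ≤ η) (hη : η ≤ ρ ^ 2 / 288)
    (hact : ρ ≤ |om x3 l0 - om x0 l0|) (hsmall : θ / ε ≤ ρ ^ 2 / 40000) :
    ∃ (q : ℝ[X]) (p : Fin 2 → ℝ[X]), q.natDegree ≤ 1 ∧ (∀ l, (p l).natDegree ≤ 1) ∧
      (∃ s' ∈ T, ρ ^ 3 / 4 ≤ |q.eval s'|) ∧ (∀ τ : ℝ, |τ| ≤ 1 → |q.eval τ| ≤ 48) ∧
      ∀ τ ∈ T, ∀ l, |q.eval τ * (τ * G l - s τ l) - (1 + α * τ) * (p l).eval τ|
        ≤ CQ ρ * (1 + Bd) * (ε + θ / ε) := by
  have hBd : 0 ≤ Bd := (abs_nonneg _).trans (hs _ (ht 0) 0)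
  have hV : 0 ≤ V 3 ρ := V_nonneg 3 hρ
  have hθε : 0 ≤ θ / ε := div_nonneg hθ hε.le
  set Γ := Real.sqrt (G 0 ^ 2 + G 1 ^ 2) with hΓdef
  have hΓ0 : 0 ≤ Γ := Real.sqrt_nonneg _
  have hΓ2 : Γ ^ 2 = G 0 ^ 2 + G 1 ^ 2 := Real.sq_sqrt (by positivity)
  have hCA : 0 ≤ CA (ρ ^ 2 / 2) := by unfold CA; positivity
  have hCB : 0 ≤ 200 * (1944 / ρ ^ 3) * (1 + 3 * V 3 ρ) := by positivity
  have hρ3 : ρ ^ 3 ≤ 1 := pow_le_one₀ hρ.le hρ1
  rcases le_or_gt (θ * Γ) ε with hcase | hcase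
  · -- flat / moderate
    obtain ⟨n, u, hn, hu, H⟩ := caseA T (ρ ^ 2 / 2) (2 * ε) α (by positivity) (by positivity) hα
      (fun τ hτ => (hT τ hτ).1) G s c y om be ga hy hom
      (fun τ hτ x => (hstar τ hτ x).trans (by linarith))
      (fun x => (hrel x).trans (by linarith)) x0
      (fun τ hτ => by
        obtain ⟨a, ha⟩ := hA1 τ hτ
        exact ⟨a, le_trans (by nlinarith) ha⟩)
      ⟨![x1, x2, x3], ![Sum.inl 0, Sum.inl 1, Sum.inr l0], by
        intro i j hij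
        fin_cases i <;> fin_cases j <;> simp_all, by
        have hb : ∀ x l, |y x l - y x0 l| ≤ 1 := fun x l =>
          (abs_sub _ _).trans (by linarith [hy x l, hy x0 l])
        have hb' : ∀ x l, |om x l - om x0 l| ≤ 1 := fun x l =>
          (abs_sub _ _).trans (by linarith [hom x l, hom x0 l])
        have h3 := det3_lower (y x1 0 - y x0 0) (y x1 1 - y x0 1) (om x1 l0 - om x0 l0)
          (y x2 0 - y x0 0) (y x2 1 - y x0 1) (om x2 l0 - om x0 l0)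
          (y x3 0 - y x0 0) (y x3 1 - y x0 1) (om x3 l0 - om x0 l0) ρ ρ 1 η (by norm_num) hρ.le
          (hb _ _) (hb _ _) (hb' _ _) (hb _ _) (hb _ _) (hb' _ _) (hclose 0) (hclose 1) hdet hact
        rw [Matrix.det_fin_three]
        simp only [Matrix.of_apply, PATH.co, Fin.isValue, Matrix.cons_val_zero,
          Matrix.cons_val_one, Matrix.cons_val, Sum.elim_inl, Sum.elim_inr]
        refine le_trans ?_ h3
        nlinarith⟩
    -- a node far from all `u k`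
    have hex : ∃ i : Fin 4, ∀ k : Fin n, ρ ≤ |t i - u k| := by
      by_contra hcon
      push Not at hcon
      choose k hk using hcon
      have hcard : Fintype.card (Fin n) < Fintype.card (Fin 4) := by
        simp only [Fintype.card_fin]; omega
      obtain ⟨i, j, hij, hkij⟩ := Fintype.exists_ne_map_eq_of_card_lt k hcard
      have h1 := hk i
      have h2 := hk j
      rw [← hkij] at h2
      have h3 := hsep i j hij
      have h4 : |t i - t j| ≤ |t i - u (k i)| + |t j - u (k i)| := by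
        have : t i - t j = (t i - u (k i)) - (t j - u (k i)) := by ring
        rw [this]; exact abs_sub _ _
      linarith
    obtain ⟨i, hi⟩ := hex
    obtain ⟨q, p, hq, hp, hqs, hq1, hqp⟩ := H (t i) (ht i)
    refine ⟨q, p, hq, hp, ⟨t i, ht i, ?_⟩, hq1, fun τ hτ l => (hqp τ hτ l).trans ?_⟩
    · rw [hqs, Finset.abs_prod]
      have h1 : ρ ^ n ≤ ∏ k, |t i - u k| := by
        calc ρ ^ n = ∏ _k : Fin n, ρ := by simp
          _ ≤ ∏ k, |t i - u k| :=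
              Finset.prod_le_prod (fun _ _ => hρ.le) (fun k _ => hi k)
      have h2 : ρ ^ 3 ≤ ρ ^ n := pow_le_pow_of_le_one hρ.le hρ1 hn
      have h3 : 0 < ρ ^ 3 := by positivity
      linarith
    · unfold CQ
      have h1 : CA (ρ ^ 2 / 2) * (2 * ε) ≤ 2 * CA (ρ ^ 2 / 2) * 1 * (ε + θ / ε) := by nlinarith
      have h2 : 2 * CA (ρ ^ 2 / 2) * 1 * (ε + θ / ε)
          ≤ (2 * CA (ρ ^ 2 / 2) + 200 * (1944 / ρ ^ 3) * (1 + 3 * V 3 ρ)) * (1 + Bd)
            * (ε + θ / ε) := by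
        refine mul_le_mul_of_nonneg_right ?_ (by positivity)
        refine mul_le_mul (by linarith) (by linarith) (by norm_num) (by positivity)
      linarith
  · -- curved
    have hΓpos : 0 < Γ := by
      rcases hΓ0.lt_or_eq with h | h
      · exact h
      · rw [← h, mul_zero] at hcase; linarith
    have hinv : 1 / Γ ≤ θ / ε := by
      rw [div_le_div_iff₀ hΓpos hε]; linarith
    have hθ1 : θ ≤ θ / ε := by
      rw [le_div_iff₀ hε]; nlinarith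
    have hf : (G 0 / Γ) ^ 2 + (G 1 / Γ) ^ 2 = 1 := by
      rw [div_pow, div_pow, ← add_div, ← hΓ2]
      exact div_self (by positivity)
    have hrel' : ∀ x, |G 0 / Γ * (om x 0 - α * y x 0) + G 1 / Γ * (om x 1 - α * y x 1)|
        ≤ 4 * (θ / ε) := by
      intro x
      have e : G 0 / Γ * (om x 0 - α * y x 0) + G 1 / Γ * (om x 1 - α * y x 1)
          = (∑ i, G i * (om x i - α * y x i)) * (1 / Γ) := by
        rw [Fin.sum_univ_two]; ring
      have h1 : |∑ i, G i * (om x i - α * y x i)| ≤ ε + θ * Γ + 3 / 2 := by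
        have h2 : ∑ i, G i * (om x i - α * y x i)
            = (∑ i, G i * (om x i - α * y x i) - ga x + α * be x) + (ga x - α * be x) := by ring
        have h3 : |ga x - α * be x| ≤ 3 / 2 := by
          have h4 : |α * be x| ≤ 1 / 2 * 1 := by
            rw [abs_mul]; exact mul_le_mul hα (hbe x) (abs_nonneg _) (by norm_num)
          exact (abs_sub _ _).trans (by linarith [hga x])
        rw [h2]
        exact (abs_add_le _ _).trans (by linarith [hrel x])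
      rw [e, abs_mul, abs_of_pos (by positivity : 0 < 1 / Γ)]
      calc |∑ i, G i * (om x i - α * y x i)| * (1 / Γ) ≤ (ε + θ * Γ + 3 / 2) * (1 / Γ) :=
            mul_le_mul_of_nonneg_right h1 (by positivity)
        _ = (ε + 3 / 2) * (1 / Γ) + θ := by field_simp; ring
        _ ≤ (5 / 2) * (θ / ε) + θ / ε := by
            have := mul_le_mul (by linarith : ε + 3 / 2 ≤ 5 / 2) hinv (by positivity)
              (by norm_num)
            linarith
        _ ≤ 4 * (θ / ε) := by linarith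
    have hρ2 : ρ ^ 2 ≤ ρ := by nlinarith
    obtain ⟨q, p, hq, hp, hq1, hqp⟩ := caseB T ρ ε (4 * (θ / ε)) η α Γ (G 0 / Γ) (G 1 / Γ) Bd hρ
      hρ1 hε.le hα hΓpos hf hT (fun i => t (Fin.castSucc i)) (fun i => ht _)
      (fun i j hij => by
        have := hsep (Fin.castSucc i) (Fin.castSucc j)
          (fun h => hij (Fin.castSucc_injective 3 h))
        linarith)
      G (mul_div_cancel₀ _ hΓpos.ne').symm (mul_div_cancel₀ _ hΓpos.ne').symm s c y om be ga hs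
      hy hom hbe hga hstar hrel' x0 x1 x2 x3 l0 hdet hclose hη hact (by nlinarith)
    have hK : 4 * (1944 / ρ ^ 2) / Γ ≤ 1 / 5 := by
      have h1 : 4 * (1944 / ρ ^ 2) / Γ = 7776 / ρ ^ 2 * (1 / Γ) := by ring
      have h2 : 7776 / ρ ^ 2 * (1 / Γ) ≤ 7776 / ρ ^ 2 * (ρ ^ 2 / 40000) :=
        mul_le_mul_of_nonneg_left (hinv.trans hsmall) (by positivity)
      have h3 : 7776 / ρ ^ 2 * (ρ ^ 2 / 40000) = 7776 / 40000 := by
        field_simp
      rw [h1]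
      refine h2.trans ?_
      rw [h3]; norm_num
    have hατ : ∀ τ : ℝ, |τ| ≤ 1 → |α * τ| ≤ 1 / 2 := by
      intro τ hτ
      rw [abs_mul]
      have := mul_le_mul hα hτ (abs_nonneg _) (by norm_num)
      linarith
    refine ⟨q, p, hq, hp, ⟨t 0, ht 0, ?_⟩, fun τ hτ => ?_, fun τ hτ l => (hqp τ hτ l).trans ?_⟩
    · have h1 := abs_le.mp ((hq1 (t 0) (hT _ (ht 0)).1).trans hK)
      have h2 := abs_le.mp (hατ (t 0) (hT _ (ht 0)).1)
      have h3 : 1 / 4 ≤ q.eval (t 0) := by linarith [h1.1, h2.1]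
      exact le_trans (by linarith) (h3.trans (le_abs_self _))
    · have h1 := abs_le.mp ((hq1 τ hτ).trans hK)
      have h2 := abs_le.mp (hατ τ hτ)
      rw [abs_le]; constructor <;> linarith [h1.1, h1.2, h2.1, h2.2]
    · unfold EB CQ
      have a1 : 2 * ε + 4 * Bd * (4 * (θ / ε)) ≤ 16 * ((1 + Bd) * (ε + θ / ε)) := by
        nlinarith [mul_nonneg hBd hε.le, mul_nonneg hBd hθε]
      have a2 : 1944 / ρ ^ 2 * (2 * ε + 4 * Bd * (4 * (θ / ε))) / ρ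
          = 1944 / ρ ^ 3 * (2 * ε + 4 * Bd * (4 * (θ / ε))) := by
        field_simp
      have a3 : 1944 / ρ ^ 2 ≤ 1944 / ρ ^ 3 :=
        div_le_div_of_nonneg_left (by norm_num) (by positivity)
          (pow_le_pow_of_le_one hρ.le hρ1 (by norm_num))
      set A := 1944 / ρ ^ 3 with hA
      have hA0 : 0 ≤ A := by positivity
      set W := (1 + Bd) * (ε + θ / ε) with hW
      have hW0 : 0 ≤ W := by positivity
      have a4 : 1944 / ρ ^ 3 * (2 * ε + 4 * Bd * (4 * (θ / ε))) ≤ A * (16 * W) :=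
        mul_le_mul_of_nonneg_left a1 hA0
      have a5 : 2 * (1944 / ρ ^ 2 * (2 * ε + 4 * Bd * (4 * (θ / ε))) / ρ) * (1 + 3 * V 3 ρ)
          ≤ 2 * (A * (16 * W)) * (1 + 3 * V 3 ρ) := by
        rw [a2]
        exact mul_le_mul_of_nonneg_right (by linarith) (by positivity)
      have a6 : 4 * (1944 / ρ ^ 2) / Γ * (2 * Bd) ≤ 8 * (A * W) := by
        have e : 4 * (1944 / ρ ^ 2) / Γ * (2 * Bd) = 8 * (1944 / ρ ^ 2 * ((1 / Γ) * Bd)) := by
          ring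
        have h1 : (1 / Γ) * Bd ≤ W := by
          have := mul_le_mul_of_nonneg_right hinv hBd
          rw [hW]
          nlinarith [mul_nonneg hBd hε.le, mul_nonneg hBd hθε]
        have h2 : 1944 / ρ ^ 2 * ((1 / Γ) * Bd) ≤ A * W :=
          mul_le_mul a3 h1 (by positivity) hA0
        rw [e]; linarith
      have a7 : A * W ≤ A * W * (1 + 3 * V 3 ρ) := by
        have : 0 ≤ A * W := mul_nonneg hA0 hW0
        nlinarith [mul_nonneg this hV]
      have a8 : (2 * CA (ρ ^ 2 / 2) + 200 * A * (1 + 3 * V 3 ρ)) * (1 + Bd) * (ε + θ / ε)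
          = 2 * CA (ρ ^ 2 / 2) * W + 200 * (A * W * (1 + 3 * V 3 ρ)) := by
        rw [hW]; ring
      have a9 : 0 ≤ 2 * CA (ρ ^ 2 / 2) * W := by positivity
      rw [a8]
      nlinarith

/-- The times at which the leading coefficient `q` of the path is small form a short interval. -/
theorem bad_interval (q : ℝ[X]) (hq : q.natDegree ≤ 1) (s' h ν : ℝ) (hh : 0 < h)
    (hs : ν ≤ |q.eval s'|) (hs1 : |s'| ≤ 1) (hν : 2 * h ≤ ν) (τ τ' : ℝ) (hτ1 : |τ| ≤ 1)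
    (hτ : |q.eval τ| < h) (hτ' : |q.eval τ'| < h) : |τ - τ'| ≤ 8 * h / ν := by
  have hev : ∀ x : ℝ, q.eval x = q.coeff 0 + q.coeff 1 * x := by
    intro x
    rw [Polynomial.eval_eq_sum_range' (Nat.lt_succ_of_le hq)]
    simp [Finset.sum_range_succ]
  have hνpos : 0 < ν := by linarith
  have h1 : |q.coeff 1| * |τ - τ'| ≤ 2 * h := by
    have e : q.coeff 1 * (τ - τ') = q.eval τ - q.eval τ' := by rw [hev, hev]; ring
    rw [← abs_mul, e]
    exact (abs_sub _ _).trans (by linarith)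
  have h2 : ν / 2 ≤ |q.coeff 1| * |s' - τ| := by
    have e : q.eval s' = q.coeff 1 * (s' - τ) + q.eval τ := by rw [hev, hev]; ring
    rw [← abs_mul]
    have := abs_add_le (q.coeff 1 * (s' - τ)) (q.eval τ)
    rw [← e] at this
    linarith
  have h3 : |s' - τ| ≤ 2 := (abs_sub _ _).trans (by linarith)
  have h4 : ν / 4 ≤ |q.coeff 1| := by nlinarith [abs_nonneg (q.coeff 1), abs_nonneg (s' - τ)]
  rw [le_div_iff₀ hνpos]
  nlinarith [abs_nonneg (τ - τ')]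

/-- The exact slope at the good times. -/
theorem slope_close (m Q A P E h : ℝ) (hm : 1 / 2 ≤ m) (hh : 0 < h) (hQ : h ≤ |Q|)
    (H : |Q * A - m * P| ≤ E) : |A / m - P / Q| ≤ 2 * E / h := by
  have hQ0 : Q ≠ 0 := by
    intro h0; rw [h0, abs_zero] at hQ; linarith
  have hm0 : m ≠ 0 := by linarith
  have e : A / m - P / Q = (Q * A - m * P) / (m * Q) := by field_simp
  have hE : 0 ≤ E := (abs_nonneg _).trans H
  rw [e, abs_div, abs_mul, abs_of_pos (by linarith : (0 : ℝ) < m)]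
  have h1 : h / 2 ≤ m * |Q| := by nlinarith
  calc |Q * A - m * P| / (m * |Q|) ≤ E / (h / 2) :=
        div_le_div₀ hE H (by positivity) h1
    _ = 2 * E / h := by field_simp

end Pool.H72.Q5A
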