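import Pool.Agent.H72.QQC

/-!
# LEMMA QC-F with errors (K_QC_helper34 section 2)

`N_τ(u,v) = c + s_e u + s_f v + h_ee u²/2 + h_ef u v + h_ff v²/2` (all coefficients bounded, no
assumption on the size of the background slope).  Vertices `x` (positions `(y_e, z)`, height `a`) and
over each vertex two lines `(σ, k, β)` with the same `k` and `ρ`-separated `σ`, contained in the
moving graph: `N_τ(y_e + τ σ, z + τ k) = a + τ β + O(ε)`.  Then (with `b = 1 + κ τ`,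
`w = v - κ₀ τ`)
`b² N_τ(u,v) = b² p₀(τ) + b p₁(τ) w + p₂(τ) w² + u b (b A + B w) + O(err)`, `p_i` affine in `τ`.
-/

namespace Pool.H72.QCF

open Finset Pool.H72.QQC

/-- COMBINATORICS: nine points, three colours (`R r` symmetric), every triple has a coloured pair:
then some point has two neighbours of the same colour. -/
theorem comb (R : Fin 3 → Fin 9 → Fin 9 → Prop)
    (hR : ∀ p q w, p ≠ q → p ≠ w → q ≠ w → ∃ r, R r p q ∨ R r p w ∨ R r q w) :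
    ∃ r p q q', p ≠ q ∧ p ≠ q' ∧ q ≠ q' ∧ R r p q ∧ R r p q' := by
  classical
  by_contra hno
  push Not at hno
  have hN : ∀ p, (Finset.univ.filter fun q => q ≠ p ∧ ∃ r, R r p q).card ≤ 3 := by
    intro p
    have hsub : (Finset.univ.filter fun q => q ≠ p ∧ ∃ r, R r p q)
        ⊆ Finset.univ.biUnion fun r : Fin 3 => Finset.univ.filter fun q => q ≠ p ∧ R r p q := by
      intro q hq
      obtain ⟨h1, r, h2⟩ := (Finset.mem_filter.mp hq).2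
      exact Finset.mem_biUnion.mpr ⟨r, Finset.mem_univ _,
        Finset.mem_filter.mpr ⟨Finset.mem_univ _, h1, h2⟩⟩
    refine (Finset.card_le_card hsub).trans (Finset.card_biUnion_le.trans ?_)
    calc ∑ r : Fin 3, (Finset.univ.filter fun q => q ≠ p ∧ R r p q).card
        ≤ ∑ _r : Fin 3, 1 := by
          refine Finset.sum_le_sum fun r _ => ?_
          refine Finset.card_le_one.mpr fun q hq q' hq' => ?_
          obtain ⟨h1, h2⟩ := (Finset.mem_filter.mp hq).2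
          obtain ⟨h1', h2'⟩ := (Finset.mem_filter.mp hq').2
          by_contra hne
          exact hno r p q q' (Ne.symm h1) (Ne.symm h1') hne h2 h2'
      _ = 3 := by simp
  -- uncoloured neighbours of 0
  set U : Finset (Fin 9) := Finset.univ.filter fun q => q ≠ 0 ∧ ¬ ∃ r, R r 0 q with hU
  have hUc : 5 ≤ U.card := by
    have h1 : (Finset.univ.filter fun q : Fin 9 => q ≠ 0).card = 8 := by decide
    have h2 : (Finset.univ.filter fun q : Fin 9 => q ≠ 0)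
        = (Finset.univ.filter fun q : Fin 9 => q ≠ 0 ∧ ∃ r, R r 0 q) ∪ U := by
      ext q
      simp only [hU, Finset.mem_filter, Finset.mem_univ, true_and, Finset.mem_union]
      tauto
    have h3 : (Finset.univ.filter fun q : Fin 9 => q ≠ 0).card
        ≤ (Finset.univ.filter fun q : Fin 9 => q ≠ 0 ∧ ∃ r, R r 0 q).card + U.card := by
      rw [h2]
      exact Finset.card_union_le _ _
    have h4 := hN 0
    omega
  obtain ⟨q, hq⟩ : U.Nonempty := Finset.card_pos.mp (by omega)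
  have hsub : U.erase q ⊆ Finset.univ.filter fun w => w ≠ q ∧ ∃ r, R r q w := by
    intro w hw
    obtain ⟨hw1, hw2⟩ := Finset.mem_erase.mp hw
    have hq' := (Finset.mem_filter.mp hq).2
    have hw' := (Finset.mem_filter.mp hw2).2
    obtain ⟨r, h⟩ := hR 0 q w (Ne.symm hq'.1) (Ne.symm hw'.1) (Ne.symm hw1)
    refine Finset.mem_filter.mpr ⟨Finset.mem_univ _, hw1, r, ?_⟩
    rcases h with h | h | h
    · exact absurd ⟨r, h⟩ hq'.2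
    · exact absurd ⟨r, h⟩ hw'.2
    · exact h
  have h1 := Finset.card_le_card hsub
  rw [Finset.card_erase_of_mem hq] at h1
  have h2 := hN q
  omega

/-- the cubic form `∏ (z_r ω + k_r τ)`. -/
def VV (z1 k1 z2 k2 z3 k3 τ ω : ℝ) : ℝ :=
  (z1 * ω + k1 * τ) * (z2 * ω + k2 * τ) * (z3 * ω + k3 * τ)

/-- the quadratic form of a triple. -/
def Nq (a1 β1 a2 β2 a3 β3 z23 k23 z13 k13 z12 k12 τ ω : ℝ) : ℝ :=
  (a1 * ω + β1 * τ) * (z23 * ω + k23 * τ) - (a2 * ω + β2 * τ) * (z13 * ω + k13 * τ)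
    + (a3 * ω + β3 * τ) * (z12 * ω + k12 * τ)

/-- a form of degree 5 in `(τ, ω)` small at six nodes `(t_i, 1)` is small. -/
theorem form5 (t : Fin 6 → ℝ) (ρ e : ℝ) (hρ : 0 < ρ) (hρ1 : ρ ≤ 1) (ht : ∀ i, |t i| ≤ 1)
    (hsep : ∀ i j, i ≠ j → ρ ≤ |t i - t j|) (c0 c1 c2 c3 c4 c5 : ℝ)
    (h : ∀ i, |c0 + c1 * t i + c2 * t i ^ 2 + c3 * t i ^ 3 + c4 * t i ^ 4 + c5 * t i ^ 5| ≤ e)
    (τ ω : ℝ) (hτ : |τ| ≤ 2) (hω : |ω| ≤ 2) :
    |c0 * ω ^ 5 + c1 * (τ * ω ^ 4) + c2 * (τ ^ 2 * ω ^ 3) + c3 * (τ ^ 3 * ω ^ 2)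
      + c4 * (τ ^ 4 * ω) + c5 * τ ^ 5| ≤ 192 * V 6 ρ * e := by
  have hv := vand t ρ e hρ hρ1 ht hsep ![c0, c1, c2, c3, c4, c5] (fun i => by
    have := h i
    have e1 : ∑ j : Fin 6, (![c0, c1, c2, c3, c4, c5] : Fin 6 → ℝ) j * t i ^ (j : ℕ)
        = c0 + c1 * t i + c2 * t i ^ 2 + c3 * t i ^ 3 + c4 * t i ^ 4 + c5 * t i ^ 5 := by
      simp [Fin.sum_univ_succ]
      ring
    rw [e1]; exact this)
  have b0 : |c0| ≤ V 6 ρ * e := hv 0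
  have b1 : |c1| ≤ V 6 ρ * e := hv 1
  have b2 : |c2| ≤ V 6 ρ * e := hv 2
  have b3 : |c3| ≤ V 6 ρ * e := hv 3
  have b4 : |c4| ≤ V 6 ρ * e := hv 4
  have b5 : |c5| ≤ V 6 ρ * e := hv 5
  have hVe : 0 ≤ V 6 ρ * e := (abs_nonneg _).trans b0
  have hp : ∀ (c x : ℝ), |c| ≤ V 6 ρ * e → |x| ≤ 32 → |c * x| ≤ V 6 ρ * e * 32 := by
    intro c x hc hx
    rw [abs_mul]
    exact mul_le_mul hc hx (abs_nonneg _) hVe
  have hm : ∀ m n : ℕ, m + n = 5 → |τ ^ m * ω ^ n| ≤ 32 := by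
    intro m n hmn
    rw [abs_mul, abs_pow, abs_pow]
    calc |τ| ^ m * |ω| ^ n ≤ 2 ^ m * 2 ^ n :=
          mul_le_mul (pow_le_pow_left₀ (abs_nonneg _) hτ m) (pow_le_pow_left₀ (abs_nonneg _) hω n)
            (by positivity) (by positivity)
      _ = 2 ^ (m + n) := by rw [pow_add]
      _ = 32 := by rw [hmn]; norm_num
  have g0 : |c0 * ω ^ 5| ≤ V 6 ρ * e * 32 := hp _ _ b0 (by simpa using hm 0 5 rfl)
  have g1 : |c1 * (τ * ω ^ 4)| ≤ V 6 ρ * e * 32 := hp _ _ b1 (by simpa using hm 1 4 rfl)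
  have g2 : |c2 * (τ ^ 2 * ω ^ 3)| ≤ V 6 ρ * e * 32 := hp _ _ b2 (hm 2 3 rfl)
  have g3 : |c3 * (τ ^ 3 * ω ^ 2)| ≤ V 6 ρ * e * 32 := hp _ _ b3 (hm 3 2 rfl)
  have g4 : |c4 * (τ ^ 4 * ω)| ≤ V 6 ρ * e * 32 := hp _ _ b4 (by simpa using hm 4 1 rfl)
  have g5 : |c5 * τ ^ 5| ≤ V 6 ρ * e * 32 := hp _ _ b5 (by simpa using hm 5 0 rfl)
  calc |c0 * ω ^ 5 + c1 * (τ * ω ^ 4) + c2 * (τ ^ 2 * ω ^ 3) + c3 * (τ ^ 3 * ω ^ 2)
      + c4 * (τ ^ 4 * ω) + c5 * τ ^ 5|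
      ≤ |c0 * ω ^ 5| + |c1 * (τ * ω ^ 4)| + |c2 * (τ ^ 2 * ω ^ 3)| + |c3 * (τ ^ 3 * ω ^ 2)|
        + |c4 * (τ ^ 4 * ω)| + |c5 * τ ^ 5| := by
        refine (abs_add_le _ _).trans (add_le_add ?_ le_rfl)
        refine (abs_add_le _ _).trans (add_le_add ?_ le_rfl)
        refine (abs_add_le _ _).trans (add_le_add ?_ le_rfl)
        refine (abs_add_le _ _).trans (add_le_add ?_ le_rfl)
        exact abs_add_le _ _
    _ ≤ 192 * V 6 ρ * e := by linarith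


/-- The 1-dimensional problem: `n_τ(u) = c + s u + g u²`, vertices `(z, k, a, β)`. -/
def n1 (c s g u : ℝ) : ℝ := c + s * u + g * u ^ 2

theorem tri (c s g u1 u2 u3 : ℝ) :
    n1 c s g u1 * (u2 - u3) - n1 c s g u2 * (u1 - u3) + n1 c s g u3 * (u1 - u2)
      = g * ((u1 - u2) * (u1 - u3) * (u2 - u3)) := by
  unfold n1; ring

/-- the triple relation with errors. -/
theorem triple {ε3 c s g τ z1 k1 a1 β1 z2 k2 a2 β2 z3 k3 a3 β3 : ℝ} (hτ : |τ| ≤ 1)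
    (hz1 : |z1| ≤ 1) (hz2 : |z2| ≤ 1) (hz3 : |z3| ≤ 1) (hk1 : |k1| ≤ 1) (hk2 : |k2| ≤ 1)
    (hk3 : |k3| ≤ 1)
    (h1 : |n1 c s g (z1 + τ * k1) - (a1 + β1 * τ)| ≤ ε3)
    (h2 : |n1 c s g (z2 + τ * k2) - (a2 + β2 * τ)| ≤ ε3)
    (h3 : |n1 c s g (z3 + τ * k3) - (a3 + β3 * τ)| ≤ ε3) :
    |g * VV (z1 - z2) (k1 - k2) (z1 - z3) (k1 - k3) (z2 - z3) (k2 - k3) τ 1
      - Nq a1 β1 a2 β2 a3 β3 (z2 - z3) (k2 - k3) (z1 - z3) (k1 - k3) (z1 - z2) (k1 - k2) τ 1|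
      ≤ 12 * ε3 := by
  have hu : ∀ z k : ℝ, |z| ≤ 1 → |k| ≤ 1 → |z + τ * k| ≤ 2 := by
    intro z k hz hk
    calc |z + τ * k| ≤ |z| + |τ * k| := abs_add_le _ _
      _ ≤ 1 + 1 * 1 := by
          rw [abs_mul]
          exact add_le_add hz (mul_le_mul hτ hk (abs_nonneg _) (by norm_num))
      _ = 2 := by norm_num
  have e : g * VV (z1 - z2) (k1 - k2) (z1 - z3) (k1 - k3) (z2 - z3) (k2 - k3) τ 1
      - Nq a1 β1 a2 β2 a3 β3 (z2 - z3) (k2 - k3) (z1 - z3) (k1 - k3) (z1 - z2) (k1 - k2) τ 1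
      = (n1 c s g (z1 + τ * k1) - (a1 + β1 * τ)) * ((z2 + τ * k2) - (z3 + τ * k3))
        - (n1 c s g (z2 + τ * k2) - (a2 + β2 * τ)) * ((z1 + τ * k1) - (z3 + τ * k3))
        + (n1 c s g (z3 + τ * k3) - (a3 + β3 * τ)) * ((z1 + τ * k1) - (z2 + τ * k2)) := by
    unfold n1 VV Nq; ring
  have hε : 0 ≤ ε3 := (abs_nonneg _).trans h1
  have hd : ∀ x y : ℝ, |x| ≤ 2 → |y| ≤ 2 → |x - y| ≤ 4 := fun x y hx hy =>
    (abs_sub _ _).trans (by linarith)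
  rw [e]
  have b1 : |(n1 c s g (z1 + τ * k1) - (a1 + β1 * τ)) * ((z2 + τ * k2) - (z3 + τ * k3))|
      ≤ ε3 * 4 := by
    rw [abs_mul]
    exact mul_le_mul h1 (hd _ _ (hu _ _ hz2 hk2) (hu _ _ hz3 hk3)) (abs_nonneg _) hε
  have b2 : |(n1 c s g (z2 + τ * k2) - (a2 + β2 * τ)) * ((z1 + τ * k1) - (z3 + τ * k3))|
      ≤ ε3 * 4 := by
    rw [abs_mul]
    exact mul_le_mul h2 (hd _ _ (hu _ _ hz1 hk1) (hu _ _ hz3 hk3)) (abs_nonneg _) hε
  have b3 : |(n1 c s g (z3 + τ * k3) - (a3 + β3 * τ)) * ((z1 + τ * k1) - (z2 + τ * k2))|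
      ≤ ε3 * 4 := by
    rw [abs_mul]
    exact mul_le_mul h3 (hd _ _ (hu _ _ hz1 hk1) (hu _ _ hz2 hk2)) (abs_nonneg _) hε
  refine (abs_add_le _ _).trans ?_
  refine (add_le_add (abs_sub _ _) le_rfl).trans ?_
  linarith

theorem VV_le {z1 k1 z2 k2 z3 k3 τ ω : ℝ} (h1 : |z1 * ω + k1 * τ| ≤ 4)
    (h2 : |z2 * ω + k2 * τ| ≤ 4) (h3 : |z3 * ω + k3 * τ| ≤ 4) :
    |VV z1 k1 z2 k2 z3 k3 τ ω| ≤ 64 := by
  unfold VV
  rw [abs_mul, abs_mul]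
  calc |z1 * ω + k1 * τ| * |z2 * ω + k2 * τ| * |z3 * ω + k3 * τ| ≤ 4 * 4 * 4 := by
        refine mul_le_mul ?_ h3 (abs_nonneg _) (by norm_num)
        exact mul_le_mul h1 h2 (abs_nonneg _) (by norm_num)
    _ = 64 := by norm_num

/-- A quadratic form small at three points `P, P+Q, Q` with `|det(P,Q)| ≥ r` is small. -/
theorem quadform (n0 n1 n2 z12 k12 z23 k23 r E : ℝ) (hr : 0 < r)
    (hz12 : |z12| ≤ 2) (hk12 : |k12| ≤ 2) (hz23 : |z23| ≤ 2) (hk23 : |k23| ≤ 2)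
    (hd : r ≤ |z23 * k12 - z12 * k23|)
    (h1 : |n0 * k12 ^ 2 + n1 * (-z12 * k12) + n2 * (-z12) ^ 2| ≤ E)
    (h2 : |n0 * k23 ^ 2 + n1 * (-z23 * k23) + n2 * (-z23) ^ 2| ≤ E)
    (h3 : |n0 * (k12 + k23) ^ 2 + n1 * (-(z12 + z23) * (k12 + k23)) + n2 * (-(z12 + z23)) ^ 2| ≤ E)
    (τ : ℝ) (hτ : |τ| ≤ 1) : |n0 + n1 * τ + n2 * τ ^ 2| ≤ 80 * E / r ^ 2 := by
  have hE : 0 ≤ E := (abs_nonneg _).trans h1
  set D := z23 * k12 - z12 * k23 with hD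
  have hD0 : D ≠ 0 := by
    intro h
    rw [h, abs_zero] at hd
    linarith
  set x := (τ * k23 + z23) / D with hx
  set y := -(τ * k12 + z12) / D with hy
  have ex : -(x * z12) - y * z23 = τ := by
    rw [hx, hy]
    field_simp
    rw [hD]; ring
  have ey : x * k12 + y * k23 = 1 := by
    rw [hx, hy]
    field_simp
    rw [hD]; ring
  have key : n0 + n1 * τ + n2 * τ ^ 2
      = (x ^ 2 - x * y) * (n0 * k12 ^ 2 + n1 * (-z12 * k12) + n2 * (-z12) ^ 2)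
        + (y ^ 2 - x * y) * (n0 * k23 ^ 2 + n1 * (-z23 * k23) + n2 * (-z23) ^ 2)
        + x * y * (n0 * (k12 + k23) ^ 2 + n1 * (-(z12 + z23) * (k12 + k23))
          + n2 * (-(z12 + z23)) ^ 2) := by
    have : n0 + n1 * τ + n2 * τ ^ 2
        = n0 * (x * k12 + y * k23) ^ 2 + n1 * ((-(x * z12) - y * z23) * (x * k12 + y * k23))
          + n2 * (-(x * z12) - y * z23) ^ 2 := by
      rw [ex, ey]; ring
    rw [this]; ring
  have hxb : |x| ≤ 4 / r := by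
    rw [hx, abs_div]
    refine div_le_div₀ (by norm_num) ?_ hr hd
    calc |τ * k23 + z23| ≤ |τ * k23| + |z23| := abs_add_le _ _
      _ ≤ 1 * 2 + 2 := by
          rw [abs_mul]
          exact add_le_add (mul_le_mul hτ hk23 (abs_nonneg _) (by norm_num)) hz23
      _ = 4 := by norm_num
  have hyb : |y| ≤ 4 / r := by
    rw [hy, abs_div, abs_neg]
    refine div_le_div₀ (by norm_num) ?_ hr hd
    calc |τ * k12 + z12| ≤ |τ * k12| + |z12| := abs_add_le _ _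
      _ ≤ 1 * 2 + 2 := by
          rw [abs_mul]
          exact add_le_add (mul_le_mul hτ hk12 (abs_nonneg _) (by norm_num)) hz12
      _ = 4 := by norm_num
  have hr0 : (0 : ℝ) ≤ 4 / r := by positivity
  have hxx : |x ^ 2| ≤ 16 / r ^ 2 := by
    rw [abs_pow]
    calc |x| ^ 2 ≤ (4 / r) ^ 2 := pow_le_pow_left₀ (abs_nonneg _) hxb 2
      _ = 16 / r ^ 2 := by ring
  have hyy : |y ^ 2| ≤ 16 / r ^ 2 := by
    rw [abs_pow]
    calc |y| ^ 2 ≤ (4 / r) ^ 2 := pow_le_pow_left₀ (abs_nonneg _) hyb 2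
      _ = 16 / r ^ 2 := by ring
  have hxy : |x * y| ≤ 16 / r ^ 2 := by
    rw [abs_mul]
    calc |x| * |y| ≤ (4 / r) * (4 / r) := mul_le_mul hxb hyb (abs_nonneg _) hr0
      _ = 16 / r ^ 2 := by ring
  rw [key]
  have g1 : |(x ^ 2 - x * y) * (n0 * k12 ^ 2 + n1 * (-z12 * k12) + n2 * (-z12) ^ 2)|
      ≤ 32 / r ^ 2 * E := by
    rw [abs_mul]
    refine mul_le_mul ?_ h1 (abs_nonneg _) (by positivity)
    refine (abs_sub _ _).trans ((add_le_add hxx hxy).trans (le_of_eq ?_))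
    ring
  have g2 : |(y ^ 2 - x * y) * (n0 * k23 ^ 2 + n1 * (-z23 * k23) + n2 * (-z23) ^ 2)|
      ≤ 32 / r ^ 2 * E := by
    rw [abs_mul]
    refine mul_le_mul ?_ h2 (abs_nonneg _) (by positivity)
    refine (abs_sub _ _).trans ((add_le_add hyy hxy).trans (le_of_eq ?_))
    ring
  have g3 : |x * y * (n0 * (k12 + k23) ^ 2 + n1 * (-(z12 + z23) * (k12 + k23))
          + n2 * (-(z12 + z23)) ^ 2)| ≤ 16 / r ^ 2 * E := by
    rw [abs_mul]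
    exact mul_le_mul hxy h3 (abs_nonneg _) (by positivity)
  refine (abs_add_le _ _).trans ?_
  refine (add_le_add (abs_add_le _ _) le_rfl).trans ?_
  calc |(x ^ 2 - x * y) * (n0 * k12 ^ 2 + n1 * (-z12 * k12) + n2 * (-z12) ^ 2)|
        + |(y ^ 2 - x * y) * (n0 * k23 ^ 2 + n1 * (-z23 * k23) + n2 * (-z23) ^ 2)|
        + |x * y * (n0 * (k12 + k23) ^ 2 + n1 * (-(z12 + z23) * (k12 + k23))
          + n2 * (-(z12 + z23)) ^ 2)|
      ≤ 32 / r ^ 2 * E + 32 / r ^ 2 * E + 16 / r ^ 2 * E := by linarith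
    _ = 80 * E / r ^ 2 := by ring


/-- The product difference `V' N - V N'` is a form of degree 5: small at six nodes implies small. -/
theorem prod_form (t : Fin 6 → ℝ) (ρ e : ℝ) (hρ : 0 < ρ) (hρ1 : ρ ≤ 1) (ht : ∀ i, |t i| ≤ 1)
    (hsep : ∀ i j, i ≠ j → ρ ≤ |t i - t j|)
    (z1 k1 z2 k2 z3 k3 a1 b1 a2 b2 a3 b3 m1 l1 m2 l2 m3 l3 : ℝ)
    (z1' k1' z2' k2' z3' k3' a1' b1' a2' b2' a3' b3' m1' l1' m2' l2' m3' l3' : ℝ)
    (h : ∀ i, |VV z1' k1' z2' k2' z3' k3' (t i) 1 * Nq a1 b1 a2 b2 a3 b3 m1 l1 m2 l2 m3 l3 (t i) 1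
      - VV z1 k1 z2 k2 z3 k3 (t i) 1
        * Nq a1' b1' a2' b2' a3' b3' m1' l1' m2' l2' m3' l3' (t i) 1| ≤ e)
    (τ ω : ℝ) (hτ : |τ| ≤ 2) (hω : |ω| ≤ 2) :
    |VV z1' k1' z2' k2' z3' k3' τ ω * Nq a1 b1 a2 b2 a3 b3 m1 l1 m2 l2 m3 l3 τ ω
      - VV z1 k1 z2 k2 z3 k3 τ ω
        * Nq a1' b1' a2' b2' a3' b3' m1' l1' m2' l2' m3' l3' τ ω| ≤ 192 * V 6 ρ * e := by
  -- coefficients of `N`
  obtain ⟨n0, n1, n2, hN⟩ : ∃ n0 n1 n2 : ℝ, ∀ τ ω : ℝ,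
      Nq a1 b1 a2 b2 a3 b3 m1 l1 m2 l2 m3 l3 τ ω = n0 * ω ^ 2 + n1 * (τ * ω) + n2 * τ ^ 2 :=
    ⟨a1 * m1 - a2 * m2 + a3 * m3, a1 * l1 + b1 * m1 - (a2 * l2 + b2 * m2) + (a3 * l3 + b3 * m3),
      b1 * l1 - b2 * l2 + b3 * l3, fun τ ω => by unfold Nq; ring⟩
  obtain ⟨n0', n1', n2', hN'⟩ : ∃ n0 n1 n2 : ℝ, ∀ τ ω : ℝ,
      Nq a1' b1' a2' b2' a3' b3' m1' l1' m2' l2' m3' l3' τ ω
        = n0 * ω ^ 2 + n1 * (τ * ω) + n2 * τ ^ 2 :=
    ⟨a1' * m1' - a2' * m2' + a3' * m3',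
      a1' * l1' + b1' * m1' - (a2' * l2' + b2' * m2') + (a3' * l3' + b3' * m3'),
      b1' * l1' - b2' * l2' + b3' * l3', fun τ ω => by unfold Nq; ring⟩
  obtain ⟨v0, v1, v2, v3, hV⟩ : ∃ v0 v1 v2 v3 : ℝ, ∀ τ ω : ℝ, VV z1 k1 z2 k2 z3 k3 τ ω
      = v0 * ω ^ 3 + v1 * (τ * ω ^ 2) + v2 * (τ ^ 2 * ω) + v3 * τ ^ 3 :=
    ⟨z1 * z2 * z3, z1 * z2 * k3 + z1 * k2 * z3 + k1 * z2 * z3,
      z1 * k2 * k3 + k1 * z2 * k3 + k1 * k2 * z3, k1 * k2 * k3, fun τ ω => by unfold VV; ring⟩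
  obtain ⟨v0', v1', v2', v3', hV'⟩ : ∃ v0 v1 v2 v3 : ℝ, ∀ τ ω : ℝ,
      VV z1' k1' z2' k2' z3' k3' τ ω
      = v0 * ω ^ 3 + v1 * (τ * ω ^ 2) + v2 * (τ ^ 2 * ω) + v3 * τ ^ 3 :=
    ⟨z1' * z2' * z3', z1' * z2' * k3' + z1' * k2' * z3' + k1' * z2' * z3',
      z1' * k2' * k3' + k1' * z2' * k3' + k1' * k2' * z3', k1' * k2' * k3',
      fun τ ω => by unfold VV; ring⟩
  have hf := form5 t ρ e hρ hρ1 ht hsep
    (v0' * n0 - v0 * n0') (v0' * n1 + v1' * n0 - (v0 * n1' + v1 * n0'))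
    (v0' * n2 + v1' * n1 + v2' * n0 - (v0 * n2' + v1 * n1' + v2 * n0'))
    (v1' * n2 + v2' * n1 + v3' * n0 - (v1 * n2' + v2 * n1' + v3 * n0'))
    (v2' * n2 + v3' * n1 - (v2 * n2' + v3 * n1')) (v3' * n2 - v3 * n2')
    (fun i => by
      have := h i
      rw [hN, hN', hV, hV'] at this
      refine le_trans (le_of_eq ?_) this
      congr 1
      ring) τ ω hτ hω
  rw [hN, hN', hV, hV']
  refine le_trans (le_of_eq ?_) hf
  congr 1
  ring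

/-- TWO TRIPLES without common slopes force `g V = O(ε3 / r^5)`. -/
theorem two_triples (T : Set ℝ) (ρ ε3 r : ℝ) (hρ : 0 < ρ) (hρ1 : ρ ≤ 1) (hr : 0 < r)
    (hT : ∀ τ ∈ T, |τ| ≤ 1)
    (t : Fin 6 → ℝ) (ht : ∀ i, t i ∈ T) (hsep : ∀ i j, i ≠ j → ρ ≤ |t i - t j|)
    (c s g : ℝ → ℝ) {ι : Type*} (z k a β : ι → ℝ) (hz : ∀ x, |z x| ≤ 1) (hk : ∀ x, |k x| ≤ 1)
    (hrel : ∀ τ ∈ T, ∀ x, |n1 (c τ) (s τ) (g τ) (z x + τ * k x) - (a x + β x * τ)| ≤ ε3)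
    (x1 x2 x3 y1 y2 y3 : ι)
    (hd : r ≤ |(z x2 - z x3) * (k x1 - k x2) - (z x1 - z x2) * (k x2 - k x3)|)
    (hne : ∀ p q, (p = y1 ∧ q = y2) ∨ (p = y1 ∧ q = y3) ∨ (p = y2 ∧ q = y3) →
      ∀ v w, (v = x1 ∧ w = x2) ∨ (v = x1 ∧ w = x3) ∨ (v = x2 ∧ w = x3) →
        r ≤ |(z p - z q) * (k v - k w) - (k p - k q) * (z v - z w)|)
    (τ : ℝ) (hτ : τ ∈ T) :
    |g τ * VV (z x1 - z x2) (k x1 - k x2) (z x1 - z x3) (k x1 - k x3) (z x2 - z x3)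
      (k x2 - k x3) τ 1| ≤ 80 * (192 * V 6 ρ * (1536 * ε3) / r ^ 3) / r ^ 2 + 12 * ε3 := by
  have hε : 0 ≤ ε3 := (abs_nonneg _).trans (hrel τ hτ x1)
  have hd2 : ∀ x y : ι, |z x - z y| ≤ 2 := fun x y =>
    (abs_sub _ _).trans (by linarith [hz x, hz y])
  have hk2 : ∀ x y : ι, |k x - k y| ≤ 2 := fun x y =>
    (abs_sub _ _).trans (by linarith [hk x, hk y])
  have hlin : ∀ (x y : ι) (σ : ℝ), |σ| ≤ 1 → |(z x - z y) * 1 + (k x - k y) * σ| ≤ 4 := by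
    intro x y σ hσ
    calc |(z x - z y) * 1 + (k x - k y) * σ| ≤ |(z x - z y) * 1| + |(k x - k y) * σ| :=
          abs_add_le _ _
      _ ≤ 2 + 2 * 1 := by
          rw [mul_one, abs_mul]
          exact add_le_add (hd2 x y) (mul_le_mul (hk2 x y) hσ (abs_nonneg _) (by norm_num))
      _ = 4 := by norm_num
  -- abbreviations
  set N0 : ℝ → ℝ → ℝ := fun τ ω => Nq (a x1) (β x1) (a x2) (β x2) (a x3) (β x3) (z x2 - z x3)
    (k x2 - k x3) (z x1 - z x3) (k x1 - k x3) (z x1 - z x2) (k x1 - k x2) τ ω with hN0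
  set N1 : ℝ → ℝ → ℝ := fun τ ω => Nq (a y1) (β y1) (a y2) (β y2) (a y3) (β y3) (z y2 - z y3)
    (k y2 - k y3) (z y1 - z y3) (k y1 - k y3) (z y1 - z y2) (k y1 - k y2) τ ω with hN1
  set V0 : ℝ → ℝ → ℝ := fun τ ω => VV (z x1 - z x2) (k x1 - k x2) (z x1 - z x3) (k x1 - k x3)
    (z x2 - z x3) (k x2 - k x3) τ ω with hV0
  set V1 : ℝ → ℝ → ℝ := fun τ ω => VV (z y1 - z y2) (k y1 - k y2) (z y1 - z y3) (k y1 - k y3)
    (z y2 - z y3) (k y2 - k y3) τ ω with hV1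
  have tr0 : ∀ σ ∈ T, |g σ * V0 σ 1 - N0 σ 1| ≤ 12 * ε3 := fun σ hσ =>
    triple (hT σ hσ) (hz _) (hz _) (hz _) (hk _) (hk _) (hk _) (hrel σ hσ x1) (hrel σ hσ x2)
      (hrel σ hσ x3)
  have tr1 : ∀ σ ∈ T, |g σ * V1 σ 1 - N1 σ 1| ≤ 12 * ε3 := fun σ hσ =>
    triple (hT σ hσ) (hz _) (hz _) (hz _) (hk _) (hk _) (hk _) (hrel σ hσ y1) (hrel σ hσ y2)
      (hrel σ hσ y3)
  have hV0b : ∀ σ ∈ T, |V0 σ 1| ≤ 64 := fun σ hσ =>
    VV_le (hlin _ _ σ (hT σ hσ)) (hlin _ _ σ (hT σ hσ)) (hlin _ _ σ (hT σ hσ))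
  have hV1b : ∀ σ ∈ T, |V1 σ 1| ≤ 64 := fun σ hσ =>
    VV_le (hlin _ _ σ (hT σ hσ)) (hlin _ _ σ (hT σ hσ)) (hlin _ _ σ (hT σ hσ))
  have hform : ∀ τ' ω' : ℝ, |τ'| ≤ 2 → |ω'| ≤ 2 →
      |V1 τ' ω' * N0 τ' ω' - V0 τ' ω' * N1 τ' ω'| ≤ 192 * V 6 ρ * (1536 * ε3) := by
    intro τ' ω' h1 h2
    refine prod_form t ρ (1536 * ε3) hρ hρ1 (fun i => hT _ (ht i)) hsep _ _ _ _ _ _ _ _ _ _ _ _
      _ _ _ _ _ _ _ _ _ _ _ _ _ _ _ _ _ _ _ _ _ _ _ _ (fun i => ?_) τ' ω' h1 h2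
    have e : V1 (t i) 1 * N0 (t i) 1 - V0 (t i) 1 * N1 (t i) 1
        = V0 (t i) 1 * (g (t i) * V1 (t i) 1 - N1 (t i) 1)
          - V1 (t i) 1 * (g (t i) * V0 (t i) 1 - N0 (t i) 1) := by ring
    change |V1 (t i) 1 * N0 (t i) 1 - V0 (t i) 1 * N1 (t i) 1| ≤ 1536 * ε3
    rw [e]
    calc |V0 (t i) 1 * (g (t i) * V1 (t i) 1 - N1 (t i) 1)
          - V1 (t i) 1 * (g (t i) * V0 (t i) 1 - N0 (t i) 1)|
        ≤ |V0 (t i) 1 * (g (t i) * V1 (t i) 1 - N1 (t i) 1)|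
          + |V1 (t i) 1 * (g (t i) * V0 (t i) 1 - N0 (t i) 1)| := abs_sub _ _
      _ ≤ 64 * (12 * ε3) + 64 * (12 * ε3) := by
          rw [abs_mul, abs_mul]
          exact add_le_add (mul_le_mul (hV0b _ (ht i)) (tr1 _ (ht i)) (abs_nonneg _) (by norm_num))
            (mul_le_mul (hV1b _ (ht i)) (tr0 _ (ht i)) (abs_nonneg _) (by norm_num))
      _ = 1536 * ε3 := by ring
  set E1 : ℝ := 192 * V 6 ρ * (1536 * ε3) with hE1
  have hE10 : 0 ≤ E1 := by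
    have := V_nonneg 6 hρ
    rw [hE1]; positivity
  -- smallness at the three roots
  have hroot : ∀ v w, (v = x1 ∧ w = x2) ∨ (v = x1 ∧ w = x3) ∨ (v = x2 ∧ w = x3) →
      |N0 (-(z v - z w)) (k v - k w)| ≤ E1 / r ^ 3 := by
    intro v w hvw
    have h0 : V0 (-(z v - z w)) (k v - k w) = 0 := by
      rw [hV0]
      simp only [VV]
      rcases hvw with ⟨rfl, rfl⟩ | ⟨rfl, rfl⟩ | ⟨rfl, rfl⟩ <;> ring
    have h1 := hform (-(z v - z w)) (k v - k w) (by rw [abs_neg]; exact hd2 v w) (hk2 v w)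
    rw [h0, zero_mul, sub_zero, abs_mul] at h1
    have f1 : r ≤ |(z y1 - z y2) * (k v - k w) + (k y1 - k y2) * (-(z v - z w))| := by
      have := hne y1 y2 (Or.inl ⟨rfl, rfl⟩) v w hvw
      rwa [show (z y1 - z y2) * (k v - k w) + (k y1 - k y2) * (-(z v - z w))
        = (z y1 - z y2) * (k v - k w) - (k y1 - k y2) * (z v - z w) by ring]
    have f2 : r ≤ |(z y1 - z y3) * (k v - k w) + (k y1 - k y3) * (-(z v - z w))| := by
      have := hne y1 y3 (Or.inr (Or.inl ⟨rfl, rfl⟩)) v w hvw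
      rwa [show (z y1 - z y3) * (k v - k w) + (k y1 - k y3) * (-(z v - z w))
        = (z y1 - z y3) * (k v - k w) - (k y1 - k y3) * (z v - z w) by ring]
    have f3 : r ≤ |(z y2 - z y3) * (k v - k w) + (k y2 - k y3) * (-(z v - z w))| := by
      have := hne y2 y3 (Or.inr (Or.inr ⟨rfl, rfl⟩)) v w hvw
      rwa [show (z y2 - z y3) * (k v - k w) + (k y2 - k y3) * (-(z v - z w))
        = (z y2 - z y3) * (k v - k w) - (k y2 - k y3) * (z v - z w) by ring]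
    have h2 : r ^ 3 ≤ |V1 (-(z v - z w)) (k v - k w)| := by
      rw [hV1]
      simp only [VV]
      rw [abs_mul, abs_mul]
      calc r ^ 3 = r * r * r := by ring
        _ ≤ _ := mul_le_mul (mul_le_mul f1 f2 hr.le (abs_nonneg _)) f3 hr.le (by positivity)
    rw [le_div_iff₀ (by positivity), mul_comm]
    exact (mul_le_mul_of_nonneg_right h2 (abs_nonneg _)).trans h1
  -- quadratic form coefficients of N0
  obtain ⟨m0, m1, m2, hm⟩ : ∃ m0 m1 m2 : ℝ, ∀ τ ω : ℝ,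
      N0 τ ω = m0 * ω ^ 2 + m1 * (τ * ω) + m2 * τ ^ 2 := by
    refine ⟨a x1 * (z x2 - z x3) - a x2 * (z x1 - z x3) + a x3 * (z x1 - z x2),
      a x1 * (k x2 - k x3) + β x1 * (z x2 - z x3) - (a x2 * (k x1 - k x3) + β x2 * (z x1 - z x3))
        + (a x3 * (k x1 - k x2) + β x3 * (z x1 - z x2)),
      β x1 * (k x2 - k x3) - β x2 * (k x1 - k x3) + β x3 * (k x1 - k x2), fun τ ω => ?_⟩
    rw [hN0]; simp only [Nq]; ring
  have q1 := hroot x1 x2 (Or.inl ⟨rfl, rfl⟩)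
  have q2 := hroot x2 x3 (Or.inr (Or.inr ⟨rfl, rfl⟩))
  have q3 := hroot x1 x3 (Or.inr (Or.inl ⟨rfl, rfl⟩))
  rw [hm] at q1 q2 q3
  have hquad := quadform m0 m1 m2 (z x1 - z x2) (k x1 - k x2) (z x2 - z x3) (k x2 - k x3) r
    (E1 / r ^ 3) hr (hd2 _ _) (hk2 _ _) (hd2 _ _) (hk2 _ _) hd
    (by simpa [mul_assoc] using q1) (by simpa [mul_assoc] using q2)
    (by
      have e1 : (k x1 - k x2) + (k x2 - k x3) = k x1 - k x3 := by ring
      have e2 : (z x1 - z x2) + (z x2 - z x3) = z x1 - z x3 := by ring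
      rw [e1, e2]
      simpa [mul_assoc] using q3) τ (hT τ hτ)
  have hN0τ : |N0 τ 1| ≤ 80 * (E1 / r ^ 3) / r ^ 2 := by
    rw [hm]
    simpa using hquad
  have e : g τ * V0 τ 1 = N0 τ 1 + (g τ * V0 τ 1 - N0 τ 1) := by ring
  change |g τ * V0 τ 1| ≤ _
  rw [e]
  exact (abs_add_le _ _).trans (add_le_add hN0τ (tr0 τ hτ))


/-- Near collinearity of three vertices whose first slopes match a common slope. -/
theorem near {ρ r zp kp zq kq zw kw zc kc : ℝ} (hρ : 0 < ρ) (hρ1 : ρ ≤ 1)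
    (hzp : |zp| ≤ 1) (hzw : |zw| ≤ 1) (hzc : ρ ≤ |zc|) (hpq : ρ ≤ |zp - zq|)
    (h1 : |(zp - zq) * kc - (kp - kq) * zc| ≤ r) (h2 : |(zp - zw) * kc - (kp - kw) * zc| ≤ r) :
    |kw - kp - (kq - kp) / (zq - zp) * (zw - zp)| ≤ 3 * r / ρ ^ 2 := by
  have hr : 0 ≤ r := (abs_nonneg _).trans h1
  have hzc0 : zc ≠ 0 := by
    intro h
    rw [h, abs_zero] at hzc
    linarith
  have hzq0 : zq - zp ≠ 0 := by
    intro h
    rw [show zp - zq = -(zq - zp) by ring, h, neg_zero, abs_zero] at hpq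
    linarith
  have hzpq : ρ ≤ |zq - zp| := by rw [abs_sub_comm]; exact hpq
  set A := (kq - kp) - kc / zc * (zq - zp) with hA
  set B := (kw - kp) - kc / zc * (zw - zp) with hB
  have hAb : |A| ≤ r / ρ := by
    have e : A = ((zp - zq) * kc - (kp - kq) * zc) / zc := by
      rw [hA]; field_simp; ring
    rw [e, abs_div]
    exact div_le_div₀ hr h1 hρ hzc
  have hBb : |B| ≤ r / ρ := by
    have e : B = ((zp - zw) * kc - (kp - kw) * zc) / zc := by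
      rw [hB]; field_simp; ring
    rw [e, abs_div]
    exact div_le_div₀ hr h2 hρ hzc
  have e : kw - kp - (kq - kp) / (zq - zp) * (zw - zp) = B - A / (zq - zp) * (zw - zp) := by
    rw [hA, hB]; field_simp; ring
  rw [e]
  have h3 : |A / (zq - zp) * (zw - zp)| ≤ r / ρ / ρ * 2 := by
    rw [abs_mul, abs_div]
    refine mul_le_mul (div_le_div₀ (by positivity) hAb hρ hzpq) ?_ (abs_nonneg _) (by positivity)
    exact (abs_sub _ _).trans (by linarith)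
  have h4 : r / ρ ≤ r / ρ ^ 2 :=
    div_le_div_of_nonneg_left hr (by positivity) (by nlinarith)
  calc |B - A / (zq - zp) * (zw - zp)| ≤ |B| + |A / (zq - zp) * (zw - zp)| := abs_sub _ _
    _ ≤ r / ρ + r / ρ / ρ * 2 := add_le_add hBb h3
    _ = r / ρ + 2 * (r / ρ ^ 2) := by ring
    _ ≤ 3 * r / ρ ^ 2 := by
        have : 3 * r / ρ ^ 2 = r / ρ ^ 2 + 2 * (r / ρ ^ 2) := by ring
        rw [this]; linarith

/-- DICHOTOMY: either all `g_τ` are small or three vertices are nearly collinear. -/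
theorem dich (T : Set ℝ) (ρ ε3 r θ : ℝ) (hρ : 0 < ρ) (hρ1 : ρ ≤ 1) (hr : 0 < r)
    (hT : ∀ τ ∈ T, |τ| ≤ 1)
    (t : Fin 6 → ℝ) (ht : ∀ i, t i ∈ T) (hsep : ∀ i j, i ≠ j → ρ ≤ |t i - t j|)
    (c s g : ℝ → ℝ) {ι : Type*} (z k a β : ι → ℝ) (hz : ∀ x, |z x| ≤ 1) (hk : ∀ x, |k x| ≤ 1)
    (hrel : ∀ τ ∈ T, ∀ x, |n1 (c τ) (s τ) (g τ) (z x + τ * k x) - (a x + β x * τ)| ≤ ε3)
    (hsel : ∀ τ ∈ T, ∃ v : Fin 12 → ι, (∀ i j, i ≠ j → ρ ≤ |z (v i) - z (v j)|) ∧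
      (∀ i j, i ≠ j → ρ ≤ |(z (v i) + τ * k (v i)) - (z (v j) + τ * k (v j))|))
    (hth : 80 * (192 * V 6 ρ * (1536 * ε3) / r ^ 3) / r ^ 2 + 12 * ε3 < θ * ρ ^ 3) :
    (∀ τ ∈ T, |g τ| ≤ θ) ∨ ∃ p q w : ι, ρ ≤ |z p - z q| ∧ ρ ≤ |z p - z w| ∧ ρ ≤ |z q - z w| ∧
      |k w - k p - (k q - k p) / (z q - z p) * (z w - z p)| ≤ 3 * r / ρ ^ 2 := by
  by_contra hno
  push Not at hno
  obtain ⟨⟨τ1, hτ1, hg⟩, hno⟩ := hno
  obtain ⟨v, hv1, hv2⟩ := hsel τ1 hτ1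
  -- reference triple
  have h012 : r ≤ |(z (v 1) - z (v 2)) * (k (v 0) - k (v 1))
      - (z (v 0) - z (v 1)) * (k (v 1) - k (v 2))| := by
    by_contra hlt
    push Not at hlt
    refine absurd ?_ (not_le.mpr (hno (v 0) (v 1) (v 2) (hv1 0 1 (by decide))
      (hv1 0 2 (by decide)) (hv1 1 2 (by decide))))
    refine near (zc := z (v 0) - z (v 1)) (kc := k (v 0) - k (v 1)) hρ hρ1 (hz _) (hz _)
      (hv1 0 1 (by decide)) (hv1 0 1 (by decide)) ?_ ?_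
    · rw [show (z (v 0) - z (v 1)) * (k (v 0) - k (v 1))
        - (k (v 0) - k (v 1)) * (z (v 0) - z (v 1)) = 0 by ring, abs_zero]
      exact hr.le
    · refine le_trans (le_of_eq ?_) hlt.le
      congr 1
      ring
  -- colours
  let P : Fin 3 → ι × ι := ![(v 0, v 1), (v 0, v 2), (v 1, v 2)]
  let y : Fin 9 → ι := fun i => v ⟨i + 3, by omega⟩
  have hy : ∀ i j : Fin 9, i ≠ j → ρ ≤ |z (y i) - z (y j)| := by
    intro i j hij
    refine hv1 _ _ ?_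
    intro h
    apply hij
    have := congrArg Fin.val h
    simp only at this
    exact Fin.ext (by omega)
  let R : Fin 3 → Fin 9 → Fin 9 → Prop := fun c p q =>
    |(z (y p) - z (y q)) * (k (P c).1 - k (P c).2)
      - (k (y p) - k (y q)) * (z (P c).1 - z (P c).2)| < r
  have hPz : ∀ c, ρ ≤ |z (P c).1 - z (P c).2| := by
    intro c
    fin_cases c
    · exact hv1 0 1 (by decide)
    · exact hv1 0 2 (by decide)
    · exact hv1 1 2 (by decide)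
  have hR : ∀ p q w, p ≠ q → p ≠ w → q ≠ w → ∃ c, R c p q ∨ R c p w ∨ R c q w := by
    intro p q w hpq hpw hqw
    by_contra hcon
    push Not at hcon
    have hmain := two_triples T ρ ε3 r hρ hρ1 hr hT t ht hsep c s g z k a β hz hk hrel
      (v 0) (v 1) (v 2) (y p) (y q) (y w) h012 ?_ τ1 hτ1
    · -- contradiction with largeness of g
      have hVV : ρ ^ 3 ≤ |VV (z (v 0) - z (v 1)) (k (v 0) - k (v 1)) (z (v 0) - z (v 2))
          (k (v 0) - k (v 2)) (z (v 1) - z (v 2)) (k (v 1) - k (v 2)) τ1 1| := by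
        unfold VV
        rw [abs_mul, abs_mul]
        have f : ∀ i j : Fin 12, i ≠ j →
            ρ ≤ |(z (v i) - z (v j)) * 1 + (k (v i) - k (v j)) * τ1| := by
          intro i j hij
          have := hv2 i j hij
          rwa [show (z (v i) - z (v j)) * 1 + (k (v i) - k (v j)) * τ1
            = (z (v i) + τ1 * k (v i)) - (z (v j) + τ1 * k (v j)) by ring]
        calc ρ ^ 3 = ρ * ρ * ρ := by ring
          _ ≤ _ := mul_le_mul (mul_le_mul (f 0 1 (by decide)) (f 0 2 (by decide)) hρ.le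
            (abs_nonneg _)) (f 1 2 (by decide)) hρ.le (by positivity)
      have hθ : 0 < |g τ1| := by
        have hε : 0 ≤ ε3 := (abs_nonneg _).trans (hrel τ1 hτ1 (v 0))
        have hV6 := V_nonneg 6 hρ
        have h0 : 0 ≤ 80 * (192 * V 6 ρ * (1536 * ε3) / r ^ 3) / r ^ 2 + 12 * ε3 := by positivity
        have h1 : 0 < θ * ρ ^ 3 := lt_of_le_of_lt h0 hth
        have h2 : 0 < θ := by
          by_contra h3
          push Not at h3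
          have : θ * ρ ^ 3 ≤ 0 := mul_nonpos_of_nonpos_of_nonneg h3 (by positivity)
          linarith
        linarith
      rw [abs_mul] at hmain
      have h1 : θ * ρ ^ 3 ≤ |g τ1| * ρ ^ 3 :=
        mul_le_mul_of_nonneg_right hg.le (by positivity)
      have h2 := mul_le_mul_of_nonneg_left hVV hθ.le
      linarith
    · -- no common slopes
      intro p' q' hpq' v' w' hvw'
      have hc : ∃ c : Fin 3, (P c).1 = v' ∧ (P c).2 = w' := by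
        rcases hvw' with ⟨rfl, rfl⟩ | ⟨rfl, rfl⟩ | ⟨rfl, rfl⟩
        · exact ⟨0, rfl, rfl⟩
        · exact ⟨1, rfl, rfl⟩
        · exact ⟨2, rfl, rfl⟩
      obtain ⟨c, hc1, hc2⟩ := hc
      obtain ⟨h1, h2, h3⟩ := hcon c
      rw [← hc1, ← hc2]
      rcases hpq' with ⟨rfl, rfl⟩ | ⟨rfl, rfl⟩ | ⟨rfl, rfl⟩
      · exact not_lt.mp h1
      · exact not_lt.mp h2
      · exact not_lt.mp h3
  obtain ⟨c, p, q, q', hpq, hpq', hqq', h1, h2⟩ := comb R hR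
  refine absurd ?_ (not_le.mpr (hno (y p) (y q) (y q') (hy _ _ hpq) (hy _ _ hpq') (hy _ _ hqq')))
  exact near (zc := z (P c).1 - z (P c).2) (kc := k (P c).1 - k (P c).2) hρ hρ1 (hz _) (hz _)
    (hPz c) (hy _ _ hpq) (le_of_lt h1) (le_of_lt h2)


/-! ## From the lines to the 1-dimensional problem -/

theorem RR_split (se sf hee hef hff c u v : ℝ) :
    RR se sf hee hef hff c u v = n1 c sf (hff / 2) v + u * (se + hef * v) + hee / 2 * u ^ 2 := by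
  unfold RR n1; ring

/-- two lines over one vertex: the frame relation. -/
theorem stepA {ρ ε τ se sf hee hef hff c ye z k a σ1 β1 σ2 β2 : ℝ} (hρ : 0 < ρ)
    (hτ : |τ| ≤ 1) (hτρ : ρ ≤ |τ|) (hee1 : |hee| ≤ ε) (hye : |ye| ≤ 1) (hσ1 : |σ1| ≤ 1)
    (hσ2 : |σ2| ≤ 1) (hσ : ρ ≤ |σ1 - σ2|)
    (h1 : |RR se sf hee hef hff c (ye + τ * σ1) (z + τ * k) - (a + τ * β1)| ≤ ε)
    (h2 : |RR se sf hee hef hff c (ye + τ * σ2) (z + τ * k) - (a + τ * β2)| ≤ ε) :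
    |se + hef * (z + τ * k) - (β1 - β2) / (σ1 - σ2)| ≤ 6 * ε / ρ ^ 2 := by
  have hε : 0 ≤ ε := (abs_nonneg _).trans h1
  have hσ0 : σ1 - σ2 ≠ 0 := by
    intro h
    rw [h, abs_zero] at hσ
    linarith
  have hτ0 : τ ≠ 0 := by
    intro h
    rw [h, abs_zero] at hτρ
    linarith
  have e : τ * (σ1 - σ2) * (se + hef * (z + τ * k) - (β1 - β2) / (σ1 - σ2))
      = (RR se sf hee hef hff c (ye + τ * σ1) (z + τ * k) - (a + τ * β1))
        - (RR se sf hee hef hff c (ye + τ * σ2) (z + τ * k) - (a + τ * β2))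
        - hee / 2 * (τ * (σ1 - σ2) * (2 * ye + τ * (σ1 + σ2))) := by
    unfold RR; field_simp; ring
  have hb : |hee / 2 * (τ * (σ1 - σ2) * (2 * ye + τ * (σ1 + σ2)))| ≤ ε / 2 * (1 * 2 * 4) := by
    rw [abs_mul, abs_div, abs_two, abs_mul, abs_mul]
    refine mul_le_mul (by linarith) ?_ (by positivity) (by positivity)
    refine mul_le_mul (mul_le_mul hτ ?_ (abs_nonneg _) (by norm_num)) ?_ (abs_nonneg _)
      (by norm_num)
    · exact (abs_sub _ _).trans (by linarith)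
    · calc |2 * ye + τ * (σ1 + σ2)| ≤ |2 * ye| + |τ * (σ1 + σ2)| := abs_add_le _ _
        _ ≤ 2 * 1 + 1 * 2 := by
            rw [abs_mul, abs_mul, abs_two]
            refine add_le_add (mul_le_mul_of_nonneg_left hye (by norm_num)) ?_
            exact mul_le_mul hτ ((abs_add_le _ _).trans (by linarith)) (abs_nonneg _)
              (by norm_num)
        _ = 4 := by norm_num
  have h3 : |τ * (σ1 - σ2) * (se + hef * (z + τ * k) - (β1 - β2) / (σ1 - σ2))| ≤ 6 * ε := by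
    rw [e]
    refine (abs_sub _ _).trans ?_
    refine (add_le_add ((abs_sub _ _).trans (add_le_add h1 h2)) hb).trans (le_of_eq ?_)
    ring
  rw [le_div_iff₀ (by positivity), mul_comm]
  have h4 : ρ ^ 2 ≤ |τ * (σ1 - σ2)| := by
    rw [abs_mul]
    calc ρ ^ 2 = ρ * ρ := by ring
      _ ≤ |τ| * |σ1 - σ2| := mul_le_mul hτρ hσ hρ.le (abs_nonneg _)
  rw [abs_mul] at h3
  exact (mul_le_mul_of_nonneg_right h4 (abs_nonneg _)).trans h3

/-- the 1-dimensional relation at a vertex. -/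
theorem stepB {ρ ε τ se sf hee hef hff c ye z k a σ1 β1 b : ℝ} (hρ : 0 < ρ) (hρ1 : ρ ≤ 1)
    (hτ : |τ| ≤ 1) (hee1 : |hee| ≤ ε) (hye : |ye| ≤ 1) (hσ1 : |σ1| ≤ 1)
    (h1 : |RR se sf hee hef hff c (ye + τ * σ1) (z + τ * k) - (a + τ * β1)| ≤ ε)
    (hb : |se + hef * (z + τ * k) - b| ≤ 6 * ε / ρ ^ 2) :
    |n1 c sf (hff / 2) (z + τ * k) - ((a - ye * b) + (β1 - σ1 * b) * τ)| ≤ 15 * ε / ρ ^ 2 := by
  have hε : 0 ≤ ε := (abs_nonneg _).trans h1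
  have hu : |ye + τ * σ1| ≤ 2 := by
    calc |ye + τ * σ1| ≤ |ye| + |τ * σ1| := abs_add_le _ _
      _ ≤ 1 + 1 * 1 := by
          rw [abs_mul]
          exact add_le_add hye (mul_le_mul hτ hσ1 (abs_nonneg _) (by norm_num))
      _ = 2 := by norm_num
  have e : n1 c sf (hff / 2) (z + τ * k) - ((a - ye * b) + (β1 - σ1 * b) * τ)
      = (RR se sf hee hef hff c (ye + τ * σ1) (z + τ * k) - (a + τ * β1))
        - (ye + τ * σ1) * (se + hef * (z + τ * k) - b) - hee / 2 * (ye + τ * σ1) ^ 2 := by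
    rw [RR_split]; ring
  rw [e]
  have b1 : |(ye + τ * σ1) * (se + hef * (z + τ * k) - b)| ≤ 2 * (6 * ε / ρ ^ 2) := by
    rw [abs_mul]
    exact mul_le_mul hu hb (abs_nonneg _) (by norm_num)
  have b2 : |hee / 2 * (ye + τ * σ1) ^ 2| ≤ ε / 2 * 4 := by
    rw [abs_mul, abs_div, abs_two, abs_pow]
    refine mul_le_mul (by linarith) ?_ (by positivity) (by positivity)
    calc |ye + τ * σ1| ^ 2 ≤ 2 ^ 2 := pow_le_pow_left₀ (abs_nonneg _) hu 2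
      _ = 4 := by norm_num
  have h3 : ε ≤ ε / ρ ^ 2 := by
    rw [le_div_iff₀ (by positivity)]
    nlinarith [mul_nonneg hε (by nlinarith : (0 : ℝ) ≤ 1 - ρ ^ 2)]
  refine (abs_sub _ _).trans ?_
  refine (add_le_add ((abs_sub _ _).trans (add_le_add h1 b1)) b2).trans ?_
  have e2 : 15 * ε / ρ ^ 2 = 15 * (ε / ρ ^ 2) := by ring
  have e3 : 2 * (6 * ε / ρ ^ 2) = 12 * (ε / ρ ^ 2) := by ring
  rw [e2, e3]
  linarith

/-- the frame part from two vertices. -/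
theorem partAB {ρ ε1 τ se hef zp kp bp zq kq bq : ℝ} (hρ : 0 < ρ) (hρ1 : ρ ≤ 1)
    (hzp : |zp| ≤ 1) (hpq : ρ ≤ |zp - zq|)
    (hp : |se + hef * (zp + τ * kp) - bp| ≤ ε1) (hq : |se + hef * (zq + τ * kq) - bq| ≤ ε1) :
    |(1 + (kq - kp) / (zq - zp) * τ) * hef - (bq - bp) / (zq - zp)| ≤ 2 * ε1 / ρ ∧
    |se + (kp - (kq - kp) / (zq - zp) * zp) * τ * hef - (bp - (bq - bp) / (zq - zp) * zp)|
      ≤ 3 * ε1 / ρ := by
  have hε : 0 ≤ ε1 := (abs_nonneg _).trans hp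
  have hd0 : zq - zp ≠ 0 := by
    intro h
    rw [show zp - zq = -(zq - zp) by ring, h, neg_zero, abs_zero] at hpq
    linarith
  have hqp : ρ ≤ |zq - zp| := by rw [abs_sub_comm]; exact hpq
  have h1 : |(1 + (kq - kp) / (zq - zp) * τ) * hef - (bq - bp) / (zq - zp)| ≤ 2 * ε1 / ρ := by
    have e : (1 + (kq - kp) / (zq - zp) * τ) * hef - (bq - bp) / (zq - zp)
        = ((se + hef * (zq + τ * kq) - bq) - (se + hef * (zp + τ * kp) - bp)) / (zq - zp) := by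
      field_simp; ring
    rw [e, abs_div]
    exact div_le_div₀ (by positivity) ((abs_sub _ _).trans (by linarith)) hρ hqp
  refine ⟨h1, ?_⟩
  have e : se + (kp - (kq - kp) / (zq - zp) * zp) * τ * hef - (bp - (bq - bp) / (zq - zp) * zp)
      = (se + hef * (zp + τ * kp) - bp)
        - zp * ((1 + (kq - kp) / (zq - zp) * τ) * hef - (bq - bp) / (zq - zp)) := by ring
  rw [e]
  have h2 : |zp * ((1 + (kq - kp) / (zq - zp) * τ) * hef - (bq - bp) / (zq - zp))|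
      ≤ 1 * (2 * ε1 / ρ) := by
    rw [abs_mul]
    exact mul_le_mul hzp h1 (abs_nonneg _) (by norm_num)
  have h3 : ε1 ≤ ε1 / ρ := by
    rw [le_div_iff₀ hρ]
    nlinarith
  refine (abs_sub _ _).trans ((add_le_add hp h2).trans ?_)
  have e2 : 3 * ε1 / ρ = ε1 / ρ + 2 * ε1 / ρ := by ring
  rw [e2, one_mul]
  linarith

/-- COLLINEAR CASE. -/
theorem caseCOL (T : Set ℝ) (ρ ε3 Bd rc : ℝ) (hρ : 0 < ρ) (hρ1 : ρ ≤ 1) (hBd : 0 ≤ Bd)
    (hrc : rc ≤ 1) (hT : ∀ τ ∈ T, |τ| ≤ 1)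
    (c s g : ℝ → ℝ) (hs : ∀ τ ∈ T, |s τ| ≤ Bd) (hg : ∀ τ ∈ T, |g τ| ≤ Bd / 2)
    {ι : Type*} (z k a β : ι → ℝ) (hz : ∀ x, |z x| ≤ 1) (hk : ∀ x, |k x| ≤ 1)
    (hrel : ∀ τ ∈ T, ∀ x, |n1 (c τ) (s τ) (g τ) (z x + τ * k x) - (a x + β x * τ)| ≤ ε3)
    (p q w : ι) (hpq : ρ ≤ |z p - z q|) (hpw : ρ ≤ |z p - z w|) (hqw : ρ ≤ |z q - z w|)
    (hcol : |k w - k p - (k q - k p) / (z q - z p) * (z w - z p)| ≤ rc) :
    ∃ p00 p01 p10 p11 p20 p21 : ℝ, ∀ τ ∈ T,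
      |c τ + s τ * (k p - (k q - k p) / (z q - z p) * z p) * τ
        + g τ * (k p - (k q - k p) / (z q - z p) * z p) ^ 2 * τ ^ 2 - (p00 + p01 * τ)|
        ≤ V 3 ρ * (ε3 + 4 * Bd * rc) ∧
      |(1 + (k q - k p) / (z q - z p) * τ)
          * (s τ + 2 * g τ * (k p - (k q - k p) / (z q - z p) * z p) * τ) - (p10 + p11 * τ)|
        ≤ V 3 ρ * (ε3 + 4 * Bd * rc) ∧
      |(1 + (k q - k p) / (z q - z p) * τ) ^ 2 * g τ - (p20 + p21 * τ)|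
        ≤ V 3 ρ * (ε3 + 4 * Bd * rc) := by
  classical
  have hd0 : z q - z p ≠ 0 := by
    intro h
    rw [show z p - z q = -(z q - z p) by ring, h, neg_zero, abs_zero] at hpq
    linarith
  set κ : ℝ := (k q - k p) / (z q - z p) with hκ
  set κ0 : ℝ := k p - κ * z p with hκ0
  have hrc0 : 0 ≤ rc := (abs_nonneg _).trans hcol
  let N : Fin 3 → ι := ![p, q, w]
  have hnode : ∀ τ ∈ T, ∀ i, |n1 (c τ) (s τ) (g τ) (κ0 * τ + (1 + κ * τ) * z (N i))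
      - (a (N i) + β (N i) * τ)| ≤ ε3 + 4 * Bd * rc := by
    intro τ hτ i
    have h4 : 0 ≤ 4 * Bd * rc := by positivity
    fin_cases i
    · have e : κ0 * τ + (1 + κ * τ) * z p = z p + τ * k p := by rw [hκ0]; ring
      change |n1 (c τ) (s τ) (g τ) (κ0 * τ + (1 + κ * τ) * z p) - (a p + β p * τ)| ≤ _
      rw [e]
      linarith [hrel τ hτ p]
    · have e : κ0 * τ + (1 + κ * τ) * z q = z q + τ * k q := by
        have : κ * (z q - z p) = k q - k p := by rw [hκ]; field_simp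
        rw [hκ0]; linear_combination τ * this
      change |n1 (c τ) (s τ) (g τ) (κ0 * τ + (1 + κ * τ) * z q) - (a q + β q * τ)| ≤ _
      rw [e]
      linarith [hrel τ hτ q]
    · change |n1 (c τ) (s τ) (g τ) (κ0 * τ + (1 + κ * τ) * z w) - (a w + β w * τ)| ≤ _
      set u := z w + τ * k w with hu
      set u' := κ0 * τ + (1 + κ * τ) * z w with hu'
      have hdu : |u' - u| ≤ rc := by
        have e : u' - u = -(τ * (k w - k p - κ * (z w - z p))) := by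
          rw [hu, hu', hκ0]; ring
        rw [e, abs_neg, abs_mul]
        calc |τ| * |k w - k p - κ * (z w - z p)| ≤ 1 * rc :=
              mul_le_mul (hT τ hτ) hcol (abs_nonneg _) (by norm_num)
          _ = rc := one_mul _
      have hub : |u| ≤ 2 := by
        calc |z w + τ * k w| ≤ |z w| + |τ * k w| := abs_add_le _ _
          _ ≤ 1 + 1 * 1 := by
              rw [abs_mul]
              exact add_le_add (hz w) (mul_le_mul (hT τ hτ) (hk w) (abs_nonneg _) (by norm_num))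
          _ = 2 := by norm_num
      have hub' : |u'| ≤ 3 := by
        calc |u'| = |u + (u' - u)| := by congr 1; ring
          _ ≤ |u| + |u' - u| := abs_add_le _ _
          _ ≤ 3 := by linarith
      have e : n1 (c τ) (s τ) (g τ) u' - (a w + β w * τ)
          = (n1 (c τ) (s τ) (g τ) u - (a w + β w * τ)) + s τ * (u' - u)
            + g τ * ((u' + u) * (u' - u)) := by
        unfold n1; ring
      rw [e]
      have b1 : |s τ * (u' - u)| ≤ Bd * rc := by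
        rw [abs_mul]
        exact mul_le_mul (hs τ hτ) hdu (abs_nonneg _) hBd
      have b2 : |g τ * ((u' + u) * (u' - u))| ≤ Bd / 2 * (5 * rc) := by
        rw [abs_mul, abs_mul]
        refine mul_le_mul (hg τ hτ) ?_ (by positivity) (by positivity)
        exact mul_le_mul ((abs_add_le _ _).trans (by linarith)) hdu (abs_nonneg _) (by norm_num)
      refine (abs_add_le _ _).trans ?_
      refine (add_le_add (abs_add_le _ _) le_rfl).trans ?_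
      have hBr : 0 ≤ Bd * rc := mul_nonneg hBd hrc0
      linarith [hrel τ hτ w]
  have hv : ∀ l : Fin 3, ∃ cf : Fin 3 → ℝ, ∑ i, |cf i| ≤ V 3 ρ ∧
      ∀ j : Fin 3, ∑ i, cf i * (z (N i)) ^ (j : ℕ) = if j = l then 1 else 0 := by
    intro l
    refine vand_rows (fun i => z (N i)) ρ hρ hρ1 (fun i => hz _) (fun i j hij => ?_) l
    fin_cases i <;> fin_cases j
    · exact absurd rfl hij
    · exact hpq
    · exact hpw
    · change ρ ≤ |z q - z p|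
      rw [abs_sub_comm]; exact hpq
    · exact absurd rfl hij
    · exact hqw
    · change ρ ≤ |z w - z p|
      rw [abs_sub_comm]; exact hpw
    · change ρ ≤ |z w - z q|
      rw [abs_sub_comm]; exact hqw
    · exact absurd rfl hij
  choose cf hcf1 hcf2 using hv
  have hgen : ∀ l : Fin 3, ∀ τ ∈ T,
      |(![c τ + s τ * κ0 * τ + g τ * κ0 ^ 2 * τ ^ 2, (1 + κ * τ) * (s τ + 2 * g τ * κ0 * τ),
        (1 + κ * τ) ^ 2 * g τ] : Fin 3 → ℝ) l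
        - (∑ i, cf l i * a (N i) + (∑ i, cf l i * β (N i)) * τ)| ≤ V 3 ρ * (ε3 + 4 * Bd * rc) := by
    intro l τ hτ
    set f : Fin 3 → ℝ := ![c τ + s τ * κ0 * τ + g τ * κ0 ^ 2 * τ ^ 2,
      (1 + κ * τ) * (s τ + 2 * g τ * κ0 * τ), (1 + κ * τ) ^ 2 * g τ] with hf
    have hn : ∀ i, n1 (c τ) (s τ) (g τ) (κ0 * τ + (1 + κ * τ) * z (N i))
        = ∑ j : Fin 3, f j * (z (N i)) ^ (j : ℕ) := by
      intro i
      rw [hf]
      simp only [Fin.sum_univ_three, Matrix.cons_val_zero, Matrix.cons_val_one,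
        Matrix.cons_val_two, Matrix.tail_cons, Matrix.head_cons, n1]
      simp
      ring
    have e1 : f l = ∑ i, cf l i * n1 (c τ) (s τ) (g τ) (κ0 * τ + (1 + κ * τ) * z (N i)) := by
      have : ∑ i, cf l i * n1 (c τ) (s τ) (g τ) (κ0 * τ + (1 + κ * τ) * z (N i))
          = ∑ j : Fin 3, f j * ∑ i, cf l i * (z (N i)) ^ (j : ℕ) := by
        simp only [hn, Finset.mul_sum]
        rw [Finset.sum_comm]
        exact Finset.sum_congr rfl fun j _ => Finset.sum_congr rfl fun i _ => by ring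
      rw [this]
      simp only [hcf2]
      simp
    have e2 : f l - (∑ i, cf l i * a (N i) + (∑ i, cf l i * β (N i)) * τ)
        = ∑ i, cf l i * (n1 (c τ) (s τ) (g τ) (κ0 * τ + (1 + κ * τ) * z (N i))
          - (a (N i) + β (N i) * τ)) := by
      rw [e1, Finset.sum_mul, ← Finset.sum_add_distrib, ← Finset.sum_sub_distrib]
      exact Finset.sum_congr rfl fun i _ => by ring
    rw [e2]
    have hE : 0 ≤ ε3 + 4 * Bd * rc := (abs_nonneg _).trans (hnode τ hτ 0)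
    calc |∑ i, cf l i * (n1 (c τ) (s τ) (g τ) (κ0 * τ + (1 + κ * τ) * z (N i))
          - (a (N i) + β (N i) * τ))|
        ≤ ∑ i, |cf l i * (n1 (c τ) (s τ) (g τ) (κ0 * τ + (1 + κ * τ) * z (N i))
          - (a (N i) + β (N i) * τ))| := Finset.abs_sum_le_sum_abs _ _
      _ ≤ ∑ i, |cf l i| * (ε3 + 4 * Bd * rc) := by
          refine Finset.sum_le_sum fun i _ => ?_
          rw [abs_mul]
          exact mul_le_mul_of_nonneg_left (hnode τ hτ i) (abs_nonneg _)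
      _ = (∑ i, |cf l i|) * (ε3 + 4 * Bd * rc) := by rw [Finset.sum_mul]
      _ ≤ V 3 ρ * (ε3 + 4 * Bd * rc) := mul_le_mul_of_nonneg_right (hcf1 l) hE
  exact ⟨_, _, _, _, _, _, fun τ hτ => ⟨hgen 0 τ hτ, hgen 1 τ hτ, hgen 2 τ hτ⟩⟩


/-- LINEAR CASE: all `g_τ` are small. -/
theorem caseLIN (T : Set ℝ) (ρ ε3 θ : ℝ) (hρ : 0 < ρ) (hρ1 : ρ ≤ 1)
    (hT : ∀ τ ∈ T, |τ| ≤ 1)
    (c s g : ℝ → ℝ) (hg : ∀ τ ∈ T, |g τ| ≤ θ) (hθ : 0 ≤ θ) (hε : 0 ≤ ε3)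
    {ι : Type*} (z k a β : ι → ℝ) (hz : ∀ x, |z x| ≤ 1) (hk : ∀ x, |k x| ≤ 1)
    (hrel : ∀ τ ∈ T, ∀ x, |n1 (c τ) (s τ) (g τ) (z x + τ * k x) - (a x + β x * τ)| ≤ ε3)
    (p q : ι) (hpq : ρ ≤ |z p - z q|) :
    ∃ p00 p01 p10 p11 p20 p21 : ℝ, ∀ τ ∈ T,
      |c τ + s τ * (k p - (k q - k p) / (z q - z p) * z p) * τ
        + g τ * (k p - (k q - k p) / (z q - z p) * z p) ^ 2 * τ ^ 2 - (p00 + p01 * τ)|
        ≤ 30 * (ε3 + θ) / ρ ^ 2 ∧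
      |(1 + (k q - k p) / (z q - z p) * τ)
          * (s τ + 2 * g τ * (k p - (k q - k p) / (z q - z p) * z p) * τ) - (p10 + p11 * τ)|
        ≤ 30 * (ε3 + θ) / ρ ^ 2 ∧
      |(1 + (k q - k p) / (z q - z p) * τ) ^ 2 * g τ - (p20 + p21 * τ)|
        ≤ 30 * (ε3 + θ) / ρ ^ 2 := by
  have hd0 : z q - z p ≠ 0 := by
    intro h
    rw [show z p - z q = -(z q - z p) by ring, h, neg_zero, abs_zero] at hpq
    linarith
  have hqp : ρ ≤ |z q - z p| := by rw [abs_sub_comm]; exact hpq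
  set κ : ℝ := (k q - k p) / (z q - z p) with hκ
  set κ0 : ℝ := k p - κ * z p with hκ0
  have hκb : |κ| ≤ 2 / ρ := by
    rw [hκ, abs_div]
    exact div_le_div₀ (by norm_num) ((abs_sub _ _).trans (by linarith [hk p, hk q])) hρ hqp
  have h1ρ : 1 ≤ 1 / ρ := by rw [le_div_iff₀ hρ]; linarith
  have hκ0b : |κ0| ≤ 3 / ρ := by
    rw [hκ0]
    calc |k p - κ * z p| ≤ |k p| + |κ * z p| := abs_sub _ _
      _ ≤ 1 / ρ + 2 / ρ * 1 := by
          rw [abs_mul]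
          exact add_le_add ((hk p).trans h1ρ) (mul_le_mul hκb (hz p) (abs_nonneg _)
            (by positivity))
      _ = 3 / ρ := by ring
  have hbb : ∀ τ ∈ T, |1 + κ * τ| ≤ 3 / ρ := by
    intro τ hτ
    calc |1 + κ * τ| ≤ |(1 : ℝ)| + |κ * τ| := abs_add_le _ _
      _ ≤ 1 / ρ + 2 / ρ * 1 := by
          rw [abs_one, abs_mul]
          exact add_le_add h1ρ (mul_le_mul hκb (hT τ hτ) (abs_nonneg _) (by positivity))
      _ = 3 / ρ := by ring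
  have hub : ∀ τ ∈ T, ∀ x, |z x + τ * k x| ≤ 2 := by
    intro τ hτ x
    calc |z x + τ * k x| ≤ |z x| + |τ * k x| := abs_add_le _ _
      _ ≤ 1 + 1 * 1 := by
          rw [abs_mul]
          exact add_le_add (hz x) (mul_le_mul (hT τ hτ) (hk x) (abs_nonneg _) (by norm_num))
      _ = 2 := by norm_num
  have hu2 : ∀ τ ∈ T, ∀ x, |(z x + τ * k x) ^ 2| ≤ 4 := by
    intro τ hτ x
    rw [abs_pow]
    calc |z x + τ * k x| ^ 2 ≤ 2 ^ 2 := pow_le_pow_left₀ (abs_nonneg _) (hub τ hτ x) 2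
      _ = 4 := by norm_num
  -- slope relation
  set m0 : ℝ := (a q - a p) / (z q - z p) with hm0
  set m1 : ℝ := (β q - β p) / (z q - z p) with hm1
  have hρ2 : 0 < ρ ^ 2 := by positivity
  have hρρ : ρ ^ 2 ≤ ρ := by nlinarith
  have hρ21 : ρ ^ 2 ≤ 1 := by nlinarith
  have cmp : ∀ x : ℝ, 0 ≤ x → x ≤ x / ρ ^ 2 := by
    intro x hx
    rw [le_div_iff₀ hρ2]
    nlinarith [mul_nonneg hx (by linarith : (0 : ℝ) ≤ 1 - ρ ^ 2)]
  have cmp1 : ∀ x : ℝ, 0 ≤ x → x / ρ ≤ x / ρ ^ 2 := fun x hx =>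
    div_le_div_of_nonneg_left hx hρ2 hρρ
  have hsl : ∀ τ ∈ T, |(1 + κ * τ) * s τ - (m0 + m1 * τ)| ≤ (2 * ε3 + 8 * θ) / ρ := by
    intro τ hτ
    have hκd : κ * (z q - z p) = k q - k p := by rw [hκ]; field_simp
    have e : (1 + κ * τ) * s τ - (m0 + m1 * τ)
        = ((n1 (c τ) (s τ) (g τ) (z q + τ * k q) - (a q + β q * τ))
          - (n1 (c τ) (s τ) (g τ) (z p + τ * k p) - (a p + β p * τ))
          - g τ * ((z q + τ * k q) ^ 2 - (z p + τ * k p) ^ 2)) / (z q - z p) := by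
      rw [eq_div_iff hd0, hm0, hm1]
      have : ((1 + κ * τ) * s τ - ((a q - a p) / (z q - z p) + (β q - β p) / (z q - z p) * τ))
          * (z q - z p) = (z q - z p + κ * (z q - z p) * τ) * s τ
            - ((a q - a p) + (β q - β p) * τ) := by field_simp
      rw [this, hκd]
      unfold n1
      ring
    rw [e, abs_div]
    refine div_le_div₀ (by positivity) ?_ hρ hqp
    refine (abs_sub _ _).trans ?_
    have b1 := (abs_sub (n1 (c τ) (s τ) (g τ) (z q + τ * k q) - (a q + β q * τ))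
      (n1 (c τ) (s τ) (g τ) (z p + τ * k p) - (a p + β p * τ))).trans
      (add_le_add (hrel τ hτ q) (hrel τ hτ p))
    have b2 : |g τ * ((z q + τ * k q) ^ 2 - (z p + τ * k p) ^ 2)| ≤ θ * 8 := by
      rw [abs_mul]
      refine mul_le_mul (hg τ hτ) ?_ (abs_nonneg _) hθ
      exact (abs_sub _ _).trans (by linarith [hu2 τ hτ q, hu2 τ hτ p])
    linarith
  refine ⟨a p - z p * m0, β p - z p * m1, m0, m1, 0, 0, fun τ hτ => ⟨?_, ?_, ?_⟩⟩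
  · have e : c τ + s τ * κ0 * τ + g τ * κ0 ^ 2 * τ ^ 2 - (a p - z p * m0 + (β p - z p * m1) * τ)
        = (n1 (c τ) (s τ) (g τ) (z p + τ * k p) - (a p + β p * τ))
          - g τ * (z p + τ * k p) ^ 2 - z p * ((1 + κ * τ) * s τ - (m0 + m1 * τ))
          + g τ * (κ0 ^ 2 * τ ^ 2) := by
      rw [hκ0]; unfold n1; ring
    rw [e]
    have b1 := hrel τ hτ p
    have b2 : |g τ * (z p + τ * k p) ^ 2| ≤ θ * 4 := by
      rw [abs_mul]
      exact mul_le_mul (hg τ hτ) (hu2 τ hτ p) (abs_nonneg _) hθ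
    have b3 : |z p * ((1 + κ * τ) * s τ - (m0 + m1 * τ))| ≤ 1 * ((2 * ε3 + 8 * θ) / ρ) := by
      rw [abs_mul]
      exact mul_le_mul (hz p) (hsl τ hτ) (abs_nonneg _) (by norm_num)
    have b4 : |g τ * (κ0 ^ 2 * τ ^ 2)| ≤ θ * (9 / ρ ^ 2 * 1) := by
      rw [abs_mul, abs_mul, abs_pow, abs_pow]
      refine mul_le_mul (hg τ hτ) ?_ (by positivity) hθ
      refine mul_le_mul ?_ (pow_le_one₀ (abs_nonneg _) (hT τ hτ)) (by positivity) (by positivity)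
      calc |κ0| ^ 2 ≤ (3 / ρ) ^ 2 := pow_le_pow_left₀ (abs_nonneg _) hκ0b 2
        _ = 9 / ρ ^ 2 := by ring
    refine (abs_add_le _ _).trans ?_
    refine (add_le_add ((abs_sub _ _).trans (add_le_add ((abs_sub _ _).trans
      (add_le_add b1 b2)) b3)) b4).trans ?_
    have g1 := cmp ε3 hε
    have g2 := cmp θ hθ
    have g3 := cmp1 (2 * ε3 + 8 * θ) (by positivity)
    have e2 : 30 * (ε3 + θ) / ρ ^ 2 = 30 * (ε3 / ρ ^ 2) + 30 * (θ / ρ ^ 2) := by ring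
    have e3 : (2 * ε3 + 8 * θ) / ρ ^ 2 = 2 * (ε3 / ρ ^ 2) + 8 * (θ / ρ ^ 2) := by ring
    have e4 : θ * (9 / ρ ^ 2 * 1) = 9 * (θ / ρ ^ 2) := by ring
    have h0 : 0 ≤ ε3 / ρ ^ 2 := by positivity
    have h0' : 0 ≤ θ / ρ ^ 2 := by positivity
    rw [e2, e4]
    rw [e3] at g3
    linarith
  · have e : (1 + κ * τ) * (s τ + 2 * g τ * κ0 * τ) - (m0 + m1 * τ)
        = ((1 + κ * τ) * s τ - (m0 + m1 * τ)) + g τ * (2 * ((1 + κ * τ) * (κ0 * τ))) := by ring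
    rw [e]
    have b2 : |g τ * (2 * ((1 + κ * τ) * (κ0 * τ)))| ≤ θ * (2 * (3 / ρ * (3 / ρ * 1))) := by
      rw [abs_mul, abs_mul, abs_two, abs_mul, abs_mul]
      refine mul_le_mul (hg τ hτ) ?_ (by positivity) hθ
      refine mul_le_mul_of_nonneg_left ?_ (by norm_num)
      refine mul_le_mul (hbb τ hτ) ?_ (by positivity) (by positivity)
      exact mul_le_mul hκ0b (hT τ hτ) (abs_nonneg _) (by positivity)
    refine (abs_add_le _ _).trans ((add_le_add (hsl τ hτ) b2).trans ?_)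
    have g3 := cmp1 (2 * ε3 + 8 * θ) (by positivity)
    have e2 : 30 * (ε3 + θ) / ρ ^ 2 = 30 * (ε3 / ρ ^ 2) + 30 * (θ / ρ ^ 2) := by ring
    have e3 : (2 * ε3 + 8 * θ) / ρ ^ 2 = 2 * (ε3 / ρ ^ 2) + 8 * (θ / ρ ^ 2) := by ring
    have e4 : θ * (2 * (3 / ρ * (3 / ρ * 1))) = 18 * (θ / ρ ^ 2) := by ring
    have h0 : 0 ≤ ε3 / ρ ^ 2 := by positivity
    have h0' : 0 ≤ θ / ρ ^ 2 := by positivity
    rw [e2, e4]
    rw [e3] at g3
    linarith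
  · rw [zero_mul, add_zero, sub_zero, abs_mul, abs_pow]
    have b1 : |1 + κ * τ| ^ 2 * |g τ| ≤ (3 / ρ) ^ 2 * θ :=
      mul_le_mul (pow_le_pow_left₀ (abs_nonneg _) (hbb τ hτ) 2) (hg τ hτ) (abs_nonneg _)
        (by positivity)
    refine b1.trans ?_
    have e2 : 30 * (ε3 + θ) / ρ ^ 2 = 30 * (ε3 / ρ ^ 2) + 30 * (θ / ρ ^ 2) := by ring
    have e4 : (3 / ρ) ^ 2 * θ = 9 * (θ / ρ ^ 2) := by ring
    have h0 : 0 ≤ ε3 / ρ ^ 2 := by positivity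
    have h0' : 0 ≤ θ / ρ ^ 2 := by positivity
    rw [e2, e4]
    linarith

/-- the approximating function: `b² p₀ + b p₁ w + p₂ w² + u b (b A + B w)`. -/
def AF (κ κ0 p00 p01 p10 p11 p20 p21 As Bs τ u v : ℝ) : ℝ :=
  (1 + κ * τ) ^ 2 * (p00 + p01 * τ) + (1 + κ * τ) * (p10 + p11 * τ) * (v - κ0 * τ)
    + (p20 + p21 * τ) * (v - κ0 * τ) ^ 2
    + u * (1 + κ * τ) * ((1 + κ * τ) * As + Bs * (v - κ0 * τ))

/-- assembly of the parts. -/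
theorem assemble {ρ E ε ε1 κ κ0 τ se sf hee hef hff c u v p0 p1 p2 As Bs : ℝ} (hρ : 0 < ρ)
    (hρ1 : ρ ≤ 1) (hτ : |τ| ≤ 1) (hu : |u| ≤ 1) (hv : |v| ≤ 1) (hκ : |κ| ≤ 2 / ρ)
    (hκ0 : |κ0| ≤ 3 / ρ) (hee1 : |hee| ≤ ε)
    (h0 : |c + sf * κ0 * τ + hff / 2 * κ0 ^ 2 * τ ^ 2 - p0| ≤ E)
    (h1 : |(1 + κ * τ) * (sf + 2 * (hff / 2) * κ0 * τ) - p1| ≤ E)
    (h2 : |(1 + κ * τ) ^ 2 * (hff / 2) - p2| ≤ E)
    (hB : |(1 + κ * τ) * hef - Bs| ≤ 2 * ε1 / ρ) (hA : |se + κ0 * τ * hef - As| ≤ 3 * ε1 / ρ) :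
    |(1 + κ * τ) ^ 2 * RR se sf hee hef hff c u v
      - ((1 + κ * τ) ^ 2 * p0 + (1 + κ * τ) * p1 * (v - κ0 * τ) + p2 * (v - κ0 * τ) ^ 2
        + u * (1 + κ * τ) * ((1 + κ * τ) * As + Bs * (v - κ0 * τ)))|
      ≤ 37 * E / ρ ^ 2 + 51 * ε1 / ρ ^ 3 + 5 * ε / ρ ^ 2 := by
  have hE : 0 ≤ E := (abs_nonneg _).trans h0
  have hε : 0 ≤ ε := (abs_nonneg _).trans hee1
  have h1ρ : 1 ≤ 1 / ρ := by rw [le_div_iff₀ hρ]; linarith
  have hε1 : 0 ≤ ε1 := by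
    have h := (abs_nonneg _).trans hB
    by_contra hneg
    push Not at hneg
    have : 2 * ε1 / ρ < 0 := div_neg_of_neg_of_pos (by linarith) hρ
    linarith
  set b := 1 + κ * τ with hb
  set w := v - κ0 * τ with hw
  have hbb : |b| ≤ 3 / ρ := by
    calc |1 + κ * τ| ≤ |(1 : ℝ)| + |κ * τ| := abs_add_le _ _
      _ ≤ 1 / ρ + 2 / ρ * 1 := by
          rw [abs_one, abs_mul]
          exact add_le_add h1ρ (mul_le_mul hκ hτ (abs_nonneg _) (by positivity))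
      _ = 3 / ρ := by ring
  have hwb : |w| ≤ 4 / ρ := by
    calc |v - κ0 * τ| ≤ |v| + |κ0 * τ| := abs_sub _ _
      _ ≤ 1 / ρ + 3 / ρ * 1 := by
          rw [abs_mul]
          exact add_le_add (hv.trans h1ρ) (mul_le_mul hκ0 hτ (abs_nonneg _) (by positivity))
      _ = 4 / ρ := by ring
  have e : b ^ 2 * RR se sf hee hef hff c u v
      - (b ^ 2 * p0 + b * p1 * w + p2 * w ^ 2 + u * b * (b * As + Bs * w))
      = b ^ 2 * (c + sf * κ0 * τ + hff / 2 * κ0 ^ 2 * τ ^ 2 - p0)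
        + b * w * (b * (sf + 2 * (hff / 2) * κ0 * τ) - p1)
        + w ^ 2 * (b ^ 2 * (hff / 2) - p2)
        + u * (b ^ 2 * (se + κ0 * τ * hef - As)) + u * (b * w * (b * hef - Bs))
        + b ^ 2 * (hee / 2 * u ^ 2) := by
    have hv' : v = κ0 * τ + w := by rw [hw]; ring
    rw [hv']
    unfold RR
    ring
  rw [e]
  have hb2 : |b ^ 2| ≤ 9 / ρ ^ 2 := by
    rw [abs_pow]
    calc |b| ^ 2 ≤ (3 / ρ) ^ 2 := pow_le_pow_left₀ (abs_nonneg _) hbb 2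
      _ = 9 / ρ ^ 2 := by ring
  have hw2 : |w ^ 2| ≤ 16 / ρ ^ 2 := by
    rw [abs_pow]
    calc |w| ^ 2 ≤ (4 / ρ) ^ 2 := pow_le_pow_left₀ (abs_nonneg _) hwb 2
      _ = 16 / ρ ^ 2 := by ring
  have hbw : |b * w| ≤ 12 / ρ ^ 2 := by
    rw [abs_mul]
    calc |b| * |w| ≤ (3 / ρ) * (4 / ρ) := mul_le_mul hbb hwb (abs_nonneg _) (by positivity)
      _ = 12 / ρ ^ 2 := by ring
  have t1 : |b ^ 2 * (c + sf * κ0 * τ + hff / 2 * κ0 ^ 2 * τ ^ 2 - p0)| ≤ 9 / ρ ^ 2 * E := by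
    rw [abs_mul]; exact mul_le_mul hb2 h0 (abs_nonneg _) (by positivity)
  have t2 : |b * w * (b * (sf + 2 * (hff / 2) * κ0 * τ) - p1)| ≤ 12 / ρ ^ 2 * E := by
    rw [abs_mul]; exact mul_le_mul hbw h1 (abs_nonneg _) (by positivity)
  have t3 : |w ^ 2 * (b ^ 2 * (hff / 2) - p2)| ≤ 16 / ρ ^ 2 * E := by
    rw [abs_mul]; exact mul_le_mul hw2 h2 (abs_nonneg _) (by positivity)
  have t4 : |u * (b ^ 2 * (se + κ0 * τ * hef - As))| ≤ 1 * (9 / ρ ^ 2 * (3 * ε1 / ρ)) := by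
    rw [abs_mul, abs_mul]
    refine mul_le_mul hu ?_ (by positivity) (by norm_num)
    exact mul_le_mul hb2 hA (abs_nonneg _) (by positivity)
  have t5 : |u * (b * w * (b * hef - Bs))| ≤ 1 * (12 / ρ ^ 2 * (2 * ε1 / ρ)) := by
    rw [abs_mul, abs_mul]
    refine mul_le_mul hu ?_ (by positivity) (by norm_num)
    exact mul_le_mul hbw hB (abs_nonneg _) (by positivity)
  have t6 : |b ^ 2 * (hee / 2 * u ^ 2)| ≤ 9 / ρ ^ 2 * (ε / 2 * 1) := by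
    rw [abs_mul, abs_mul, abs_div, abs_two, abs_pow u]
    refine mul_le_mul hb2 ?_ (by positivity) (by positivity)
    exact mul_le_mul (by linarith) (pow_le_one₀ (abs_nonneg _) hu) (by positivity) (by positivity)
  have tri6 : ∀ x1 x2 x3 x4 x5 x6 : ℝ, |x1 + x2 + x3 + x4 + x5 + x6|
      ≤ |x1| + |x2| + |x3| + |x4| + |x5| + |x6| := by
    intro x1 x2 x3 x4 x5 x6
    refine (abs_add_le _ _).trans (add_le_add ?_ le_rfl)
    refine (abs_add_le _ _).trans (add_le_add ?_ le_rfl)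
    refine (abs_add_le _ _).trans (add_le_add ?_ le_rfl)
    refine (abs_add_le _ _).trans (add_le_add ?_ le_rfl)
    exact abs_add_le _ _
  refine (tri6 _ _ _ _ _ _).trans ?_
  have f1 : 37 * E / ρ ^ 2 + 51 * ε1 / ρ ^ 3 + 5 * ε / ρ ^ 2
      = 9 / ρ ^ 2 * E + 12 / ρ ^ 2 * E + 16 / ρ ^ 2 * E + 1 * (9 / ρ ^ 2 * (3 * ε1 / ρ))
        + 1 * (12 / ρ ^ 2 * (2 * ε1 / ρ)) + 10 / ρ ^ 2 * (ε / 2 * 1) := by
    field_simp
    ring
  rw [f1]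
  have f2 : 9 / ρ ^ 2 * (ε / 2 * 1) ≤ 10 / ρ ^ 2 * (ε / 2 * 1) := by
    refine mul_le_mul_of_nonneg_right ?_ (by positivity)
    exact div_le_div_of_nonneg_right (by norm_num) (by positivity)
  linarith

/-- the affine function `p0 + p1 τ` is bounded by its closeness to a bounded function at two nodes. -/
theorem aff_bound {ρ M p0 p1 t0 t1 : ℝ} (hρ : 0 < ρ) (hρ1 : ρ ≤ 1) (ht0 : |t0| ≤ 1)
    (hsep : ρ ≤ |t0 - t1|) (h0 : |p0 + p1 * t0| ≤ M) (h1 : |p0 + p1 * t1| ≤ M) :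
    |p0| ≤ 3 * M / ρ ∧ |p1| ≤ 3 * M / ρ := by
  have hM : 0 ≤ M := (abs_nonneg _).trans h0
  have h2 : |p1| ≤ 2 * M / ρ := by
    rw [le_div_iff₀ hρ]
    calc |p1| * ρ ≤ |p1| * |t0 - t1| := mul_le_mul_of_nonneg_left hsep (abs_nonneg _)
      _ = |(p0 + p1 * t0) - (p0 + p1 * t1)| := by rw [← abs_mul]; congr 1; ring
      _ ≤ 2 * M := (abs_sub _ _).trans (by linarith)
  have h3 : 2 * M / ρ ≤ 3 * M / ρ := div_le_div_of_nonneg_right (by linarith) hρ.le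
  refine ⟨?_, h2.trans h3⟩
  have h4 : M ≤ M / ρ := by
    rw [le_div_iff₀ hρ]; nlinarith
  calc |p0| = |(p0 + p1 * t0) - p1 * t0| := by congr 1; ring
    _ ≤ |p0 + p1 * t0| + |p1 * t0| := abs_sub _ _
    _ ≤ M + 2 * M / ρ * 1 := by
        rw [abs_mul]
        exact add_le_add h0 (mul_le_mul h2 ht0 (abs_nonneg _) (by positivity))
    _ ≤ 3 * M / ρ := by
        have e : 3 * M / ρ = M / ρ + 2 * M / ρ := by ring
        rw [e]; linarith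

/-- the error of the three 1-dimensional parts. -/
noncomputable def EE (ρ ε Bd r θ : ℝ) : ℝ :=
  V 3 ρ * (15 * ε / ρ ^ 2 + 4 * Bd * (3 * r / ρ ^ 2)) + 30 * (15 * ε / ρ ^ 2 + θ) / ρ ^ 2

/-- the final error. -/
noncomputable def EF (ρ ε Bd r θ : ℝ) : ℝ :=
  37 * EE ρ ε Bd r θ / ρ ^ 2 + 51 * (6 * ε / ρ ^ 2) / ρ ^ 3 + 5 * ε / ρ ^ 2

/-- the bound of the coefficients. -/
noncomputable def CF (ρ ε Bd r θ : ℝ) : ℝ :=
  3 * (EE ρ ε Bd r θ + 12 * Bd / ρ ^ 2) / ρ + 4 * Bd / ρ + 3 * (6 * ε / ρ ^ 2) / ρ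

/-- **LEMMA QC-F with errors.** -/
theorem qcf (T : Set ℝ) (ρ ε Bd r θ : ℝ) (hρ : 0 < ρ) (hρ1 : ρ ≤ 1) (hε : 0 ≤ ε) (hBd : 0 ≤ Bd)
    (hr : 0 < r) (hr3 : 3 * r ≤ ρ ^ 2) (hθ : 0 ≤ θ)
    (hT : ∀ τ ∈ T, |τ| ≤ 1 ∧ ρ ≤ |τ|)
    (t : Fin 6 → ℝ) (ht : ∀ i, t i ∈ T) (hsep : ∀ i j, i ≠ j → ρ ≤ |t i - t j|)
    (se sf hee hef hff c : ℝ → ℝ)
    (hse : ∀ τ ∈ T, |se τ| ≤ Bd) (hhef : ∀ τ ∈ T, |hef τ| ≤ Bd) (hcb : ∀ τ ∈ T, |c τ| ≤ Bd)
    (hsf : ∀ τ ∈ T, |sf τ| ≤ Bd) (hhff : ∀ τ ∈ T, |hff τ| ≤ Bd) (hhee : ∀ τ ∈ T, |hee τ| ≤ ε)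
    {ι : Type*} (ye z k a σ1 β1 σ2 β2 : ι → ℝ) (hye : ∀ x, |ye x| ≤ 1) (hz : ∀ x, |z x| ≤ 1)
    (hk : ∀ x, |k x| ≤ 1) (hσ1 : ∀ x, |σ1 x| ≤ 1) (hσ2 : ∀ x, |σ2 x| ≤ 1)
    (hσ : ∀ x, ρ ≤ |σ1 x - σ2 x|)
    (h1 : ∀ τ ∈ T, ∀ x, |RR (se τ) (sf τ) (hee τ) (hef τ) (hff τ) (c τ) (ye x + τ * σ1 x)
      (z x + τ * k x) - (a x + τ * β1 x)| ≤ ε)
    (h2 : ∀ τ ∈ T, ∀ x, |RR (se τ) (sf τ) (hee τ) (hef τ) (hff τ) (c τ) (ye x + τ * σ2 x)
      (z x + τ * k x) - (a x + τ * β2 x)| ≤ ε)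
    (hsel : ∀ τ ∈ T, ∃ v : Fin 12 → ι, (∀ i j, i ≠ j → ρ ≤ |z (v i) - z (v j)|) ∧
      (∀ i j, i ≠ j → ρ ≤ |(z (v i) + τ * k (v i)) - (z (v j) + τ * k (v j))|))
    (hth : 80 * (192 * V 6 ρ * (1536 * (15 * ε / ρ ^ 2)) / r ^ 3) / r ^ 2
      + 12 * (15 * ε / ρ ^ 2) < θ * ρ ^ 3) :
    ∃ κ κ0 p00 p01 p10 p11 p20 p21 As Bs : ℝ, |κ| ≤ 2 / ρ ∧ |κ0| ≤ 3 / ρ ∧
      (|p00| ≤ CF ρ ε Bd r θ ∧ |p01| ≤ CF ρ ε Bd r θ ∧ |p10| ≤ CF ρ ε Bd r θ ∧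
        |p11| ≤ CF ρ ε Bd r θ ∧ |p20| ≤ CF ρ ε Bd r θ ∧ |p21| ≤ CF ρ ε Bd r θ ∧
        |As| ≤ CF ρ ε Bd r θ ∧ |Bs| ≤ CF ρ ε Bd r θ) ∧
      ∀ τ ∈ T, ∀ u v : ℝ, |u| ≤ 1 → |v| ≤ 1 →
        |(1 + κ * τ) ^ 2 * RR (se τ) (sf τ) (hee τ) (hef τ) (hff τ) (c τ) u v
          - AF κ κ0 p00 p01 p10 p11 p20 p21 As Bs τ u v| ≤ EF ρ ε Bd r θ := by
  classical
  have hV3 := V_nonneg 3 hρ
  set b : ι → ℝ := fun x => (β1 x - β2 x) / (σ1 x - σ2 x) with hbdef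
  have hfr : ∀ τ ∈ T, ∀ x, |se τ + hef τ * (z x + τ * k x) - b x| ≤ 6 * ε / ρ ^ 2 :=
    fun τ hτ x => stepA hρ (hT τ hτ).1 (hT τ hτ).2 (hhee τ hτ) (hye x) (hσ1 x) (hσ2 x) (hσ x)
      (h1 τ hτ x) (h2 τ hτ x)
  have hrel : ∀ τ ∈ T, ∀ x, |n1 (c τ) (sf τ) (hff τ / 2) (z x + τ * k x)
      - ((a x - ye x * b x) + (β1 x - σ1 x * b x) * τ)| ≤ 15 * ε / ρ ^ 2 :=
    fun τ hτ x => stepB hρ hρ1 (hT τ hτ).1 (hhee τ hτ) (hye x) (hσ1 x) (h1 τ hτ x) (hfr τ hτ x)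
  have hε3 : 0 ≤ 15 * ε / ρ ^ 2 := by positivity
  have hT1 : ∀ τ ∈ T, |τ| ≤ 1 := fun τ hτ => (hT τ hτ).1
  -- the parts
  have hparts : ∃ (p q : ι) (p00 p01 p10 p11 p20 p21 : ℝ), ρ ≤ |z p - z q| ∧ ∀ τ ∈ T,
      |c τ + sf τ * (k p - (k q - k p) / (z q - z p) * z p) * τ
        + hff τ / 2 * (k p - (k q - k p) / (z q - z p) * z p) ^ 2 * τ ^ 2 - (p00 + p01 * τ)|
        ≤ V 3 ρ * (15 * ε / ρ ^ 2 + 4 * Bd * (3 * r / ρ ^ 2))
              + 30 * (15 * ε / ρ ^ 2 + θ) / ρ ^ 2 ∧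
      |(1 + (k q - k p) / (z q - z p) * τ)
          * (sf τ + 2 * (hff τ / 2) * (k p - (k q - k p) / (z q - z p) * z p) * τ)
          - (p10 + p11 * τ)|
        ≤ V 3 ρ * (15 * ε / ρ ^ 2 + 4 * Bd * (3 * r / ρ ^ 2))
              + 30 * (15 * ε / ρ ^ 2 + θ) / ρ ^ 2 ∧
      |(1 + (k q - k p) / (z q - z p) * τ) ^ 2 * (hff τ / 2) - (p20 + p21 * τ)|
        ≤ V 3 ρ * (15 * ε / ρ ^ 2 + 4 * Bd * (3 * r / ρ ^ 2))
              + 30 * (15 * ε / ρ ^ 2 + θ) / ρ ^ 2 := by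
    have hP1 : 0 ≤ V 3 ρ * (15 * ε / ρ ^ 2 + 4 * Bd * (3 * r / ρ ^ 2)) := by positivity
    have hP2 : 0 ≤ 30 * (15 * ε / ρ ^ 2 + θ) / ρ ^ 2 := by positivity
    rcases dich T ρ (15 * ε / ρ ^ 2) r θ hρ hρ1 hr hT1 t ht hsep c sf (fun τ => hff τ / 2) z k
      (fun x => a x - ye x * b x) (fun x => β1 x - σ1 x * b x) hz hk hrel hsel hth with hg | hc
    · obtain ⟨v, hv1, -⟩ := hsel (t 0) (ht 0)
      obtain ⟨p00, p01, p10, p11, p20, p21, hp⟩ := caseLIN T ρ (15 * ε / ρ ^ 2) θ hρ hρ1 hT1 c sf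
        (fun τ => hff τ / 2) hg hθ hε3 z k (fun x => a x - ye x * b x)
        (fun x => β1 x - σ1 x * b x) hz hk hrel (v 0) (v 1) (hv1 0 1 (by decide))
      refine ⟨v 0, v 1, p00, p01, p10, p11, p20, p21, hv1 0 1 (by decide), fun τ hτ => ?_⟩
      obtain ⟨a1, a2, a3⟩ := hp τ hτ
      exact ⟨a1.trans (by linarith), a2.trans (by linarith), a3.trans (by linarith)⟩
    · obtain ⟨p, q, w, hpq, hpw, hqw, hcol⟩ := hc
      obtain ⟨p00, p01, p10, p11, p20, p21, hp⟩ := caseCOL T ρ (15 * ε / ρ ^ 2) Bd (3 * r / ρ ^ 2)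
        hρ hρ1 hBd (by rw [div_le_one (by positivity)]; exact hr3) hT1 c sf
        (fun τ => hff τ / 2) hsf (fun τ hτ => by
          rw [abs_div, abs_two]; linarith [hhff τ hτ]) z k (fun x => a x - ye x * b x)
        (fun x => β1 x - σ1 x * b x) hz hk hrel p q w hpq hpw hqw hcol
      refine ⟨p, q, p00, p01, p10, p11, p20, p21, hpq, fun τ hτ => ?_⟩
      obtain ⟨a1, a2, a3⟩ := hp τ hτ
      exact ⟨a1.trans (by linarith), a2.trans (by linarith), a3.trans (by linarith)⟩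
  obtain ⟨p, q, p00, p01, p10, p11, p20, p21, hpq, hp⟩ := hparts
  have hqp : ρ ≤ |z q - z p| := by rw [abs_sub_comm]; exact hpq
  have h1ρ : 1 ≤ 1 / ρ := by rw [le_div_iff₀ hρ]; linarith
  have hκb : |(k q - k p) / (z q - z p)| ≤ 2 / ρ := by
    rw [abs_div]
    exact div_le_div₀ (by norm_num) ((abs_sub _ _).trans (by linarith [hk p, hk q])) hρ hqp
  have hκ0b : |k p - (k q - k p) / (z q - z p) * z p| ≤ 3 / ρ := by
    calc |k p - (k q - k p) / (z q - z p) * z p|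
        ≤ |k p| + |(k q - k p) / (z q - z p) * z p| := abs_sub _ _
      _ ≤ 1 / ρ + 2 / ρ * 1 := by
          rw [abs_mul ((k q - k p) / (z q - z p))]
          exact add_le_add ((hk p).trans h1ρ) (mul_le_mul hκb (hz p) (abs_nonneg _)
            (by positivity))
      _ = 3 / ρ := by ring
  have hE : (V 3 ρ * (15 * ε / ρ ^ 2 + 4 * Bd * (3 * r / ρ ^ 2))
      + 30 * (15 * ε / ρ ^ 2 + θ) / ρ ^ 2) = EE ρ ε Bd r θ := rfl
  rw [hE] at hp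
  have hEE0 : 0 ≤ EE ρ ε Bd r θ := by unfold EE; positivity
  set κ : ℝ := (k q - k p) / (z q - z p) with hκ
  set κ0 : ℝ := k p - κ * z p with hκ0
  have hρ2 : 0 < ρ ^ 2 := by positivity
  have hρ21 : ρ ^ 2 ≤ 1 := by nlinarith
  have hρρ : ρ ^ 2 ≤ ρ := by nlinarith
  have h1ρ2 : 1 ≤ 1 / ρ ^ 2 := by rw [le_div_iff₀ hρ2]; linarith
  have hBρ : Bd ≤ Bd / ρ := by rw [le_div_iff₀ hρ]; nlinarith
  have hBρ2 : Bd / ρ ≤ Bd / ρ ^ 2 := div_le_div_of_nonneg_left hBd hρ2 hρρ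
  have hbb : ∀ τ ∈ T, |1 + κ * τ| ≤ 3 / ρ := by
    intro τ hτ
    calc |1 + κ * τ| ≤ |(1 : ℝ)| + |κ * τ| := abs_add_le _ _
      _ ≤ 1 / ρ + 2 / ρ * 1 := by
          rw [abs_one, abs_mul]
          exact add_le_add h1ρ (mul_le_mul hκb (hT1 τ hτ) (abs_nonneg _) (by positivity))
      _ = 3 / ρ := by ring
  have hκτ : ∀ τ ∈ T, |κ0 * τ| ≤ 3 / ρ := by
    intro τ hτ
    rw [abs_mul]
    calc |κ0| * |τ| ≤ 3 / ρ * 1 := mul_le_mul hκ0b (hT1 τ hτ) (abs_nonneg _) (by positivity)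
      _ = 3 / ρ := mul_one _
  -- bounds of the three functions
  have F0 : ∀ τ ∈ T, |c τ + sf τ * κ0 * τ + hff τ / 2 * κ0 ^ 2 * τ ^ 2| ≤ 12 * Bd / ρ ^ 2 := by
    intro τ hτ
    have e : c τ + sf τ * κ0 * τ + hff τ / 2 * κ0 ^ 2 * τ ^ 2
        = c τ + sf τ * (κ0 * τ) + hff τ / 2 * (κ0 * τ) ^ 2 := by ring
    rw [e]
    have g2 : |sf τ * (κ0 * τ)| ≤ Bd * (3 / ρ) := by
      rw [abs_mul]; exact mul_le_mul (hsf τ hτ) (hκτ τ hτ) (abs_nonneg _) hBd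
    have g3 : |hff τ / 2 * (κ0 * τ) ^ 2| ≤ Bd / 2 * (3 / ρ) ^ 2 := by
      rw [abs_mul, abs_div, abs_two, abs_pow]
      exact mul_le_mul (by linarith [hhff τ hτ]) (pow_le_pow_left₀ (abs_nonneg _) (hκτ τ hτ) 2)
        (by positivity) (by positivity)
    refine (abs_add_le _ _).trans ((add_le_add ((abs_add_le _ _).trans
      (add_le_add (hcb τ hτ) g2)) g3).trans ?_)
    have e2 : Bd * (3 / ρ) = 3 * (Bd / ρ) := by ring
    have e3 : Bd / 2 * (3 / ρ) ^ 2 = 9 / 2 * (Bd / ρ ^ 2) := by ring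
    have e4 : 12 * Bd / ρ ^ 2 = 12 * (Bd / ρ ^ 2) := by ring
    have h0 : 0 ≤ Bd / ρ ^ 2 := by positivity
    rw [e2, e3, e4]
    linarith
  have F1 : ∀ τ ∈ T, |(1 + κ * τ) * (sf τ + 2 * (hff τ / 2) * κ0 * τ)| ≤ 12 * Bd / ρ ^ 2 := by
    intro τ hτ
    have e : sf τ + 2 * (hff τ / 2) * κ0 * τ = sf τ + hff τ * (κ0 * τ) := by ring
    rw [e, abs_mul]
    have g2 : |sf τ + hff τ * (κ0 * τ)| ≤ Bd / ρ + Bd * (3 / ρ) := by
      refine (abs_add_le _ _).trans (add_le_add ((hsf τ hτ).trans hBρ) ?_)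
      rw [abs_mul]; exact mul_le_mul (hhff τ hτ) (hκτ τ hτ) (abs_nonneg _) hBd
    calc |1 + κ * τ| * |sf τ + hff τ * (κ0 * τ)| ≤ 3 / ρ * (Bd / ρ + Bd * (3 / ρ)) :=
          mul_le_mul (hbb τ hτ) g2 (abs_nonneg _) (by positivity)
      _ = 12 * Bd / ρ ^ 2 := by ring
  have F2 : ∀ τ ∈ T, |(1 + κ * τ) ^ 2 * (hff τ / 2)| ≤ 12 * Bd / ρ ^ 2 := by
    intro τ hτ
    rw [abs_mul, abs_pow, abs_div, abs_two]
    calc |1 + κ * τ| ^ 2 * (|hff τ| / 2) ≤ (3 / ρ) ^ 2 * (Bd / 2) :=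
          mul_le_mul (pow_le_pow_left₀ (abs_nonneg _) (hbb τ hτ) 2)
            (by linarith [hhff τ hτ]) (by positivity) (by positivity)
      _ = 9 / 2 * (Bd / ρ ^ 2) := by ring
      _ ≤ 12 * (Bd / ρ ^ 2) := by
          have h0 : 0 ≤ Bd / ρ ^ 2 := by positivity
          linarith
      _ = 12 * Bd / ρ ^ 2 := by ring
  have close : ∀ x y M E : ℝ, |x - y| ≤ E → |x| ≤ M → |y| ≤ E + M := by
    intro x y M E hxy hx
    calc |y| = |x - (x - y)| := by congr 1; ring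
      _ ≤ |x| + |x - y| := abs_sub _ _
      _ ≤ E + M := by linarith
  have hs01 : ρ ≤ |t 0 - t 1| := hsep 0 1 (by decide)
  have A0 := aff_bound hρ hρ1 (hT1 _ (ht 0)) hs01
    (close _ _ _ _ (hp _ (ht 0)).1 (F0 _ (ht 0))) (close _ _ _ _ (hp _ (ht 1)).1 (F0 _ (ht 1)))
  have A1 := aff_bound hρ hρ1 (hT1 _ (ht 0)) hs01
    (close _ _ _ _ (hp _ (ht 0)).2.1 (F1 _ (ht 0)))
    (close _ _ _ _ (hp _ (ht 1)).2.1 (F1 _ (ht 1)))
  have A2 := aff_bound hρ hρ1 (hT1 _ (ht 0)) hs01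
    (close _ _ _ _ (hp _ (ht 0)).2.2 (F2 _ (ht 0)))
    (close _ _ _ _ (hp _ (ht 1)).2.2 (F2 _ (ht 1)))
  have hCF : 3 * (EE ρ ε Bd r θ + 12 * Bd / ρ ^ 2) / ρ ≤ CF ρ ε Bd r θ := by
    unfold CF
    have : 0 ≤ 4 * Bd / ρ + 3 * (6 * ε / ρ ^ 2) / ρ := by positivity
    linarith
  have hCF2 : 4 * Bd / ρ + 3 * (6 * ε / ρ ^ 2) / ρ ≤ CF ρ ε Bd r θ := by
    unfold CF
    have : 0 ≤ 3 * (EE ρ ε Bd r θ + 12 * Bd / ρ ^ 2) / ρ := by positivity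
    linarith
  obtain ⟨B10, B20⟩ := partAB hρ hρ1 (hz p) hpq (hfr _ (ht 0) p) (hfr _ (ht 0) q)
  have hBs : |(b q - b p) / (z q - z p)| ≤ CF ρ ε Bd r θ := by
    have g1 : |(1 + κ * t 0) * hef (t 0)| ≤ 3 / ρ * Bd := by
      rw [abs_mul]
      exact mul_le_mul (hbb _ (ht 0)) (hhef _ (ht 0)) (abs_nonneg _) (by positivity)
    refine (close _ _ _ _ B10 g1).trans (le_trans ?_ hCF2)
    have e1 : 3 / ρ * Bd = 3 * (Bd / ρ) := by ring
    have e2 : 4 * Bd / ρ = 4 * (Bd / ρ) := by ring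
    have e3 : 2 * (6 * ε / ρ ^ 2) / ρ = 2 * ((6 * ε / ρ ^ 2) / ρ) := by ring
    have e4 : 3 * (6 * ε / ρ ^ 2) / ρ = 3 * ((6 * ε / ρ ^ 2) / ρ) := by ring
    have h0 : 0 ≤ Bd / ρ := by positivity
    have h0' : 0 ≤ (6 * ε / ρ ^ 2) / ρ := by positivity
    rw [e1, e2, e3, e4]
    linarith
  have hAs : |b p - (b q - b p) / (z q - z p) * z p| ≤ CF ρ ε Bd r θ := by
    have g1 : |se (t 0) + (k p - κ * z p) * t 0 * hef (t 0)| ≤ Bd + 3 / ρ * Bd := by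
      refine (abs_add_le _ _).trans (add_le_add (hse _ (ht 0)) ?_)
      rw [abs_mul]
      exact mul_le_mul (hκτ _ (ht 0)) (hhef _ (ht 0)) (abs_nonneg _) (by positivity)
    refine (close _ _ _ _ B20 g1).trans (le_trans ?_ hCF2)
    have e1 : 3 / ρ * Bd = 3 * (Bd / ρ) := by ring
    have e2 : 4 * Bd / ρ = 4 * (Bd / ρ) := by ring
    rw [e1, e2]
    linarith
  refine ⟨κ, κ0, p00, p01, p10, p11, p20, p21, b p - (b q - b p) / (z q - z p) * z p,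
    (b q - b p) / (z q - z p), hκb, hκ0b,
    ⟨A0.1.trans hCF, A0.2.trans hCF, A1.1.trans hCF, A1.2.trans hCF, A2.1.trans hCF,
      A2.2.trans hCF, hAs, hBs⟩, fun τ hτ u v hu hv => ?_⟩
  obtain ⟨a1, a2, a3⟩ := hp τ hτ
  obtain ⟨B1, B2⟩ := partAB hρ hρ1 (hz p) hpq (hfr τ hτ p) (hfr τ hτ q)
  exact assemble hρ hρ1 (hT1 τ hτ) hu hv hκb hκ0b (hhee τ hτ) a1 a2 a3 B1 B2

/-- the `QQ` part: polynomial of degree `≤ 2` in `(τ, u, v)`. -/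
def QF (κ κ0 p00 p01 p10 p11 p20 As Bs τ u v : ℝ) : ℝ :=
  (1 + κ * τ) * (p00 + p01 * τ) + (p10 + p11 * τ) * (v - κ0 * τ) + p20 * (v - κ0 * τ) ^ 2
    + u * ((1 + κ * τ) * As + Bs * (v - κ0 * τ))

/-- `AF = (1+κτ) QF + δ τ (v-κ₀τ)²`, `δ = p21 - κ p20`: quadric + exceptional term. -/
theorem AF_eq (κ κ0 p00 p01 p10 p11 p20 p21 As Bs τ u v : ℝ) :
    AF κ κ0 p00 p01 p10 p11 p20 p21 As Bs τ u v
      = (1 + κ * τ) * QF κ κ0 p00 p01 p10 p11 p20 As Bs τ u v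
        + (p21 - κ * p20) * τ * (v - κ0 * τ) ^ 2 := by
  unfold AF QF; ring

/-- `h_ee` is small: fibres over a point at time `0` and over a point at time `τ₀`. -/
theorem hee_two (T : Set ℝ) (ρ ε τ0 : ℝ) (hρ : 0 < ρ) (hρ1 : ρ ≤ 1) (hτ0 : ρ ≤ |τ0|)
    (hT : ∀ τ ∈ T, |τ| ≤ 1) (h : ℝ → ℝ) (x x' : ℝ)
    (h1 : ∀ τ ∈ T, |τ * h τ - x| ≤ ε) (h2 : ∀ τ ∈ T, |(τ - τ0) * h τ - x'| ≤ ε)
    (t1 t2 : ℝ) (ht1 : t1 ∈ T) (ht2 : t2 ∈ T) (hs : ρ ≤ |t1 - t2|) :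
    ∀ τ ∈ T, |h τ| ≤ 8 * ε / ρ ^ 2 := by
  have hε : 0 ≤ ε := (abs_nonneg _).trans (h1 t1 ht1)
  have hτ00 : τ0 ≠ 0 := by
    intro h0
    rw [h0, abs_zero] at hτ0
    linarith
  set y : ℝ := (x - x') / τ0 with hy
  have hh : ∀ τ ∈ T, |h τ - y| ≤ 2 * ε / ρ := by
    intro τ hτ
    have e : h τ - y = ((τ * h τ - x) - ((τ - τ0) * h τ - x')) / τ0 := by
      rw [hy]; field_simp; ring
    rw [e, abs_div]
    exact div_le_div₀ (by positivity) ((abs_sub _ _).trans (by linarith [h1 τ hτ, h2 τ hτ]))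
      hρ hτ0
  have hεε : ε ≤ ε / ρ := by
    rw [le_div_iff₀ hρ]; nlinarith
  have hxy : ∀ τ ∈ T, |τ * y - x| ≤ 3 * ε / ρ := by
    intro τ hτ
    have e : τ * y - x = (τ * h τ - x) - τ * (h τ - y) := by ring
    rw [e]
    refine (abs_sub _ _).trans ?_
    have g : |τ * (h τ - y)| ≤ 1 * (2 * ε / ρ) := by
      rw [abs_mul]
      exact mul_le_mul (hT τ hτ) (hh τ hτ) (abs_nonneg _) (by norm_num)
    have e2 : 3 * ε / ρ = ε / ρ + 2 * ε / ρ := by ring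
    rw [e2]
    linarith [h1 τ hτ]
  have hyb : |y| ≤ 6 * ε / ρ ^ 2 := by
    have g : |(t1 - t2) * y| ≤ 6 * ε / ρ := by
      have e : (t1 - t2) * y = (t1 * y - x) - (t2 * y - x) := by ring
      rw [e]
      refine (abs_sub _ _).trans ?_
      have e2 : 6 * ε / ρ = 3 * ε / ρ + 3 * ε / ρ := by ring
      rw [e2]
      exact add_le_add (hxy _ ht1) (hxy _ ht2)
    rw [abs_mul] at g
    have g2 : ρ * |y| ≤ 6 * ε / ρ :=
      (mul_le_mul_of_nonneg_right hs (abs_nonneg _)).trans g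
    rw [le_div_iff₀ (by positivity)]
    rw [le_div_iff₀ hρ] at g2
    nlinarith
  intro τ hτ
  have e : h τ = y + (h τ - y) := by ring
  rw [e]
  refine (abs_add_le _ _).trans ((add_le_add hyb (hh τ hτ)).trans ?_)
  have g : 2 * ε / ρ ≤ 2 * ε / ρ ^ 2 :=
    div_le_div_of_nonneg_left (by positivity) (by positivity) (by nlinarith)
  have e2 : 8 * ε / ρ ^ 2 = 6 * ε / ρ ^ 2 + 2 * ε / ρ ^ 2 := by ring
  rw [e2]
  linarith

/-- `|N_τ|` version after division: for `|1+κτ| ≥ ρ'` the graph is the quadric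
`(1+κτ) ν = QF(τ,u,v)` up to the exceptional term. -/
theorem qcf_div {κ κ0 p00 p01 p10 p11 p20 p21 As Bs τ u v N E ρ' : ℝ} (hρ' : 0 < ρ')
    (hb : ρ' ≤ |1 + κ * τ|)
    (h : |(1 + κ * τ) ^ 2 * N - AF κ κ0 p00 p01 p10 p11 p20 p21 As Bs τ u v| ≤ E) :
    |(1 + κ * τ) * N - QF κ κ0 p00 p01 p10 p11 p20 As Bs τ u v
      - (p21 - κ * p20) * τ * (v - κ0 * τ) ^ 2 / (1 + κ * τ)| ≤ E / ρ' := by
  have hb0 : 1 + κ * τ ≠ 0 := by
    intro h0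
    rw [h0, abs_zero] at hb
    linarith
  have hE : 0 ≤ E := (abs_nonneg _).trans h
  have e : (1 + κ * τ) * N - QF κ κ0 p00 p01 p10 p11 p20 As Bs τ u v
      - (p21 - κ * p20) * τ * (v - κ0 * τ) ^ 2 / (1 + κ * τ)
      = ((1 + κ * τ) ^ 2 * N - AF κ κ0 p00 p01 p10 p11 p20 p21 As Bs τ u v) / (1 + κ * τ) := by
    rw [AF_eq]; field_simp; ring
  rw [e, abs_div]
  exact div_le_div₀ hE h hρ' hb

/-- two lines over nearly the same exact point (positions, heights and `k` equal up to `η`): replace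
the data of the second line by those of the first one. -/
theorem second_line {ε Bd η τ se sf hee hef hff c ye z k a ye' z' k' a' σ β : ℝ} (hτ : |τ| ≤ 1)
    (hBd : 0 ≤ Bd) (h1 : |se| ≤ Bd) (h2 : |sf| ≤ Bd) (h3 : |hee| ≤ Bd) (h4 : |hef| ≤ Bd)
    (h5 : |hff| ≤ Bd) (hye : |ye| ≤ 1) (hye' : |ye'| ≤ 1) (hz : |z| ≤ 1) (hz' : |z'| ≤ 1)
    (hk : |k| ≤ 1) (hk' : |k'| ≤ 1) (hσ : |σ| ≤ 1) (d1 : |ye' - ye| ≤ η) (d2 : |z' - z| ≤ η)
    (d3 : |k' - k| ≤ η) (d4 : |a' - a| ≤ η)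
    (h : |RR se sf hee hef hff c (ye' + τ * σ) (z' + τ * k') - (a' + τ * β)| ≤ ε) :
    |RR se sf hee hef hff c (ye + τ * σ) (z + τ * k) - (a + τ * β)| ≤ ε + 28 * Bd * η + η := by
  have hη : 0 ≤ η := (abs_nonneg _).trans d1
  have b : ∀ x y : ℝ, |x| ≤ 1 → |y| ≤ 1 → |x + τ * y| ≤ 3 := by
    intro x y hx hy
    calc |x + τ * y| ≤ |x| + |τ * y| := abs_add_le _ _
      _ ≤ 1 + 1 * 1 := by
          rw [abs_mul]
          exact add_le_add hx (mul_le_mul hτ hy (abs_nonneg _) (by norm_num))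
      _ ≤ 3 := by norm_num
  have hl := RR_lip se sf hee hef hff c (ye + τ * σ) (z + τ * k) (ye' + τ * σ) (z' + τ * k')
    Bd η hBd h1 h2 h3 h4 h5 (b _ _ hye hσ) (b _ _ hye' hσ) (b _ _ hz hk) (b _ _ hz' hk')
    (by
      rw [show (ye + τ * σ) - (ye' + τ * σ) = -(ye' - ye) by ring, abs_neg]
      linarith)
    (by
      rw [show (z + τ * k) - (z' + τ * k') = -((z' - z) + τ * (k' - k)) by ring, abs_neg]
      refine (abs_add_le _ _).trans ?_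
      have : |τ * (k' - k)| ≤ 1 * η := by
        rw [abs_mul]
        exact mul_le_mul hτ d3 (abs_nonneg _) (by norm_num)
      linarith)
  have e : RR se sf hee hef hff c (ye + τ * σ) (z + τ * k) - (a + τ * β)
      = (RR se sf hee hef hff c (ye' + τ * σ) (z' + τ * k') - (a' + τ * β))
        + (RR se sf hee hef hff c (ye + τ * σ) (z + τ * k)
          - RR se sf hee hef hff c (ye' + τ * σ) (z' + τ * k')) + (a' - a) := by ring
  rw [e]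
  refine (abs_add_le _ _).trans ?_
  refine (add_le_add (abs_add_le _ _) le_rfl).trans ?_
  linarith

end Pool.H72.QCF
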