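import Pool.Agent.H72.PATH

/-!
# QQ closure (K3_QQ_ALG section 2)

(Q1) `quad_of_path`: the stack of hyperplanes found by Lemma P is the zero set of ONE polynomial of
total degree `≤ D + 1` in `(t, x_W, x_N)`.
-/

namespace Pool.H72.QQC

open Polynomial Finset Module

theorem totalDegree_aeval_X_le {σ : Type*} (i : σ) (q : ℝ[X]) :
    (Polynomial.aeval (MvPolynomial.X i : MvPolynomial σ ℝ) q).totalDegree ≤ q.natDegree := by
  rw [Polynomial.aeval_eq_sum_range]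
  refine (MvPolynomial.totalDegree_finsetSum _ _).trans ?_
  refine Finset.sup_le fun k hk => ?_
  refine (MvPolynomial.totalDegree_smul_le _ _).trans ?_
  refine (MvPolynomial.totalDegree_pow _ _).trans ?_
  rw [MvPolynomial.totalDegree_X, mul_one]
  have := Finset.mem_range.mp hk
  omega

/-- The polynomial `q(t) (x_N - n0 - t n1) + ∑ p_i(t) (x_i - l0_i - t l1_i)`; variables:
`inl i = x_i`, `inr 0 = t`, `inr 1 = x_N`. -/
noncomputable def FF {d : ℕ} (q : ℝ[X]) (p : Fin d → ℝ[X]) (l0 l1 : Fin d → ℝ) (n0 n1 : ℝ) :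
    MvPolynomial (Fin d ⊕ Fin 2) ℝ :=
  Polynomial.aeval (MvPolynomial.X (Sum.inr 0)) q *
      (MvPolynomial.X (Sum.inr 1) - MvPolynomial.C n0
        - MvPolynomial.C n1 * MvPolynomial.X (Sum.inr 0))
    + ∑ i, Polynomial.aeval (MvPolynomial.X (Sum.inr 0)) (p i) *
      (MvPolynomial.X (Sum.inl i) - MvPolynomial.C (l0 i)
        - MvPolynomial.C (l1 i) * MvPolynomial.X (Sum.inr 0))

/-- The point `(x, t, ν)`. -/
def pt {d : ℕ} (t : ℝ) (x : Fin d → ℝ) (ν : ℝ) : Fin d ⊕ Fin 2 → ℝ :=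
  Sum.elim x ![t, ν]

theorem eval_FF {d : ℕ} (q : ℝ[X]) (p : Fin d → ℝ[X]) (l0 l1 : Fin d → ℝ) (n0 n1 : ℝ)
    (t : ℝ) (x : Fin d → ℝ) (ν : ℝ) :
    MvPolynomial.eval (pt t x ν) (FF q p l0 l1 n0 n1)
      = q.eval t * (ν - (n0 + t * n1)) + ∑ i, (p i).eval t * (x i - (l0 i + t * l1 i)) := by
  have h1 : ∀ r : ℝ[X], MvPolynomial.eval (pt t x ν)
      (Polynomial.aeval (MvPolynomial.X (Sum.inr 0) : MvPolynomial (Fin d ⊕ Fin 2) ℝ) r)
      = r.eval t := by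
    intro r
    rw [Polynomial.aeval_def, Polynomial.eval₂_eq_sum_range, map_sum,
      Polynomial.eval_eq_sum_range]
    refine Finset.sum_congr rfl fun k _ => ?_
    simp [pt]
  unfold FF
  rw [map_add, map_mul, h1, map_sum]
  simp only [map_mul, h1, map_sub, MvPolynomial.eval_X, MvPolynomial.eval_C]
  simp only [pt, Sum.elim_inr, Sum.elim_inl, Matrix.cons_val_zero, Matrix.cons_val_one]
  congr 1
  · ring
  · exact Finset.sum_congr rfl fun i _ => by ring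

theorem totalDegree_FF {d D : ℕ} (q : ℝ[X]) (p : Fin d → ℝ[X]) (l0 l1 : Fin d → ℝ) (n0 n1 : ℝ)
    (hq : q.natDegree ≤ D) (hp : ∀ i, (p i).natDegree ≤ D) :
    (FF q p l0 l1 n0 n1).totalDegree ≤ D + 1 := by
  have hlin : ∀ (s : Fin d ⊕ Fin 2) (a b : ℝ),
      (MvPolynomial.X s - MvPolynomial.C a
        - MvPolynomial.C b * MvPolynomial.X (Sum.inr 0) : MvPolynomial (Fin d ⊕ Fin 2) ℝ).totalDegree
        ≤ 1 := by
    intro s a b
    refine (MvPolynomial.totalDegree_sub _ _).trans (max_le ?_ ?_)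
    · refine (MvPolynomial.totalDegree_sub _ _).trans (max_le ?_ ?_)
      · rw [MvPolynomial.totalDegree_X]
      · rw [MvPolynomial.totalDegree_C]; omega
    · refine (MvPolynomial.totalDegree_mul _ _).trans ?_
      rw [MvPolynomial.totalDegree_C, MvPolynomial.totalDegree_X]
  unfold FF
  refine (MvPolynomial.totalDegree_add _ _).trans (max_le ?_ ?_)
  · refine (MvPolynomial.totalDegree_mul _ _).trans ?_
    exact Nat.add_le_add ((totalDegree_aeval_X_le _ _).trans hq) (hlin _ _ _)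
  · refine (MvPolynomial.totalDegree_finsetSum _ _).trans (Finset.sup_le fun i _ => ?_)
    refine (MvPolynomial.totalDegree_mul _ _).trans ?_
    exact Nat.add_le_add ((totalDegree_aeval_X_le _ _).trans (hp i)) (hlin _ _ _)


/-- (Q1) the stack of hyperplanes of Lemma P is the zero set of one polynomial of total degree
`≤ D + 1` in `(x_W, t, x_N)` which vanishes along the given line. -/
theorem quad_of_path {d D r : ℕ} {κ : Type*} [Fintype κ] (T : Finset ℝ) (hT : ∀ τ ∈ T, |τ| ≤ 1)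
    (G : ℝ → Fin d → ℝ)
    (y om : κ → Fin d → ℝ) (nu be : κ → ℝ) (ε ρ : ℝ) (hε0 : 0 ≤ ε) (hρ : 0 < ρ)
    (hy : ∀ x i, |y x i| ≤ 1) (hom : ∀ x i, |om x i| ≤ 1)
    (hM : ∀ τ ∈ T, ∀ x, |PATH.fr (G τ) τ (y x) (om x) (nu x) (be x)| ≤ ε)
    (hA1 : ∀ τ ∈ T, ∃ a : Fin d → κ,
      ρ ≤ |(Matrix.of fun i j => y (a i) j + τ * om (a i) j).det|)
    (hr : 2 * d ≤ r + D)
    (hA2 : ∃ (a : Fin r → κ) (col : Fin r → Fin d ⊕ Fin d), Function.Injective col ∧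
      ρ ≤ |(Matrix.of fun i j => PATH.co (y (a i), om (a i)) (col j)).det|)
    (l0 l1 : Fin d → ℝ) (n0 n1 : ℝ) :
    ∃ (n : ℕ) (t : Fin n → ℝ), n ≤ D + 2 ∧ (∀ k, t k ∈ T) ∧ ∀ s ∈ T,
      ∃ (F : MvPolynomial (Fin d ⊕ Fin 2) ℝ) (q : ℝ[X]) (p : Fin d → ℝ[X]),
        F.totalDegree ≤ D + 1 ∧
        (∀ t x ν, MvPolynomial.eval (pt t x ν) F
          = q.eval t * (ν - (n0 + t * n1)) + ∑ i, (p i).eval t * (x i - (l0 i + t * l1 i))) ∧
        q.natDegree ≤ D ∧ (∀ l, (p l).natDegree ≤ D) ∧ q.eval s = ∏ k, (s - t k) ∧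
        (∀ τ : ℝ, |τ| ≤ 1 → |q.eval τ| ≤ (D + 2) * 2 ^ (D + 3)) ∧
        ∀ τ ∈ T, ∀ l, |q.eval τ * G τ l - (p l).eval τ|
          ≤ (D + 3) * 2 ^ (D + 3) * ((d * (d.factorial * 2 ^ d) / ρ)
              * (1 + d * (r * (r.factorial * 1 ^ r) / ρ)) + r * (r.factorial * 1 ^ r) / ρ) * ε := by
  obtain ⟨n, t, hn, ht, h⟩ := PATH.path_det T hT G y om nu be ε ρ hε0 hρ hy hom hM hA1 hr hA2
  refine ⟨n, t, hn, ht, fun s hs => ?_⟩
  obtain ⟨q, p, h1, h2, h3, h4, h5⟩ := h s hs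
  exact ⟨FF q p l0 l1 n0 n1, q, p, totalDegree_FF q p l0 l1 n0 n1 h1 h2,
    fun t x ν => eval_FF q p l0 l1 n0 n1 t x ν, h1, h2, h3, h4, h5⟩

/-! ## Robust Vandermonde -/

/-- `V n ρ`: bound for the coefficients of a polynomial of degree `< n` by its values at `n`
`ρ`-separated nodes in `[-1,1]`. -/
noncomputable def V (n : ℕ) (ρ : ℝ) : ℝ := n * (n.factorial * 1 ^ n) / ρ ^ (n * n)

theorem V_nonneg (n : ℕ) {ρ : ℝ} (hρ : 0 < ρ) : 0 ≤ V n ρ := by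
  unfold V; positivity

/-- dual form: every coordinate vector is a combination of the rows `(1, t_i, .., t_i^(n-1))`. -/
theorem vand_rows {n : ℕ} (t : Fin n → ℝ) (ρ : ℝ) (hρ : 0 < ρ) (hρ1 : ρ ≤ 1)
    (ht : ∀ i, |t i| ≤ 1) (hsep : ∀ i j, i ≠ j → ρ ≤ |t i - t j|) (l : Fin n) :
    ∃ c : Fin n → ℝ, ∑ i, |c i| ≤ V n ρ ∧
      ∀ j : Fin n, ∑ i, c i * t i ^ (j : ℕ) = if j = l then 1 else 0 := by
  classical
  have hdet : ρ ^ (n * n) ≤ |(Matrix.vandermonde t).det| := by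
    rw [Matrix.det_vandermonde, Finset.abs_prod]
    have h1 : ∀ i : Fin n, ρ ^ n ≤ |∏ j ∈ Finset.Ioi i, (t j - t i)| := by
      intro i
      rw [Finset.abs_prod]
      calc ρ ^ n ≤ ρ ^ (Finset.Ioi i).card := by
            refine pow_le_pow_of_le_one hρ.le hρ1 ?_
            calc (Finset.Ioi i).card ≤ (Finset.univ : Finset (Fin n)).card :=
                  Finset.card_le_card (Finset.subset_univ _)
              _ = n := by simp
        _ = ∏ _j ∈ Finset.Ioi i, ρ := by rw [Finset.prod_const]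
        _ ≤ ∏ j ∈ Finset.Ioi i, |t j - t i| := by
            refine Finset.prod_le_prod (fun j _ => hρ.le) fun j hj => ?_
            exact hsep j i (ne_of_gt (Finset.mem_Ioi.mp hj))
    calc ρ ^ (n * n) = ∏ _i : Fin n, ρ ^ n := by
          rw [Finset.prod_const, Finset.card_univ, Fintype.card_fin, ← pow_mul]
      _ ≤ ∏ i, |∏ j ∈ Finset.Ioi i, (t j - t i)| :=
          Finset.prod_le_prod (fun i _ => by positivity) fun i _ => h1 i
  obtain ⟨c, hc, hc'⟩ := PATH.rowcomb (Matrix.vandermonde t) 1 (ρ ^ (n * n)) (fun i j => by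
    rw [Matrix.vandermonde_apply, abs_pow]
    exact pow_le_one₀ (abs_nonneg _) (ht i)) le_rfl (by positivity) hdet l
  refine ⟨c, hc, fun j => ?_⟩
  have := hc' j
  simpa only [Matrix.vandermonde_apply] using this

/-- Small values at `n` separated nodes give small coefficients. -/
theorem vand {n : ℕ} (t : Fin n → ℝ) (ρ δ : ℝ) (hρ : 0 < ρ) (hρ1 : ρ ≤ 1)
    (ht : ∀ i, |t i| ≤ 1) (hsep : ∀ i j, i ≠ j → ρ ≤ |t i - t j|) (a : Fin n → ℝ)
    (ha : ∀ i, |∑ j : Fin n, a j * t i ^ (j : ℕ)| ≤ δ) (l : Fin n) :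
    |a l| ≤ V n ρ * δ := by
  classical
  obtain ⟨c, hc, hc'⟩ := vand_rows t ρ hρ hρ1 ht hsep l
  have hδ : 0 ≤ δ := (abs_nonneg _).trans (ha l)
  have e1 : a l = ∑ i, c i * ∑ j : Fin n, a j * t i ^ (j : ℕ) := by
    have : ∑ i, c i * ∑ j : Fin n, a j * t i ^ (j : ℕ)
        = ∑ j : Fin n, a j * ∑ i, c i * t i ^ (j : ℕ) := by
      simp only [Finset.mul_sum]
      rw [Finset.sum_comm]
      exact Finset.sum_congr rfl fun j _ => Finset.sum_congr rfl fun i _ => by ring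
    rw [this]
    simp only [hc']
    simp
  rw [e1]
  calc |∑ i, c i * ∑ j : Fin n, a j * t i ^ (j : ℕ)|
      ≤ ∑ i, |c i * ∑ j : Fin n, a j * t i ^ (j : ℕ)| := Finset.abs_sum_le_sum_abs _ _
    _ ≤ ∑ i, |c i| * δ := by
        refine Finset.sum_le_sum fun i _ => ?_
        rw [abs_mul]
        exact mul_le_mul_of_nonneg_left (ha i) (abs_nonneg _)
    _ = (∑ i, |c i|) * δ := by rw [Finset.sum_mul]
    _ ≤ V n ρ * δ := mul_le_mul_of_nonneg_right hc hδ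


/-! ## (Q2) LEMMA QC-N with errors -/

/-- the affine + quadratic function `R_τ(u, v)`. -/
noncomputable def RR (se sf hee hef hff c u v : ℝ) : ℝ :=
  se * u + sf * v + hee / 2 * u ^ 2 + hef * (u * v) + hff / 2 * v ^ 2 + c

/-- the ten monomials of a line `(y_e, y_f, σ)`. -/
noncomputable def mono (ye yf σ : ℝ) : Fin 10 → ℝ :=
  ![1, σ, σ ^ 2, σ * yf, σ * ye, ye, yf, ye ^ 2, ye * yf, yf ^ 2]

/-- the ten coefficient functions. -/
noncomputable def coe (τ a se sf hee hef hff c : ℝ) : Fin 10 → ℝ :=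
  ![c, τ * se, τ ^ 2 * hee / 2, τ * a * hef, τ * a * hee, a * se, a * sf, a ^ 2 * hee / 2,
    a ^ 2 * hef, a ^ 2 * hff / 2]

theorem RR_eq (τ a se sf hee hef hff c ye yf σ : ℝ) :
    RR se sf hee hef hff c (a * ye + τ * σ) (a * yf)
      = ∑ i, coe τ a se sf hee hef hff c i * mono ye yf σ i := by
  unfold RR coe mono
  simp [Fin.sum_univ_succ]
  ring

/-- The element `R = τ b·y + τ rN ν + ν (r·y) + rNN ν²/2 + r1 τ + r2 τ²` of `QQ`. -/
noncomputable def QR (be bf rN re rf rNN r1 r2 τ ye yf ν : ℝ) : ℝ :=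
  τ * (be * ye + bf * yf) + τ * rN * ν + ν * (re * ye + rf * yf) + rNN * ν ^ 2 / 2
    + r1 * τ + r2 * τ ^ 2

/-- two nodes lists: a polynomial with coefficients `a0..a4`, small at five nodes. -/
theorem vand5 (t : Fin 5 → ℝ) (ρ δ : ℝ) (hρ : 0 < ρ) (hρ1 : ρ ≤ 1)
    (ht : ∀ i, |t i| ≤ 1) (hsep : ∀ i j, i ≠ j → ρ ≤ |t i - t j|) (a0 a1 a2 a3 a4 : ℝ)
    (ha : ∀ i, |a0 + a1 * t i + a2 * t i ^ 2 + a3 * t i ^ 3 + a4 * t i ^ 4| ≤ δ) :
    |a0| ≤ V 5 ρ * δ ∧ |a1| ≤ V 5 ρ * δ ∧ |a2| ≤ V 5 ρ * δ ∧ |a3| ≤ V 5 ρ * δ ∧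
      |a4| ≤ V 5 ρ * δ := by
  have h := vand t ρ δ hρ hρ1 ht hsep ![a0, a1, a2, a3, a4] (fun i => by
    have := ha i
    have e : ∑ j : Fin 5, (![a0, a1, a2, a3, a4] : Fin 5 → ℝ) j * t i ^ (j : ℕ)
        = a0 + a1 * t i + a2 * t i ^ 2 + a3 * t i ^ 3 + a4 * t i ^ 4 := by
      simp [Fin.sum_univ_succ]
      ring
    rw [e]; exact this)
  exact ⟨h 0, h 1, h 2, h 3, h 4⟩

/-- **LEMMA QC-N with errors.**  `G = (0, Γ)` in the basis `e, f`, `y_τ = (1+ατ) y + τ σ e`. -/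
theorem qcn {κ : Type*} [Fintype κ] (T : Set ℝ) (ρ K ε α Γ : ℝ) (hρ : 0 < ρ) (hρ1 : ρ ≤ 1)
    (hK : 0 ≤ K) (hε : 0 ≤ ε) (hα : |α| ≤ 1) (hΓ : Γ ≠ 0)
    (hT : ∀ τ ∈ T, |τ| ≤ 1 ∧ ρ ≤ |τ| ∧ ρ ≤ |1 + α * τ|)
    (t : Fin 5 → ℝ) (ht : ∀ i, t i ∈ T) (hsep : ∀ i j, i ≠ j → ρ ≤ |t i - t j|)
    (se sf hee hef hff c : ℝ → ℝ) (ye yf σ c1 c2 : κ → ℝ)
    (hc1 : ∀ x, |c1 x| ≤ 1) (hc2 : ∀ x, |c2 x| ≤ 1)
    (hstar : ∀ τ ∈ T, ∀ x, |RR (se τ) (sf τ) (hee τ) (hef τ) (hff τ) (c τ)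
        ((1 + α * τ) * ye x + τ * σ x) ((1 + α * τ) * yf x) - (c1 x * τ + c2 x * τ ^ 2)| ≤ ε)
    (hA : ∀ j : Fin 10, ∃ w : κ → ℝ, ∑ x, |w x| ≤ K ∧
      ∀ i : Fin 10, ∑ x, w x * mono (ye x) (yf x) (σ x) i = if i = j then 1 else 0) :
    ∃ be bf rN re rf rNN r1 r2 : ℝ,
      |be| ≤ K ∧ |bf| ≤ K ∧ |rN| ≤ 2 * K / |Γ| ∧ |re| ≤ K / |Γ| ∧ |rf| ≤ K / |Γ| ∧
      |rNN| ≤ 4 * K / |Γ| ^ 2 ∧ |r1| ≤ K ∧ |r2| ≤ K ∧
      ∀ τ ∈ T, ∀ u v : ℝ, |u| ≤ 1 → |v| ≤ 1 →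
        |QR be bf rN re rf rNN r1 r2 τ u v (-(τ * Γ * v) / (1 + α * τ))
          - RR (se τ) (sf τ) (hee τ) (hef τ) (hff τ) (c τ) u v|
          ≤ (6 + 26 * V 5 ρ) * K / ρ ^ 2 * ε := by
  classical
  have hV : 0 ≤ V 5 ρ := V_nonneg 5 hρ
  choose w hw hw' using hA
  set A : Fin 10 → ℝ := fun j => ∑ x, w j x * c1 x with hAdef
  set B : Fin 10 → ℝ := fun j => ∑ x, w j x * c2 x with hBdef
  have hbd : ∀ (j : Fin 10) (g : κ → ℝ), (∀ x, |g x| ≤ 1) → |∑ x, w j x * g x| ≤ K := by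
    intro j g hg
    calc |∑ x, w j x * g x| ≤ ∑ x, |w j x * g x| := Finset.abs_sum_le_sum_abs _ _
      _ ≤ ∑ x, |w j x| * 1 := by
          refine Finset.sum_le_sum fun x _ => ?_
          rw [abs_mul]
          exact mul_le_mul_of_nonneg_left (hg x) (abs_nonneg _)
      _ = ∑ x, |w j x| := by simp
      _ ≤ K := hw j
  have hAb : ∀ j, |A j| ≤ K := fun j => hbd j c1 hc1
  have hBb : ∀ j, |B j| ≤ K := fun j => hbd j c2 hc2
  set δ : ℝ := K * ε with hδ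
  have hδ0 : 0 ≤ δ := mul_nonneg hK hε
  -- the ten coefficient functions are in span(τ, τ²)
  have hco : ∀ τ ∈ T, ∀ j : Fin 10,
      |coe τ (1 + α * τ) (se τ) (sf τ) (hee τ) (hef τ) (hff τ) (c τ) j
        - (A j * τ + B j * τ ^ 2)| ≤ δ := by
    intro τ hτ j
    have e1 : coe τ (1 + α * τ) (se τ) (sf τ) (hee τ) (hef τ) (hff τ) (c τ) j
        - (A j * τ + B j * τ ^ 2)
        = ∑ x, w j x * (RR (se τ) (sf τ) (hee τ) (hef τ) (hff τ) (c τ)
          ((1 + α * τ) * ye x + τ * σ x) ((1 + α * τ) * yf x)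
            - (c1 x * τ + c2 x * τ ^ 2)) := by
      have e2 : ∑ x, w j x * RR (se τ) (sf τ) (hee τ) (hef τ) (hff τ) (c τ)
          ((1 + α * τ) * ye x + τ * σ x) ((1 + α * τ) * yf x)
          = coe τ (1 + α * τ) (se τ) (sf τ) (hee τ) (hef τ) (hff τ) (c τ) j := by
        simp only [RR_eq, Finset.mul_sum]
        rw [Finset.sum_comm]
        have e3 : ∀ i : Fin 10, ∑ x, w j x
            * (coe τ (1 + α * τ) (se τ) (sf τ) (hee τ) (hef τ) (hff τ) (c τ) i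
              * mono (ye x) (yf x) (σ x) i)
            = coe τ (1 + α * τ) (se τ) (sf τ) (hee τ) (hef τ) (hff τ) (c τ) i
              * (if i = j then 1 else 0) := by
          intro i
          rw [← hw' j i, Finset.mul_sum]
          exact Finset.sum_congr rfl fun x _ => by ring
        rw [Finset.sum_congr rfl fun i _ => e3 i]
        simp
      have e4 : ∑ x, w j x * (c1 x * τ + c2 x * τ ^ 2) = A j * τ + B j * τ ^ 2 := by
        rw [hAdef, hBdef]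
        simp only [Finset.sum_mul]
        rw [← Finset.sum_add_distrib]
        exact Finset.sum_congr rfl fun x _ => by ring
      rw [← e2, ← e4, ← Finset.sum_sub_distrib]
      exact Finset.sum_congr rfl fun x _ => by ring
    rw [e1]
    calc |∑ x, w j x * (RR (se τ) (sf τ) (hee τ) (hef τ) (hff τ) (c τ)
          ((1 + α * τ) * ye x + τ * σ x) ((1 + α * τ) * yf x) - (c1 x * τ + c2 x * τ ^ 2))|
        ≤ ∑ x, |w j x * (RR (se τ) (sf τ) (hee τ) (hef τ) (hff τ) (c τ)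
          ((1 + α * τ) * ye x + τ * σ x) ((1 + α * τ) * yf x) - (c1 x * τ + c2 x * τ ^ 2))| :=
          Finset.abs_sum_le_sum_abs _ _
      _ ≤ ∑ x, |w j x| * ε := by
          refine Finset.sum_le_sum fun x _ => ?_
          rw [abs_mul]
          exact mul_le_mul_of_nonneg_left (hstar τ hτ x) (abs_nonneg _)
      _ = (∑ x, |w j x|) * ε := by rw [Finset.sum_mul]
      _ ≤ K * ε := mul_le_mul_of_nonneg_right (hw j) hε
  have a2 : ∀ τ ∈ T, |1 + α * τ| ≤ 2 := by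
    intro τ hτ
    calc |1 + α * τ| ≤ |(1 : ℝ)| + |α * τ| := abs_add_le _ _
      _ ≤ 1 + 1 * 1 := by
          rw [abs_one, abs_mul]
          exact add_le_add le_rfl (mul_le_mul hα (hT τ hτ).1 (abs_nonneg _) (by norm_num))
      _ = 2 := by norm_num
  -- named relations
  have k0 : ∀ τ ∈ T, |c τ - (A 0 * τ + B 0 * τ ^ 2)| ≤ δ := fun τ hτ => by
    simpa [coe] using hco τ hτ 0
  have k1 : ∀ τ ∈ T, |τ * se τ - (A 1 * τ + B 1 * τ ^ 2)| ≤ δ := fun τ hτ => by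
    simpa [coe] using hco τ hτ 1
  have k2 : ∀ τ ∈ T, |τ ^ 2 * hee τ / 2 - (A 2 * τ + B 2 * τ ^ 2)| ≤ δ := fun τ hτ => by
    simpa [coe] using hco τ hτ 2
  have k3 : ∀ τ ∈ T, |τ * (1 + α * τ) * hef τ - (A 3 * τ + B 3 * τ ^ 2)| ≤ δ := fun τ hτ => by
    simpa [coe] using hco τ hτ 3
  have k5 : ∀ τ ∈ T, |(1 + α * τ) * se τ - (A 5 * τ + B 5 * τ ^ 2)| ≤ δ := fun τ hτ => by
    simpa [coe] using hco τ hτ 5
  have k6 : ∀ τ ∈ T, |(1 + α * τ) * sf τ - (A 6 * τ + B 6 * τ ^ 2)| ≤ δ := fun τ hτ => by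
    simpa [coe] using hco τ hτ 6
  have k7 : ∀ τ ∈ T, |(1 + α * τ) ^ 2 * hee τ / 2 - (A 7 * τ + B 7 * τ ^ 2)| ≤ δ :=
    fun τ hτ => by simpa [coe] using hco τ hτ 7
  have k8 : ∀ τ ∈ T, |(1 + α * τ) ^ 2 * hef τ - (A 8 * τ + B 8 * τ ^ 2)| ≤ δ :=
    fun τ hτ => by simpa [coe] using hco τ hτ 8
  have k9 : ∀ τ ∈ T, |(1 + α * τ) ^ 2 * hff τ / 2 - (A 9 * τ + B 9 * τ ^ 2)| ≤ δ :=
    fun τ hτ => by simpa [coe] using hco τ hτ 9
  have ht1 : ∀ i, |t i| ≤ 1 := fun i => (hT _ (ht i)).1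
  -- elimination for `h_ee`
  have E2 := vand5 t ρ (5 * δ) hρ hρ1 ht1 hsep 0 (A 2) (B 2 + 2 * α * A 2)
    (2 * α * B 2 + α ^ 2 * A 2 - A 7) (α ^ 2 * B 2 - B 7) (fun i => by
      have h1 := k2 _ (ht i)
      have h2 := k7 _ (ht i)
      have h3 := a2 _ (ht i)
      have h4 := ht1 i
      set τ := t i
      have e : 0 + A 2 * τ + (B 2 + 2 * α * A 2) * τ ^ 2
          + (2 * α * B 2 + α ^ 2 * A 2 - A 7) * τ ^ 3 + (α ^ 2 * B 2 - B 7) * τ ^ 4
          = τ ^ 2 * ((1 + α * τ) ^ 2 * hee τ / 2 - (A 7 * τ + B 7 * τ ^ 2))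
            - (1 + α * τ) ^ 2 * (τ ^ 2 * hee τ / 2 - (A 2 * τ + B 2 * τ ^ 2)) := by ring
      rw [e]
      calc |τ ^ 2 * ((1 + α * τ) ^ 2 * hee τ / 2 - (A 7 * τ + B 7 * τ ^ 2))
            - (1 + α * τ) ^ 2 * (τ ^ 2 * hee τ / 2 - (A 2 * τ + B 2 * τ ^ 2))|
          ≤ |τ ^ 2 * ((1 + α * τ) ^ 2 * hee τ / 2 - (A 7 * τ + B 7 * τ ^ 2))|
            + |(1 + α * τ) ^ 2 * (τ ^ 2 * hee τ / 2 - (A 2 * τ + B 2 * τ ^ 2))| := abs_sub _ _
        _ ≤ 1 * δ + 4 * δ := by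
            rw [abs_mul, abs_mul, abs_pow, abs_pow]
            refine add_le_add ?_ ?_
            · exact mul_le_mul (pow_le_one₀ (abs_nonneg _) h4) h2 (abs_nonneg _) (by norm_num)
            · refine mul_le_mul ?_ h1 (abs_nonneg _) (by norm_num)
              calc |1 + α * τ| ^ 2 ≤ 2 ^ 2 := pow_le_pow_left₀ (abs_nonneg _) h3 2
                _ = 4 := by norm_num
        _ = 5 * δ := by ring)
  obtain ⟨-, E21, E22, -, -⟩ := E2
  have hA2 : |A 2| ≤ 5 * V 5 ρ * δ := by linarith [E21]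
  have hB2 : |B 2| ≤ 15 * V 5 ρ * δ := by
    have e : B 2 = (B 2 + 2 * α * A 2) - 2 * α * A 2 := by ring
    rw [e]
    calc |(B 2 + 2 * α * A 2) - 2 * α * A 2| ≤ |B 2 + 2 * α * A 2| + |2 * α * A 2| := abs_sub _ _
      _ ≤ V 5 ρ * (5 * δ) + 2 * 1 * (5 * V 5 ρ * δ) := by
          refine add_le_add E22 ?_
          rw [abs_mul, abs_mul]
          refine mul_le_mul ?_ hA2 (abs_nonneg _) (by norm_num)
          rw [abs_two]
          exact mul_le_mul_of_nonneg_left hα (by norm_num)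
      _ = 15 * V 5 ρ * δ := by ring
  -- general elimination of type `(1+ατ) φ τ`-`τ ψ`
  have elim3 : ∀ (a1 b1 a5 b5 : ℝ) (g : ℝ → ℝ),
      (∀ τ ∈ T, |τ * g τ - (a1 * τ + b1 * τ ^ 2)| ≤ δ) →
      (∀ τ ∈ T, |(1 + α * τ) * g τ - (a5 * τ + b5 * τ ^ 2)| ≤ δ) → |a1| ≤ 3 * V 5 ρ * δ := by
    intro a1 b1 a5 b5 g hg1 hg2
    have E := vand5 t ρ (3 * δ) hρ hρ1 ht1 hsep 0 a1 (b1 + α * a1 - a5) (α * b1 - b5) 0
      (fun i => by
        have h1 := hg1 _ (ht i)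
        have h2 := hg2 _ (ht i)
        have h3 := a2 _ (ht i)
        have h4 := ht1 i
        set τ := t i
        have e : 0 + a1 * τ + (b1 + α * a1 - a5) * τ ^ 2 + (α * b1 - b5) * τ ^ 3 + 0 * τ ^ 4
            = τ * ((1 + α * τ) * g τ - (a5 * τ + b5 * τ ^ 2))
              - (1 + α * τ) * (τ * g τ - (a1 * τ + b1 * τ ^ 2)) := by ring
        rw [e]
        calc |τ * ((1 + α * τ) * g τ - (a5 * τ + b5 * τ ^ 2))
              - (1 + α * τ) * (τ * g τ - (a1 * τ + b1 * τ ^ 2))|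
            ≤ |τ * ((1 + α * τ) * g τ - (a5 * τ + b5 * τ ^ 2))|
              + |(1 + α * τ) * (τ * g τ - (a1 * τ + b1 * τ ^ 2))| := abs_sub _ _
          _ ≤ 1 * δ + 2 * δ := by
              rw [abs_mul, abs_mul]
              exact add_le_add (mul_le_mul h4 h2 (abs_nonneg _) (by norm_num))
                (mul_le_mul h3 h1 (abs_nonneg _) (by norm_num))
          _ = 3 * δ := by ring)
    linarith [E.2.1]
  have hA1 : |A 1| ≤ 3 * V 5 ρ * δ := elim3 _ _ _ _ se k1 k5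
  have hA3 : |A 3| ≤ 3 * V 5 ρ * δ := by
    refine elim3 (A 3) (B 3) (A 8) (B 8) (fun τ => (1 + α * τ) * hef τ) (fun τ hτ => ?_)
      (fun τ hτ => ?_)
    · have := k3 τ hτ
      rwa [show τ * ((1 + α * τ) * hef τ) = τ * (1 + α * τ) * hef τ by ring]
    · have := k8 τ hτ
      rwa [show (1 + α * τ) * ((1 + α * τ) * hef τ) = (1 + α * τ) ^ 2 * hef τ by ring]
  -- the coefficients of `R`
  have hΓ' : 0 < |Γ| := abs_pos.mpr hΓ
  refine ⟨B 1, A 6, (α * A 6 - B 6) / Γ, -(B 3) / Γ, -(A 9) / Γ, 2 * (B 9 - α * A 9) / Γ ^ 2,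
    A 0, B 0, hBb 1, hAb 6, ?_, ?_, ?_, ?_, hAb 0, hBb 0, ?_⟩
  · rw [abs_div]
    refine div_le_div_of_nonneg_right ?_ hΓ'.le
    calc |α * A 6 - B 6| ≤ |α * A 6| + |B 6| := abs_sub _ _
      _ ≤ 1 * K + K := by
          rw [abs_mul]
          exact add_le_add (mul_le_mul hα (hAb 6) (abs_nonneg _) (by norm_num)) (hBb 6)
      _ = 2 * K := by ring
  · rw [abs_div, abs_neg]
    exact div_le_div_of_nonneg_right (hBb 3) hΓ'.le
  · rw [abs_div, abs_neg]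
    exact div_le_div_of_nonneg_right (hAb 9) hΓ'.le
  · rw [abs_div, abs_pow]
    refine div_le_div_of_nonneg_right ?_ (by positivity)
    rw [abs_mul, abs_two]
    calc 2 * |B 9 - α * A 9| ≤ 2 * (|B 9| + |α * A 9|) :=
          mul_le_mul_of_nonneg_left (abs_sub _ _) (by norm_num)
      _ ≤ 2 * (K + 1 * K) := by
          rw [abs_mul]
          refine mul_le_mul_of_nonneg_left ?_ (by norm_num)
          exact add_le_add (hBb 9) (mul_le_mul hα (hAb 9) (abs_nonneg _) (by norm_num))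
      _ = 4 * K := by ring
  · intro τ hτ u v hu hv
    obtain ⟨hτ1, hτρ, haρ⟩ := hT τ hτ
    set a : ℝ := 1 + α * τ with ha
    have ha0 : a ≠ 0 := by
      intro h
      rw [h, abs_zero] at haρ
      linarith
    have hτ0 : τ ≠ 0 := by
      intro h
      rw [h, abs_zero] at hτρ
      linarith
    have hρ2 : 0 < ρ ^ 2 := by positivity
    have hρ21 : ρ ^ 2 ≤ ρ := by nlinarith
    have hρ22 : ρ ^ 2 ≤ 1 := by nlinarith
    -- the six errors, all multiplied by ρ²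
    have g1 : |se τ - B 1 * τ| * ρ ^ 2 ≤ (1 + 3 * V 5 ρ) * δ := by
      have h1 : |τ * (se τ - B 1 * τ)| ≤ (1 + 3 * V 5 ρ) * δ := by
        have e : τ * (se τ - B 1 * τ) = (τ * se τ - (A 1 * τ + B 1 * τ ^ 2)) + A 1 * τ := by ring
        rw [e]
        calc |(τ * se τ - (A 1 * τ + B 1 * τ ^ 2)) + A 1 * τ|
            ≤ |τ * se τ - (A 1 * τ + B 1 * τ ^ 2)| + |A 1 * τ| := abs_add_le _ _
          _ ≤ δ + (3 * V 5 ρ * δ) * 1 := by
              rw [abs_mul]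
              exact add_le_add (k1 τ hτ) (mul_le_mul hA1 hτ1 (abs_nonneg _) (by positivity))
          _ = (1 + 3 * V 5 ρ) * δ := by ring
      rw [abs_mul] at h1
      calc |se τ - B 1 * τ| * ρ ^ 2 ≤ |se τ - B 1 * τ| * |τ| :=
            mul_le_mul_of_nonneg_left (hρ21.trans hτρ) (abs_nonneg _)
        _ = |τ| * |se τ - B 1 * τ| := mul_comm _ _
        _ ≤ _ := h1
    have g2 : |sf τ - (A 6 * τ + B 6 * τ ^ 2) / a| * ρ ^ 2 ≤ δ := by
      have h1 : |a * (sf τ - (A 6 * τ + B 6 * τ ^ 2) / a)| ≤ δ := by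
        have e : a * (sf τ - (A 6 * τ + B 6 * τ ^ 2) / a)
            = a * sf τ - (A 6 * τ + B 6 * τ ^ 2) := by field_simp
        rw [e]; exact k6 τ hτ
      rw [abs_mul] at h1
      calc |sf τ - (A 6 * τ + B 6 * τ ^ 2) / a| * ρ ^ 2
          ≤ |sf τ - (A 6 * τ + B 6 * τ ^ 2) / a| * |a| :=
            mul_le_mul_of_nonneg_left (hρ21.trans haρ) (abs_nonneg _)
        _ = |a| * |sf τ - (A 6 * τ + B 6 * τ ^ 2) / a| := mul_comm _ _
        _ ≤ _ := h1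
    have g3 : |hef τ - B 3 * τ / a| * ρ ^ 2 ≤ (1 + 3 * V 5 ρ) * δ := by
      have h1 : |τ * a * (hef τ - B 3 * τ / a)| ≤ (1 + 3 * V 5 ρ) * δ := by
        have e : τ * a * (hef τ - B 3 * τ / a)
            = (τ * a * hef τ - (A 3 * τ + B 3 * τ ^ 2)) + A 3 * τ := by
          field_simp
          ring
        rw [e]
        calc |(τ * a * hef τ - (A 3 * τ + B 3 * τ ^ 2)) + A 3 * τ|
            ≤ |τ * a * hef τ - (A 3 * τ + B 3 * τ ^ 2)| + |A 3 * τ| := abs_add_le _ _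
          _ ≤ δ + (3 * V 5 ρ * δ) * 1 := by
              rw [abs_mul (A 3)]
              exact add_le_add (k3 τ hτ) (mul_le_mul hA3 hτ1 (abs_nonneg _) (by positivity))
          _ = (1 + 3 * V 5 ρ) * δ := by ring
      rw [abs_mul, abs_mul] at h1
      have h2 : ρ ^ 2 ≤ |τ| * |a| := by
        calc ρ ^ 2 = ρ * ρ := by ring
          _ ≤ |τ| * |a| := mul_le_mul hτρ haρ hρ.le (abs_nonneg _)
      calc |hef τ - B 3 * τ / a| * ρ ^ 2 ≤ |hef τ - B 3 * τ / a| * (|τ| * |a|) :=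
            mul_le_mul_of_nonneg_left h2 (abs_nonneg _)
        _ = |τ| * |a| * |hef τ - B 3 * τ / a| := mul_comm _ _
        _ ≤ _ := h1
    have g4 : |hff τ / 2 - (A 9 * τ + B 9 * τ ^ 2) / a ^ 2| * ρ ^ 2 ≤ δ := by
      have h1 : |a ^ 2 * (hff τ / 2 - (A 9 * τ + B 9 * τ ^ 2) / a ^ 2)| ≤ δ := by
        have e : a ^ 2 * (hff τ / 2 - (A 9 * τ + B 9 * τ ^ 2) / a ^ 2)
            = a ^ 2 * hff τ / 2 - (A 9 * τ + B 9 * τ ^ 2) := by field_simp
        rw [e]; exact k9 τ hτ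
      rw [abs_mul, abs_pow] at h1
      have h2 : ρ ^ 2 ≤ |a| ^ 2 := pow_le_pow_left₀ hρ.le haρ 2
      calc |hff τ / 2 - (A 9 * τ + B 9 * τ ^ 2) / a ^ 2| * ρ ^ 2
          ≤ |hff τ / 2 - (A 9 * τ + B 9 * τ ^ 2) / a ^ 2| * |a| ^ 2 :=
            mul_le_mul_of_nonneg_left h2 (abs_nonneg _)
        _ = |a| ^ 2 * |hff τ / 2 - (A 9 * τ + B 9 * τ ^ 2) / a ^ 2| := mul_comm _ _
        _ ≤ _ := h1
    have g5 : |hee τ / 2| * ρ ^ 2 ≤ (1 + 20 * V 5 ρ) * δ := by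
      have h1 : |τ ^ 2 * (hee τ / 2)| ≤ (1 + 20 * V 5 ρ) * δ := by
        have e : τ ^ 2 * (hee τ / 2)
            = (τ ^ 2 * hee τ / 2 - (A 2 * τ + B 2 * τ ^ 2)) + (A 2 * τ + B 2 * τ ^ 2) := by ring
        rw [e]
        calc |(τ ^ 2 * hee τ / 2 - (A 2 * τ + B 2 * τ ^ 2)) + (A 2 * τ + B 2 * τ ^ 2)|
            ≤ |τ ^ 2 * hee τ / 2 - (A 2 * τ + B 2 * τ ^ 2)| + |A 2 * τ + B 2 * τ ^ 2| :=
              abs_add_le _ _
          _ ≤ δ + (|A 2 * τ| + |B 2 * τ ^ 2|) := add_le_add (k2 τ hτ) (abs_add_le _ _)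
          _ ≤ δ + ((5 * V 5 ρ * δ) * 1 + (15 * V 5 ρ * δ) * 1) := by
              rw [abs_mul, abs_mul, abs_pow]
              refine add_le_add le_rfl (add_le_add ?_ ?_)
              · exact mul_le_mul hA2 hτ1 (abs_nonneg _) (by positivity)
              · exact mul_le_mul hB2 (pow_le_one₀ (abs_nonneg _) hτ1) (by positivity)
                  (by positivity)
          _ = (1 + 20 * V 5 ρ) * δ := by ring
      rw [abs_mul, abs_pow] at h1
      have h2 : ρ ^ 2 ≤ |τ| ^ 2 := pow_le_pow_left₀ hρ.le hτρ 2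
      calc |hee τ / 2| * ρ ^ 2 ≤ |hee τ / 2| * |τ| ^ 2 :=
            mul_le_mul_of_nonneg_left h2 (abs_nonneg _)
        _ = |τ| ^ 2 * |hee τ / 2| := mul_comm _ _
        _ ≤ _ := h1
    have g6 : |c τ - (A 0 * τ + B 0 * τ ^ 2)| * ρ ^ 2 ≤ δ := by
      calc |c τ - (A 0 * τ + B 0 * τ ^ 2)| * ρ ^ 2 ≤ δ * 1 :=
            mul_le_mul (k0 τ hτ) hρ22 hρ2.le hδ0
        _ = δ := mul_one _
    have hdiff : QR (B 1) (A 6) ((α * A 6 - B 6) / Γ) (-(B 3) / Γ) (-(A 9) / Γ)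
          (2 * (B 9 - α * A 9) / Γ ^ 2) (A 0) (B 0) τ u v (-(τ * Γ * v) / a)
          - RR (se τ) (sf τ) (hee τ) (hef τ) (hff τ) (c τ) u v
        = -(u * (se τ - B 1 * τ)) - v * (sf τ - (A 6 * τ + B 6 * τ ^ 2) / a)
          - u * v * (hef τ - B 3 * τ / a)
          - v ^ 2 * (hff τ / 2 - (A 9 * τ + B 9 * τ ^ 2) / a ^ 2)
          - u ^ 2 * (hee τ / 2) - (c τ - (A 0 * τ + B 0 * τ ^ 2)) := by
      have key : ∀ b : ℝ, b ≠ 0 → b = 1 + α * τ →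
          QR (B 1) (A 6) ((α * A 6 - B 6) / Γ) (-(B 3) / Γ) (-(A 9) / Γ)
            (2 * (B 9 - α * A 9) / Γ ^ 2) (A 0) (B 0) τ u v (-(τ * Γ * v) / b)
            - RR (se τ) (sf τ) (hee τ) (hef τ) (hff τ) (c τ) u v
          = -(u * (se τ - B 1 * τ)) - v * (sf τ - (A 6 * τ + B 6 * τ ^ 2) / b)
            - u * v * (hef τ - B 3 * τ / b)
            - v ^ 2 * (hff τ / 2 - (A 9 * τ + B 9 * τ ^ 2) / b ^ 2)
            - u ^ 2 * (hee τ / 2) - (c τ - (A 0 * τ + B 0 * τ ^ 2)) := by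
        intro b hb0 hb
        unfold QR RR
        field_simp
        rw [hb]
        ring
      exact key a ha0 ha
    rw [hdiff]
    have hu2 : |u| ^ 2 ≤ 1 := pow_le_one₀ (abs_nonneg _) hu
    have hv2 : |v| ^ 2 ≤ 1 := pow_le_one₀ (abs_nonneg _) hv
    have huv : |u| * |v| ≤ 1 := by
      calc |u| * |v| ≤ 1 * 1 := mul_le_mul hu hv (abs_nonneg _) (by norm_num)
        _ = 1 := by norm_num
    have htri : |-(u * (se τ - B 1 * τ)) - v * (sf τ - (A 6 * τ + B 6 * τ ^ 2) / a)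
          - u * v * (hef τ - B 3 * τ / a)
          - v ^ 2 * (hff τ / 2 - (A 9 * τ + B 9 * τ ^ 2) / a ^ 2)
          - u ^ 2 * (hee τ / 2) - (c τ - (A 0 * τ + B 0 * τ ^ 2))|
        ≤ |se τ - B 1 * τ| + |sf τ - (A 6 * τ + B 6 * τ ^ 2) / a| + |hef τ - B 3 * τ / a|
          + |hff τ / 2 - (A 9 * τ + B 9 * τ ^ 2) / a ^ 2| + |hee τ / 2|
          + |c τ - (A 0 * τ + B 0 * τ ^ 2)| := by
      refine (abs_sub _ _).trans (add_le_add ?_ le_rfl)
      refine (abs_sub _ _).trans (add_le_add ?_ ?_)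
      · refine (abs_sub _ _).trans (add_le_add ?_ ?_)
        · refine (abs_sub _ _).trans (add_le_add ?_ ?_)
          · refine (abs_sub _ _).trans (add_le_add ?_ ?_)
            · rw [abs_neg, abs_mul]
              exact mul_le_of_le_one_left (abs_nonneg _) hu
            · rw [abs_mul]
              exact mul_le_of_le_one_left (abs_nonneg _) hv
          · rw [abs_mul, abs_mul]
            exact mul_le_of_le_one_left (abs_nonneg _) huv
        · rw [abs_mul, abs_pow]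
          exact mul_le_of_le_one_left (abs_nonneg _) hv2
      · rw [abs_mul, abs_pow]
        exact mul_le_of_le_one_left (abs_nonneg _) hu2
    refine htri.trans ?_
    have hfin : (|se τ - B 1 * τ| + |sf τ - (A 6 * τ + B 6 * τ ^ 2) / a| + |hef τ - B 3 * τ / a|
          + |hff τ / 2 - (A 9 * τ + B 9 * τ ^ 2) / a ^ 2| + |hee τ / 2|
          + |c τ - (A 0 * τ + B 0 * τ ^ 2)|) * ρ ^ 2 ≤ (6 + 26 * V 5 ρ) * δ := by
      have : (|se τ - B 1 * τ| + |sf τ - (A 6 * τ + B 6 * τ ^ 2) / a| + |hef τ - B 3 * τ / a|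
          + |hff τ / 2 - (A 9 * τ + B 9 * τ ^ 2) / a ^ 2| + |hee τ / 2|
          + |c τ - (A 0 * τ + B 0 * τ ^ 2)|) * ρ ^ 2
          = |se τ - B 1 * τ| * ρ ^ 2 + |sf τ - (A 6 * τ + B 6 * τ ^ 2) / a| * ρ ^ 2
            + |hef τ - B 3 * τ / a| * ρ ^ 2
            + |hff τ / 2 - (A 9 * τ + B 9 * τ ^ 2) / a ^ 2| * ρ ^ 2 + |hee τ / 2| * ρ ^ 2
            + |c τ - (A 0 * τ + B 0 * τ ^ 2)| * ρ ^ 2 := by ring
      rw [this]
      linarith
    calc |se τ - B 1 * τ| + |sf τ - (A 6 * τ + B 6 * τ ^ 2) / a| + |hef τ - B 3 * τ / a|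
          + |hff τ / 2 - (A 9 * τ + B 9 * τ ^ 2) / a ^ 2| + |hee τ / 2|
          + |c τ - (A 0 * τ + B 0 * τ ^ 2)|
        ≤ ((6 + 26 * V 5 ρ) * δ) / ρ ^ 2 := by
          rw [le_div_iff₀ hρ2]; exact hfin
      _ = (6 + 26 * V 5 ρ) * K / ρ ^ 2 * ε := by rw [hδ]; ring


/-! ### Generation of the ten monomials by `6 × 3` lines -/

/-- the six monomials of degree `≤ 2` in `(y_e, y_f)`. -/
noncomputable def Y6 (ye yf : ℝ) : Fin 6 → ℝ := ![1, ye, yf, ye ^ 2, ye * yf, yf ^ 2]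

/-- power of `σ` in the `i`-th monomial. -/
def kk : Fin 10 → Fin 3 := ![0, 1, 2, 1, 1, 0, 0, 0, 0, 0]

/-- `y`-monomial in the `i`-th monomial. -/
def gg : Fin 10 → Fin 6 := ![0, 0, 0, 2, 1, 1, 2, 3, 4, 5]

theorem mono_eq (ye yf σ : ℝ) (i : Fin 10) :
    mono ye yf σ i = σ ^ ((kk i : Fin 3) : ℕ) * Y6 ye yf (gg i) := by
  fin_cases i <;> simp [mono, kk, gg, Y6]

theorem kk_gg_inj : ∀ i j : Fin 10, kk i = kk j → gg i = gg j → i = j := by
  decide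

/-- the constant of generation. -/
noncomputable def K10 (ρ : ℝ) : ℝ := (6 * ((6).factorial * 1 ^ 6) / ρ) * V 3 ρ

theorem gen10 (ye yf : Fin 6 → ℝ) (σ : Fin 6 → Fin 3 → ℝ) (ρ : ℝ) (hρ : 0 < ρ) (hρ1 : ρ ≤ 1)
    (hye : ∀ p, |ye p| ≤ 1) (hyf : ∀ p, |yf p| ≤ 1) (hσ : ∀ p q, |σ p q| ≤ 1)
    (hsep : ∀ p q q', q ≠ q' → ρ ≤ |σ p q - σ p q'|)
    (hdet : ρ ≤ |(Matrix.of fun p g => Y6 (ye p) (yf p) g).det|) (j : Fin 10) :
    ∃ w : Fin 6 × Fin 3 → ℝ, ∑ x, |w x| ≤ K10 ρ ∧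
      ∀ i : Fin 10, ∑ x : Fin 6 × Fin 3, w x * mono (ye x.1) (yf x.1) (σ x.1 x.2) i
        = if i = j then 1 else 0 := by
  classical
  obtain ⟨v, hv, hv'⟩ := PATH.rowcomb (Matrix.of fun p g => Y6 (ye p) (yf p) g) 1 ρ
    (fun p g => by
      have h1 := hye p
      have h2 := hyf p
      have h3 : |ye p| ^ 2 ≤ 1 := pow_le_one₀ (abs_nonneg _) h1
      have h4 : |yf p| ^ 2 ≤ 1 := pow_le_one₀ (abs_nonneg _) h2
      have h5 : |ye p| * |yf p| ≤ 1 := by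
        calc |ye p| * |yf p| ≤ 1 * 1 := mul_le_mul h1 h2 (abs_nonneg _) (by norm_num)
          _ = 1 := by norm_num
      fin_cases g
      · simp [Y6]
      · simpa [Y6] using h1
      · simpa [Y6] using h2
      · simpa [Y6] using h3
      · simpa [Y6, abs_mul] using h5
      · simpa [Y6] using h4) le_rfl hρ hdet (gg j)
  have hu := fun p => vand_rows (σ p) ρ hρ hρ1 (hσ p) (hsep p) (kk j)
  choose u hu1 hu2 using hu
  refine ⟨fun x => v x.1 * u x.1 x.2, ?_, fun i => ?_⟩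
  · rw [Fintype.sum_prod_type]
    calc ∑ p, ∑ q, |v p * u p q| = ∑ p, |v p| * ∑ q, |u p q| := by
          refine Finset.sum_congr rfl fun p _ => ?_
          rw [Finset.mul_sum]
          exact Finset.sum_congr rfl fun q _ => abs_mul _ _
      _ ≤ ∑ p, |v p| * V 3 ρ :=
          Finset.sum_le_sum fun p _ => mul_le_mul_of_nonneg_left (hu1 p) (abs_nonneg _)
      _ = (∑ p, |v p|) * V 3 ρ := by rw [Finset.sum_mul]
      _ ≤ K10 ρ := by
          unfold K10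
          refine mul_le_mul_of_nonneg_right ?_ (V_nonneg 3 hρ)
          simpa using hv
  · rw [Fintype.sum_prod_type]
    simp only [mono_eq]
    have e1 : ∀ p, ∑ q, v p * u p q * (σ p q ^ ((kk i : Fin 3) : ℕ) * Y6 (ye p) (yf p) (gg i))
        = (v p * Y6 (ye p) (yf p) (gg i)) * (if kk i = kk j then 1 else 0) := by
      intro p
      rw [← hu2 p (kk i), Finset.mul_sum]
      exact Finset.sum_congr rfl fun q _ => by ring
    rw [Finset.sum_congr rfl fun p _ => e1 p, ← Finset.sum_mul]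
    have e2 := hv' (gg i)
    simp only [Matrix.of_apply] at e2
    rw [e2]
    by_cases h : i = j
    · subst h; simp
    · by_cases h1 : kk i = kk j
      · have h2 : gg i ≠ gg j := fun h2 => h (kk_gg_inj i j h1 h2)
        simp [h, h2]
      · simp [h, h1]

theorem RR_lip (se sf hee hef hff c u v u' v' B η : ℝ) (hB : 0 ≤ B)
    (h1 : |se| ≤ B) (h2 : |sf| ≤ B) (h3 : |hee| ≤ B) (h4 : |hef| ≤ B) (h5 : |hff| ≤ B)
    (hu : |u| ≤ 3) (hu' : |u'| ≤ 3) (hv : |v| ≤ 3) (hv' : |v'| ≤ 3)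
    (hdu : |u - u'| ≤ 2 * η) (hdv : |v - v'| ≤ 2 * η) :
    |RR se sf hee hef hff c u v - RR se sf hee hef hff c u' v'| ≤ 28 * B * η := by
  have hη : 0 ≤ η := by
    have := (abs_nonneg _).trans hdu
    linarith
  have e : RR se sf hee hef hff c u v - RR se sf hee hef hff c u' v'
      = se * (u - u') + sf * (v - v') + hee / 2 * ((u - u') * (u + u'))
        + hef * (u * (v - v') + (u - u') * v') + hff / 2 * ((v - v') * (v + v')) := by
    unfold RR; ring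
  rw [e]
  have b1 : |se * (u - u')| ≤ B * (2 * η) := by
    rw [abs_mul]; exact mul_le_mul h1 hdu (abs_nonneg _) hB
  have b2 : |sf * (v - v')| ≤ B * (2 * η) := by
    rw [abs_mul]; exact mul_le_mul h2 hdv (abs_nonneg _) hB
  have b3 : |hee / 2 * ((u - u') * (u + u'))| ≤ B / 2 * (2 * η * 6) := by
    rw [abs_mul, abs_div, abs_two, abs_mul]
    refine mul_le_mul (by linarith) ?_ (by positivity) (by positivity)
    refine mul_le_mul hdu ?_ (abs_nonneg _) (by positivity)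
    exact (abs_add_le _ _).trans (by linarith)
  have b4 : |hef * (u * (v - v') + (u - u') * v')| ≤ B * (3 * (2 * η) + 2 * η * 3) := by
    rw [abs_mul]
    refine mul_le_mul h4 ?_ (abs_nonneg _) hB
    refine (abs_add_le _ _).trans (add_le_add ?_ ?_)
    · rw [abs_mul]; exact mul_le_mul hu hdv (abs_nonneg _) (by norm_num)
    · rw [abs_mul]; exact mul_le_mul hdu hv' (abs_nonneg _) (by positivity)
  have b5 : |hff / 2 * ((v - v') * (v + v'))| ≤ B / 2 * (2 * η * 6) := by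
    rw [abs_mul, abs_div, abs_two, abs_mul]
    refine mul_le_mul (by linarith) ?_ (by positivity) (by positivity)
    refine mul_le_mul hdv ?_ (abs_nonneg _) (by positivity)
    exact (abs_add_le _ _).trans (by linarith)
  calc |se * (u - u') + sf * (v - v') + hee / 2 * ((u - u') * (u + u'))
        + hef * (u * (v - v') + (u - u') * v') + hff / 2 * ((v - v') * (v + v'))|
      ≤ |se * (u - u')| + |sf * (v - v')| + |hee / 2 * ((u - u') * (u + u'))|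
        + |hef * (u * (v - v') + (u - u') * v')| + |hff / 2 * ((v - v') * (v + v'))| := by
        refine (abs_add_le _ _).trans (add_le_add ?_ le_rfl)
        refine (abs_add_le _ _).trans (add_le_add ?_ le_rfl)
        refine (abs_add_le _ _).trans (add_le_add ?_ le_rfl)
        exact abs_add_le _ _
    _ ≤ B * (2 * η) + B * (2 * η) + B / 2 * (2 * η * 6) + B * (3 * (2 * η) + 2 * η * 3)
        + B / 2 * (2 * η * 6) := by linarith
    _ = 28 * B * η := by ring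

/-- **LEMMA QC-N, version with `6 × 3` lines**: over each of six positions `y_p` (general position:
`|det Y6| ≥ ρ`) three lines whose positions are `η`-close to `y_p` and whose `σ` are
`ρ`-separated. -/
theorem qcn_lines (T : Set ℝ) (ρ ε α Γ Bd η : ℝ) (hρ : 0 < ρ) (hρ1 : ρ ≤ 1)
    (hε : 0 ≤ ε) (hη : 0 ≤ η) (hBd : 0 ≤ Bd) (hα : |α| ≤ 1) (hΓ : Γ ≠ 0)
    (hT : ∀ τ ∈ T, |τ| ≤ 1 ∧ ρ ≤ |τ| ∧ ρ ≤ |1 + α * τ|)
    (t : Fin 5 → ℝ) (ht : ∀ i, t i ∈ T) (hsep : ∀ i j, i ≠ j → ρ ≤ |t i - t j|)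
    (se sf hee hef hff c : ℝ → ℝ)
    (hse : ∀ τ ∈ T, |se τ| ≤ Bd) (hsf : ∀ τ ∈ T, |sf τ| ≤ Bd) (hhee : ∀ τ ∈ T, |hee τ| ≤ Bd)
    (hhef : ∀ τ ∈ T, |hef τ| ≤ Bd) (hhff : ∀ τ ∈ T, |hff τ| ≤ Bd)
    (ye0 yf0 : Fin 6 → ℝ) (ye yf σ c1 c2 : Fin 6 × Fin 3 → ℝ)
    (hye0 : ∀ p, |ye0 p| ≤ 1) (hyf0 : ∀ p, |yf0 p| ≤ 1) (hye : ∀ x, |ye x| ≤ 1)
    (hyf : ∀ x, |yf x| ≤ 1) (hσ : ∀ x, |σ x| ≤ 1)
    (hclose : ∀ x, |ye x - ye0 x.1| ≤ η ∧ |yf x - yf0 x.1| ≤ η)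
    (hsepσ : ∀ p q q', q ≠ q' → ρ ≤ |σ (p, q) - σ (p, q')|)
    (hdet : ρ ≤ |(Matrix.of fun p g => Y6 (ye0 p) (yf0 p) g).det|)
    (hc1 : ∀ x, |c1 x| ≤ 1) (hc2 : ∀ x, |c2 x| ≤ 1)
    (hstar : ∀ τ ∈ T, ∀ x, |RR (se τ) (sf τ) (hee τ) (hef τ) (hff τ) (c τ)
        ((1 + α * τ) * ye x + τ * σ x) ((1 + α * τ) * yf x) - (c1 x * τ + c2 x * τ ^ 2)| ≤ ε) :
    ∃ be bf rN re rf rNN r1 r2 : ℝ,
      |be| ≤ K10 ρ ∧ |bf| ≤ K10 ρ ∧ |rN| ≤ 2 * K10 ρ / |Γ| ∧ |re| ≤ K10 ρ / |Γ| ∧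
      |rf| ≤ K10 ρ / |Γ| ∧ |rNN| ≤ 4 * K10 ρ / |Γ| ^ 2 ∧ |r1| ≤ K10 ρ ∧ |r2| ≤ K10 ρ ∧
      ∀ τ ∈ T, ∀ u v : ℝ, |u| ≤ 1 → |v| ≤ 1 →
        |QR be bf rN re rf rNN r1 r2 τ u v (-(τ * Γ * v) / (1 + α * τ))
          - RR (se τ) (sf τ) (hee τ) (hef τ) (hff τ) (c τ) u v|
          ≤ (6 + 26 * V 5 ρ) * K10 ρ / ρ ^ 2 * (ε + 28 * Bd * η) := by
  have hK : 0 ≤ K10 ρ := by
    unfold K10
    have := V_nonneg 3 hρ
    positivity
  refine qcn T ρ (K10 ρ) (ε + 28 * Bd * η) α Γ hρ hρ1 hK (by positivity) hα hΓ hT t ht hsep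
    se sf hee hef hff c (fun x : Fin 6 × Fin 3 => ye0 x.1) (fun x => yf0 x.1) σ c1 c2 hc1 hc2
    (fun τ hτ x => ?_) (fun j => ?_)
  · have hτ1 := (hT τ hτ).1
    have ha : |1 + α * τ| ≤ 2 := by
      calc |1 + α * τ| ≤ |(1 : ℝ)| + |α * τ| := abs_add_le _ _
        _ ≤ 1 + 1 * 1 := by
            rw [abs_one, abs_mul]
            exact add_le_add le_rfl (mul_le_mul hα hτ1 (abs_nonneg _) (by norm_num))
        _ = 2 := by norm_num
    have hbu : ∀ y : ℝ, |y| ≤ 1 → |(1 + α * τ) * y + τ * σ x| ≤ 3 := by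
      intro y hy
      calc |(1 + α * τ) * y + τ * σ x| ≤ |(1 + α * τ) * y| + |τ * σ x| := abs_add_le _ _
        _ ≤ 2 * 1 + 1 * 1 := by
            rw [abs_mul, abs_mul]
            exact add_le_add (mul_le_mul ha hy (abs_nonneg _) (by norm_num))
              (mul_le_mul hτ1 (hσ x) (abs_nonneg _) (by norm_num))
        _ = 3 := by norm_num
    have hbv : ∀ y : ℝ, |y| ≤ 1 → |(1 + α * τ) * y| ≤ 3 := by
      intro y hy
      calc |(1 + α * τ) * y| ≤ 2 * 1 := by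
            rw [abs_mul]
            exact mul_le_mul ha hy (abs_nonneg _) (by norm_num)
        _ ≤ 3 := by norm_num
    have hd1 : |((1 + α * τ) * ye0 x.1 + τ * σ x) - ((1 + α * τ) * ye x + τ * σ x)| ≤ 2 * η := by
      have e : ((1 + α * τ) * ye0 x.1 + τ * σ x) - ((1 + α * τ) * ye x + τ * σ x)
          = -((1 + α * τ) * (ye x - ye0 x.1)) := by ring
      rw [e, abs_neg, abs_mul]
      exact mul_le_mul ha (hclose x).1 (abs_nonneg _) (by norm_num)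
    have hd2 : |(1 + α * τ) * yf0 x.1 - (1 + α * τ) * yf x| ≤ 2 * η := by
      have e : (1 + α * τ) * yf0 x.1 - (1 + α * τ) * yf x
          = -((1 + α * τ) * (yf x - yf0 x.1)) := by ring
      rw [e, abs_neg, abs_mul]
      exact mul_le_mul ha (hclose x).2 (abs_nonneg _) (by norm_num)
    have hl := RR_lip (se τ) (sf τ) (hee τ) (hef τ) (hff τ) (c τ)
      ((1 + α * τ) * ye0 x.1 + τ * σ x) ((1 + α * τ) * yf0 x.1)
      ((1 + α * τ) * ye x + τ * σ x) ((1 + α * τ) * yf x) Bd η hBd (hse τ hτ) (hsf τ hτ)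
      (hhee τ hτ) (hhef τ hτ) (hhff τ hτ) (hbu _ (hye0 _)) (hbu _ (hye _)) (hbv _ (hyf0 _))
      (hbv _ (hyf _)) hd1 hd2
    have h0 := hstar τ hτ x
    have e : RR (se τ) (sf τ) (hee τ) (hef τ) (hff τ) (c τ)
        ((1 + α * τ) * ye0 x.1 + τ * σ x) ((1 + α * τ) * yf0 x.1) - (c1 x * τ + c2 x * τ ^ 2)
        = (RR (se τ) (sf τ) (hee τ) (hef τ) (hff τ) (c τ)
          ((1 + α * τ) * ye x + τ * σ x) ((1 + α * τ) * yf x) - (c1 x * τ + c2 x * τ ^ 2))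
          + (RR (se τ) (sf τ) (hee τ) (hef τ) (hff τ) (c τ)
            ((1 + α * τ) * ye0 x.1 + τ * σ x) ((1 + α * τ) * yf0 x.1)
            - RR (se τ) (sf τ) (hee τ) (hef τ) (hff τ) (c τ)
              ((1 + α * τ) * ye x + τ * σ x) ((1 + α * τ) * yf x)) := by ring
    rw [e]
    exact (abs_add_le _ _).trans (add_le_add h0 hl)
  · exact gen10 ye0 yf0 (fun p q => σ (p, q)) ρ hρ hρ1 hye0 hyf0 (fun p q => hσ _)
      (fun p q q' h => hsepσ p q q' h) hdet j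

end Pool.H72.QQC
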